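import Pool.Agent.Kleitman.Calc

/-! # Module A2: double counting identities (pure calculus) -/

set_option autoImplicit false

open Finset

namespace Kleitman

variable {n : ℕ}

theorem CalcB_sum_sets (k r : ℕ) (f : Finset (Fin n) → Finset (Fin n) → ℝ) :
    ∑ W ∈ powersetCard k (univ : Finset (Fin n)), ∑ e ∈ powersetCard r Wᶜ, f W e =
      ∑ V ∈ powersetCard (k + r) (univ : Finset (Fin n)), ∑ e ∈ powersetCard r V, f (V \ e) e := by
  rw [sum_sigma', sum_sigma']
  refine sum_bij' (fun x _ => ⟨x.1 ∪ x.2, x.2⟩) (fun y _ => ⟨y.1 \ y.2, y.2⟩) ?_ ?_ ?_ ?_ ?_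
  · rintro ⟨W, e⟩ h
    simp only [mem_sigma, mem_powersetCard, subset_univ, true_and] at h ⊢
    obtain ⟨hW, he, her⟩ := h
    have hd : Disjoint W e := by
      rw [disjoint_right]; intro x hx hxW; exact (mem_compl.1 (he hx)) hxW
    refine ⟨?_, subset_union_right, her⟩
    rw [card_union_of_disjoint hd, hW, her]
  · rintro ⟨V, e⟩ h
    simp only [mem_sigma, mem_powersetCard, subset_univ, true_and] at h ⊢
    obtain ⟨hV, he, her⟩ := h
    refine ⟨?_, ?_, her⟩
    · rw [card_sdiff_of_subset he, hV, her]; omega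
    · intro x hx
      rw [mem_compl, mem_sdiff]
      exact fun h => h.2 hx
  · rintro ⟨W, e⟩ h
    simp only [mem_sigma, mem_powersetCard, subset_univ, true_and] at h
    obtain ⟨hW, he, her⟩ := h
    have hd : Disjoint W e := by
      rw [disjoint_right]; intro x hx hxW; exact (mem_compl.1 (he hx)) hxW
    simp only [union_sdiff_cancel_right hd]
  · rintro ⟨V, e⟩ h
    simp only [mem_sigma, mem_powersetCard, subset_univ, true_and] at h
    obtain ⟨hV, he, her⟩ := h
    simp only [sdiff_union_of_subset he]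
  · rintro ⟨W, e⟩ h
    simp only [mem_sigma, mem_powersetCard, subset_univ, true_and] at h
    obtain ⟨hW, he, her⟩ := h
    have hd : Disjoint W e := by
      rw [disjoint_right]; intro x hx hxW; exact (mem_compl.1 (he hx)) hxW
    simp only [union_sdiff_cancel_right hd]

theorem CalcB_sum_in (C : Finset (Fin n)) (k : ℕ) (f : Finset (Fin n) → Fin n → ℝ) :
    ∑ W ∈ powersetCard k C, ∑ x ∈ C \ W, f W x =
      ∑ V ∈ powersetCard (k + 1) C, ∑ x ∈ V, f (V.erase x) x := by
  rw [sum_sigma', sum_sigma']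
  refine sum_bij' (fun x _ => ⟨insert x.2 x.1, x.2⟩) (fun y _ => ⟨y.1.erase y.2, y.2⟩) ?_ ?_ ?_ ?_ ?_
  · rintro ⟨W, x⟩ h
    simp only [mem_sigma, mem_powersetCard, mem_sdiff] at h ⊢
    obtain ⟨⟨hWC, hW⟩, hx, hxW⟩ := h
    refine ⟨⟨?_, ?_⟩, mem_insert_self _ _⟩
    · exact insert_subset hx hWC
    · rw [card_insert_of_notMem hxW, hW]
  · rintro ⟨V, x⟩ h
    simp only [mem_sigma, mem_powersetCard, mem_sdiff] at h ⊢
    obtain ⟨⟨hVC, hV⟩, hx⟩ := h
    refine ⟨⟨?_, ?_⟩, hVC hx, notMem_erase _ _⟩
    · exact (erase_subset _ _).trans hVC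
    · rw [card_erase_of_mem hx, hV]; rfl
  · rintro ⟨W, x⟩ h
    simp only [mem_sigma, mem_powersetCard, mem_sdiff] at h
    obtain ⟨⟨hWC, hW⟩, hx, hxW⟩ := h
    simp only [erase_insert hxW]
  · rintro ⟨V, x⟩ h
    simp only [mem_sigma, mem_powersetCard] at h
    obtain ⟨⟨hVC, hV⟩, hx⟩ := h
    simp only [insert_erase hx]
  · rintro ⟨W, x⟩ h
    simp only [mem_sigma, mem_powersetCard, mem_sdiff] at h
    obtain ⟨⟨hWC, hW⟩, hx, hxW⟩ := h
    simp only [erase_insert hxW]

theorem CalcB_sum_compl (k : ℕ) (f : Finset (Fin n) → Fin n → ℝ) :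
    ∑ W ∈ powersetCard k (univ : Finset (Fin n)), ∑ x ∈ Wᶜ, f W x =
      ∑ V ∈ powersetCard (k + 1) (univ : Finset (Fin n)), ∑ x ∈ V, f (V.erase x) x := by
  rw [← CalcB_sum_in univ k f]
  refine sum_congr rfl fun W _ => ?_
  rw [compl_eq_univ_sdiff]

/-- adjointness of `U` and `D`. (Both sides are
`1/(binom(n,k)(n-k)) * ∑_{|S|=k, v ∉ S} a S * b (S+v)`; `binom(n,k)(n-k) = binom(n,k+1)(k+1)`.) -/
theorem E_duality {k : ℕ} (hk : k < n) (a b : Finset (Fin n) → ℝ) :
    E k (fun S => a S * U b S) = E (k + 1) (fun S => D a S * b S) := by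
  have h1 : ∑ S ∈ powersetCard k (univ : Finset (Fin n)), a S * U b S =
      (∑ S ∈ powersetCard k (univ : Finset (Fin n)), ∑ v ∈ Sᶜ, a S * b (insert v S)) /
        ((n : ℝ) - k) := by
    rw [sum_div]
    refine sum_congr rfl fun S hS => ?_
    have hc : ((Sᶜ).card : ℝ) = (n : ℝ) - k := by
      rw [card_compl, Fintype.card_fin, (mem_powersetCard.1 hS).2, Nat.cast_sub hk.le]
    unfold U
    rw [hc, ← mul_sum, mul_div_assoc]
  have h2 : ∑ S ∈ powersetCard (k + 1) (univ : Finset (Fin n)), D a S * b S =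
      (∑ S ∈ powersetCard (k + 1) (univ : Finset (Fin n)), ∑ y ∈ S,
        a (S.erase y) * b (insert y (S.erase y))) / ((k : ℝ) + 1) := by
    rw [sum_div]
    refine sum_congr rfl fun S hS => ?_
    have hc : (S.card : ℝ) = (k : ℝ) + 1 := by
      rw [(mem_powersetCard.1 hS).2]; push_cast; ring
    have : ∑ y ∈ S, a (S.erase y) * b (insert y (S.erase y)) =
        (∑ y ∈ S, a (S.erase y)) * b S := by
      rw [sum_mul]
      exact sum_congr rfl fun y hy => by rw [insert_erase hy]
    unfold D
    rw [hc, this]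
    ring
  unfold E
  rw [h1, h2, CalcB_sum_compl k (fun W x => a W * b (insert x W))]
  have hch : (n.choose (k + 1) : ℝ) * ((k : ℝ) + 1) = (n.choose k : ℝ) * ((n : ℝ) - k) := by
    have := Nat.choose_succ_right_eq n k
    have h3 : ((n - k : ℕ) : ℝ) = (n : ℝ) - k := Nat.cast_sub hk.le
    rw [← h3]
    exact_mod_cast this
  rw [div_div, div_div, mul_comm ((n : ℝ) - k), ← hch, mul_comm ((k : ℝ) + 1)]

/-- sum over pairs (W, x ∉ W) rewritten over pairs (S, x ∈ S), `S = W + x` -/
theorem E_sum_compl {k : ℕ} (hk : k < n) (g : Finset (Fin n) → Fin n → ℝ) :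
    E k (fun W => ∑ x ∈ Wᶜ, g W x) =
      (((n : ℝ) - k) / (k + 1)) * E (k + 1) (fun S => ∑ x ∈ S, g (S.erase x) x) := by
  unfold E
  rw [CalcB_sum_compl]
  have hch : (n.choose (k + 1) : ℝ) * ((k : ℝ) + 1) = (n.choose k : ℝ) * ((n : ℝ) - k) := by
    have := Nat.choose_succ_right_eq n k
    have h3 : ((n - k : ℕ) : ℝ) = (n : ℝ) - k := Nat.cast_sub hk.le
    rw [← h3]
    exact_mod_cast this
  have hp1 : (0 : ℝ) < n.choose k := by exact_mod_cast Nat.choose_pos hk.le
  have hp2 : (0 : ℝ) < n.choose (k + 1) := by exact_mod_cast Nat.choose_pos hk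
  have hk1 : (0 : ℝ) < (k : ℝ) + 1 := by positivity
  rw [div_mul_div_comm, div_eq_div_iff hp1.ne' (by positivity)]
  linear_combination (∑ V ∈ powersetCard (k + 1) (univ : Finset (Fin n)),
    ∑ x ∈ V, g (V.erase x) x) * hch

/-- same for removing `r` elements: sum over `(W, e)`, `e` an `r`-set disjoint from `W` -/
theorem E_sum_sets {k r : ℕ} (hk : k + r ≤ n) (g : Finset (Fin n) → Finset (Fin n) → ℝ) :
    E k (fun W => ∑ e ∈ powersetCard r Wᶜ, g W e) =
      (((n - k).choose r : ℝ) / ((k + r).choose r : ℝ)) *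
        E (k + r) (fun V => ∑ e ∈ powersetCard r V, g (V \ e) e) := by
  unfold E
  rw [CalcB_sum_sets]
  have hch : (n.choose (k + r) : ℝ) * ((k + r).choose r : ℝ) =
      (n.choose k : ℝ) * ((n - k).choose r : ℝ) := by
    have := Nat.choose_mul (n := n) (Nat.le_add_right k r)
    rw [Nat.add_sub_cancel_left, Nat.choose_symm_add] at this
    exact_mod_cast this
  have hp1 : (0 : ℝ) < n.choose k := by exact_mod_cast Nat.choose_pos (by omega)
  have hp2 : (0 : ℝ) < n.choose (k + r) := by exact_mod_cast Nat.choose_pos hk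
  have hp3 : (0 : ℝ) < (k + r).choose r := by exact_mod_cast Nat.choose_pos (by omega)
  rw [div_mul_div_comm, div_eq_div_iff hp1.ne' (by positivity)]
  linear_combination (∑ V ∈ powersetCard (k + r) (univ : Finset (Fin n)),
    ∑ e ∈ powersetCard r V, g (V \ e) e) * hch


theorem Up_rec (g : Finset (Fin n) → ℝ) (S : Finset (Fin n)) :
    Up g S = g S + U (Up g) S := by
  have hsplit : Up g S = g S + ∑ C ∈ univ.filter (fun C => S ⊂ C),
      g C / (((n - S.card).choose (C.card - S.card) : ℕ) : ℝ) := by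
    unfold Up
    have : (univ.filter (fun C : Finset (Fin n) => S ⊆ C)) =
        insert S (univ.filter (fun C => S ⊂ C)) := by
      ext C
      simp only [mem_filter, mem_univ, true_and, mem_insert]
      constructor
      · intro h
        rcases h.eq_or_ssubset with h | h
        · left; exact h.symm
        · right; exact h
      · rintro (h | h)
        · exact h.symm ▸ subset_rfl
        · exact h.subset
    rw [this, sum_insert (by simp)]
    simp
  rw [hsplit]
  congr 1
  unfold U Up
  have hcompl : (Sᶜ).card = n - S.card := by rw [card_compl, Fintype.card_fin]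
  have hsw : ∑ v ∈ Sᶜ, ∑ C ∈ univ.filter (fun C => insert v S ⊆ C),
      g C / (((n - (insert v S).card).choose (C.card - (insert v S).card) : ℕ) : ℝ) =
      ∑ C ∈ univ.filter (fun C => S ⊂ C), ∑ v ∈ C \ S,
        g C / (((n - S.card - 1).choose (C.card - S.card - 1) : ℕ) : ℝ) := by
    rw [sum_sigma', sum_sigma']
    refine sum_bij' (fun x _ => ⟨x.2, x.1⟩) (fun y _ => ⟨y.2, y.1⟩) ?_ ?_ ?_ ?_ ?_
    · rintro ⟨v, C⟩ h
      simp only [mem_sigma, mem_compl, mem_filter, mem_univ, true_and, insert_subset_iff,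
        mem_sdiff] at h ⊢
      exact ⟨⟨h.2.2, fun h' => h.1 (h' h.2.1)⟩, h.2.1, h.1⟩
    · rintro ⟨C, v⟩ h
      simp only [mem_sigma, mem_compl, mem_filter, mem_univ, true_and, insert_subset_iff,
        mem_sdiff] at h ⊢
      exact ⟨h.2.2, h.2.1, h.1.1⟩
    · rintro ⟨v, C⟩ h; rfl
    · rintro ⟨C, v⟩ h; rfl
    · rintro ⟨v, C⟩ h
      simp only [mem_sigma, mem_compl, mem_filter, mem_univ, true_and] at h
      simp only [card_insert_of_notMem h.1, Nat.sub_sub]
  rw [hsw, sum_div]
  refine sum_congr rfl fun C hC => ?_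
  have hSC : S ⊂ C := (mem_filter.1 hC).2
  have hlt : S.card < C.card := card_lt_card hSC
  have hCn : C.card ≤ n := by simpa using card_le_univ C
  obtain ⟨d, hd⟩ : ∃ d, C.card - S.card = d + 1 := ⟨C.card - S.card - 1, by omega⟩
  obtain ⟨m, hm⟩ : ∃ m, n - S.card = m + 1 := ⟨n - S.card - 1, by omega⟩
  rw [sum_const, nsmul_eq_mul, card_sdiff_of_subset hSC.subset, hcompl, hd, hm]
  simp only [Nat.add_sub_cancel]
  have h1 := Nat.add_one_mul_choose_eq m d
  have h2 : ((m : ℝ) + 1) * (m.choose d : ℝ) = ((m + 1).choose (d + 1) : ℝ) * ((d : ℝ) + 1) := by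
    exact_mod_cast h1
  have hp : (0 : ℝ) < m.choose d := by exact_mod_cast Nat.choose_pos (by omega)
  have hp' : (0 : ℝ) < (m + 1).choose (d + 1) := by exact_mod_cast Nat.choose_pos (by omega)
  push_cast
  rw [← mul_div_assoc, div_div, div_eq_div_iff hp'.ne' (by positivity)]
  linear_combination (g C) * h2

theorem Dn_rec (g : Finset (Fin n) → ℝ) (S : Finset (Fin n)) :
    Dn g S = g S + D (Dn g) S := by
  have hsplit : Dn g S = g S + ∑ A ∈ S.powerset.erase S, g A / ((S.card.choose A.card : ℕ) : ℝ) := by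
    unfold Dn
    rw [← add_sum_erase _ _ (mem_powerset_self S)]
    simp
  rw [hsplit]
  congr 1
  unfold D Dn
  have hsw : ∑ y ∈ S, ∑ A ∈ (S.erase y).powerset,
      g A / (((S.erase y).card.choose A.card : ℕ) : ℝ) =
      ∑ A ∈ S.powerset.erase S, ∑ y ∈ S \ A,
        g A / (((S.card - 1).choose A.card : ℕ) : ℝ) := by
    rw [sum_sigma', sum_sigma']
    refine sum_bij' (fun x _ => ⟨x.2, x.1⟩) (fun y _ => ⟨y.2, y.1⟩) ?_ ?_ ?_ ?_ ?_
    · rintro ⟨v, A⟩ h
      simp only [mem_sigma, mem_powerset, mem_erase, mem_sdiff, subset_erase] at h ⊢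
      exact ⟨⟨fun h' => h.2.2 (h' ▸ h.1), h.2.1⟩, h.1, h.2.2⟩
    · rintro ⟨A, v⟩ h
      simp only [mem_sigma, mem_powerset, mem_erase, mem_sdiff, subset_erase] at h ⊢
      exact ⟨h.2.1, h.1.2, h.2.2⟩
    · rintro ⟨v, C⟩ h; rfl
    · rintro ⟨C, v⟩ h; rfl
    · rintro ⟨v, A⟩ h
      simp only [mem_sigma] at h
      simp only [card_erase_of_mem h.1]
  rw [hsw, sum_div]
  refine sum_congr rfl fun A hA => ?_
  have hAS : A ⊆ S := mem_powerset.1 (mem_erase.1 hA).2
  have hlt : A.card < S.card :=
    card_lt_card (hAS.ssubset_of_ne (mem_erase.1 hA).1)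
  obtain ⟨m, hm⟩ : ∃ m, S.card = m + 1 := ⟨S.card - 1, by omega⟩
  rw [sum_const, nsmul_eq_mul, card_sdiff_of_subset hAS, hm]
  simp only [Nat.add_sub_cancel]
  have h1 := Nat.add_one_mul_choose_eq m A.card
  have h3 := Nat.choose_succ_right_eq (m + 1) A.card
  have h1' : ((m : ℝ) + 1) * (m.choose A.card : ℝ) =
      ((m + 1).choose (A.card + 1) : ℝ) * ((A.card : ℝ) + 1) := by exact_mod_cast h1
  have h3' : ((m + 1).choose (A.card + 1) : ℝ) * ((A.card : ℝ) + 1) =
      ((m + 1).choose A.card : ℝ) * ((m + 1 - A.card : ℕ) : ℝ) := by exact_mod_cast h3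
  have h2 : ((m : ℝ) + 1) * (m.choose A.card : ℝ) =
      ((m + 1).choose A.card : ℝ) * ((m + 1 - A.card : ℕ) : ℝ) := h1'.trans h3'
  have hp : (0 : ℝ) < m.choose A.card := by exact_mod_cast Nat.choose_pos (by omega)
  have hp' : (0 : ℝ) < (m + 1).choose A.card := by exact_mod_cast Nat.choose_pos (by omega)
  rw [← mul_div_assoc, div_div, div_eq_div_iff hp'.ne' (by positivity)]
  push_cast at h2 ⊢
  linear_combination (g A) * h2

theorem mass_eq_sum_E (g : Finset (Fin n) → ℝ) : mass g = ∑ k ∈ range (n + 1), E k g := by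
  unfold mass E
  rw [← powerset_univ, sum_powerset, card_univ, Fintype.card_fin]
  refine sum_congr rfl fun k _ => ?_
  rw [sum_div]
  exact sum_congr rfl fun S hS => by rw [(mem_powersetCard.1 hS).2]

theorem mass_eq_Dn (g : Finset (Fin n) → ℝ) : mass g = Dn g univ := by
  unfold mass Dn
  rw [powerset_univ, card_univ, Fintype.card_fin]

theorem mass_eq_Up (g : Finset (Fin n) → ℝ) : mass g = Up g ∅ := by
  unfold mass Up
  simp

theorem CalcB_swap_levels (k : ℕ) (f : Finset (Fin n) → Finset (Fin n) → ℝ) :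
    ∑ W ∈ powersetCard k (univ : Finset (Fin n)), ∑ C ∈ univ.filter (fun C => W ⊆ C), f W C =
      ∑ C : Finset (Fin n), ∑ W ∈ powersetCard k C, f W C := by
  rw [sum_sigma', sum_sigma']
  refine sum_bij' (fun x _ => ⟨x.2, x.1⟩) (fun y _ => ⟨y.2, y.1⟩) ?_ ?_ ?_ ?_ ?_
  · rintro ⟨W, C⟩ h
    simp only [mem_sigma, mem_powersetCard, mem_filter, mem_univ, true_and, subset_univ] at h ⊢
    exact ⟨h.2, h.1⟩
  · rintro ⟨C, W⟩ h
    simp only [mem_sigma, mem_powersetCard, mem_filter, mem_univ, true_and, subset_univ] at h ⊢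
    exact ⟨h.2, h.1⟩
  · rintro ⟨v, C⟩ h; rfl
  · rintro ⟨C, v⟩ h; rfl
  · rintro ⟨v, A⟩ h; rfl

/-- `E_k[a · Up g] = ∑_{|C| ≥ k} P(C) g(C) · (average of a over the k-subsets of C)`.
(`binom(n,k) binom(n-k,c-k) = binom(n,c) binom(c,k)`.) -/
theorem E_mul_Up {k : ℕ} (hk : k ≤ n) (a g : Finset (Fin n) → ℝ) :
    E k (fun W => a W * Up g W) = mass (fun C => if k ≤ C.card then g C * avD k a C else 0) := by
  unfold E mass Up
  have h1 : ∑ W ∈ powersetCard k (univ : Finset (Fin n)),
      a W * ∑ C ∈ univ.filter (fun C => W ⊆ C), g C /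
        (((n - W.card).choose (C.card - W.card) : ℕ) : ℝ) =
      ∑ W ∈ powersetCard k (univ : Finset (Fin n)), ∑ C ∈ univ.filter (fun C => W ⊆ C),
        a W * g C / (((n - k).choose (C.card - k) : ℕ) : ℝ) := by
    refine sum_congr rfl fun W hW => ?_
    rw [mul_sum, (mem_powersetCard.1 hW).2]
    exact sum_congr rfl fun C _ => by rw [mul_div_assoc]
  rw [h1, CalcB_swap_levels, sum_div]
  refine sum_congr rfl fun C _ => ?_
  beta_reduce
  have hCn : C.card ≤ n := by simpa using card_le_univ C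
  by_cases hkC : k ≤ C.card
  · rw [if_pos hkC]
    unfold avD
    have h2 : ∑ W ∈ powersetCard k C, a W * g C / (((n - k).choose (C.card - k) : ℕ) : ℝ) =
        (∑ W ∈ powersetCard k C, a W) * g C / (((n - k).choose (C.card - k) : ℕ) : ℝ) := by
      rw [sum_mul, sum_div]
    rw [h2]
    have h3 := Nat.choose_mul (n := n) hkC
    have h3' : (n.choose C.card : ℝ) * (C.card.choose k : ℝ) =
      (n.choose k : ℝ) * ((n - k).choose (C.card - k) : ℝ) := by exact_mod_cast h3
    have hp1 : (0 : ℝ) < n.choose C.card := by exact_mod_cast Nat.choose_pos hCn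
    have hp2 : (0 : ℝ) < C.card.choose k := by exact_mod_cast Nat.choose_pos hkC
    have hp3 : (0 : ℝ) < n.choose k := by exact_mod_cast Nat.choose_pos hk
    have hp4 : (0 : ℝ) < (n - k).choose (C.card - k) := by
      exact_mod_cast Nat.choose_pos (by omega)
    rw [← mul_div_assoc, div_div, div_div, div_eq_div_iff (by positivity) (by positivity)]
    linear_combination ((∑ W ∈ powersetCard k C, a W) * g C) * h3'
  · rw [if_neg hkC, powersetCard_eq_empty.2 (by omega)]
    simp

theorem CalcB_card_between {S C : Finset (Fin n)} (hSC : S ⊆ C) {j : ℕ} (hj : S.card ≤ j) :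
    ((powersetCard j C).filter (fun T => S ⊆ T)).card = (C.card - S.card).choose (j - S.card) := by
  rw [← card_sdiff_of_subset hSC, ← card_powersetCard]
  refine card_bij' (fun T _ => T \ S) (fun T _ => T ∪ S) ?_ ?_ ?_ ?_
  · intro T hT
    simp only [mem_filter, mem_powersetCard] at hT ⊢
    refine ⟨sdiff_subset_sdiff hT.1.1 subset_rfl, ?_⟩
    rw [card_sdiff_of_subset hT.2, hT.1.2]
  · intro T hT
    simp only [mem_filter, mem_powersetCard] at hT ⊢
    have hd : Disjoint T S := disjoint_of_subset_left hT.1 sdiff_disjoint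
    refine ⟨⟨union_subset (hT.1.trans sdiff_subset) hSC, ?_⟩, subset_union_right⟩
    rw [card_union_of_disjoint hd, hT.2]; omega
  · intro T hT
    simp only [mem_filter, mem_powersetCard] at hT
    exact sdiff_union_of_subset hT.2
  · intro T hT
    simp only [mem_powersetCard] at hT
    have hd : Disjoint T S := disjoint_of_subset_left hT.1 sdiff_disjoint
    exact union_sdiff_cancel_right hd


/-- `E_k[Dn g] = mass g` if `g` is supported on the levels `≤ k` -/
theorem E_Dn {k : ℕ} (hk : k ≤ n) {g : Finset (Fin n) → ℝ} (hg : ∀ C, k < C.card → g C = 0) :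
    E k (Dn g) = mass g := by
  unfold E Dn mass
  have h1 : ∑ S ∈ powersetCard k (univ : Finset (Fin n)), ∑ A ∈ S.powerset,
      g A / ((S.card.choose A.card : ℕ) : ℝ) =
      ∑ A : Finset (Fin n), ∑ S ∈ (powersetCard k (univ : Finset (Fin n))).filter (fun S => A ⊆ S),
        g A / ((k.choose A.card : ℕ) : ℝ) := by
    rw [sum_sigma', sum_sigma']
    refine sum_bij' (fun x _ => ⟨x.2, x.1⟩) (fun y _ => ⟨y.2, y.1⟩) ?_ ?_ ?_ ?_ ?_
    · rintro ⟨W, C⟩ h
      simp only [mem_sigma, mem_powersetCard, mem_filter, mem_univ, true_and, subset_univ,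
        mem_powerset] at h ⊢
      exact h
    · rintro ⟨C, W⟩ h
      simp only [mem_sigma, mem_powersetCard, mem_filter, mem_univ, true_and, subset_univ,
        mem_powerset] at h ⊢
      exact h
    · rintro ⟨v, C⟩ h; rfl
    · rintro ⟨C, v⟩ h; rfl
    · rintro ⟨W, A⟩ h
      simp only [mem_sigma, mem_powersetCard] at h
      simp only [h.1.2]
  rw [h1, sum_div]
  refine sum_congr rfl fun A _ => ?_
  by_cases hA : k < A.card
  · rw [hg A hA]; simp
  · have hAk : A.card ≤ k := by omega
    rw [sum_const, CalcB_card_between (subset_univ A) hAk, nsmul_eq_mul, card_univ,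
      Fintype.card_fin]
    have h3 := Nat.choose_mul (n := n) hAk
    have h3' : (n.choose k : ℝ) * (k.choose A.card : ℝ) =
      (n.choose A.card : ℝ) * ((n - A.card).choose (k - A.card) : ℝ) := by exact_mod_cast h3
    have hp1 : (0 : ℝ) < n.choose A.card := by exact_mod_cast Nat.choose_pos (by omega)
    have hp2 : (0 : ℝ) < k.choose A.card := by exact_mod_cast Nat.choose_pos hAk
    have hp3 : (0 : ℝ) < n.choose k := by exact_mod_cast Nat.choose_pos hk
    rw [← mul_div_assoc, div_div, div_eq_div_iff (by positivity) (by positivity)]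
    linear_combination (-(g A)) * h3'

theorem CalcB_avD_step {j : ℕ} (a : Finset (Fin n) → ℝ) (C : Finset (Fin n))
    (hj : j + 1 ≤ C.card) : avD (j + 1) (D a) C = avD j a C := by
  unfold avD
  have h1 : ∑ T ∈ powersetCard (j + 1) C, D a T =
      (∑ T ∈ powersetCard (j + 1) C, ∑ x ∈ T, a (T.erase x)) / ((j : ℝ) + 1) := by
    rw [sum_div]
    refine sum_congr rfl fun T hT => ?_
    unfold D
    rw [(mem_powersetCard.1 hT).2]
    push_cast
    rfl
  rw [h1, ← CalcB_sum_in C j (fun W _ => a W)]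
  have h2 : ∑ W ∈ powersetCard j C, ∑ x ∈ C \ W, a W =
      ((C.card : ℝ) - j) * ∑ W ∈ powersetCard j C, a W := by
    rw [mul_sum]
    refine sum_congr rfl fun W hW => ?_
    rw [mem_powersetCard] at hW
    rw [sum_const, nsmul_eq_mul, card_sdiff_of_subset hW.1, hW.2, Nat.cast_sub (by omega)]
  rw [h2]
  have hch : (C.card.choose (j + 1) : ℝ) * ((j : ℝ) + 1) =
      (C.card.choose j : ℝ) * ((C.card : ℝ) - j) := by
    have := Nat.choose_succ_right_eq C.card j
    have h3 : ((C.card - j : ℕ) : ℝ) = (C.card : ℝ) - j := Nat.cast_sub (by omega)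
    rw [← h3]
    exact_mod_cast this
  have hp1 : (0 : ℝ) < C.card.choose j := by exact_mod_cast Nat.choose_pos (by omega)
  have hp2 : (0 : ℝ) < C.card.choose (j + 1) := by exact_mod_cast Nat.choose_pos hj
  rw [div_div, div_eq_div_iff (by positivity) hp1.ne']
  linear_combination (-(∑ W ∈ powersetCard j C, a W)) * hch

/-- if `D a = a` on all subsets of `C` of size `> k` then the average of `a` over the `k`-subsets
of `C` is `a C` -/
theorem avD_harmonic {k : ℕ} {a : Finset (Fin n) → ℝ} {C : Finset (Fin n)} (hk : k ≤ C.card)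
    (h : ∀ T, T ⊆ C → k < T.card → D a T = a T) : avD k a C = a C := by
  have key : ∀ d : ℕ, k + d ≤ C.card → avD (k + d) a C = avD k a C := by
    intro d
    induction d with
    | zero => intro _; rfl
    | succ d ih =>
      intro hd
      rw [← ih (by omega), ← CalcB_avD_step a C (j := k + d) (by omega)]
      unfold avD
      congr 1
      refine sum_congr rfl fun T hT => ?_
      rw [mem_powersetCard] at hT
      exact (h T hT.1 (by omega)).symm
  have h1 := key (C.card - k) (by omega)
  rw [← h1, show k + (C.card - k) = C.card by omega]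
  unfold avD
  simp

/-- pairs `A ⊊ C` counted from below and from above -/
theorem mass_pair (a b : Finset (Fin n) → ℝ) :
    mass (fun C => a C * U (Up b) C) = mass (fun C => b C * D (Dn a) C) := by
  have hU : ∀ C : Finset (Fin n), U (Up b) C = ∑ B ∈ univ.filter (fun B => C ⊂ B),
      b B / (((n - C.card).choose (B.card - C.card) : ℕ) : ℝ) := by
    intro C
    have h1 := Up_rec b C
    have h2 : Up b C = b C + ∑ B ∈ univ.filter (fun B => C ⊂ B),
        b B / (((n - C.card).choose (B.card - C.card) : ℕ) : ℝ) := by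
      unfold Up
      have : (univ.filter (fun B : Finset (Fin n) => C ⊆ B)) =
          insert C (univ.filter (fun B => C ⊂ B)) := by
        ext B
        simp only [mem_filter, mem_univ, true_and, mem_insert]
        constructor
        · intro h
          rcases h.eq_or_ssubset with h | h
          · left; exact h.symm
          · right; exact h
        · rintro (h | h)
          · exact h.symm ▸ subset_rfl
          · exact h.subset
      rw [this, sum_insert (by simp)]
      simp
    linarith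
  have hD : ∀ C : Finset (Fin n), D (Dn a) C = ∑ A ∈ univ.filter (fun A => A ⊂ C),
      a A / ((C.card.choose A.card : ℕ) : ℝ) := by
    intro C
    have h1 := Dn_rec a C
    have h2 : Dn a C = a C + ∑ A ∈ univ.filter (fun A => A ⊂ C),
        a A / ((C.card.choose A.card : ℕ) : ℝ) := by
      unfold Dn
      have : C.powerset = insert C (univ.filter (fun A => A ⊂ C)) := by
        ext B
        simp only [mem_filter, mem_univ, true_and, mem_insert, mem_powerset]
        constructor
        · intro h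
          rcases h.eq_or_ssubset with h | h
          · left; exact h
          · right; exact h
        · rintro (h | h)
          · exact h ▸ subset_rfl
          · exact h.subset
      rw [this, sum_insert (by simp)]
      simp
    linarith
  unfold mass
  have hL : ∑ C : Finset (Fin n), a C * U (Up b) C / ((n.choose C.card : ℕ) : ℝ) =
      ∑ C : Finset (Fin n), ∑ B ∈ univ.filter (fun B => C ⊂ B),
        a C * b B / ((n.choose C.card : ℝ) * ((n - C.card).choose (B.card - C.card) : ℝ)) := by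
    refine sum_congr rfl fun C _ => ?_
    rw [hU, mul_sum, sum_div]
    refine sum_congr rfl fun B _ => ?_
    rw [← mul_div_assoc, div_div, mul_comm ((n.choose C.card : ℝ))]
  have hR : ∑ C : Finset (Fin n), b C * D (Dn a) C / ((n.choose C.card : ℕ) : ℝ) =
      ∑ C : Finset (Fin n), ∑ A ∈ univ.filter (fun A => A ⊂ C),
        a A * b C / ((n.choose C.card : ℝ) * (C.card.choose A.card : ℝ)) := by
    refine sum_congr rfl fun C _ => ?_
    rw [hD, mul_sum, sum_div]
    refine sum_congr rfl fun A _ => ?_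
    rw [← mul_div_assoc, div_div, mul_comm ((n.choose C.card : ℝ)), mul_comm (a A)]
  rw [hL, hR]
  simp only [sum_filter]
  rw [sum_comm]
  refine sum_congr rfl fun C _ => sum_congr rfl fun A _ => ?_
  by_cases hAC : A ⊂ C
  · rw [if_pos hAC, if_pos hAC]
    have h3 := Nat.choose_mul (n := n) (card_lt_card hAC).le
    have h3' : (n.choose C.card : ℝ) * (C.card.choose A.card : ℝ) =
      (n.choose A.card : ℝ) * ((n - A.card).choose (C.card - A.card) : ℝ) := by exact_mod_cast h3
    rw [h3']
  · rw [if_neg hAC, if_neg hAC]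

/-- Chapman-Kolmogorov: if `g` vanishes below level `j` then `Up g` is harmonic below `j` -/
theorem Up_eq_avU {j : ℕ} {g : Finset (Fin n) → ℝ} (hg : ∀ C, C.card < j → g C = 0)
    {S : Finset (Fin n)} (hS : S.card ≤ j) (hj : j ≤ n) : Up g S = avU j (Up g) S := by
  unfold avU
  have h1 : ∑ T ∈ univ.filter (fun T => S ⊆ T ∧ T.card = j), Up g T =
      ∑ C ∈ univ.filter (fun C => S ⊆ C), ∑ T ∈ (powersetCard j C).filter (fun T => S ⊆ T),
        g C / (((n - j).choose (C.card - j) : ℕ) : ℝ) := by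
    unfold Up
    rw [sum_sigma', sum_sigma']
    refine sum_bij' (fun x _ => ⟨x.2, x.1⟩) (fun y _ => ⟨y.2, y.1⟩) ?_ ?_ ?_ ?_ ?_
    · rintro ⟨T, C⟩ h
      simp only [mem_sigma, mem_powersetCard, mem_filter, mem_univ, true_and] at h ⊢
      exact ⟨h.1.1.trans h.2, ⟨h.2, h.1.2⟩, h.1.1⟩
    · rintro ⟨C, T⟩ h
      simp only [mem_sigma, mem_powersetCard, mem_filter, mem_univ, true_and] at h ⊢
      exact ⟨⟨h.2.2, h.2.1.2⟩, h.2.1.1⟩
    · rintro ⟨v, C⟩ h; rfl
    · rintro ⟨C, v⟩ h; rfl
    · rintro ⟨T, A⟩ h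
      simp only [mem_sigma, mem_filter, mem_univ, true_and] at h
      simp only [h.1.2]
  rw [h1, sum_div]
  unfold Up
  refine sum_congr rfl fun C hC => ?_
  have hSC : S ⊆ C := (mem_filter.1 hC).2
  have hCn : C.card ≤ n := by simpa using card_le_univ C
  by_cases hCj : C.card < j
  · rw [hg C hCj]; simp
  · have hjC : j ≤ C.card := by omega
    rw [sum_const, CalcB_card_between hSC hS, nsmul_eq_mul]
    have h3 := Nat.choose_mul (n := n - S.card) (k := C.card - S.card) (s := j - S.card) (by omega)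
    have h4 : n - S.card - (j - S.card) = n - j := by omega
    have h5 : C.card - S.card - (j - S.card) = C.card - j := by omega
    rw [h4, h5] at h3
    have h3' : ((n - S.card).choose (C.card - S.card) : ℝ) *
        ((C.card - S.card).choose (j - S.card) : ℝ) =
      ((n - S.card).choose (j - S.card) : ℝ) * ((n - j).choose (C.card - j) : ℝ) := by
      exact_mod_cast h3
    have hp1 : (0 : ℝ) < (n - S.card).choose (C.card - S.card) := by
      exact_mod_cast Nat.choose_pos (by omega)
    have hp2 : (0 : ℝ) < (C.card - S.card).choose (j - S.card) := by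
      exact_mod_cast Nat.choose_pos (by omega)
    have hp3 : (0 : ℝ) < (n - S.card).choose (j - S.card) := by
      exact_mod_cast Nat.choose_pos (by omega)
    have hp4 : (0 : ℝ) < (n - j).choose (C.card - j) := by
      exact_mod_cast Nat.choose_pos (by omega)
    rw [← mul_div_assoc, div_div, div_eq_div_iff (by positivity) (by positivity)]
    linear_combination (-(g C)) * h3'

/-- Jensen for `U` and the potential `(t - t0)^+` -/
theorem U_pos_part_le (t0 : ℝ) (f : Finset (Fin n) → ℝ) {S : Finset (Fin n)} (hS : S ≠ univ) :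
    max (U f S - t0) 0 ≤ U (fun T => max (f T - t0) 0) S := by
  apply max_le
  · rw [← U_const hS t0, ← U_sub]
    refine U_mono fun v _ => ?_
    rw [U_const hS t0]
    exact le_max_left _ _
  · exact U_nonneg fun v _ => le_max_right _ _

end Kleitman
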