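import Pool.Agent.Kleitman.PairsA

/-! # Module PB: pairs and triples, transfer bounds (part B) -/

set_option autoImplicit false

open Finset

namespace Kleitman

namespace Ctx

variable {n : ℕ} (c : Ctx n)

/-! ## auxiliary facts -/

theorem PairsB_XX_notMem {W : Finset (Fin n)} {x : Fin n} (hx : x ∈ c.XX W) : x ∉ W := by
  classical
  unfold XX at hx
  exact (mem_filter.1 hx).2.1

theorem PairsB_ratio {k r : ℕ} (hk : c.inI k) (hr : r ≤ 3) :
    ((n - k).choose r : ℝ) / ((k + r).choose r : ℝ) ≤ 101 / 100 := by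
  have h1 := c.R_le
  have h2 := c.R_large
  have h3 := c.n_large
  have h4 := hk.1
  have hkn : k ≤ n := by have := hk.2; omega
  have h5 : 1000 * (n - k) ≤ 1003 * (k + 1) := by omega
  have h6 : (0 : ℝ) < (k : ℝ) + 1 := by positivity
  have h7 : (((n - k : ℕ) : ℝ)) / ((k : ℝ) + 1) ≤ 1003 / 1000 := by
    rw [div_le_div_iff₀ h6 (by norm_num)]
    have : ((1000 * (n - k) : ℕ) : ℝ) ≤ ((1003 * (k + 1) : ℕ) : ℝ) := by exact_mod_cast h5
    push_cast at this
    linarith
  have h8 : (0 : ℝ) < ((k + r).choose r : ℝ) := by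
    exact_mod_cast Nat.choose_pos (Nat.le_add_left r k)
  have h9 : ((n - k).choose r : ℝ) ≤ ((n - k : ℕ) : ℝ) ^ r / (r.factorial : ℝ) :=
    Nat.choose_le_pow_div r (n - k)
  have hrf : (0 : ℝ) < (r.factorial : ℝ) := by exact_mod_cast r.factorial_pos
  have h10 : (((k + r + 1 - r : ℕ) : ℝ) ^ r : ℝ) ≤ (r.factorial : ℝ) * ((k + r).choose r : ℝ) := by
    have := Nat.pow_le_choose (α := ℝ) r (k + r)
    rw [div_le_iff₀ hrf] at this
    rw [mul_comm]
    exact_mod_cast this
  have h11 : k + r + 1 - r = k + 1 := by omega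
  rw [h11] at h10
  push_cast at h10
  have h12 : ((n - k).choose r : ℝ) / ((k + r).choose r : ℝ) ≤
      (((n - k : ℕ) : ℝ) / ((k : ℝ) + 1)) ^ r := by
    rw [div_pow, div_le_div_iff₀ h8 (by positivity)]
    calc ((n - k).choose r : ℝ) * ((k : ℝ) + 1) ^ r
        ≤ (((n - k : ℕ) : ℝ) ^ r / (r.factorial : ℝ)) * ((r.factorial : ℝ) *
          ((k + r).choose r : ℝ)) :=
          mul_le_mul h9 h10 (by positivity) (by positivity)
      _ = _ := by field_simp
  have h13 : (((n - k : ℕ) : ℝ) / ((k : ℝ) + 1)) ^ r ≤ (1003 / 1000 : ℝ) ^ r :=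
    pow_le_pow_left₀ (by positivity) h7 r
  have h14 : (1003 / 1000 : ℝ) ^ r ≤ (1003 / 1000 : ℝ) ^ 3 :=
    pow_le_pow_right₀ (by norm_num) hr
  calc _ ≤ _ := h12
    _ ≤ _ := h13
    _ ≤ _ := h14
    _ ≤ 101 / 100 := by norm_num

/-- transfer from `W` to `V = W ∪ e` -/
theorem PairsB_transfer {k r : ℕ} (hk : c.inI k) (hr : r ≤ 3)
    (A : Finset (Fin n) → Finset (Fin n) → Prop) [∀ V e, Decidable (A V e)] :
    E k (fun W => ind c.calm W * (c.H W *
      (((powersetCard r (c.XX W)).filter (fun e => A (W ∪ e) e)).card : ℝ))) ≤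
      (1112 / 1000) * E (k + r) (fun V => (((c.PP r V).filter (fun e => A V e)).card : ℝ)) := by
  classical
  have hb := c.inI_bounds hk
  have hkr : k + r ≤ n := by omega
  set g : Finset (Fin n) → Finset (Fin n) → ℝ := fun W e =>
    ind c.calm W * (c.H W * (if e ⊆ c.XX W ∧ A (W ∪ e) e then 1 else 0)) with hg
  have e1 : E k (fun W => ind c.calm W * (c.H W *
      (((powersetCard r (c.XX W)).filter (fun e => A (W ∪ e) e)).card : ℝ))) =
      E k (fun W => ∑ e ∈ powersetCard r Wᶜ, g W e) := by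
    refine E_congr fun W _ => ?_
    simp only [hg]
    rw [← mul_sum, ← mul_sum, sum_boole]
    congr 3
    congr 1
    ext e
    simp only [mem_filter, mem_powersetCard]
    constructor
    · rintro ⟨⟨h1, h2⟩, h3⟩
      refine ⟨⟨fun x hx => mem_compl.2 (c.PairsB_XX_notMem (h1 hx)), h2⟩, h1, h3⟩
    · rintro ⟨⟨_, h2⟩, h1, h3⟩
      exact ⟨⟨h1, h2⟩, h3⟩
  rw [e1, E_sum_sets hkr g]
  have e2 : E (k + r) (fun V => ∑ e ∈ powersetCard r V, g (V \ e) e) ≤
      (11 / 10) * E (k + r) (fun V => (((c.PP r V).filter (fun e => A V e)).card : ℝ)) := by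
    rw [← E_const_mul]
    refine E_mono fun V _ => ?_
    have : (((c.PP r V).filter (fun e => A V e)).card : ℝ) =
        ∑ e ∈ powersetCard r V, if (c.calm (V \ e) ∧ e ⊆ c.XX (V \ e)) ∧ A V e then 1 else 0 := by
      rw [sum_boole]
      unfold PP
      rw [filter_filter]
    rw [this, mul_sum]
    refine sum_le_sum fun e he => ?_
    have heV := (mem_powersetCard.1 he).1
    simp only [hg]
    rw [sdiff_union_of_subset heV]
    have hH0 := c.H_nonneg (V \ e)
    have hH1 := c.H_le (V \ e)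
    by_cases h1 : c.calm (V \ e)
    · rw [ind_of h1, one_mul]
      by_cases h2 : e ⊆ c.XX (V \ e) ∧ A V e
      · rw [if_pos h2, if_pos ⟨⟨h1, h2.1⟩, h2.2⟩]; linarith
      · rw [if_neg h2, if_neg (fun h => h2 ⟨h.1.2, h.2⟩)]; simp
    · rw [ind_of_not h1, zero_mul]
      positivity
  have e3 : 0 ≤ E (k + r) (fun V => (((c.PP r V).filter (fun e => A V e)).card : ℝ)) :=
    E_nonneg fun _ _ => by positivity
  have e4 := c.PairsB_ratio hk hr
  have e5 : (0 : ℝ) ≤ ((n - k).choose r : ℝ) / ((k + r).choose r : ℝ) := by positivity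
  calc _ ≤ ((n - k).choose r : ℝ) / ((k + r).choose r : ℝ) *
        ((11 / 10) * E (k + r) (fun V => (((c.PP r V).filter (fun e => A V e)).card : ℝ))) :=
        mul_le_mul_of_nonneg_left e2 e5
    _ ≤ (101 / 100) *
        ((11 / 10) * E (k + r) (fun V => (((c.PP r V).filter (fun e => A V e)).card : ℝ))) :=
        mul_le_mul_of_nonneg_right e4 (by positivity)
    _ ≤ _ := by linarith

/-- disjoint sets `e ⊆ V` all of whose points `y` have `f (V - y) ≥ s` -/
theorem PairsB_count {r : ℕ} {V : Finset (Fin n)} {P : Finset (Finset (Fin n))}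
    (hP : ∀ e ∈ P, e ⊆ V ∧ e.card = r) (hd : ∀ e ∈ P, ∀ e' ∈ P, e ≠ e' → Disjoint e e')
    {f : Finset (Fin n) → ℝ} (hf0 : ∀ S, 0 ≤ f S) {s : ℝ}
    (hs : ∀ e ∈ P, ∀ y ∈ e, s ≤ f (V.erase y)) :
    (r : ℝ) * P.card * s ≤ V.card * D f V := by
  classical
  have h1 : (V.card : ℝ) * D f V = ∑ y ∈ V, f (V.erase y) := by
    unfold D
    rcases V.eq_empty_or_nonempty with rfl | hV
    · simp
    · have : (0 : ℝ) < (V.card : ℝ) := by exact_mod_cast hV.card_pos
      field_simp
  have h2 : P.biUnion id ⊆ V := by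
    intro y hy
    obtain ⟨e, he, hye⟩ := mem_biUnion.1 hy
    exact (hP e he).1 hye
  have h3 : (P.biUnion id).card = P.card * r := by
    rw [card_biUnion]
    · have : ∑ u ∈ P, (id u : Finset (Fin n)).card = ∑ u ∈ P, r :=
        sum_congr rfl (fun e he => (hP e he).2)
      rw [this, sum_const, smul_eq_mul]
    · intro e he e' he' hne
      exact hd e he e' he' hne
  rw [h1]
  calc (r : ℝ) * P.card * s = ((P.biUnion id).card : ℝ) * s := by
        rw [h3]; push_cast; ring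
    _ = (P.biUnion id).card • s := by rw [nsmul_eq_mul]
    _ ≤ ∑ y ∈ P.biUnion id, f (V.erase y) := by
        refine card_nsmul_le_sum _ _ _ fun y hy => ?_
        obtain ⟨e, he, hye⟩ := mem_biUnion.1 hy
        exact hs e he y hye
    _ ≤ _ := sum_le_sum_of_subset_of_nonneg h2 fun y _ _ => hf0 _

theorem PairsB_Cr_eq {l : ℕ} (hl : l < n) (t0 t1 : ℝ) :
    c.Cr t0 t1 l = E (l + 1) (fun V => D (fun S => c.q S * ind (fun S => c.ν S ≤ t0) S) V *
      ind (fun S => t1 ≤ c.ν S) V) := by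
  unfold Cr
  exact E_duality hl (fun S => c.q S * ind (fun S => c.ν S ≤ t0) S) (ind (fun S => t1 ≤ c.ν S))

theorem PairsB_card_lt {k r : ℕ} (hk : c.inI k) (hr : r ≤ 3) :
    ((k + r : ℕ) : ℝ) ≤ (n : ℝ) := by
  have hb := c.inI_bounds hk
  have : k + r ≤ n := by omega
  exact_mod_cast this

/-- removing the other points of `e` from `V - y` -/
theorem PairsB_erase_eq {V e : Finset (Fin n)} {y : Fin n} (hy : y ∈ e) :
    V.erase y \ e.erase y = V \ e := by
  classical
  ext z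
  simp only [mem_sdiff, mem_erase]
  constructor
  · rintro ⟨⟨h1, h2⟩, h3⟩
    exact ⟨h2, fun h => h3 ⟨h1, h⟩⟩
  · rintro ⟨h1, h2⟩
    exact ⟨⟨fun h => h2 (h ▸ hy), h1⟩, fun h => h2 h.2⟩

theorem PairsB_mem_PP {r : ℕ} {V e : Finset (Fin n)} :
    e ∈ c.PP r V ↔ e ⊆ V ∧ e.card = r ∧ c.calm (V \ e) ∧ e ⊆ c.XX (V \ e) := by
  classical
  unfold PP
  rw [mem_filter, mem_powersetCard]
  tauto

/-- pairs: the sets `V - y` -/
theorem PairsB_pair_facts {k : ℕ} (hk : c.inI k) {V : Finset (Fin n)} (hV : V.card = k + 2)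
    {e : Finset (Fin n)} (he : e ∈ c.PP 2 V) {y : Fin n} (hy : y ∈ e) :
    1 - 2 * c.p ≤ c.q (V.erase y) ∧ c.ν (V.erase y) ≤ 2 * η := by
  classical
  obtain ⟨h1, h2, h3, h4⟩ := c.PairsB_mem_PP.1 he
  have hb := c.inI_bounds hk
  have hW : (V \ e).card = k := by
    rw [card_sdiff_of_subset h1, hV, h2]; rfl
  have hheavy : c.heavy (V \ e) := c.calm_heavy h3 (by omega)
  obtain ⟨x, hx⟩ : ∃ x, e.erase y = {x} := by
    rw [← card_eq_one, card_erase_of_mem hy, h2]
  have hxe : x ∈ e := by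
    have : x ∈ e.erase y := by rw [hx]; exact mem_singleton_self x
    exact mem_of_mem_erase this
  have hxs : c.strong (V \ e) x := by
    have := h4 hxe
    unfold XX at this
    exact (mem_filter.1 this).2
  have heq : insert x (V \ e) = V.erase y := by
    rw [← PairsB_erase_eq hy, hx, sdiff_singleton_eq_erase]
    apply insert_erase
    rw [mem_erase]
    refine ⟨fun h => ?_, h1 hxe⟩
    have : x ∈ e.erase y := by rw [hx]; exact mem_singleton_self x
    exact (mem_erase.1 this).1 h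
  have := c.strong_facts hk hW hheavy hxs
  rw [heq] at this
  exact ⟨this.1, this.2.1⟩

theorem PairsB_PP_card_le {k : ℕ} {V : Finset (Fin n)} (hV : V.card = k + 2) (hk : k + 2 ≤ n) :
    ((c.PP 2 V).card : ℝ) ≤ (n : ℝ) ^ 2 := by
  classical
  have h1 : (c.PP 2 V).card ≤ (V.card).choose 2 := by
    unfold PP
    exact (card_filter_le _ _).trans (by rw [card_powersetCard])
  have h2 : (V.card).choose 2 ≤ V.card ^ 2 := Nat.choose_le_pow _ _
  have h3 : V.card ^ 2 ≤ n ^ 2 := Nat.pow_le_pow_left (by omega) 2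
  exact_mod_cast h1.trans (h2.trans h3)

theorem E_b2 {k : ℕ} (hk : c.inI k) :
    E k (fun W => ind c.calm W * (c.H W * c.b2 W)) ≤
      (n : ℝ) * c.Cr (2 * η) (1 / 2) (k + 1) + 2 * E (k + 2) (ind (· ∈ c.F)) + 1 / (n : ℝ) ^ 3 := by
  classical
  have hb := c.inI_bounds hk
  have hn := c.nR_pos
  have hp := c.p_pos
  have hps := c.p_small
  have hps' : c.p ≤ 1 / 100 := hps.trans (by norm_num)
  have h1 := c.PairsB_transfer hk (r := 2) (by norm_num) (fun V _ => ¬ c.clean V)
  have h2 : E k (fun W => ind c.calm W * (c.H W * c.b2 W)) =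
      E k (fun W => ind c.calm W * (c.H W *
      (((powersetCard 2 (c.XX W)).filter (fun e => ¬ c.clean (W ∪ e))).card : ℝ))) := rfl
  rw [h2]
  refine h1.trans ?_
  set f : Finset (Fin n) → ℝ := fun S => c.q S * ind (fun S => c.ν S ≤ 2 * η) S with hf
  have hf0 : ∀ S, 0 ≤ f S := fun S => mul_nonneg (c.q_nonneg S) (ind_nonneg _ _)
  have hpt : ∀ V : Finset (Fin n), V.card = k + 2 →
      (((c.PP 2 V).filter (fun _ => ¬ c.clean V)).card : ℝ) ≤
        ((6 / 10) * (n : ℝ)) * (D f V * ind (fun S => 1 / 2 ≤ c.ν S) V) + (ind (· ∈ c.F) V +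
          (n : ℝ) ^ 2 * ind (fun V => V ∉ c.F ∧ ¬ c.typ2 V) V) := by
    intro V hV
    have hD0 : 0 ≤ D f V := D_nonneg fun v _ => hf0 _
    have i1 := ind_nonneg (fun S => 1 / 2 ≤ c.ν S) V
    have i2 := ind_nonneg (· ∈ c.F) V
    have i3 := ind_nonneg (fun V => V ∉ c.F ∧ ¬ c.typ2 V) V
    have hA : 0 ≤ ((6 / 10) * (n : ℝ)) * (D f V * ind (fun S => 1 / 2 ≤ c.ν S) V) := by positivity
    have hB : 0 ≤ (n : ℝ) ^ 2 * ind (fun V => V ∉ c.F ∧ ¬ c.typ2 V) V := by positivity
    by_cases hcl : c.clean V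
    · have : (c.PP 2 V).filter (fun _ => ¬ c.clean V) = ∅ :=
        filter_eq_empty_iff.2 fun _ _ h => h hcl
      rw [this, card_empty, Nat.cast_zero]
      linarith
    · have hle : (((c.PP 2 V).filter (fun _ => ¬ c.clean V)).card : ℝ) ≤ (c.PP 2 V).card := by
        exact_mod_cast card_filter_le _ _
      refine hle.trans ?_
      by_cases hF : V ∈ c.F
      · have : (c.PP 2 V).card ≤ 1 := by
          rw [card_le_one]
          intro e he e' he'
          by_contra hne
          have hd := c.PP_two_disjoint hk hV he he' hne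
          exact (c.ν_ge_of_two hk (by norm_num) (by norm_num) hV he he' hd).2 hF
        have h' : ((c.PP 2 V).card : ℝ) ≤ 1 := by exact_mod_cast this
        rw [ind_of (P := (· ∈ c.F)) hF]
        linarith
      · by_cases hν : 1 / 2 ≤ c.ν V
        · rw [ind_of (P := fun S => 1 / 2 ≤ c.ν S) hν, mul_one]
          have hcount := PairsB_count (P := c.PP 2 V) (V := V) (r := 2)
            (fun e he => ⟨(c.PairsB_mem_PP.1 he).1, (c.PairsB_mem_PP.1 he).2.1⟩)
            (fun e he e' he' hne => c.PP_two_disjoint hk hV he he' hne) hf0 (s := 1 - 2 * c.p)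
            (fun e he y hy => by
              have := c.PairsB_pair_facts hk hV he hy
              simp only [hf]
              rw [ind_of (P := fun S => c.ν S ≤ 2 * η) this.2, mul_one]
              exact this.1)
          have hVn : (V.card : ℝ) ≤ n := by
            rw [hV]; exact c.PairsB_card_lt hk (by norm_num)
          have hVD : (V.card : ℝ) * D f V ≤ n * D f V := mul_le_mul_of_nonneg_right hVn hD0
          have hP0 : (0 : ℝ) ≤ (c.PP 2 V).card := by positivity
          have h98 : ((c.PP 2 V).card : ℝ) * (98 / 100) ≤ (c.PP 2 V).card * (1 - 2 * c.p) :=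
            mul_le_mul_of_nonneg_left (by linarith) hP0
          push_cast at hcount
          have hnD : 0 ≤ (n : ℝ) * D f V := by positivity
          have : ((c.PP 2 V).card : ℝ) ≤ 6 / 10 * (n : ℝ) * D f V := by nlinarith
          linarith
        · have ht : ¬ c.typ2 V := by
            intro ht
            exact hcl ⟨hF, not_le.1 hν, ht⟩
          rw [ind_of (P := fun V => V ∉ c.F ∧ ¬ c.typ2 V) ⟨hF, ht⟩]
          have := c.PairsB_PP_card_le hV (by omega)
          linarith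
  have h3 : E (k + 2) (fun V => (((c.PP 2 V).filter (fun _ => ¬ c.clean V)).card : ℝ)) ≤
      ((6 / 10) * (n : ℝ)) * c.Cr (2 * η) (1 / 2) (k + 1) + (E (k + 2) (ind (· ∈ c.F)) +
        (n : ℝ) ^ 2 * E (k + 2) (ind (fun V => V ∉ c.F ∧ ¬ c.typ2 V))) := by
    refine (E_mono hpt).trans (le_of_eq ?_)
    rw [E_add, E_const_mul, E_add, E_const_mul, c.PairsB_Cr_eq (by omega)]
  have h4 := c.E_not_typ2 hk
  have h5 := c.Cr_nonneg (2 * η) (1 / 2) (k + 1)
  have h6 : 0 ≤ E (k + 2) (ind (· ∈ c.F)) := E_nonneg fun _ _ => ind_nonneg _ _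
  have hn1 : (10 : ℝ) ^ 60 ≤ n := by exact_mod_cast c.n_large
  have h7 : (1112 / 1000 : ℝ) * ((n : ℝ) ^ 2 * E (k + 2) (ind (fun V => V ∉ c.F ∧ ¬ c.typ2 V))) ≤
      1 / (n : ℝ) ^ 3 := by
    calc (1112 / 1000 : ℝ) * ((n : ℝ) ^ 2 * E (k + 2) (ind (fun V => V ∉ c.F ∧ ¬ c.typ2 V)))
        ≤ (1112 / 1000 : ℝ) * ((n : ℝ) ^ 2 * (1 / (n : ℝ) ^ 9)) := by gcongr
      _ = (1112 / 1000 : ℝ) / (n : ℝ) ^ 7 := by field_simp
      _ ≤ 1 / (n : ℝ) ^ 3 := by
        rw [div_le_div_iff₀ (by positivity) (by positivity)]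
        have : (1112 / 1000 : ℝ) ≤ (n : ℝ) ^ 4 := by
          have h1n : (10 : ℝ) ≤ n := le_trans (by norm_num) hn1
          calc (1112 / 1000 : ℝ) ≤ 10 ^ 4 := by norm_num
            _ ≤ (n : ℝ) ^ 4 := by gcongr
        calc (1112 / 1000 : ℝ) * (n : ℝ) ^ 3 ≤ (n : ℝ) ^ 4 * (n : ℝ) ^ 3 := by gcongr
          _ = 1 * (n : ℝ) ^ 7 := by ring
  have hnC : 0 ≤ (n : ℝ) * c.Cr (2 * η) (1 / 2) (k + 1) := by positivity
  nlinarith

/-- distinct triples in `TT V` are disjoint (`|V| = k + 3`) -/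
theorem TT_disjoint {k : ℕ} (hk : c.inI k) {V : Finset (Fin n)} (hV : V.card = k + 3)
    {g g' : Finset (Fin n)} (hg : g ∈ c.TT V) (hg' : g' ∈ c.TT V) (hne : g ≠ g') :
    Disjoint g g' := by
  classical
  unfold TT at hg hg'
  obtain ⟨h1, h2⟩ := mem_filter.1 hg
  obtain ⟨h1', h2'⟩ := mem_filter.1 hg'
  obtain ⟨a1, a2, a3, a4⟩ := c.PairsB_mem_PP.1 h1
  obtain ⟨b1, b2, b3, b4⟩ := c.PairsB_mem_PP.1 h1'
  by_contra hnd
  rw [not_disjoint_iff] at hnd
  obtain ⟨x, hx, hx'⟩ := hnd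
  have hVx : (V.erase x).card = k + 2 := by
    rw [card_erase_of_mem (a1 hx), hV]; rfl
  have key : ∀ g₁ : Finset (Fin n), g₁ ⊆ V → g₁.card = 3 → c.calm (V \ g₁) →
      g₁ ⊆ c.XX (V \ g₁) → x ∈ g₁ → g₁.erase x ∈ c.PP 2 (V.erase x) := by
    intro g₁ d1 d2 d3 d4 hxg
    rw [c.PairsB_mem_PP, PairsB_erase_eq hxg]
    refine ⟨erase_subset_erase _ d1, ?_, d3, (erase_subset _ _).trans d4⟩
    rw [card_erase_of_mem hxg, d2]
  have e1 := key g a1 a2 a3 a4 hx
  have e2 := key g' b1 b2 b3 b4 hx'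
  have e3 := c.clean_unique hk hVx (h2 x hx) e1 e2
  apply hne
  rw [← insert_erase hx, ← insert_erase hx', e3]

theorem PairsB_TT_facts {k : ℕ} (hk : c.inI k) {V : Finset (Fin n)} (hV : V.card = k + 3)
    {g : Finset (Fin n)} (hg : g ∈ c.TT V) {x : Fin n} (hx : x ∈ g) :
    1 - 3 * c.p ≤ c.q (V.erase x) ∧ c.ν (V.erase x) ≤ 1 / 2 := by
  classical
  unfold TT at hg
  obtain ⟨h1, h2⟩ := mem_filter.1 hg
  obtain ⟨a1, a2, a3, a4⟩ := c.PairsB_mem_PP.1 h1
  have hVx : (V.erase x).card = k + 2 := by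
    rw [card_erase_of_mem (a1 hx), hV]; rfl
  have e1 : g.erase x ∈ c.PP 2 (V.erase x) := by
    rw [c.PairsB_mem_PP, PairsB_erase_eq hx]
    refine ⟨erase_subset_erase _ a1, ?_, a3, (erase_subset _ _).trans a4⟩
    rw [card_erase_of_mem hx, a2]
  exact ⟨c.clean_q hk hVx (h2 x hx) e1, (h2 x hx).2.1.le⟩

theorem E_t3 {k : ℕ} (hk : c.inI k) :
    E k (fun W => ind c.calm W * (c.H W * c.t3 W)) ≤
      2 + (n : ℝ) * c.Cr (1 / 2) (17 / 20) (k + 2) := by
  classical
  have hb := c.inI_bounds hk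
  have hn := c.nR_pos
  have hp := c.p_pos
  have hps := c.p_small
  have hps' : c.p ≤ 1 / 100 := hps.trans (by norm_num)
  have h1 := c.PairsB_transfer hk (r := 3) (by norm_num) (fun V g => ∀ z ∈ g, c.clean (V.erase z))
  have h2 : E k (fun W => ind c.calm W * (c.H W * c.t3 W)) =
      E k (fun W => ind c.calm W * (c.H W *
      (((powersetCard 3 (c.XX W)).filter (fun g => ∀ z ∈ g, c.clean ((W ∪ g).erase z))).card : ℝ))) := by
    refine E_congr fun W _ => ?_
    congr 2
    unfold t3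
    congr 2
    refine filter_congr fun g hg => ?_
    refine forall₂_congr fun z hz => ?_
    have hgX := (mem_powersetCard.1 hg).1
    have hzW : z ∉ W := c.PairsB_XX_notMem (hgX hz)
    have : (W ∪ g).erase z = W ∪ g.erase z := by
      rw [erase_union_distrib, erase_eq_of_notMem hzW]
    rw [this]
  rw [h2]
  refine h1.trans ?_
  set f : Finset (Fin n) → ℝ := fun S => c.q S * ind (fun S => c.ν S ≤ 1 / 2) S with hf
  have hf0 : ∀ S, 0 ≤ f S := fun S => mul_nonneg (c.q_nonneg S) (ind_nonneg _ _)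
  have hpt : ∀ V : Finset (Fin n), V.card = k + 3 →
      (((c.PP 3 V).filter (fun g => ∀ z ∈ g, c.clean (V.erase z))).card : ℝ) ≤
        ((4 / 10) * (n : ℝ)) * (D f V * ind (fun S => 17 / 20 ≤ c.ν S) V) + 1 := by
    intro V hV
    have hD0 : 0 ≤ D f V := D_nonneg fun v _ => hf0 _
    have i1 := ind_nonneg (fun S => 17 / 20 ≤ c.ν S) V
    have hA : 0 ≤ ((4 / 10) * (n : ℝ)) * (D f V * ind (fun S => 17 / 20 ≤ c.ν S) V) := by
      positivity
    have hTT : (c.PP 3 V).filter (fun g => ∀ z ∈ g, c.clean (V.erase z)) = c.TT V := rfl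
    rw [hTT]
    by_cases hone : (c.TT V).card ≤ 1
    · have h' : ((c.TT V).card : ℝ) ≤ 1 := by exact_mod_cast hone
      linarith
    · have hmem : ∀ g ∈ c.TT V, g ∈ c.PP 3 V := by
        intro g hg
        unfold TT at hg
        exact (mem_filter.1 hg).1
      have hν : 17 / 20 ≤ c.ν V := by
        rw [not_le, one_lt_card] at hone
        obtain ⟨g, hg, g', hg', hne⟩ := hone
        have := (c.ν_ge_of_two hk (by norm_num) (by norm_num) hV (hmem g hg) (hmem g' hg')
          (c.TT_disjoint hk hV hg hg' hne)).1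
        linarith
      rw [ind_of (P := fun S => 17 / 20 ≤ c.ν S) hν, mul_one]
      have hcount := PairsB_count (P := c.TT V) (V := V) (r := 3)
        (fun e he => ⟨(c.PairsB_mem_PP.1 (hmem e he)).1, (c.PairsB_mem_PP.1 (hmem e he)).2.1⟩)
        (fun e he e' he' hne => c.TT_disjoint hk hV he he' hne) hf0 (s := 1 - 3 * c.p)
        (fun e he y hy => by
          have := c.PairsB_TT_facts hk hV he hy
          simp only [hf]
          rw [ind_of (P := fun S => c.ν S ≤ 1 / 2) this.2, mul_one]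
          exact this.1)
      have hVn : (V.card : ℝ) ≤ n := by
        rw [hV]; exact c.PairsB_card_lt hk (by norm_num)
      have hVD : (V.card : ℝ) * D f V ≤ n * D f V := mul_le_mul_of_nonneg_right hVn hD0
      have hP0 : (0 : ℝ) ≤ (c.TT V).card := by positivity
      have h97 : ((c.TT V).card : ℝ) * (97 / 100) ≤ (c.TT V).card * (1 - 3 * c.p) :=
        mul_le_mul_of_nonneg_left (by linarith) hP0
      push_cast at hcount
      have hnD : 0 ≤ (n : ℝ) * D f V := by positivity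
      have : ((c.TT V).card : ℝ) ≤ 4 / 10 * (n : ℝ) * D f V := by nlinarith
      linarith
  have h3 : E (k + 3) (fun V =>
      (((c.PP 3 V).filter (fun g => ∀ z ∈ g, c.clean (V.erase z))).card : ℝ)) ≤
      ((4 / 10) * (n : ℝ)) * c.Cr (1 / 2) (17 / 20) (k + 2) + 1 := by
    refine (E_mono hpt).trans (le_of_eq ?_)
    rw [E_add, E_const_mul, E_const (by omega), c.PairsB_Cr_eq (by omega)]
  have h5 := c.Cr_nonneg (1 / 2) (17 / 20) (k + 2)
  have hnC : 0 ≤ (n : ℝ) * c.Cr (1 / 2) (17 / 20) (k + 2) := by positivity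
  nlinarith

/-- triples versus pairs -/
theorem PairsB_triples (W : Finset (Fin n)) :
    (((c.XX W).card.choose 3 : ℕ) : ℝ) ≤ c.t3 W + c.b2 W * ((c.XX W).card - 2 : ℝ) := by
  classical
  set X := c.XX W with hX
  set B := (powersetCard 2 X).filter (fun e => ¬ c.clean (W ∪ e)) with hB
  set T := (powersetCard 3 X).filter (fun g => ∀ z ∈ g, c.clean (W ∪ g.erase z)) with hT
  have hsub : powersetCard 3 X ⊆ T ∪ B.biUnion (fun e => (X \ e).image (fun z => insert z e)) := by
    intro g hg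
    rw [mem_union]
    by_cases h : ∀ z ∈ g, c.clean (W ∪ g.erase z)
    · exact Or.inl (mem_filter.2 ⟨hg, h⟩)
    · push Not at h
      obtain ⟨z, hz, hzc⟩ := h
      obtain ⟨g1, g2⟩ := mem_powersetCard.1 hg
      refine Or.inr (mem_biUnion.2 ⟨g.erase z, mem_filter.2 ⟨mem_powersetCard.2
        ⟨(erase_subset _ _).trans g1, by rw [card_erase_of_mem hz, g2]⟩, hzc⟩, ?_⟩)
      refine mem_image.2 ⟨z, mem_sdiff.2 ⟨g1 hz, notMem_erase z g⟩, insert_erase hz⟩
  have hcard : X.card.choose 3 ≤ T.card + B.card * (X.card - 2) := by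
    rw [← card_powersetCard]
    refine (card_le_card hsub).trans ((card_union_le _ _).trans ?_)
    refine Nat.add_le_add_left ?_ _
    refine card_biUnion_le_card_mul _ _ _ fun e he => ?_
    refine card_image_le.trans ?_
    obtain ⟨e1, e2⟩ := mem_powersetCard.1 (mem_filter.1 he).1
    rw [card_sdiff_of_subset e1, e2]
  have ht3 : c.t3 W = (T.card : ℝ) := rfl
  have hb2 : c.b2 W = (B.card : ℝ) := rfl
  rw [ht3, hb2]
  by_cases h2 : 2 ≤ X.card
  · have : ((X.card.choose 3 : ℕ) : ℝ) ≤ ((T.card + B.card * (X.card - 2) : ℕ) : ℝ) := by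
      exact_mod_cast hcard
    rw [Nat.cast_add, Nat.cast_mul, Nat.cast_sub h2] at this
    exact_mod_cast this
  · have hB0 : B = ∅ := by
      rw [hB, powersetCard_eq_empty.2 (by omega)]; rfl
    have h0 : X.card.choose 3 = 0 := Nat.choose_eq_zero_of_lt (by omega)
    rw [hB0, h0, card_empty]
    simp

/-- `N ≤ K` or `N ≤ 6 b2/(K-1) + 6 t3/((K-1)(K-2))` -/
theorem N_le_b2_t3 (W : Finset (Fin n)) {K : ℝ} (hK : 10 ≤ K) :
    c.N W ≤ K + 6 * c.b2 W / (K - 1) + 6 * c.t3 W / ((K - 1) * (K - 2)) := by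
  classical
  have hb2 : 0 ≤ c.b2 W := by unfold b2; positivity
  have ht3 : 0 ≤ c.t3 W := by unfold t3; positivity
  have hK1 : 0 < K - 1 := by linarith
  have hK2 : 0 < K - 2 := by linarith
  have q1 : 0 ≤ 6 * c.b2 W / (K - 1) := by positivity
  have q2 : 0 ≤ 6 * c.t3 W / ((K - 1) * (K - 2)) := by positivity
  by_cases hN : c.N W ≤ K
  · linarith
  · rw [not_le] at hN
    have h1 := c.PairsB_triples W
    have h2 : (((c.XX W).card.choose 3 : ℕ) : ℝ) = c.N W * (c.N W - 1) * (c.N W - 2) / 6 := by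
      unfold N
      have h3 : 3 ≤ (c.XX W).card := by
        have : (3 : ℝ) ≤ ((c.XX W).card : ℝ) := by
          have : c.N W = ((c.XX W).card : ℝ) := rfl
          rw [← this]; linarith
        exact_mod_cast this
      have h4 := Nat.descFactorial_eq_factorial_mul_choose (c.XX W).card 3
      rw [Nat.descFactorial_succ, Nat.descFactorial_succ, Nat.descFactorial_one] at h4
      obtain ⟨m, hm⟩ : ∃ m, (c.XX W).card = m + 3 := ⟨(c.XX W).card - 3, by omega⟩
      rw [hm] at h4 ⊢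
      have h5 : (m + 3 - 2) * ((m + 3 - 1) * (m + 3)) = (m + 1) * ((m + 2) * (m + 3)) := by
        congr 1
      rw [h5] at h4
      have h6 : (((m + 1) * ((m + 2) * (m + 3)) : ℕ) : ℝ) =
          ((Nat.factorial 3 * (m + 3).choose 3 : ℕ) : ℝ) := by rw [h4]
      have h7 : Nat.factorial 3 = 6 := rfl
      rw [h7] at h6
      push_cast at h6 ⊢
      linarith
    have hNe : ((c.XX W).card : ℝ) = c.N W := rfl
    rw [h2, hNe] at h1
    have hN1 : 0 < c.N W - 1 := by linarith
    have hN2 : 0 < c.N W - 2 := by linarith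
    have h3 : c.N W ≤ 6 * c.b2 W / (c.N W - 1) + 6 * c.t3 W / ((c.N W - 1) * (c.N W - 2)) := by
      have : 6 * c.b2 W / (c.N W - 1) + 6 * c.t3 W / ((c.N W - 1) * (c.N W - 2)) =
          (6 * (c.t3 W + c.b2 W * (c.N W - 2))) / ((c.N W - 1) * (c.N W - 2)) := by
        field_simp
        ring
      rw [this, le_div_iff₀ (by positivity)]
      linarith
    have h4 : 6 * c.b2 W / (c.N W - 1) ≤ 6 * c.b2 W / (K - 1) :=
      div_le_div_of_nonneg_left (by positivity) hK1 (by linarith)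
    have h5 : 6 * c.t3 W / ((c.N W - 1) * (c.N W - 2)) ≤ 6 * c.t3 W / ((K - 1) * (K - 2)) :=
      div_le_div_of_nonneg_left (by positivity) (by positivity)
        (mul_le_mul (by linarith) (by linarith) hK2.le hN1.le)
    linarith

end Ctx

end Kleitman
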