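import Pool.Agent.Kleitman.NonCalm
import Pool.Agent.Kleitman.PairsB

/-! # Module M: the main lemma (assembly) -/

set_option autoImplicit false
set_option maxHeartbeats 4000000

open Finset

namespace Kleitman

namespace Ctx

variable {n : ℕ} (c : Ctx n)

theorem aty_nonneg (W : Finset (Fin n)) : 0 ≤ c.aty W := sum_nonneg fun _ _ => c.uh_nonneg _ _

theorem wk_nonneg (W : Finset (Fin n)) : 0 ≤ c.wk W := sum_nonneg fun _ _ => c.uh_nonneg _ _

theorem N_nonneg (W : Finset (Fin n)) : 0 ≤ c.N W := by unfold N; positivity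

theorem P0_nonneg : 0 ≤ c.P0 := c.q_nonneg _

theorem γ_nonneg : 0 ≤ c.γ := mass_nonneg fun _ => ind_nonneg _ _

theorem κ0_nonneg : 0 ≤ c.κ0 := mass_nonneg fun _ => ind_nonneg _ _

theorem dist_nonneg (C : Finset (Fin n)) : 0 ≤ dist C := abs_nonneg _

theorem κ1_nonneg : 0 ≤ c.κ1 :=
  mass_nonneg fun C => mul_nonneg (ind_nonneg _ _)
    (div_nonneg (add_nonneg (Nat.cast_nonneg _) (dist_nonneg C)) (Nat.cast_nonneg _))

/-- `(a/n) κ0 ≤ κ1` -/
theorem κ0_le : ((c.a : ℝ) / n) * c.κ0 ≤ c.κ1 := by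
  unfold κ0 κ1
  rw [← mass_const_mul]
  refine mass_mono fun C => ?_
  rw [mul_comm]
  refine mul_le_mul_of_nonneg_left ?_ (ind_nonneg _ _)
  have := dist_nonneg C
  gcongr
  linarith

/-- one level of the assembly: split off the strong exits -/
theorem main_split {k : ℕ} (hk : c.inI k) :
    E k (fun W => c.H W * c.kh W) ≤
      100 * c.p + (11 / 10) * (1 / (n : ℝ)) + 1 / (n : ℝ) ^ 5 + 10 ^ 8 * (c.P0 + c.p + c.κ0) +
        (1 + η) * E k (fun W => ind c.heavy W * (c.H W * c.N W)) := by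
  have hkn : k ≤ n := by have := (c.inI_bounds hk).2.2.2.2; omega
  have h1 : E k (fun W => c.H W * c.kh W) ≤
      E k (fun W => ind (fun W => ¬ c.heavy W) W * (c.H W * c.kh W) + (c.H W * (1 / (n : ℝ)) +
        c.H W * c.aty W + ind c.heavy W * (c.H W * c.wk W) +
        (1 + η) * (ind c.heavy W * (c.H W * c.N W)))) := by
    refine E_mono fun W hW => ?_
    have hH := c.H_nonneg W
    have ha := c.aty_nonneg W
    have hinv : (0 : ℝ) ≤ 1 / (n : ℝ) := by positivity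
    by_cases hh : c.heavy W
    · have hnot : ¬ (fun W => ¬ c.heavy W) W := fun h => h hh
      rw [ind_of_not hnot, ind_of hh]
      have := mul_le_mul_of_nonneg_left (c.kh_le hk hW) hH
      nlinarith
    · rw [ind_of (P := fun W => ¬ c.heavy W) hh, ind_of_not hh]
      have h2 : 0 ≤ c.H W * (1 / (n : ℝ)) := mul_nonneg hH hinv
      have h3 : 0 ≤ c.H W * c.aty W := mul_nonneg hH ha
      nlinarith
  rw [E_add, E_add, E_add, E_add, E_const_mul] at h1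
  have h2 := c.E_light_kh hk
  have h3 : E k (fun W => c.H W * (1 / (n : ℝ))) ≤ (11 / 10) * (1 / (n : ℝ)) := by
    rw [← E_const (n := n) hkn ((11 / 10) * (1 / (n : ℝ)))]
    refine E_mono fun W _ => ?_
    exact mul_le_mul_of_nonneg_right (c.H_le W) (by positivity)
  have h4 := c.E_aty hk
  have h5 := c.weak_bound hk
  linarith

/-- one level of the assembly: the strong exits -/
theorem main_strong {k : ℕ} (hk : c.inI k) {K : ℝ} (hK : 10 ≤ K) :
    E k (fun W => ind c.heavy W * (c.H W * c.N W)) ≤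
      ((n : ℝ) / (100 * c.a)) *
        (10 ^ 11 * (c.p * c.P0 + (c.a : ℝ) * c.R / (n : ℝ) ^ 2 + c.κ1)) +
      K * c.γ + (6 / (K - 1)) * E k (fun W => ind c.calm W * (c.H W * c.b2 W)) +
      (6 / ((K - 1) * (K - 2))) * E k (fun W => ind c.calm W * (c.H W * c.t3 W)) := by
  have h1 : E k (fun W => ind c.heavy W * (c.H W * c.N W)) ≤
      E k (fun W => ((n : ℝ) / (100 * c.a)) *
          (ind (fun W => c.heavy W ∧ ¬ c.calm W) W * c.H W) +
        (K * c.H W + (6 / (K - 1)) * (ind c.calm W * (c.H W * c.b2 W)) +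
          (6 / ((K - 1) * (K - 2))) * (ind c.calm W * (c.H W * c.t3 W)))) := by
    refine E_mono fun W hW => ?_
    have hH := c.H_nonneg W
    have hN := c.N_nonneg W
    have hb2 : 0 ≤ c.b2 W := by unfold b2; positivity
    have ht3 : 0 ≤ c.t3 W := by unfold t3; positivity
    have hK1 : 0 < K - 1 := by linarith
    have hK2 : 0 < K - 2 := by linarith
    have hc1 : 0 ≤ 6 / (K - 1) := by positivity
    have hc2 : 0 ≤ 6 / ((K - 1) * (K - 2)) := by positivity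
    by_cases hh : c.heavy W
    · by_cases hc : c.calm W
      · have hnot : ¬ (fun W => c.heavy W ∧ ¬ c.calm W) W := fun h => h.2 hc
        rw [ind_of hh, ind_of hc, ind_of_not hnot]
        have := mul_le_mul_of_nonneg_left (c.N_le_b2_t3 W hK) hH
        have e1 : c.H W * (K + 6 * c.b2 W / (K - 1) + 6 * c.t3 W / ((K - 1) * (K - 2))) =
          K * c.H W + (6 / (K - 1)) * (1 * (c.H W * c.b2 W)) +
          (6 / ((K - 1) * (K - 2))) * (1 * (c.H W * c.t3 W)) := by ring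
        rw [e1] at this
        linarith
      · rw [ind_of hh, ind_of_not hc, ind_of (P := fun W => c.heavy W ∧ ¬ c.calm W) ⟨hh, hc⟩]
        have h2 := mul_le_mul_of_nonneg_left (c.N_le hk hW) hH
        have h3 : 0 ≤ K * c.H W := mul_nonneg (by linarith) hH
        nlinarith
    · rw [ind_of_not hh]
      have h3 : 0 ≤ K * c.H W := mul_nonneg (by linarith) hH
      have h4 : 0 ≤ ((n : ℝ) / (100 * c.a)) *
          (ind (fun W => c.heavy W ∧ ¬ c.calm W) W * c.H W) :=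
        mul_nonneg (by positivity) (mul_nonneg (ind_nonneg _ _) hH)
      have h5 : 0 ≤ (6 / (K - 1)) * (ind c.calm W * (c.H W * c.b2 W)) :=
        mul_nonneg hc1 (mul_nonneg (ind_nonneg _ _) (mul_nonneg hH hb2))
      have h6 : 0 ≤ (6 / ((K - 1) * (K - 2))) * (ind c.calm W * (c.H W * c.t3 W)) :=
        mul_nonneg hc2 (mul_nonneg (ind_nonneg _ _) (mul_nonneg hH ht3))
      linarith
  rw [E_add, E_add, E_add, E_const_mul, E_const_mul, E_const_mul, E_const_mul, c.E_H hk] at h1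
  have h2 := c.noncalm_bound hk
  have h3 : (0 : ℝ) ≤ (n : ℝ) / (100 * c.a) := by positivity
  have h4 := mul_le_mul_of_nonneg_left h2 h3
  linarith

/-- sum of `E_{k+2}[1_F]` over `I` -/
theorem sum_E_F_le (s : Finset ℕ) (hs : ∀ k ∈ s, c.inI k) :
    ∑ k ∈ s, E (k + 2) (ind (· ∈ c.F)) ≤ c.κ0 := by
  have h1 : ∀ k ∈ s, E (k + 2) (ind (· ∈ c.F)) = E (k + 2) (ind c.nb) := by
    intro k hk
    have hb := c.inI_bounds (hs k hk)
    refine E_congr fun S hS => ?_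
    by_cases hF : S ∈ c.F
    · rw [ind_of (P := (· ∈ c.F)) hF, ind_of]
      refine ⟨hF, fun hbd => ?_⟩
      have := hbd.2.1
      omega
    · rw [ind_of_not (P := (· ∈ c.F)) hF, ind_of_not]
      exact fun h => hF h.1
  rw [sum_congr rfl h1]
  unfold κ0
  rw [mass_eq_sum_E]
  have : ∑ k ∈ s, E (n := n) (k + 2) (ind c.nb) =
      ∑ l ∈ s.image (· + 2), E (n := n) l (ind c.nb) := by
    rw [sum_image]
    intro x _ y _ h
    simpa using h
  rw [this]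
  refine sum_le_sum_of_subset_of_nonneg ?_ ?_
  · intro l hl
    obtain ⟨k, hk, rfl⟩ := mem_image.1 hl
    have hb := c.inI_bounds (hs k hk)
    simp only [mem_range]; omega
  · intro l _ _
    exact E_nonneg fun S _ => ind_nonneg _ _

/-- sum of the crossing masses over shifted `I` -/
theorem sum_Cr_le {t0 t1 : ℝ} (h0 : 0 ≤ t0) (h : t0 < t1) (r : ℕ) (hr : r ≤ 2) (s : Finset ℕ)
    (hs : ∀ k ∈ s, c.inI k) : ∑ k ∈ s, c.Cr t0 t1 (k + r) ≤ c.P0 / (t1 - t0) := by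
  have : ∑ k ∈ s, c.Cr t0 t1 (k + r) = ∑ l ∈ s.image (· + r), c.Cr t0 t1 l := by
    rw [sum_image]
    intro x _ y _ h
    simpa using h
  rw [this]
  refine c.crossing h0 h _ ?_
  intro l hl
  obtain ⟨k, hk, rfl⟩ := mem_image.1 hl
  have hb := c.inI_bounds (hs k hk)
  omega

/-- per-level bound -/
theorem main_level {k : ℕ} (hk : c.inI k) {K : ℝ} (hK : 10 ≤ K) :
    c.X ≤ 10 ^ 4 * ((c.a : ℝ) * c.R / (n : ℝ) ^ 2) + (5 * (c.a : ℝ) / n) *
      ((100 * c.p + (11 / 10) * (1 / (n : ℝ)) + 1 / (n : ℝ) ^ 5 + 10 ^ 8 * (c.P0 + c.p + c.κ0)) +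
        (1 + η) * (((n : ℝ) / (100 * c.a)) *
        (10 ^ 11 * (c.p * c.P0 + (c.a : ℝ) * c.R / (n : ℝ) ^ 2 + c.κ1)) + K * c.γ +
        (6 / (K - 1)) * ((n : ℝ) * c.Cr (2 * η) (1 / 2) (k + 1) + 2 * E (k + 2) (ind (· ∈ c.F)) +
          1 / (n : ℝ) ^ 3) +
        (6 / ((K - 1) * (K - 2))) * (2 + (n : ℝ) * c.Cr (1 / 2) (17 / 20) (k + 2)))) := by
  have h1 := c.X_le_pos hk
  have h2 := c.main_split hk
  have h3 := c.main_strong hk hK
  have h4 := c.E_b2 hk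
  have h5 := c.E_t3 hk
  have hK1 : 0 < K - 1 := by linarith
  have hK2 : 0 < K - 2 := by linarith
  have hc1 : 0 ≤ 6 / (K - 1) := by positivity
  have hc2 : 0 ≤ 6 / ((K - 1) * (K - 2)) := by positivity
  have h4' := mul_le_mul_of_nonneg_left h4 hc1
  have h5' := mul_le_mul_of_nonneg_left h5 hc2
  have hη : (0 : ℝ) ≤ 1 + η := by unfold η; norm_num
  refine h1.trans (add_le_add_right ?_ _)
  refine mul_le_mul_of_nonneg_left ?_ (by positivity)
  refine h2.trans (add_le_add_right ?_ _)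
  refine mul_le_mul_of_nonneg_left ?_ hη
  linarith

/-- averaging over the levels of `I` -/
theorem main_avg {K : ℝ} (hK : 10 ≤ K) :
    c.X ≤ (10 ^ 4 * ((c.a : ℝ) * c.R / (n : ℝ) ^ 2) + (5 * (c.a : ℝ) / n) *
      ((100 * c.p + (11 / 10) * (1 / (n : ℝ)) + 1 / (n : ℝ) ^ 5 + 10 ^ 8 * (c.P0 + c.p + c.κ0)) +
        (1 + η) * (((n : ℝ) / (100 * c.a)) *
        (10 ^ 11 * (c.p * c.P0 + (c.a : ℝ) * c.R / (n : ℝ) ^ 2 + c.κ1)) + K * c.γ +
        (6 / (K - 1)) * (1 / (n : ℝ) ^ 3) + (6 / ((K - 1) * (K - 2))) * 2))) +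
      (4 / (c.a : ℝ)) * ((5 * (c.a : ℝ) / n) * (1 + η) *
        ((6 / (K - 1)) * ((n : ℝ) * (3 * c.P0) + 2 * c.κ0) +
          (6 / ((K - 1) * (K - 2))) * ((n : ℝ) * (3 * c.P0)))) := by
  classical
  set s : Finset ℕ := Finset.Icc (n / 2 - c.a / 2) (n / 2 - c.a / 4) with hs
  have hal := c.a_large
  have hRl := c.R_large
  have hRn := c.R_le
  have hadvd := c.a_dvd
  have han : c.a / 2 ≤ n / 2 := by omega
  have hsI : ∀ k ∈ s, c.inI k := by
    intro k hk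
    rw [hs, mem_Icc] at hk
    unfold inI
    omega
  have hcard : (c.a : ℝ) / 4 ≤ (s.card : ℝ) := by
    have : c.a ≤ 4 * s.card := by
      rw [hs, Nat.card_Icc]; omega
    have : (c.a : ℝ) ≤ 4 * (s.card : ℝ) := by exact_mod_cast this
    linarith
  have haR : (4096 : ℝ) ≤ (c.a : ℝ) := by exact_mod_cast hal
  have hapos : (0 : ℝ) < c.a := by linarith
  have hLpos : (0 : ℝ) < (s.card : ℝ) := by linarith
  have hK1 : 0 < K - 1 := by linarith
  have hK2 : 0 < K - 2 := by linarith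
  have hβ0 : 0 ≤ 6 / (K - 1) := by positivity
  have hτ0 : 0 ≤ 6 / ((K - 1) * (K - 2)) := by positivity
  have hP0 := c.P0_nonneg
  have hκ0 := c.κ0_nonneg
  have hC1 := c.sum_Cr_le (t0 := 2 * η) (t1 := 1 / 2) (by unfold η; norm_num)
    (by unfold η; norm_num) 1 (by norm_num) s hsI
  have hC2 := c.sum_Cr_le (t0 := 1 / 2) (t1 := 17 / 20) (by norm_num) (by norm_num) 2 le_rfl s hsI
  have hC3 := c.sum_E_F_le s hsI
  have hC1' : ∑ k ∈ s, c.Cr (2 * η) (1 / 2) (k + 1) ≤ 3 * c.P0 := by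
    refine hC1.trans ?_
    unfold η
    rw [div_le_iff₀ (by norm_num)]
    have e : 3 * c.P0 * ((1 : ℝ) / 2 - 2 * (1 / 2000)) = (1497 / 1000) * c.P0 := by ring
    rw [e]; linarith
  have hC2' : ∑ k ∈ s, c.Cr (1 / 2) (17 / 20) (k + 2) ≤ 3 * c.P0 := by
    refine hC2.trans ?_
    rw [div_le_iff₀ (by norm_num)]
    have e : 3 * c.P0 * ((17 : ℝ) / 20 - 1 / 2) = (21 / 20) * c.P0 := by ring
    rw [e]; linarith
  have hη1 : (0 : ℝ) ≤ 1 + η := by unfold η; norm_num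
  generalize hY : (10 ^ 4 * ((c.a : ℝ) * c.R / (n : ℝ) ^ 2) + (5 * (c.a : ℝ) / n) *
      ((100 * c.p + (11 / 10) * (1 / (n : ℝ)) + 1 / (n : ℝ) ^ 5 + 10 ^ 8 * (c.P0 + c.p + c.κ0)) +
        (1 + η) * (((n : ℝ) / (100 * c.a)) *
        (10 ^ 11 * (c.p * c.P0 + (c.a : ℝ) * c.R / (n : ℝ) ^ 2 + c.κ1)) + K * c.γ +
        (6 / (K - 1)) * (1 / (n : ℝ) ^ 3) + (6 / ((K - 1) * (K - 2))) * 2))) = Y
  have hlev : ∀ k ∈ s, c.X ≤ Y + (5 * (c.a : ℝ) / n) * (1 + η) *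
      ((6 / (K - 1)) * ((n : ℝ) * c.Cr (2 * η) (1 / 2) (k + 1) +
      2 * E (k + 2) (ind (· ∈ c.F))) +
      (6 / ((K - 1) * (K - 2))) * ((n : ℝ) * c.Cr (1 / 2) (17 / 20) (k + 2))) := by
    intro k hk
    have h := c.main_level (hsI k hk) hK
    refine h.trans (le_of_eq ?_)
    rw [← hY]
    ring
  generalize hβ : 6 / (K - 1) = β at hlev hβ0 ⊢
  generalize hτ : 6 / ((K - 1) * (K - 2)) = τ' at hlev hτ0 ⊢
  have hA0 : (0 : ℝ) ≤ 5 * (c.a : ℝ) / n := by positivity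
  generalize 5 * (c.a : ℝ) / n = A at hlev hA0 ⊢
  have hsum := sum_le_sum hlev
  rw [sum_const, nsmul_eq_mul, sum_add_distrib, sum_const, nsmul_eq_mul, ← mul_sum] at hsum
  have e3 : ∑ k ∈ s, (β * ((n : ℝ) * c.Cr (2 * η) (1 / 2) (k + 1) +
      2 * E (k + 2) (ind (· ∈ c.F))) + τ' * ((n : ℝ) * c.Cr (1 / 2) (17 / 20) (k + 2))) =
      β * ((n : ℝ) * ∑ k ∈ s, c.Cr (2 * η) (1 / 2) (k + 1) +
        2 * ∑ k ∈ s, E (k + 2) (ind (· ∈ c.F))) +
        τ' * ((n : ℝ) * ∑ k ∈ s, c.Cr (1 / 2) (17 / 20) (k + 2)) := by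
    simp only [mul_sum, sum_add_distrib, mul_add]
  rw [e3] at hsum
  have hnn : (0 : ℝ) ≤ n := Nat.cast_nonneg n
  have hin : β * ((n : ℝ) * ∑ k ∈ s, c.Cr (2 * η) (1 / 2) (k + 1) +
        2 * ∑ k ∈ s, E (k + 2) (ind (· ∈ c.F))) +
        τ' * ((n : ℝ) * ∑ k ∈ s, c.Cr (1 / 2) (17 / 20) (k + 2)) ≤
      β * ((n : ℝ) * (3 * c.P0) + 2 * c.κ0) + τ' * ((n : ℝ) * (3 * c.P0)) := by
    have i1 := mul_le_mul_of_nonneg_left hC1' hnn
    have i2 := mul_le_mul_of_nonneg_left hC2' hnn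
    have i3 := mul_le_mul_of_nonneg_left (a := β) (add_le_add i1
      (mul_le_mul_of_nonneg_left hC3 (zero_le_two (α := ℝ)))) hβ0
    have i4 := mul_le_mul_of_nonneg_left i2 hτ0
    exact add_le_add i3 i4
  have hin' := mul_le_mul_of_nonneg_left hin (mul_nonneg hA0 hη1)
  have hZ0 : 0 ≤ A * (1 + η) * (β * ((n : ℝ) * (3 * c.P0) + 2 * c.κ0) +
      τ' * ((n : ℝ) * (3 * c.P0))) := by positivity
  generalize A * (1 + η) * (β * ((n : ℝ) * (3 * c.P0) + 2 * c.κ0) +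
      τ' * ((n : ℝ) * (3 * c.P0))) = Z at hin' hZ0 ⊢
  have hZ := hsum.trans (add_le_add_right hin' _)
  have h1 : Z ≤ (s.card : ℝ) * ((4 / c.a) * Z) := by
    have : 1 ≤ (s.card : ℝ) * (4 / c.a) := by
      rw [← mul_div_assoc, le_div_iff₀ hapos]; linarith
    calc Z = 1 * Z := by ring
      _ ≤ ((s.card : ℝ) * (4 / c.a)) * Z := mul_le_mul_of_nonneg_right this hZ0
      _ = _ := by ring
  have h2 : (s.card : ℝ) * c.X ≤ (s.card : ℝ) * (Y + (4 / c.a) * Z) := by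
    rw [mul_add]; linarith
  exact le_of_mul_le_mul_left h2 hLpos

/-- the numerical part -/
theorem main_numeric {a R nn p P0 κ0 κ1 γ K X : ℝ} (ha : 4096 ≤ a) (hR : 1 ≤ R) (hn : 1 ≤ nn)
    (hp : p = 5 * R / nn) (haR : 2 * a ≤ R) (hP0 : 0 ≤ P0) (hκ0 : 0 ≤ κ0) (hκ1 : 0 ≤ κ1)
    (hγ : 0 ≤ γ) (hK : 10 ≤ K) (hκ : (a / nn) * κ0 ≤ κ1)
    (hX : X ≤ (10 ^ 4 * (a * R / nn ^ 2) + (5 * a / nn) *
      ((100 * p + (11 / 10) * (1 / nn) + 1 / nn ^ 5 + 10 ^ 8 * (P0 + p + κ0)) +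
        (1 + 1 / 2000) * ((nn / (100 * a)) *
        (10 ^ 11 * (p * P0 + a * R / nn ^ 2 + κ1)) + K * γ +
        (6 / (K - 1)) * (1 / nn ^ 3) + (6 / ((K - 1) * (K - 2))) * 2))) +
      (4 / a) * ((5 * a / nn) * (1 + 1 / 2000) *
        ((6 / (K - 1)) * (nn * (3 * P0) + 2 * κ0) +
          (6 / ((K - 1) * (K - 2))) * (nn * (3 * P0))))) :
    X ≤ (51 / 10) * (a * K / nn) * γ +
      10 ^ 12 * (a * R / nn ^ 2 + p * P0 + P0 / K + a / (nn * K ^ 2) + κ1) := by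
  have hnpos : 0 < nn := by linarith
  have hapos : 0 < a := by linarith
  have hK1 : 0 < K - 1 := by linarith
  have hK2 : 0 < K - 2 := by linarith
  have hKpos : 0 < K := by linarith
  obtain ⟨W0, hW0⟩ : ∃ W0, W0 = a * R / nn ^ 2 := ⟨_, rfl⟩
  obtain ⟨A, hA⟩ : ∃ A, A = a / nn := ⟨_, rfl⟩
  obtain ⟨β, hβ⟩ : ∃ β, β = 6 / (K - 1) := ⟨_, rfl⟩
  obtain ⟨τ, hτ⟩ : ∃ τ, τ = 6 / ((K - 1) * (K - 2)) := ⟨_, rfl⟩
  have hApos : 0 < A := by rw [hA]; positivity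
  have hβ0 : 0 ≤ β := by rw [hβ]; positivity
  have hτ0 : 0 ≤ τ := by rw [hτ]; positivity
  have hW00 : 0 ≤ W0 := by rw [hW0]; positivity
  have hApW : A * p = 5 * W0 := by rw [hA, hW0, hp]; field_simp
  have hAp : A ≤ p / 10 := by
    rw [hA, hp, div_div, div_le_div_iff₀ hnpos (by positivity)]
    nlinarith
  have hAnW : A * (1 / nn) ≤ W0 := by
    rw [hA, hW0, div_mul_div_comm, mul_one, ← pow_two]
    gcongr
    nlinarith
  have hAn5 : A * (1 / nn ^ 5) ≤ W0 := by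
    refine le_trans ?_ hAnW
    gcongr
    exact le_self_pow₀ hn (by norm_num)
  have hAn3 : A * (1 / nn ^ 3) ≤ W0 := by
    refine le_trans ?_ hAnW
    gcongr
    exact le_self_pow₀ hn (by norm_num)
  have hAκ : A * κ0 ≤ κ1 := by rw [hA]; exact hκ
  have hκn : κ0 / nn ≤ κ1 := by
    refine le_trans ?_ hκ
    rw [div_eq_mul_inv, mul_comm]
    refine mul_le_mul_of_nonneg_right ?_ hκ0
    rw [inv_eq_one_div]
    gcongr
    linarith
  have hκn0 : 0 ≤ κ0 / nn := by positivity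
  have hAP : A * P0 ≤ (p / 10) * P0 := mul_le_mul_of_nonneg_right hAp hP0
  have hβK : β ≤ 7 * (1 / K) := by
    rw [hβ, mul_one_div, div_le_div_iff₀ hK1 hKpos]; linarith
  have hτK : τ ≤ 9 * (1 / K ^ 2) := by
    rw [hτ, mul_one_div, div_le_div_iff₀ (by positivity) (by positivity)]; nlinarith
  have hβ1 : β ≤ 1 := by
    rw [hβ, div_le_one hK1]; linarith
  have hK2' : 1 / K ^ 2 ≤ 1 / K := by
    apply one_div_le_one_div_of_le hKpos; nlinarith
  have hAτ : A * τ ≤ A * (9 * (1 / K ^ 2)) := mul_le_mul_of_nonneg_left hτK hApos.le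
  have hβP : β * P0 ≤ (7 * (1 / K)) * P0 := mul_le_mul_of_nonneg_right hβK hP0
  have hτP : τ * P0 ≤ (9 * (1 / K)) * P0 :=
    mul_le_mul_of_nonneg_right (hτK.trans (by linarith)) hP0
  have hβκ : β * (κ0 / nn) ≤ κ1 := by
    calc β * (κ0 / nn) ≤ 1 * (κ0 / nn) := by gcongr
      _ ≤ κ1 := by rw [one_mul]; exact hκn
  have hβA : β * (A * (1 / nn ^ 3)) ≤ W0 := by
    calc β * (A * (1 / nn ^ 3)) ≤ 1 * (A * (1 / nn ^ 3)) := by gcongr
      _ ≤ W0 := by rw [one_mul]; exact hAn3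
  have hp0 : 0 < p := by rw [hp]; positivity
  have hpP : 0 ≤ p * P0 := by positivity
  have hPK0 : 0 ≤ (1 / K) * P0 := by positivity
  have hAK0 : 0 ≤ A * (1 / K ^ 2) := by positivity
  have hγt : 0 ≤ A * K * γ := by positivity
  have key : (10 ^ 4 * (a * R / nn ^ 2) + (5 * a / nn) *
      ((100 * p + (11 / 10) * (1 / nn) + 1 / nn ^ 5 + 10 ^ 8 * (P0 + p + κ0)) +
        (1 + 1 / 2000) * ((nn / (100 * a)) *
        (10 ^ 11 * (p * P0 + a * R / nn ^ 2 + κ1)) + K * γ +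
        (6 / (K - 1)) * (1 / nn ^ 3) + (6 / ((K - 1) * (K - 2))) * 2))) +
      (4 / a) * ((5 * a / nn) * (1 + 1 / 2000) *
        ((6 / (K - 1)) * (nn * (3 * P0) + 2 * κ0) +
          (6 / ((K - 1) * (K - 2))) * (nn * (3 * P0)))) =
      10 ^ 4 * W0 + 500 * (A * p) + (55 / 10) * (A * (1 / nn)) +
      5 * (A * (1 / nn ^ 5)) + 5 * 10 ^ 8 * (A * P0 + A * p + A * κ0) +
      (1 + 1 / 2000) * (5 * 10 ^ 9) * (p * P0 + W0 + κ1) + 5 * (1 + 1 / 2000) * (A * K * γ) +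
      5 * (1 + 1 / 2000) * (β * (A * (1 / nn ^ 3))) + 10 * (1 + 1 / 2000) * (A * τ) +
      (60 * (1 + 1 / 2000) * (β * P0) + 40 * (1 + 1 / 2000) * (β * (κ0 / nn)) +
        60 * (1 + 1 / 2000) * (τ * P0)) := by
    rw [← hβ, ← hτ, hW0, hA]
    field_simp
    ring
  rw [key, hApW] at hX
  have e1 : (51 / 10 : ℝ) * (a * K / nn) * γ = (51 / 10) * (A * K * γ) := by rw [hA]; ring
  have e2 : P0 / K = (1 / K) * P0 := by ring
  have e3 : a / (nn * K ^ 2) = A * (1 / K ^ 2) := by rw [hA]; field_simp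
  rw [e1, e2, e3, ← hW0]
  linarith

/-- MAIN LEMMA for one scale -/
theorem main_lemma {K : ℝ} (hK : 10 ≤ K) :
    c.X ≤ (51 / 10) * ((c.a : ℝ) * K / n) * c.γ +
      10 ^ 12 * ((c.a : ℝ) * c.R / (n : ℝ) ^ 2 + c.p * c.P0 + c.P0 / K +
        (c.a : ℝ) / (n * K ^ 2) + c.κ1) := by
  have hal := c.a_large
  have hRl := c.R_large
  have haR : (4096 : ℝ) ≤ (c.a : ℝ) := by exact_mod_cast hal
  have hRl' : 2 * (c.a : ℝ) ≤ c.R := by exact_mod_cast hRl
  have hn1 : (1 : ℝ) ≤ n := by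
    have := c.n_pos
    exact_mod_cast this
  exact main_numeric haR (by linarith) hn1 rfl hRl' c.P0_nonneg c.κ0_nonneg c.κ1_nonneg
    c.γ_nonneg hK c.κ0_le (c.main_avg hK)

end Ctx

end Kleitman
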