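import Mathlib

/-! # Module BI: binomial weights -/

set_option autoImplicit false

open Finset

namespace Kleitman

/-- distance of `k` to the middle level, as a natural number -/
def dd (n k : ℕ) : ℕ := (k - n / 2) + (n / 2 - k)

theorem Binom_step {x y i n : ℝ} (hy : 0 < y) (hyn : y ≤ n) (hi : 0 ≤ i) (h : x ≤ y - 2 * i) :
    x / y ≤ Real.exp (-(2 * i / n)) := by
  have hn : 0 < n := lt_of_lt_of_le hy hyn
  have h1 : x / y ≤ 1 - 2 * i / y := by
    rw [div_le_iff₀ hy]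
    have : (1 - 2 * i / y) * y = y - 2 * i := by field_simp
    rw [this]; exact h
  have h2 : 2 * i / n ≤ 2 * i / y := div_le_div_of_nonneg_left (by linarith) hy hyn
  have h3 := Real.add_one_le_exp (-(2 * i / n))
  linarith

theorem Binom_up (n : ℕ) (hn : 1 ≤ n) (d : ℕ) :
    ((n.choose (n / 2 + d) : ℕ) : ℝ) ≤
      Real.exp (-(((d : ℝ) * ((d : ℝ) - 1)) / n)) * ((n.choose (n / 2) : ℕ) : ℝ) := by
  have hnR : (0 : ℝ) < n := by exact_mod_cast hn
  induction d with
  | zero => simp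
  | succ d ih =>
    rcases Nat.lt_or_ge n (n / 2 + (d + 1)) with h | h
    · rw [Nat.choose_eq_zero_of_lt h]
      simp only [Nat.cast_zero]
      positivity
    · have h1 := Nat.choose_succ_right_eq n (n / 2 + d)
      -- choose n (k+1) * (k+1) = choose n k * (n - k)
      have h1' : ((n.choose (n / 2 + (d + 1)) : ℕ) : ℝ) * (((n / 2 + (d + 1) : ℕ)) : ℝ) =
          ((n.choose (n / 2 + d) : ℕ) : ℝ) * ((n - (n / 2 + d) : ℕ) : ℝ) := by
        exact_mod_cast h1
      have hy : (0 : ℝ) < ((n / 2 + (d + 1) : ℕ) : ℝ) := by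
        exact_mod_cast (show 0 < n / 2 + (d + 1) by omega)
      have hstep := Binom_step (x := ((n - (n / 2 + d) : ℕ) : ℝ)) (y := ((n / 2 + (d + 1) : ℕ) : ℝ))
        (i := (d : ℝ)) (n := (n : ℝ)) hy (by exact_mod_cast h) (Nat.cast_nonneg _) (by
          have h2 : (n - (n / 2 + d)) + 2 * d ≤ n / 2 + (d + 1) := by omega
          have h3 : ((n - (n / 2 + d) : ℕ) : ℝ) + 2 * (d : ℝ) ≤ ((n / 2 + (d + 1) : ℕ) : ℝ) := by
            exact_mod_cast h2
          linarith)
      have h4 : ((n.choose (n / 2 + (d + 1)) : ℕ) : ℝ) = ((n.choose (n / 2 + d) : ℕ) : ℝ) *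
          (((n - (n / 2 + d) : ℕ) : ℝ) / ((n / 2 + (d + 1) : ℕ) : ℝ)) := by
        rw [← mul_div_assoc, ← h1']
        field_simp
      rw [h4]
      calc ((n.choose (n / 2 + d) : ℕ) : ℝ) *
          (((n - (n / 2 + d) : ℕ) : ℝ) / ((n / 2 + (d + 1) : ℕ) : ℝ))
          ≤ (Real.exp (-(((d : ℝ) * ((d : ℝ) - 1)) / n)) * ((n.choose (n / 2) : ℕ) : ℝ)) *
            Real.exp (-(2 * (d : ℝ) / n)) := by
            apply mul_le_mul ih hstep (by positivity) (by positivity)
        _ = (Real.exp (-(((d : ℝ) * ((d : ℝ) - 1)) / n)) * Real.exp (-(2 * (d : ℝ) / n))) *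
            ((n.choose (n / 2) : ℕ) : ℝ) := by ring
        _ = _ := by
            rw [← Real.exp_add]
            congr 2
            push_cast
            field_simp
            ring

theorem Binom_dn (n : ℕ) (hn : 1 ≤ n) (d : ℕ) (hd : d ≤ n / 2) :
    ((n.choose (n / 2 - d) : ℕ) : ℝ) ≤
      Real.exp (-(((d : ℝ) * ((d : ℝ) - 1)) / n)) * ((n.choose (n / 2) : ℕ) : ℝ) := by
  have hnR : (0 : ℝ) < n := by exact_mod_cast hn
  induction d with
  | zero => simp
  | succ d ih =>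
    have ih' := ih (by omega)
    have h1 := Nat.choose_succ_right_eq n (n / 2 - (d + 1))
    have e1 : n / 2 - (d + 1) + 1 = n / 2 - d := by omega
    rw [e1] at h1
    have h1' : ((n.choose (n / 2 - d) : ℕ) : ℝ) * (((n / 2 - d : ℕ)) : ℝ) =
        ((n.choose (n / 2 - (d + 1)) : ℕ) : ℝ) * ((n - (n / 2 - (d + 1)) : ℕ) : ℝ) := by
      exact_mod_cast h1
    have hy : (0 : ℝ) < ((n - (n / 2 - (d + 1)) : ℕ) : ℝ) := by
      exact_mod_cast (show 0 < n - (n / 2 - (d + 1)) by omega)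
    have hstep := Binom_step (x := ((n / 2 - d : ℕ) : ℝ)) (y := ((n - (n / 2 - (d + 1)) : ℕ) : ℝ))
      (i := (d : ℝ)) (n := (n : ℝ)) hy (by exact_mod_cast (Nat.sub_le _ _)) (Nat.cast_nonneg _) (by
        have h2 : (n / 2 - d) + 2 * d ≤ n - (n / 2 - (d + 1)) := by omega
        have h3 : ((n / 2 - d : ℕ) : ℝ) + 2 * (d : ℝ) ≤ ((n - (n / 2 - (d + 1)) : ℕ) : ℝ) := by
          exact_mod_cast h2
        linarith)
    have h4 : ((n.choose (n / 2 - (d + 1)) : ℕ) : ℝ) = ((n.choose (n / 2 - d) : ℕ) : ℝ) *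
        (((n / 2 - d : ℕ) : ℝ) / ((n - (n / 2 - (d + 1)) : ℕ) : ℝ)) := by
      rw [← mul_div_assoc, h1']
      field_simp
    rw [h4]
    calc ((n.choose (n / 2 - d) : ℕ) : ℝ) *
        (((n / 2 - d : ℕ) : ℝ) / ((n - (n / 2 - (d + 1)) : ℕ) : ℝ))
        ≤ (Real.exp (-(((d : ℝ) * ((d : ℝ) - 1)) / n)) * ((n.choose (n / 2) : ℕ) : ℝ)) *
          Real.exp (-(2 * (d : ℝ) / n)) := by
          apply mul_le_mul ih' hstep (by positivity) (by positivity)
      _ = (Real.exp (-(((d : ℝ) * ((d : ℝ) - 1)) / n)) * Real.exp (-(2 * (d : ℝ) / n))) *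
          ((n.choose (n / 2) : ℕ) : ℝ) := by ring
      _ = _ := by
          rw [← Real.exp_add]
          congr 2
          push_cast
          field_simp
          ring

/-- `w_k = binom(n,k)/binom(n,n/2) ≤ exp(-d(d-1)/n)`, `d = |k - n/2|` -/
theorem w_le (n k : ℕ) (hn : 1 ≤ n) :
    ((n.choose k : ℕ) : ℝ) / (n.choose (n / 2) : ℕ) ≤
      Real.exp (-(((dd n k : ℝ) * ((dd n k : ℝ) - 1)) / n)) := by
  have hpos : (0 : ℝ) < ((n.choose (n / 2) : ℕ) : ℝ) := by
    exact_mod_cast Nat.choose_pos (Nat.div_le_self n 2)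
  rw [div_le_iff₀ hpos]
  rcases Nat.lt_or_ge k (n / 2) with h | h
  · have e : dd n k = n / 2 - k := by unfold dd; omega
    have := Binom_dn n hn (n / 2 - k) (by omega)
    rw [e]
    have e2 : n / 2 - (n / 2 - k) = k := by omega
    rwa [e2] at this
  · have e : dd n k = k - n / 2 := by unfold dd; omega
    have := Binom_up n hn (k - n / 2)
    rw [e]
    have e2 : n / 2 + (k - n / 2) = k := by omega
    rwa [e2] at this

end Kleitman
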