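import Pool.Agent.Kleitman.Defs

/-! # Module A: level calculus (pure double counting, no family) -/

set_option autoImplicit false

open Finset

namespace Kleitman

variable {n : ℕ}

/-! ## linearity / monotonicity -/

theorem E_mono {k : ℕ} {f g : Finset (Fin n) → ℝ} (h : ∀ S, S.card = k → f S ≤ g S) :
    E k f ≤ E k g := by
  unfold E
  gcongr with S hS
  exact h S (mem_powersetCard.1 hS).2

theorem E_congr {k : ℕ} {f g : Finset (Fin n) → ℝ} (h : ∀ S, S.card = k → f S = g S) :
    E k f = E k g := by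
  unfold E
  congr 1
  exact sum_congr rfl fun S hS => h S (mem_powersetCard.1 hS).2

theorem E_add {k : ℕ} (f g : Finset (Fin n) → ℝ) :
    E k (fun S => f S + g S) = E k f + E k g := by
  unfold E; rw [sum_add_distrib, add_div]

theorem E_sub {k : ℕ} (f g : Finset (Fin n) → ℝ) :
    E k (fun S => f S - g S) = E k f - E k g := by
  unfold E; rw [sum_sub_distrib, sub_div]

theorem E_const_mul {k : ℕ} (r : ℝ) (f : Finset (Fin n) → ℝ) :
    E k (fun S => r * f S) = r * E k f := by
  unfold E; rw [← mul_sum, mul_div_assoc]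

theorem E_sum {k : ℕ} {ι : Type*} (s : Finset ι) (f : ι → Finset (Fin n) → ℝ) :
    E k (fun S => ∑ i ∈ s, f i S) = ∑ i ∈ s, E k (f i) := by
  unfold E; rw [sum_comm, sum_div]

theorem E_nonneg {k : ℕ} {f : Finset (Fin n) → ℝ} (h : ∀ S, S.card = k → 0 ≤ f S) : 0 ≤ E k f := by
  unfold E
  exact div_nonneg (sum_nonneg fun S hS => h S (mem_powersetCard.1 hS).2) (by positivity)

theorem E_const {k : ℕ} (hk : k ≤ n) (r : ℝ) : E (n := n) k (fun _ => r) = r := by
  have : (0 : ℝ) < (n.choose k : ℝ) := by exact_mod_cast Nat.choose_pos hk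
  unfold E
  rw [sum_const, card_powersetCard, card_univ, Fintype.card_fin, nsmul_eq_mul]
  field_simp

theorem U_mono {S : Finset (Fin n)} {f g : Finset (Fin n) → ℝ}
    (h : ∀ v, v ∉ S → f (insert v S) ≤ g (insert v S)) : U f S ≤ U g S := by
  unfold U
  gcongr with v hv
  exact h v (mem_compl.1 hv)

theorem U_congr {S : Finset (Fin n)} {f g : Finset (Fin n) → ℝ}
    (h : ∀ v, v ∉ S → f (insert v S) = g (insert v S)) : U f S = U g S := by
  unfold U
  congr 1
  exact sum_congr rfl fun v hv => h v (mem_compl.1 hv)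

theorem U_add (f g : Finset (Fin n) → ℝ) (S : Finset (Fin n)) :
    U (fun S => f S + g S) S = U f S + U g S := by
  unfold U; rw [sum_add_distrib, add_div]

theorem U_sub (f g : Finset (Fin n) → ℝ) (S : Finset (Fin n)) :
    U (fun S => f S - g S) S = U f S - U g S := by
  unfold U; rw [sum_sub_distrib, sub_div]

theorem U_const_mul (r : ℝ) (f : Finset (Fin n) → ℝ) (S : Finset (Fin n)) :
    U (fun S => r * f S) S = r * U f S := by
  unfold U; rw [← mul_sum, mul_div_assoc]

theorem U_sum {ι : Type*} (s : Finset ι) (f : ι → Finset (Fin n) → ℝ) (S : Finset (Fin n)) :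
    U (fun S => ∑ i ∈ s, f i S) S = ∑ i ∈ s, U (f i) S := by
  unfold U; rw [sum_comm, sum_div]

theorem U_nonneg {f : Finset (Fin n) → ℝ} {S : Finset (Fin n)}
    (h : ∀ v, v ∉ S → 0 ≤ f (insert v S)) : 0 ≤ U f S := by
  unfold U
  exact div_nonneg (sum_nonneg fun v hv => h v (mem_compl.1 hv)) (by positivity)

theorem U_const {S : Finset (Fin n)} (hS : S ≠ univ) (r : ℝ) : U (fun _ => r) S = r := by
  have : (0 : ℝ) < ((Sᶜ).card : ℝ) := by
    have : (Sᶜ).Nonempty := by
      rw [nonempty_iff_ne_empty]; intro h; exact hS (by simpa using h)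
    exact_mod_cast this.card_pos
  unfold U
  rw [sum_const, nsmul_eq_mul]
  field_simp

theorem U_univ (f : Finset (Fin n) → ℝ) : U f univ = 0 := by
  unfold U; simp

theorem U_le {f : Finset (Fin n) → ℝ} {S : Finset (Fin n)} {r : ℝ} (hr : 0 ≤ r)
    (h : ∀ v, v ∉ S → f (insert v S) ≤ r) : U f S ≤ r := by
  by_cases hS : S = univ
  · subst hS; rw [U_univ]; exact hr
  · rw [← U_const hS r]; exact U_mono h

theorem D_mono {S : Finset (Fin n)} {f g : Finset (Fin n) → ℝ}
    (h : ∀ v, v ∈ S → f (S.erase v) ≤ g (S.erase v)) : D f S ≤ D g S := by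
  unfold D
  gcongr with v hv
  exact h v hv

theorem D_congr {S : Finset (Fin n)} {f g : Finset (Fin n) → ℝ}
    (h : ∀ v, v ∈ S → f (S.erase v) = g (S.erase v)) : D f S = D g S := by
  unfold D
  congr 1
  exact sum_congr rfl fun v hv => h v hv

theorem D_add (f g : Finset (Fin n) → ℝ) (S : Finset (Fin n)) :
    D (fun S => f S + g S) S = D f S + D g S := by
  unfold D; rw [sum_add_distrib, add_div]

theorem D_sub (f g : Finset (Fin n) → ℝ) (S : Finset (Fin n)) :
    D (fun S => f S - g S) S = D f S - D g S := by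
  unfold D; rw [sum_sub_distrib, sub_div]

theorem D_const_mul (r : ℝ) (f : Finset (Fin n) → ℝ) (S : Finset (Fin n)) :
    D (fun S => r * f S) S = r * D f S := by
  unfold D; rw [← mul_sum, mul_div_assoc]

theorem D_nonneg {f : Finset (Fin n) → ℝ} {S : Finset (Fin n)}
    (h : ∀ v, v ∈ S → 0 ≤ f (S.erase v)) : 0 ≤ D f S := by
  unfold D
  exact div_nonneg (sum_nonneg fun v hv => h v hv) (by positivity)

theorem D_const {S : Finset (Fin n)} (hS : S.Nonempty) (r : ℝ) : D (fun _ => r) S = r := by
  have : (0 : ℝ) < (S.card : ℝ) := by exact_mod_cast hS.card_pos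
  unfold D
  rw [sum_const, nsmul_eq_mul]
  field_simp

theorem D_empty (f : Finset (Fin n) → ℝ) : D f ∅ = 0 := by
  unfold D; simp

theorem D_le {f : Finset (Fin n) → ℝ} {S : Finset (Fin n)} {r : ℝ} (hr : 0 ≤ r)
    (h : ∀ v, v ∈ S → f (S.erase v) ≤ r) : D f S ≤ r := by
  rcases S.eq_empty_or_nonempty with rfl | hS
  · rw [D_empty]; exact hr
  · rw [← D_const hS r]; exact D_mono h

theorem ind_nonneg (P : Finset (Fin n) → Prop) (S : Finset (Fin n)) : 0 ≤ ind P S := by
  unfold ind; split_ifs <;> norm_num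

theorem ind_le_one (P : Finset (Fin n) → Prop) (S : Finset (Fin n)) : ind P S ≤ 1 := by
  unfold ind; split_ifs <;> norm_num

theorem ind_of {P : Finset (Fin n) → Prop} {S : Finset (Fin n)} (h : P S) : ind P S = 1 := by
  unfold ind; rw [if_pos h]

theorem ind_of_not {P : Finset (Fin n) → Prop} {S : Finset (Fin n)} (h : ¬ P S) :
    ind P S = 0 := by
  unfold ind; rw [if_neg h]

theorem Up_mono {g g' : Finset (Fin n) → ℝ} {S : Finset (Fin n)}
    (h : ∀ C, S ⊆ C → g C ≤ g' C) : Up g S ≤ Up g' S := by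
  unfold Up
  gcongr with C hC
  exact h C (mem_filter.1 hC).2

theorem Up_nonneg {g : Finset (Fin n) → ℝ} {S : Finset (Fin n)}
    (h : ∀ C, S ⊆ C → 0 ≤ g C) : 0 ≤ Up g S := by
  unfold Up
  exact sum_nonneg fun C hC => div_nonneg (h C (mem_filter.1 hC).2) (by positivity)

theorem Up_add (g g' : Finset (Fin n) → ℝ) (S : Finset (Fin n)) :
    Up (fun S => g S + g' S) S = Up g S + Up g' S := by
  unfold Up; rw [← sum_add_distrib]; exact sum_congr rfl fun C _ => by rw [add_div]

theorem Up_const_mul (r : ℝ) (g : Finset (Fin n) → ℝ) (S : Finset (Fin n)) :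
    Up (fun S => r * g S) S = r * Up g S := by
  unfold Up; rw [mul_sum]; exact sum_congr rfl fun C _ => by rw [mul_div_assoc]

theorem Up_sum {ι : Type*} (s : Finset ι) (f : ι → Finset (Fin n) → ℝ) (S : Finset (Fin n)) :
    Up (fun S => ∑ i ∈ s, f i S) S = ∑ i ∈ s, Up (f i) S := by
  unfold Up; rw [sum_comm]; exact sum_congr rfl fun C _ => by rw [sum_div]

theorem Up_univ (g : Finset (Fin n) → ℝ) : Up g univ = g univ := by
  unfold Up
  rw [show (univ.filter (fun C : Finset (Fin n) => univ ⊆ C)) = {univ} by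
    ext C; simp [univ_subset_iff]]
  simp

theorem Dn_mono {g g' : Finset (Fin n) → ℝ} {S : Finset (Fin n)}
    (h : ∀ A, A ⊆ S → g A ≤ g' A) : Dn g S ≤ Dn g' S := by
  unfold Dn
  gcongr with A hA
  exact h A (mem_powerset.1 hA)

theorem Dn_nonneg {g : Finset (Fin n) → ℝ} {S : Finset (Fin n)}
    (h : ∀ A, A ⊆ S → 0 ≤ g A) : 0 ≤ Dn g S := by
  unfold Dn
  exact sum_nonneg fun A hA => div_nonneg (h A (mem_powerset.1 hA)) (by positivity)

theorem mass_mono {g g' : Finset (Fin n) → ℝ} (h : ∀ C, g C ≤ g' C) : mass g ≤ mass g' := by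
  unfold mass
  gcongr with C
  exact h C

theorem mass_nonneg {g : Finset (Fin n) → ℝ} (h : ∀ C, 0 ≤ g C) : 0 ≤ mass g := by
  unfold mass
  exact sum_nonneg fun C _ => div_nonneg (h C) (by positivity)

theorem mass_add (g g' : Finset (Fin n) → ℝ) :
    mass (fun S => g S + g' S) = mass g + mass g' := by
  unfold mass; rw [← sum_add_distrib]; exact sum_congr rfl fun C _ => by rw [add_div]

theorem mass_const_mul (r : ℝ) (g : Finset (Fin n) → ℝ) :
    mass (fun S => r * g S) = r * mass g := by
  unfold mass; rw [mul_sum]; exact sum_congr rfl fun C _ => by rw [mul_div_assoc]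

theorem mass_sum {ι : Type*} (s : Finset ι) (f : ι → Finset (Fin n) → ℝ) :
    mass (fun S => ∑ i ∈ s, f i S) = ∑ i ∈ s, mass (f i) := by
  unfold mass; rw [sum_comm]; exact sum_congr rfl fun C _ => by rw [sum_div]

/-! ## induction principles -/

theorem up_induction {P : Finset (Fin n) → Prop} (huniv : P univ)
    (step : ∀ S, S ≠ univ → (∀ v, v ∉ S → P (insert v S)) → P S) (S : Finset (Fin n)) : P S := by
  induction' hm : (Sᶜ).card with m ih generalizing S
  · have : S = univ := by
      have := card_eq_zero.1 hm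
      simpa using this
    rw [this]; exact huniv
  · refine step S ?_ ?_
    · rintro rfl; simp at hm
    · intro v hv
      apply ih
      rw [compl_insert, card_erase_of_mem (mem_compl.2 hv), hm]; rfl

theorem dn_induction {P : Finset (Fin n) → Prop} (hempty : P ∅)
    (step : ∀ S : Finset (Fin n), S.Nonempty → (∀ v ∈ S, P (S.erase v)) → P S)
    (S : Finset (Fin n)) : P S := by
  induction' hm : S.card with m ih generalizing S
  · rw [card_eq_zero.1 hm]; exact hempty
  · refine step S (card_pos.1 (by omega)) ?_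
    intro v hv
    apply ih
    rw [card_erase_of_mem hv, hm]; rfl

/-! ## stopped averages -/

theorem dnR_of_stop {stop : Finset (Fin n) → Prop} {val : Finset (Fin n) → ℝ} {b : ℝ}
    {S : Finset (Fin n)} (h : stop S) : dnR stop val b S = val S := by
  unfold dnR
  cases hS : S.card with
  | zero => simp [dnAux, h]
  | succ k => simp [dnAux, h]

theorem dnR_empty {stop : Finset (Fin n) → Prop} {val : Finset (Fin n) → ℝ} {b : ℝ}
    (h : ¬ stop ∅) : dnR stop val b ∅ = b := by
  unfold dnR; simp [dnAux, h]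

theorem dnR_step {stop : Finset (Fin n) → Prop} {val : Finset (Fin n) → ℝ} {b : ℝ}
    {S : Finset (Fin n)} (h : ¬ stop S) (hS : S.Nonempty) :
    dnR stop val b S = D (dnR stop val b) S := by
  obtain ⟨k, hk⟩ : ∃ k, S.card = k + 1 := ⟨S.card - 1, by have := hS.card_pos; omega⟩
  unfold dnR
  rw [hk]
  simp only [dnAux, h, if_false]
  refine D_congr fun v hv => ?_
  rw [card_erase_of_mem hv, hk]; rfl

theorem upR_of_stop {stop : Finset (Fin n) → Prop} {val : Finset (Fin n) → ℝ} {b : ℝ}
    {S : Finset (Fin n)} (h : stop S) : upR stop val b S = val S := by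
  unfold upR
  cases hS : (Sᶜ).card with
  | zero => simp [upAux, h]
  | succ k => simp [upAux, h]

theorem upR_univ {stop : Finset (Fin n) → Prop} {val : Finset (Fin n) → ℝ} {b : ℝ}
    (h : ¬ stop univ) : upR stop val b univ = b := by
  unfold upR; simp [upAux, h]

theorem upR_step {stop : Finset (Fin n) → Prop} {val : Finset (Fin n) → ℝ} {b : ℝ}
    {S : Finset (Fin n)} (h : ¬ stop S) (hS : S ≠ univ) :
    upR stop val b S = U (upR stop val b) S := by
  have hpos : 0 < (Sᶜ).card := by
    rw [card_pos, nonempty_iff_ne_empty]; intro h'; exact hS (by simpa using h')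
  obtain ⟨k, hk⟩ : ∃ k, (Sᶜ).card = k + 1 := ⟨(Sᶜ).card - 1, by omega⟩
  unfold upR
  rw [hk]
  simp only [upAux, h, if_false]
  refine U_congr fun v hv => ?_
  rw [compl_insert, card_erase_of_mem (mem_compl.2 hv), hk]; rfl

theorem dnR_nonneg {stop : Finset (Fin n) → Prop} {val : Finset (Fin n) → ℝ} {b : ℝ}
    (hv : ∀ S, 0 ≤ val S) (hb : 0 ≤ b) (S : Finset (Fin n)) : 0 ≤ dnR stop val b S := by
  classical
  induction S using dn_induction with
  | hempty =>
    by_cases h : stop ∅
    · rw [dnR_of_stop h]; exact hv _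
    · rw [dnR_empty h]; exact hb
  | step S hS ih =>
    by_cases h : stop S
    · rw [dnR_of_stop h]; exact hv _
    · rw [dnR_step h hS]; exact D_nonneg ih

theorem dnR_le_one {stop : Finset (Fin n) → Prop} {val : Finset (Fin n) → ℝ} {b : ℝ}
    (hv : ∀ S, val S ≤ 1) (hb : b ≤ 1) (S : Finset (Fin n)) : dnR stop val b S ≤ 1 := by
  classical
  induction S using dn_induction with
  | hempty =>
    by_cases h : stop ∅
    · rw [dnR_of_stop h]; exact hv _
    · rw [dnR_empty h]; exact hb
  | step S hS ih =>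
    by_cases h : stop S
    · rw [dnR_of_stop h]; exact hv _
    · rw [dnR_step h hS]; exact D_le zero_le_one ih

theorem upR_nonneg {stop : Finset (Fin n) → Prop} {val : Finset (Fin n) → ℝ} {b : ℝ}
    (hv : ∀ S, 0 ≤ val S) (hb : 0 ≤ b) (S : Finset (Fin n)) : 0 ≤ upR stop val b S := by
  classical
  induction S using up_induction with
  | huniv =>
    by_cases h : stop univ
    · rw [upR_of_stop h]; exact hv _
    · rw [upR_univ h]; exact hb
  | step S hS ih =>
    by_cases h : stop S
    · rw [upR_of_stop h]; exact hv _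
    · rw [upR_step h hS]; exact U_nonneg ih

theorem upR_le_one {stop : Finset (Fin n) → Prop} {val : Finset (Fin n) → ℝ} {b : ℝ}
    (hv : ∀ S, val S ≤ 1) (hb : b ≤ 1) (S : Finset (Fin n)) : upR stop val b S ≤ 1 := by
  classical
  induction S using up_induction with
  | huniv =>
    by_cases h : stop univ
    · rw [upR_of_stop h]; exact hv _
    · rw [upR_univ h]; exact hb
  | step S hS ih =>
    by_cases h : stop S
    · rw [upR_of_stop h]; exact hv _
    · rw [upR_step h hS]; exact U_le zero_le_one ih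

end Kleitman
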