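import Mathlib

/-!
# Kleitman's union-free problem: definitions shared by all modules (paper proof: kleitman_proof.md)
-/

set_option autoImplicit false

open Finset

namespace Kleitman

variable {n : ℕ}

/-! ## Level calculus -/

/-- average of `f` over all `k`-subsets of `Fin n` -/
noncomputable def E (k : ℕ) (f : Finset (Fin n) → ℝ) : ℝ :=
  (∑ S ∈ powersetCard k (univ : Finset (Fin n)), f S) / (n.choose k : ℝ)

/-- average of `f` over the sets `S + v`, `v ∉ S` -/
noncomputable def U (f : Finset (Fin n) → ℝ) (S : Finset (Fin n)) : ℝ :=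
  (∑ v ∈ Sᶜ, f (insert v S)) / ((Sᶜ).card : ℝ)

/-- average of `f` over the sets `S - y`, `y ∈ S` -/
noncomputable def D (f : Finset (Fin n) → ℝ) (S : Finset (Fin n)) : ℝ :=
  (∑ y ∈ S, f (S.erase y)) / (S.card : ℝ)

/-- expected sum of `g` over the members (`S` included) of a random maximal chain going up from `S` -/
noncomputable def Up (g : Finset (Fin n) → ℝ) (S : Finset (Fin n)) : ℝ :=
  ∑ C ∈ univ.filter (fun C => S ⊆ C), g C / (((n - S.card).choose (C.card - S.card) : ℕ) : ℝ)

/-- expected sum of `g` over the members (`S` included) of a random maximal chain going down from `S` -/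
noncomputable def Dn (g : Finset (Fin n) → ℝ) (S : Finset (Fin n)) : ℝ :=
  ∑ A ∈ S.powerset, g A / ((S.card.choose A.card : ℕ) : ℝ)

/-- `∑_C P(C) g(C)`, `P(C) = 1 / binom(n,|C|)` -/
noncomputable def mass (g : Finset (Fin n) → ℝ) : ℝ :=
  ∑ C : Finset (Fin n), g C / ((n.choose C.card : ℕ) : ℝ)

open Classical in
/-- real indicator of a predicate on sets -/
noncomputable def ind (P : Finset (Fin n) → Prop) (S : Finset (Fin n)) : ℝ := if P S then 1 else 0

/-- average of `a` over the `j`-subsets of `C` -/
noncomputable def avD (j : ℕ) (a : Finset (Fin n) → ℝ) (C : Finset (Fin n)) : ℝ :=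
  (∑ W ∈ powersetCard j C, a W) / ((C.card.choose j : ℕ) : ℝ)

/-- average of `b` over the supersets of `S` of size `j` -/
noncomputable def avU (j : ℕ) (b : Finset (Fin n) → ℝ) (S : Finset (Fin n)) : ℝ :=
  (∑ C ∈ univ.filter (fun C => S ⊆ C ∧ C.card = j), b C) /
    (((n - S.card).choose (j - S.card) : ℕ) : ℝ)

open Classical in
/-- auxiliary recursion for `dnR` -/
noncomputable def dnAux (stop : Finset (Fin n) → Prop) (val : Finset (Fin n) → ℝ) (b : ℝ) :
    ℕ → Finset (Fin n) → ℝ
  | 0, S => if stop S then val S else b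
  | (k + 1), S => if stop S then val S else D (dnAux stop val b k) S

/-- downward stopped average: `val S` if `stop S`; else `b` at `∅`; else the average over `S - y` -/
noncomputable def dnR (stop : Finset (Fin n) → Prop) (val : Finset (Fin n) → ℝ) (b : ℝ)
    (S : Finset (Fin n)) : ℝ := dnAux stop val b S.card S

open Classical in
/-- auxiliary recursion for `upR` -/
noncomputable def upAux (stop : Finset (Fin n) → Prop) (val : Finset (Fin n) → ℝ) (b : ℝ) :
    ℕ → Finset (Fin n) → ℝ
  | 0, S => if stop S then val S else b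
  | (k + 1), S => if stop S then val S else U (upAux stop val b k) S

/-- upward stopped average: `val S` if `stop S`; else `b` at `univ`; else the average over `S + v` -/
noncomputable def upR (stop : Finset (Fin n) → Prop) (val : Finset (Fin n) → ℝ) (b : ℝ)
    (S : Finset (Fin n)) : ℝ := upAux stop val b (Sᶜ).card S

open Classical in
/-- density, among the `B` with `Q ⊆ B ⊆ S`, `|B| = l`, of those lying below a member of `𝒢` inside `S` -/
noncomputable def cov (l : ℕ) (𝒢 : Finset (Finset (Fin n))) (Q S : Finset (Fin n)) : ℝ :=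
  (((powersetCard l S).filter (fun B => Q ⊆ B ∧ ∃ A ∈ 𝒢, B ⊆ A ∧ A ⊆ S)).card : ℝ) /
    (((S.card - Q.card).choose (l - Q.card) : ℕ) : ℝ)

/-- no three distinct members with `A ∪ B = C` -/
def UnionFree (F : Finset (Finset (Fin n))) : Prop :=
  ∀ A ∈ F, ∀ B ∈ F, ∀ C ∈ F, A ≠ B → A ≠ C → B ≠ C → A ∪ B ≠ C

/-! ## One scale -/

/-- data of one scale: the union-free family `F` (inside the window of half-width `R`), the scale `a` -/
structure Ctx (n : ℕ) where
  F : Finset (Finset (Fin n))
  a : ℕ
  R : ℕ
  n_large : 10 ^ 60 ≤ n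
  a_large : 2 ^ 12 ≤ a
  a_dvd : 64 ∣ a
  R_large : 2 * a ≤ R
  R_small : (5 * R) ^ 5 ≤ n ^ 3
  unionFree : UnionFree F
  win_lo : ∀ S ∈ F, n / 2 < S.card + R
  win_hi : ∀ S ∈ F, S.card ≤ n / 2 + R

namespace Ctx

variable (c : Ctx n)

/-- `p = 5R/n` -/
noncomputable def p : ℝ := 5 * (c.R : ℝ) / (n : ℝ)
/-- bottom level of the window -/
def l0 : ℕ := n / 2 - c.R + 1
/-- top level of the window -/
def l1 : ℕ := n / 2 + c.R
/-- bottom level of `G` -/
def lG : ℕ := n / 2 - 2 * c.a + 1
/-- bottom level of the band -/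
def lb : ℕ := n / 2 - c.a / 64
/-- members `A` with `a ≤ h0 - |A| < 2a` -/
def isG (S : Finset (Fin n)) : Prop := S ∈ c.F ∧ n / 2 < S.card + 2 * c.a ∧ S.card + c.a ≤ n / 2
/-- members in the band `||C| - h0| ≤ a/64` -/
def bd (S : Finset (Fin n)) : Prop :=
  S ∈ c.F ∧ n / 2 ≤ S.card + c.a / 64 ∧ S.card ≤ n / 2 + c.a / 64
/-- members outside the band -/
def nb (S : Finset (Fin n)) : Prop := S ∈ c.F ∧ ¬ c.bd S
/-- the levels `I` -/
def inI (k : ℕ) : Prop := n / 2 ≤ k + c.a / 2 ∧ k + c.a / 4 ≤ n / 2
/-- `δ_Q(S)` -/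
noncomputable def δ (Q S : Finset (Fin n)) : ℝ := cov c.l0 c.F Q S
/-- proper version `δ*_Q(S)` -/
noncomputable def δs (Q S : Finset (Fin n)) : ℝ := cov c.l0 (c.F.erase S) Q S
/-- heavy sets -/
def heavy (S : Finset (Fin n)) : Prop := 44 * c.p ≤ c.δ ∅ S
/-- light sets -/
def light (S : Finset (Fin n)) : Prop := S.card ≤ c.l1 ∧ ¬ c.heavy S
/-- `x` is the centre of the band member `C` -/
def cen (x : Fin n) (C : Finset (Fin n)) : Prop := c.bd C ∧ x ∈ C ∧ c.heavy (C.erase x)
/-- band members without centre -/
def bad (C : Finset (Fin n)) : Prop := c.bd C ∧ ∀ x ∈ C, ¬ c.heavy (C.erase x)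
/-- expected number of `G`-hits at or below `S` -/
noncomputable def H : Finset (Fin n) → ℝ := Dn (ind c.isG)
/-- expected number of band hits at or above `S` -/
noncomputable def M : Finset (Fin n) → ℝ := Up (ind c.bd)
/-- expected number of pairs of band hits at or above `S` -/
noncomputable def mh : Finset (Fin n) → ℝ := Up (fun C => ind c.bd C * U c.M C)
/-- expected number of band hits with centre `x` at or above `S` -/
noncomputable def uh (x : Fin n) : Finset (Fin n) → ℝ := Up (ind (c.cen x))
/-- `∑_{x ∉ W} uh x (W+x)` -/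
noncomputable def kh (W : Finset (Fin n)) : ℝ := ∑ x ∈ Wᶜ, c.uh x (insert x W)
/-- probability of no member at or below `S` -/
noncomputable def q : Finset (Fin n) → ℝ := dnR (· ∈ c.F) (fun _ => 0) 1
/-- probability of no member at or above `S` -/
noncomputable def ν : Finset (Fin n) → ℝ := upR (· ∈ c.F) (fun _ => 0) 1
/-- probability that a maximal chain has no member of `F` -/
noncomputable def P0 : ℝ := c.q univ
/-- probability that the up-chain from `S` (with `S`) meets a light set -/
noncomputable def ψ : Finset (Fin n) → ℝ := upR c.light (fun _ => 1) 0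
noncomputable def γ : ℝ := mass (ind c.isG)
noncomputable def X : ℝ := mass (fun C => ind c.bd C * c.H C)
noncomputable def κ0 : ℝ := mass (ind c.nb (n := n))
/-- distance to the middle level -/
noncomputable def dist (C : Finset (Fin n)) : ℝ := |(C.card : ℝ) - ((n / 2 : ℕ) : ℝ)|
noncomputable def κ1 : ℝ := mass (fun C => ind c.nb C * (((c.a : ℝ) + dist C) / (n : ℝ)))

/-- expected number of non-band hits at or above `S` -/
noncomputable def nbU : Finset (Fin n) → ℝ := Up (ind c.nb)
/-- expected number of bad band hits at or above `S` -/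
noncomputable def bbU : Finset (Fin n) → ℝ := Up (ind c.bad)
open Classical in
/-- expected number of band hits at or above `S` with centre outside `S` -/
noncomputable def eeU (S : Finset (Fin n)) : ℝ := ∑ x ∈ Sᶜ, Up (ind (c.cen x)) S

/-- typical sets -/
def typ (S : Finset (Fin n)) : Prop :=
  ∀ z ∈ S, c.uh z S < 1 / (n : ℝ) ^ 2 ∨ c.δ {z} S < 1 / (n : ℝ) ^ 2

/-- the exit threshold `η = 1/2000` -/
noncomputable def η : ℝ := 1 / 2000

/-- strong exits -/
def strong (W : Finset (Fin n)) (x : Fin n) : Prop :=
  x ∉ W ∧ c.typ (insert x W) ∧ 1 - η ≤ c.uh x (insert x W) ∧ c.mh (insert x W) < η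

open Classical in
/-- the set `𝔛_W` of strong exits -/
noncomputable def XX (W : Finset (Fin n)) : Finset (Fin n) := univ.filter (c.strong W)

/-- number of strong exits -/
noncomputable def N (W : Finset (Fin n)) : ℝ := ((c.XX W).card : ℝ)

/-- weak exits -/
def weak (W : Finset (Fin n)) (x : Fin n) : Prop :=
  x ∉ W ∧ c.typ (insert x W) ∧ 1 / (n : ℝ) ^ 2 ≤ c.uh x (insert x W) ∧ ¬ c.strong W x

open Classical in
/-- weak exit sum -/
noncomputable def wk (W : Finset (Fin n)) : ℝ :=
  ∑ x ∈ univ.filter (c.weak W), c.uh x (insert x W)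

open Classical in
/-- sum over the non-typical exits -/
noncomputable def aty (W : Finset (Fin n)) : ℝ :=
  ∑ x ∈ univ.filter (fun x => x ∉ W ∧ ¬ c.typ (insert x W)), c.uh x (insert x W)

/-- calm sets -/
def calm (W : Finset (Fin n)) : Prop := c.ψ W < 1 / 20

/-- probability that the up-chain from `S` meets a set `S'` with `S' \ e` light -/
noncomputable def ψe (e : Finset (Fin n)) : Finset (Fin n) → ℝ :=
  upR (fun S => c.light (S \ e)) (fun _ => 1) 0

/-- expected number of members `C` at or above `S` with `C \ e` heavy -/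
noncomputable def c2 (e : Finset (Fin n)) : Finset (Fin n) → ℝ :=
  Up (ind (fun C => C ∈ c.F ∧ c.heavy (C \ e)))

/-- typical for pairs -/
def typ2 (V : Finset (Fin n)) : Prop :=
  ∀ e ⊆ V, e.card = 2 → c.c2 e V < 1 / (n : ℝ) ^ 2 ∨ c.δ e V < 1 / (n : ℝ) ^ 2

/-- clean sets -/
def clean (V : Finset (Fin n)) : Prop := V ∉ c.F ∧ c.ν V < 1 / 2 ∧ c.typ2 V

open Classical in
/-- calm sets below `V` obtained by removing a set of `r` strong exits -/
noncomputable def PP (r : ℕ) (V : Finset (Fin n)) : Finset (Finset (Fin n)) :=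
  (powersetCard r V).filter (fun e => c.calm (V \ e) ∧ e ⊆ c.XX (V \ e))

open Classical in
/-- triples of strong exits all of whose pairs are clean -/
noncomputable def TT (V : Finset (Fin n)) : Finset (Finset (Fin n)) :=
  (c.PP 3 V).filter (fun g => ∀ z ∈ g, c.clean (V.erase z))

open Classical in
/-- number of unclean pairs of strong exits -/
noncomputable def b2 (W : Finset (Fin n)) : ℝ :=
  (((powersetCard 2 (c.XX W)).filter (fun e => ¬ c.clean (W ∪ e))).card : ℝ)

open Classical in
/-- number of triples of strong exits with all three pairs clean -/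
noncomputable def t3 (W : Finset (Fin n)) : ℝ :=
  (((powersetCard 3 (c.XX W)).filter (fun g => ∀ z ∈ g, c.clean (W ∪ g.erase z))).card : ℝ)

/-- crossing mass -/
noncomputable def Cr (t0 t1 : ℝ) (l : ℕ) : ℝ :=
  E l (fun S => c.q S * ind (fun S => c.ν S ≤ t0) S * U (ind (fun S => t1 ≤ c.ν S)) S)

/-- indicator-type functions of the calm analysis: no light set and no member at or above `S` -/
noncomputable def αp : Finset (Fin n) → ℝ :=
  upR (fun S => c.light S ∨ S ∈ c.F) (fun _ => 0) 1

open Classical in
/-- no light set and no member strictly above `S` -/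
noncomputable def α (S : Finset (Fin n)) : ℝ := if S = univ then 1 else U c.αp S

/-- a light set above which there is no light set and no member -/
noncomputable def ψa : Finset (Fin n) → ℝ := Up (fun S => ind c.light S * c.α S)

end Ctx

end Kleitman
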