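import Pool.Agent.Kleitman.Pos

/-! # Module XA: typical sets, exits (part A) -/

set_option autoImplicit false

open Finset

namespace Kleitman

namespace Ctx

variable {n : ℕ} (c : Ctx n)

theorem uh_nonneg (x : Fin n) (S : Finset (Fin n)) : 0 ≤ c.uh x S :=
  Up_nonneg fun _ _ => ind_nonneg _ _

theorem ExitsA_Up_ind_le (P : Finset (Fin n) → Prop) (S : Finset (Fin n)) :
    Up (ind P) S ≤ ((Sᶜ).card : ℝ) + 1 := by
  induction S using up_induction with
  | huniv => rw [Up_univ]; simpa using ind_le_one P univ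
  | step S hS ih =>
    rw [Up_rec]
    have hpos : 0 < (Sᶜ).card := by
      rw [card_pos, nonempty_iff_ne_empty]; intro h'; exact hS (by simpa using h')
    have h1 : U (Up (ind P)) S ≤ ((Sᶜ).card : ℝ) := by
      apply U_le (by positivity)
      intro v hv
      refine (ih v hv).trans ?_
      rw [compl_insert, card_erase_of_mem (mem_compl.2 hv), Nat.cast_sub hpos]
      simp
    have h2 := ind_le_one P S
    linarith

/-- trivial bound (one term `≤ 1` per level) -/
theorem uh_le (x : Fin n) (S : Finset (Fin n)) : c.uh x S ≤ (n : ℝ) + 1 := by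
  refine (ExitsA_Up_ind_le _ S).trans ?_
  have h : (Sᶜ).card ≤ n := by
    have := card_le_univ (Sᶜ)
    simpa using this
  have : ((Sᶜ).card : ℝ) ≤ n := by exact_mod_cast h
  linarith

/-- decomposition of the band members -/
theorem ExitsA_ind_bd (C : Finset (Fin n)) :
    ind c.bd C = ind c.bad C + ∑ x : Fin n, ind (c.cen x) C := by
  by_cases hbd : c.bd C
  · by_cases hbad : c.bad C
    · rw [ind_of hbd, ind_of hbad, Finset.sum_eq_zero, add_zero]
      intro x _
      apply ind_of_not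
      intro hx
      exact hbad.2 x hx.2.1 hx.2.2
    · have : ∃ x, c.cen x C := by
        by_contra h
        push Not at h
        exact hbad ⟨hbd, fun x hx hh => h x ⟨hbd, hx, hh⟩⟩
      obtain ⟨x, hx⟩ := this
      rw [ind_of hbd, ind_of_not hbad, zero_add, Finset.sum_eq_single x]
      · rw [ind_of hx]
      · intro y _ hyx
        apply ind_of_not
        intro hy
        exact hyx (c.cen_unique hy hx)
      · intro h; exact absurd (mem_univ _) h
  · rw [ind_of_not hbd, ind_of_not (fun h => hbd h.1), Finset.sum_eq_zero, add_zero]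
    intro x _
    exact ind_of_not (fun h => hbd h.1)

theorem ExitsA_ind_F (C : Finset (Fin n)) :
    ind (· ∈ c.F) C = ind c.nb C + ind c.bad C + ∑ x : Fin n, ind (c.cen x) C := by
  rw [add_assoc, ← c.ExitsA_ind_bd]
  by_cases hF : C ∈ c.F
  · by_cases hbd : c.bd C
    · rw [ind_of hbd, ind_of_not (P := c.nb) (fun h => h.2 hbd), ind_of (P := (· ∈ c.F)) hF,
        zero_add]
    · rw [ind_of_not hbd, ind_of (P := c.nb) ⟨hF, hbd⟩, ind_of (P := (· ∈ c.F)) hF, add_zero]
  · rw [ind_of_not (P := c.nb) (fun h => hF h.1), ind_of_not (P := c.bd) (fun h => hF h.1),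
      add_zero]
    exact ind_of_not hF

theorem ExitsA_sum_uh (S : Finset (Fin n)) :
    ∑ z ∈ S, c.uh z S + c.eeU S = Up (fun C => ∑ x : Fin n, ind (c.cen x) C) S := by
  classical
  rw [Up_sum]
  unfold eeU uh
  exact sum_add_sum_compl S (fun x => Up (ind (c.cen x)) S)

/-- splitting of the expected number of members at or above `S` -/
theorem Up_F_eq (S : Finset (Fin n)) :
    Up (ind (· ∈ c.F)) S = c.nbU S + c.bbU S + ∑ z ∈ S, c.uh z S + c.eeU S := by
  rw [add_assoc, c.ExitsA_sum_uh]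
  have : ind (· ∈ c.F) = fun C => (ind c.nb C + ind c.bad C) + ∑ x : Fin n, ind (c.cen x) C := by
    funext C
    exact c.ExitsA_ind_F C
  rw [this, Up_add, Up_add]
  rfl

theorem M_eq (S : Finset (Fin n)) : c.M S = c.bbU S + ∑ z ∈ S, c.uh z S + c.eeU S := by
  rw [add_assoc, c.ExitsA_sum_uh]
  have : ind c.bd = fun C => ind c.bad C + ∑ x : Fin n, ind (c.cen x) C := by
    funext C
    exact c.ExitsA_ind_bd C
  unfold M
  rw [this, Up_add]
  rfl

theorem ExitsA_sum_cen_le (C : Finset (Fin n)) :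
    ∑ x : Fin n, ind (c.cen x) C ≤ ind (· ∈ c.F) C := by
  rw [c.ExitsA_ind_F]
  have h1 := ind_nonneg c.nb C
  have h2 := ind_nonneg c.bad C
  linarith

/-- `E_j[Σ_{z∈S} uh z S δ_z(S)] ≤ 1.1 n^-16` for levels below the band: `E_mul_Up`, `sum_cov_le`, `omega_bound` -/
theorem E_uh_δ {j : ℕ} (hj0 : c.l0 ≤ j) (hj : j < n / 2 - c.a / 64) :
    E j (fun S => ∑ z ∈ S, c.uh z S * c.δ {z} S) ≤ 2 / (n : ℝ) ^ 16 := by
  classical
  have hn := c.nR_pos
  have hl0 := c.l0_pos
  have hjn : j ≤ n := by omega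
  -- rewrite as a sum over all z
  let az : Fin n → Finset (Fin n) → ℝ := fun z S => if z ∈ S then c.δ {z} S else 0
  have e1 : E j (fun S => ∑ z ∈ S, c.uh z S * c.δ {z} S) =
      ∑ z : Fin n, E j (fun S => az z S * Up (ind (c.cen z)) S) := by
    rw [← E_sum]
    apply E_congr
    intro S _
    have : ∀ z : Fin n, az z S * Up (ind (c.cen z)) S =
        if z ∈ S then c.uh z S * c.δ {z} S else 0 := by
      intro z
      simp only [az, uh]
      split_ifs
      · ring
      · simp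
    simp only [this]
    rw [Finset.sum_ite_mem, univ_inter]
  rw [e1]
  have e2 : ∀ z : Fin n, E j (fun S => az z S * Up (ind (c.cen z)) S) ≤
      mass (fun C => (1 / (n : ℝ) ^ 16) * ind (c.cen z) C) := by
    intro z
    rw [E_mul_Up hjn]
    apply mass_mono
    intro C
    by_cases hC : c.cen z C
    · have hCbd := hC.1
      have hCF : C ∈ c.F := hCbd.1
      have hjC : j < C.card := by have := hCbd.2.1; omega
      rw [if_pos hjC.le, ind_of hC, one_mul, mul_one]
      have hz : z ∈ C := hC.2.1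
      have hQ : ({z} : Finset (Fin n)) ⊆ C := by simpa using hz
      have h1 := sum_cov_le (l := c.l0) (j := j) c.F hQ (by simp; omega) hj0 hjC
      have h2 : c.δs {z} C ≤ 1 / (n : ℝ) ^ 16 := by
        apply c.omega_bound hCF hQ (by simp) (by simp)
        rw [← erase_eq]
        exact hC.2.2
      have h3 : ∑ W ∈ powersetCard j C, az z W =
          ∑ S ∈ (powersetCard j C).filter (fun S => {z} ⊆ S), cov c.l0 c.F {z} S := by
        rw [sum_filter]
        apply sum_congr rfl
        intro W _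
        simp only [az, singleton_subset_iff]
        rfl
      unfold avD
      rw [h3]
      have hcpos : (0 : ℝ) < ((C.card.choose j : ℕ) : ℝ) := by
        exact_mod_cast Nat.choose_pos hjC.le
      rw [div_le_iff₀ hcpos]
      refine h1.trans ?_
      have h4 : (((C.card - ({z} : Finset (Fin n)).card).choose (j - ({z} : Finset (Fin n)).card) : ℕ) : ℝ)
          ≤ ((C.card.choose j : ℕ) : ℝ) := by
        have : (C.card - 1).choose (j - 1) ≤ C.card.choose j := by
          obtain ⟨m, hm⟩ : ∃ m, C.card = m + 1 := ⟨C.card - 1, by omega⟩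
          obtain ⟨i, hi⟩ : ∃ i, j = i + 1 := ⟨j - 1, by omega⟩
          rw [hm, hi, Nat.add_sub_cancel, Nat.add_sub_cancel, Nat.choose_succ_succ]
          omega
        rw [card_singleton]
        exact_mod_cast this
      have h5 : 0 ≤ cov c.l0 (c.F.erase C) {z} C := cov_nonneg _ _ _ _
      have h6 : cov c.l0 (c.F.erase C) {z} C ≤ 1 / (n : ℝ) ^ 16 := h2
      calc _ ≤ ((C.card.choose j : ℕ) : ℝ) * cov c.l0 (c.F.erase C) {z} C := by gcongr
        _ ≤ ((C.card.choose j : ℕ) : ℝ) * (1 / (n : ℝ) ^ 16) := by gcongr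
        _ = _ := by ring
    · rw [ind_of_not hC]
      simp
  calc ∑ z : Fin n, E j (fun S => az z S * Up (ind (c.cen z)) S)
      ≤ ∑ z : Fin n, mass (fun C => (1 / (n : ℝ) ^ 16) * ind (c.cen z) C) :=
        sum_le_sum fun z _ => e2 z
    _ = (1 / (n : ℝ) ^ 16) * mass (fun C => ∑ z : Fin n, ind (c.cen z) C) := by
        rw [mass_sum, mul_sum]
        exact sum_congr rfl fun z _ => mass_const_mul _ _
    _ ≤ (1 / (n : ℝ) ^ 16) * mass (ind (· ∈ c.F)) := by
        gcongr
        exact mass_mono c.ExitsA_sum_cen_le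
    _ ≤ (1 / (n : ℝ) ^ 16) * (11 / 10) := by
        gcongr
        exact c.mass_F_le
    _ ≤ 2 / (n : ℝ) ^ 16 := by
        rw [one_div, inv_mul_eq_div]
        gcongr
        norm_num

theorem E_not_typ {k : ℕ} (hk : c.inI k) :
    E (k + 1) (ind (fun S => ¬ c.typ S)) ≤ 1 / (n : ℝ) ^ 11 := by
  have hn := c.nR_pos
  have hnl := c.num_n_large
  obtain ⟨h1, h2, -, -, -⟩ := c.inI_bounds hk
  have h3 := c.E_uh_δ (j := k + 1) (by omega) (by omega)
  have h4 : E (k + 1) (ind (fun S => ¬ c.typ S)) ≤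
      E (k + 1) (fun S => (n : ℝ) ^ 4 * ∑ z ∈ S, c.uh z S * c.δ {z} S) := by
    apply E_mono
    intro S _
    have hnn : ∀ z ∈ S, 0 ≤ c.uh z S * c.δ {z} S :=
      fun z _ => mul_nonneg (c.uh_nonneg z S) (c.δ_nonneg _ _)
    by_cases ht : c.typ S
    · rw [ind_of_not (not_not.2 ht)]
      exact mul_nonneg (by positivity) (sum_nonneg hnn)
    · rw [ind_of ht]
      unfold typ at ht
      push Not at ht
      obtain ⟨z, hz, hz1, hz2⟩ := ht
      have h5 := single_le_sum hnn hz
      have h6 : 1 / (n : ℝ) ^ 2 * (1 / (n : ℝ) ^ 2) ≤ c.uh z S * c.δ {z} S :=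
        mul_le_mul hz1 hz2 (by positivity) (c.uh_nonneg z S)
      have h7 : (1 : ℝ) = (n : ℝ) ^ 4 * (1 / (n : ℝ) ^ 2 * (1 / (n : ℝ) ^ 2)) := by
        field_simp
      calc (1 : ℝ) = (n : ℝ) ^ 4 * (1 / (n : ℝ) ^ 2 * (1 / (n : ℝ) ^ 2)) := h7
        _ ≤ (n : ℝ) ^ 4 * (c.uh z S * c.δ {z} S) := by gcongr
        _ ≤ _ := by gcongr
  rw [E_const_mul] at h4
  refine h4.trans ?_
  calc (n : ℝ) ^ 4 * E (k + 1) (fun S => ∑ z ∈ S, c.uh z S * c.δ {z} S)
      ≤ (n : ℝ) ^ 4 * (2 / (n : ℝ) ^ 16) := by gcongr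
    _ = 2 / (n : ℝ) * (1 / (n : ℝ) ^ 11) := by field_simp
    _ ≤ 1 * (1 / (n : ℝ) ^ 11) := by
        gcongr
        rw [div_le_one hn]
        linarith
    _ = _ := one_mul _

theorem E_aty {k : ℕ} (hk : c.inI k) :
    E k (fun W => c.H W * c.aty W) ≤ 1 / (n : ℝ) ^ 5 := by
  classical
  have hn := c.nR_pos
  have hnl := c.num_n_large
  obtain ⟨h1, h2, -, -, hkn⟩ := c.inI_bounds hk
  have h4 : ∀ W : Finset (Fin n), c.H W * c.aty W ≤
      (11 / 10 * ((n : ℝ) + 1)) * ∑ x ∈ Wᶜ, ind (fun S => ¬ c.typ S) (insert x W) := by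
    intro W
    have h5 : c.aty W ≤ ((n : ℝ) + 1) * ∑ x ∈ Wᶜ, ind (fun S => ¬ c.typ S) (insert x W) := by
      unfold aty
      have h6 : (univ.filter (fun x => x ∉ W ∧ ¬ c.typ (insert x W))) =
          Wᶜ.filter (fun x => ¬ c.typ (insert x W)) := by
        ext x; simp
      rw [h6, sum_filter, mul_sum]
      apply sum_le_sum
      intro x _
      by_cases hx : c.typ (insert x W)
      · rw [if_neg (not_not.2 hx), ind_of_not (not_not.2 hx)]; simp
      · rw [if_pos hx, ind_of hx, mul_one]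
        exact c.uh_le _ _
    have h7 : 0 ≤ c.aty W := sum_nonneg fun x _ => c.uh_nonneg _ _
    calc c.H W * c.aty W ≤ 11 / 10 * c.aty W := by
          gcongr
          exact c.H_le W
      _ ≤ 11 / 10 * (((n : ℝ) + 1) * ∑ x ∈ Wᶜ, ind (fun S => ¬ c.typ S) (insert x W)) := by
          gcongr
      _ = _ := by ring
  have h5 := E_mono (k := k) (fun W _ => h4 W)
  rw [E_const_mul] at h5
  have h6 := E_sum_compl (k := k) (by omega)
    (fun (W : Finset (Fin n)) (x : Fin n) => ind (fun S => ¬ c.typ S) (insert x W))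
  rw [h6] at h5
  have h7 : E (k + 1) (fun S : Finset (Fin n) =>
      ∑ x ∈ S, ind (fun S => ¬ c.typ S) (insert x (S.erase x))) =
      ((k : ℝ) + 1) * E (k + 1) (ind (fun S => ¬ c.typ S)) := by
    rw [← E_const_mul]
    apply E_congr
    intro S hS
    have : ∀ x ∈ S, ind (fun S => ¬ c.typ S) (insert x (S.erase x)) =
        ind (fun S => ¬ c.typ S) S := by
      intro x hx; rw [insert_erase hx]
    rw [sum_congr rfl this, sum_const, hS, nsmul_eq_mul]
    push_cast
    ring
  rw [h7] at h5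
  refine h5.trans ?_
  have h8 := c.E_not_typ hk
  have h9 : 0 ≤ E (k + 1) (ind (fun S => ¬ c.typ S)) := E_nonneg fun S _ => ind_nonneg _ _
  have hkn' : (k : ℝ) ≤ n := by exact_mod_cast (by omega : k ≤ n)
  have h10 : ((n : ℝ) - k) / (k + 1) * (((k : ℝ) + 1) * E (k + 1) (ind (fun S => ¬ c.typ S)))
      ≤ n * (1 / (n : ℝ) ^ 11) := by
    have : ((n : ℝ) - k) / (k + 1) * (((k : ℝ) + 1) * E (k + 1) (ind (fun S => ¬ c.typ S))) =
      ((n : ℝ) - k) * E (k + 1) (ind (fun S => ¬ c.typ S)) := by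
      have : (k : ℝ) + 1 ≠ 0 := by positivity
      field_simp
    rw [this]
    apply mul_le_mul _ h8 h9 hn.le
    have : (0 : ℝ) ≤ k := by positivity
    linarith
  have h11 : 11 / 10 * ((n : ℝ) + 1) ≤ 2 * n := by
    have : (10 : ℝ) ^ 2 ≤ n := le_trans (by norm_num) hnl
    linarith
  calc _ ≤ (11 / 10 * ((n : ℝ) + 1)) * (n * (1 / (n : ℝ) ^ 11)) := by gcongr
    _ ≤ (2 * n) * (n * (1 / (n : ℝ) ^ 11)) :=
        mul_le_mul_of_nonneg_right h11 (by positivity)
    _ = 2 / (n : ℝ) ^ 4 * (1 / (n : ℝ) ^ 5) := by field_simp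
    _ ≤ 1 * (1 / (n : ℝ) ^ 5) := by
        gcongr
        rw [div_le_one (by positivity)]
        calc (2 : ℝ) ≤ (10 ^ 60) ^ 4 := by norm_num
          _ ≤ (n : ℝ) ^ 4 := by gcongr
    _ = _ := one_mul _

/-- heavy sets: lower bound of `δ_z` -/
theorem ExitsA_heavy_δ {W : Finset (Fin n)} {z : Fin n} (h0 : c.l0 ≤ W.card) (h1 : W.card ≤ c.l1)
    (hh : c.heavy W) (hz : z ∈ W) : 43 * c.p ≤ c.δ {z} W := by
  have hl0 := c.l0_pos
  have h2 := cov_ge (l := c.l0) c.F hz h0 (by omega)
  have h3 := c.ratio_le' h0 (by omega)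
  have h4 : 44 * c.p ≤ cov c.l0 c.F ∅ W := hh
  unfold δ
  linarith

/-- facts about exits of heavy sets -/
theorem exit_facts {k : ℕ} (hk : c.inI k) {W : Finset (Fin n)} {x : Fin n} (hW : W.card = k)
    (hh : c.heavy W) (hx : x ∉ W) (ht : c.typ (insert x W))
    (hu : 1 / (n : ℝ) ^ 2 ≤ c.uh x (insert x W)) :
    (∀ z ∈ W, c.uh z (insert x W) < 1 / (n : ℝ) ^ 2) ∧ 1 - 2 * c.p ≤ c.q (insert x W) ∧
      insert x W ∉ c.F := by
  have hn := c.nR_pos
  have hnl := c.num_n_large
  have hp := c.p_pos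
  have hps := c.p_small
  have hpn := c.inv_n_le
  obtain ⟨h1, h2, -, h3, hkn⟩ := c.inI_bounds hk
  have hl0 := c.l0_pos
  have hcard : (insert x W).card = k + 1 := by rw [card_insert_of_notMem hx, hW]
  have hn2 : 1 / (n : ℝ) ^ 2 ≤ c.p / 10000 * (1 / n) := by
    calc 1 / (n : ℝ) ^ 2 = 1 / n * (1 / n) := by field_simp
      _ ≤ c.p / 10000 * (1 / n) := by gcongr
  have hn1 : 1 / (n : ℝ) ≤ 1 := by
    rw [div_le_one hn]
    linarith [show (1 : ℝ) ≤ 10 ^ 60 by norm_num]
  -- δ_x small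
  have hδx : c.δ {x} (insert x W) < 1 / (n : ℝ) ^ 2 := by
    rcases ht x (mem_insert_self x W) with h | h
    · exact absurd hu (not_le.2 h)
    · exact h
  have hδ : c.δ ∅ (insert x W) ≤ 2 * c.p := by
    have h4 := cov_split (l := c.l0) c.F (Q := {x}) (S := insert x W) (by simp) (by simp; omega)
      (by rw [hcard]; omega)
    have h5 := c.ratio_le' (s := (insert x W).card) (by rw [hcard]; omega) (by rw [hcard]; omega)
    rw [card_singleton, Nat.cast_one, one_mul] at h4
    have h6 : c.p / 10000 * (1 / n) ≤ c.p := by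
      calc c.p / 10000 * (1 / n) ≤ c.p / 10000 * 1 := by gcongr
        _ ≤ c.p := by linarith
    unfold δ at hδx ⊢
    linarith
  refine ⟨?_, ?_, ?_⟩
  · intro z hz
    rcases ht z (mem_insert_of_mem hz) with h | h
    · exact h
    · exfalso
      have h4 := cov_insert_ge (l := c.l0) c.F hx hz (by omega) (by omega)
      have h5 := c.ratio_le' (s := W.card) (by omega) (by omega)
      have h6 : 44 * c.p ≤ cov c.l0 c.F ∅ W := hh
      have hkpos : (0 : ℝ) < W.card := by
        have : 0 < W.card := by omega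
        exact_mod_cast this
      have hkn' : (W.card : ℝ) ≤ n := by exact_mod_cast (by omega : W.card ≤ n)
      have h7 : 1 / (n : ℝ) ≤ ((W.card : ℝ) + 1 - c.l0) / W.card := by
        have : (c.l0 : ℝ) + 3 ≤ W.card := by exact_mod_cast (by omega : c.l0 + 3 ≤ W.card)
        calc 1 / (n : ℝ) ≤ 1 / W.card := by gcongr
          _ ≤ _ := by
              gcongr
              linarith
      have h8 : 43 * c.p ≤ cov c.l0 c.F ∅ W - ((W.card : ℝ) - c.l0) / W.card := by linarith
      have h9 : 1 / (n : ℝ) * (43 * c.p) ≤ cov c.l0 c.F {z} (insert x W) := by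
        refine le_trans ?_ h4
        exact mul_le_mul h7 h8 (by positivity) (le_trans (by positivity) h7)
      have h10 : 1 / (n : ℝ) ^ 2 ≤ 1 / (n : ℝ) * (43 * c.p) := by
        refine hn2.trans ?_
        have : 0 < 1 / (n : ℝ) := by positivity
        nlinarith
      unfold δ at h
      linarith
  · have h4 := c.one_sub_q_le (S := insert x W) (by rw [hcard]; omega)
    linarith
  · intro hF
    have h4 := c.δ_mem (Q := ∅) hF (by simp) (by simp)
    rw [h4] at hδ
    have : (1 : ℝ) / 10 ^ 20 < 1 / 2 := by norm_num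
    linarith

/-- heavy sets see almost no centres inside: `E_k[1_heavy Σ_{z∈W} uh z W] ≤ n^-10` -/
theorem E_heavy_uh {k : ℕ} (hk : c.inI k) :
    E k (fun W => ind c.heavy W * ∑ z ∈ W, c.uh z W) ≤ 1 / (n : ℝ) ^ 10 := by
  have hn := c.nR_pos
  have hnl := c.num_n_large
  have hpn := c.inv_n_le
  have hp := c.p_pos
  obtain ⟨h1, h2, -, h3, hkn⟩ := c.inI_bounds hk
  have h4 := c.E_uh_δ (j := k) (by omega) (by omega)
  have h5 : E k (fun W => ind c.heavy W * ∑ z ∈ W, c.uh z W) ≤
      E k (fun S => (n : ℝ) * ∑ z ∈ S, c.uh z S * c.δ {z} S) := by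
    apply E_mono
    intro W hW
    have hnn : ∀ z ∈ W, 0 ≤ c.uh z W * c.δ {z} W :=
      fun z _ => mul_nonneg (c.uh_nonneg z W) (c.δ_nonneg _ _)
    by_cases hh : c.heavy W
    · rw [ind_of hh, one_mul, mul_sum]
      apply sum_le_sum
      intro z hz
      have h6 := c.ExitsA_heavy_δ (by omega) (by omega) hh hz
      have h7 : 1 ≤ (n : ℝ) * c.δ {z} W := by
        have h8 : 1 / (n : ℝ) ≤ c.δ {z} W := by linarith
        calc (1 : ℝ) = n * (1 / n) := by field_simp
          _ ≤ _ := by gcongr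
      have h8 := c.uh_nonneg z W
      nlinarith
    · rw [ind_of_not hh, zero_mul]
      exact mul_nonneg hn.le (sum_nonneg hnn)
  rw [E_const_mul] at h5
  refine h5.trans ?_
  calc (n : ℝ) * E k (fun S => ∑ z ∈ S, c.uh z S * c.δ {z} S)
      ≤ (n : ℝ) * (2 / (n : ℝ) ^ 16) := by gcongr
    _ = 2 / (n : ℝ) ^ 5 * (1 / (n : ℝ) ^ 10) := by field_simp
    _ ≤ 1 * (1 / (n : ℝ) ^ 10) := by
        gcongr
        rw [div_le_one (by positivity)]
        calc (2 : ℝ) ≤ (10 ^ 60) ^ 5 := by norm_num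
          _ ≤ (n : ℝ) ^ 5 := by gcongr
    _ = _ := one_mul _

end Ctx

end Kleitman
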