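import Pool.Agent.Kleitman.ExitsA

/-! # Module XB: weak exits, decomposition of `kh` (part B) -/

set_option autoImplicit false

open Finset

namespace Kleitman

namespace Ctx

variable {n : ℕ} (c : Ctx n)

theorem ExitsB_ind_mono {P Q : Finset (Fin n) → Prop} {S : Finset (Fin n)} (h : P S → Q S) :
    ind P S ≤ ind Q S := by
  by_cases hP : P S
  · rw [ind_of hP, ind_of (h hP)]
  · rw [ind_of_not hP]; exact ind_nonneg _ _

theorem ExitsB_uh_le_M (x : Fin n) (S : Finset (Fin n)) : c.uh x S ≤ c.M S :=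
  Up_mono fun _ _ => ExitsB_ind_mono fun h => h.1

theorem ExitsB_band {k : ℕ} (hk : c.inI k) {x : Fin n} {C : Finset (Fin n)} (hC : c.cen x C) :
    (C.card : ℝ) - k ≤ (33 / 64) * (c.a : ℝ) := by
  have h1 : C.card ≤ n / 2 + c.a / 64 := hC.1.2.2
  have h2 : n / 2 ≤ k + c.a / 2 := hk.1
  have h3 : C.card ≤ k + c.a / 2 + c.a / 64 := by omega
  have h4 : (C.card : ℝ) ≤ (k : ℝ) + ((c.a / 2 : ℕ) : ℝ) + ((c.a / 64 : ℕ) : ℝ) := by
    exact_mod_cast h3
  have h5 := c.Pos_a64
  have h6 : (((c.a / 2 : ℕ)) : ℝ) ≤ (c.a : ℝ) / 2 := by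
    exact_mod_cast Nat.cast_div_le (m := c.a) (n := 2) (α := ℝ)
  linarith

theorem eeU_le {k : ℕ} (hk : c.inI k) {W : Finset (Fin n)} (hW : W.card = k) :
    c.eeU W ≤ (11 / 10) * ((c.a : ℝ) / n) * c.kh W := by
  have hb := c.inI_bounds hk
  have hn : (0 : ℝ) < n := c.nR_pos
  unfold eeU kh
  rw [mul_sum]
  refine sum_le_sum fun x hx => ?_
  have hxW : x ∉ W := mem_compl.1 hx
  unfold uh Up
  rw [mul_sum]
  have hins : (insert x W).card = k + 1 := by rw [card_insert_of_notMem hxW, hW]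
  have e1 : ∑ C ∈ univ.filter (fun C => W ⊆ C), ind (c.cen x) C /
      (((n - W.card).choose (C.card - W.card) : ℕ) : ℝ) =
      ∑ C ∈ univ.filter (fun C => insert x W ⊆ C), ind (c.cen x) C /
      (((n - W.card).choose (C.card - W.card) : ℕ) : ℝ) := by
    symm
    refine sum_subset ?_ ?_
    · intro C hC
      rw [mem_filter] at hC ⊢
      exact ⟨mem_univ _, (subset_insert x W).trans hC.2⟩
    · intro C hC hC'
      have : ¬ c.cen x C := by
        intro hcen
        apply hC'
        rw [mem_filter] at hC ⊢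
        exact ⟨mem_univ _, insert_subset hcen.2.1 hC.2⟩
      rw [ind_of_not this, zero_div]
  rw [e1]
  refine sum_le_sum fun C hC => ?_
  rw [mem_filter] at hC
  by_cases hcen : c.cen x C
  · rw [ind_of hcen, hins, hW]
    have hCk : k + 1 ≤ C.card := by rw [← hins]; exact card_le_card hC.2
    have hCn : C.card ≤ n := by simpa using card_le_univ C
    obtain ⟨m, hm⟩ : ∃ m, n - k = m + 1 := ⟨n - k - 1, by omega⟩
    obtain ⟨j, hj⟩ : ∃ j, C.card - k = j + 1 := ⟨C.card - k - 1, by omega⟩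
    have hm' : n - (k + 1) = m := by omega
    have hj' : C.card - (k + 1) = j := by omega
    rw [hm, hj, hm', hj']
    have hjm : j ≤ m := by omega
    have h1 : ((m : ℝ) + 1) * (m.choose j : ℝ) = ((m + 1).choose (j + 1) : ℝ) * ((j : ℝ) + 1) := by
      exact_mod_cast Nat.add_one_mul_choose_eq m j
    have p1 : (0 : ℝ) < (((m + 1).choose (j + 1) : ℕ) : ℝ) := by
      exact_mod_cast Nat.choose_pos (by omega)
    have p2 : (0 : ℝ) < ((m.choose j : ℕ) : ℝ) := by
      exact_mod_cast Nat.choose_pos hjm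
    have hj1 : (j : ℝ) + 1 ≤ (33 / 64) * (c.a : ℝ) := by
      have h2 := c.ExitsB_band hk hcen
      have h3 : (C.card : ℝ) = k + (j + 1) := by
        have : C.card = k + (j + 1) := by omega
        exact_mod_cast this
      linarith
    have hm1 : (1 / 2 : ℝ) * n ≤ (m : ℝ) + 1 := by
      have h2 : (n : ℝ) = k + (m + 1) := by
        have : n = k + (m + 1) := by omega
        exact_mod_cast this
      have h3 : 2 * k ≤ n := by have := hk.2; omega
      have h4 : (2 : ℝ) * k ≤ n := by exact_mod_cast h3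
      linarith
    rw [mul_one_div, div_le_div_iff₀ p1 p2]
    have hm0 : (0 : ℝ) < (m : ℝ) + 1 := by positivity
    have h5 : ((j : ℝ) + 1) ≤ (11 / 10) * ((c.a : ℝ) / n) * ((m : ℝ) + 1) := by
      calc ((j : ℝ) + 1) ≤ (33 / 64) * (c.a : ℝ) := hj1
        _ ≤ (11 / 20) * (c.a : ℝ) := by
            have : (0 : ℝ) ≤ (c.a : ℝ) := by positivity
            linarith
        _ = (11 / 10) * ((c.a : ℝ) / n) * ((1 / 2 : ℝ) * n) := by field_simp; ring
        _ ≤ (11 / 10) * ((c.a : ℝ) / n) * ((m : ℝ) + 1) := by gcongr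
    have h6 : 1 * (m.choose j : ℝ) * ((m : ℝ) + 1) ≤
        (11 / 10) * ((c.a : ℝ) / n) * ((m + 1).choose (j + 1) : ℝ) * ((m : ℝ) + 1) := by
      calc 1 * (m.choose j : ℝ) * ((m : ℝ) + 1)
          = ((m + 1).choose (j + 1) : ℝ) * ((j : ℝ) + 1) := by rw [← h1]; ring
        _ ≤ ((m + 1).choose (j + 1) : ℝ) * ((11 / 10) * ((c.a : ℝ) / n) * ((m : ℝ) + 1)) := by
            gcongr
        _ = (11 / 10) * ((c.a : ℝ) / n) * ((m + 1).choose (j + 1) : ℝ) * ((m : ℝ) + 1) := by ring
    exact le_of_mul_le_mul_right h6 hm0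
  · rw [ind_of_not hcen]; simp

/-- averages of the indicator of not containing x -/
theorem ExitsB_avD_notMem {j : ℕ} {C : Finset (Fin n)} {x : Fin n} (hx : x ∈ C)
    (hj : j ≤ C.card) :
    avD j (fun S => if x ∈ S then (0 : ℝ) else 1) C = ((C.card : ℝ) - j) / C.card := by
  unfold avD
  have h1 : ∑ W ∈ powersetCard j C, (if x ∈ W then (0 : ℝ) else 1) =
      (((C.card - 1).choose j : ℕ) : ℝ) := by
    have : ∑ W ∈ powersetCard j C, (if x ∈ W then (0 : ℝ) else 1) =
        ∑ W ∈ (powersetCard j C).filter (fun W => ¬ x ∈ W), (1 : ℝ) := by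
      rw [sum_filter]
      refine sum_congr rfl fun W _ => ?_
      by_cases hxW : x ∈ W <;> simp [hxW]
    rw [this, sum_const, nsmul_eq_mul, mul_one]
    congr 1
    have hset : (powersetCard j C).filter (fun W => ¬ x ∈ W) = powersetCard j (C.erase x) := by
      ext W
      simp only [mem_filter, mem_powersetCard, subset_erase]
      tauto
    rw [hset, card_powersetCard, card_erase_of_mem hx]
  rw [h1]
  obtain ⟨m, hm⟩ : ∃ m, C.card = m + 1 := ⟨C.card - 1, by have := card_pos.2 ⟨x, hx⟩; omega⟩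
  rw [hm] at hj ⊢
  have h6 : m + 1 - 1 = m := rfl
  rw [h6]
  have p1 : (0 : ℝ) < (((m + 1).choose j : ℕ) : ℝ) := by
    exact_mod_cast Nat.choose_pos hj
  have p3 : (0 : ℝ) < (m : ℝ) + 1 := by positivity
  have h2 : ((m.choose j : ℕ) : ℝ) * ((m : ℝ) + 1) =
      (((m + 1).choose j : ℕ) : ℝ) * ((m : ℝ) + 1 - j) := by
    have := Nat.choose_mul_succ_eq m j
    have h3 : ((m + 1 - j : ℕ) : ℝ) = (m : ℝ) + 1 - j := by
      rw [Nat.cast_sub hj]; push_cast; ring
    rw [← h3]
    exact_mod_cast this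
  push_cast
  rw [div_eq_div_iff (ne_of_gt p1) (ne_of_gt p3), h2]
  ring

theorem E_eeU_le {k : ℕ} (hk : c.inI k) : E (k + 1) c.eeU ≤ 5 * ((c.a : ℝ) / n) := by
  have hb := c.inI_bounds hk
  have hn : (0 : ℝ) < n := c.nR_pos
  have e1 : E (k + 1) c.eeU = ∑ x : Fin n, E (k + 1) (fun S => (if x ∈ S then (0 : ℝ) else 1) *
      Up (ind (c.cen x)) S) := by
    rw [← E_sum]
    refine E_congr fun S _ => ?_
    unfold eeU
    rw [← sum_subset (subset_univ Sᶜ)]
    · refine sum_congr rfl fun x hx => ?_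
      rw [if_neg (mem_compl.1 hx), one_mul]
    · intro x _ hx
      have : x ∈ S := by simpa using hx
      rw [if_pos this, zero_mul]
  rw [e1, sum_congr rfl fun x _ => E_mul_Up (by omega : k + 1 ≤ n)
    (fun S => if x ∈ S then (0 : ℝ) else 1) (ind (c.cen x)), ← mass_sum]
  have key : ∀ C : Finset (Fin n), (∑ x : Fin n, if k + 1 ≤ C.card then ind (c.cen x) C *
      avD (k + 1) (fun S => if x ∈ S then (0 : ℝ) else 1) C else 0) ≤
      (2 * ((c.a : ℝ) / n)) * ind (· ∈ c.F) C := by
    intro C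
    by_cases hkC : k + 1 ≤ C.card
    · simp only [if_pos hkC]
      have hC49 : (49 / 100 : ℝ) * n ≤ C.card := c.size_ge (by omega)
      have hCpos : (0 : ℝ) < (C.card : ℝ) := by
        have : 0 < C.card := by omega
        exact_mod_cast this
      rw [← sum_subset (subset_univ C)]
      · calc ∑ x ∈ C, ind (c.cen x) C * avD (k + 1) (fun S => if x ∈ S then (0 : ℝ) else 1) C
            ≤ ∑ x ∈ C, ind (c.cen x) C * (2 * ((c.a : ℝ) / n)) := by
              refine sum_le_sum fun x hx => ?_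
              by_cases hcen : c.cen x C
              · refine mul_le_mul_of_nonneg_left ?_ (ind_nonneg _ _)
                rw [ExitsB_avD_notMem hx hkC]
                have h2 := c.ExitsB_band hk hcen
                rw [div_le_iff₀ hCpos]
                push_cast
                have ha : (0 : ℝ) ≤ (c.a : ℝ) := by positivity
                calc (C.card : ℝ) - (k + 1) ≤ (33 / 64) * (c.a : ℝ) := by linarith
                  _ ≤ (98 / 100) * (c.a : ℝ) := by linarith
                  _ = 2 * ((c.a : ℝ) / n) * ((49 / 100 : ℝ) * n) := by field_simp; ring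
                  _ ≤ 2 * ((c.a : ℝ) / n) * C.card := by gcongr
              · rw [ind_of_not hcen]; simp
          _ = (2 * ((c.a : ℝ) / n)) * ∑ x ∈ C, ind (c.cen x) C := by rw [← sum_mul, mul_comm]
          _ ≤ (2 * ((c.a : ℝ) / n)) * ind (· ∈ c.F) C := by
              refine mul_le_mul_of_nonneg_left (c.Pos_sum_cen_le C) (by positivity)
      · intro x _ hx
        have : ¬ c.cen x C := fun h => hx h.2.1
        rw [ind_of_not this, zero_mul]
    · simp only [if_neg hkC, sum_const_zero]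
      have := ind_nonneg (· ∈ c.F) C
      positivity
  calc _ ≤ mass (fun C => (2 * ((c.a : ℝ) / n)) * ind (· ∈ c.F) C) := mass_mono key
    _ = (2 * ((c.a : ℝ) / n)) * mass (ind (· ∈ c.F)) := mass_const_mul _ _
    _ ≤ (2 * ((c.a : ℝ) / n)) * (11 / 10) := by
        refine mul_le_mul_of_nonneg_left c.mass_F_le (by positivity)
    _ ≤ 5 * ((c.a : ℝ) / n) := by
        have : (0 : ℝ) ≤ (c.a : ℝ) / n := by positivity
        linarith

/-- `H(S - x) ≤ (1.1 n / a) H(S)` at level `k + 1` -/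
theorem H_erase_le {k : ℕ} (hk : c.inI k) {S : Finset (Fin n)} (hS : S.card = k + 1)
    {x : Fin n} (hx : x ∈ S) : c.H (S.erase x) ≤ (11 / 10 * (n : ℝ) / c.a) * c.H S := by
  have hb := c.inI_bounds hk
  have hn : (0 : ℝ) < n := c.nR_pos
  have ha : (0 : ℝ) < (c.a : ℝ) := by
    have : 0 < c.a := by have := c.a_large; omega
    exact_mod_cast this
  unfold H Dn
  rw [mul_sum]
  have hsub : (S.erase x).powerset ⊆ S.powerset := powerset_mono.2 (erase_subset x S)
  refine le_trans ?_ (sum_le_sum_of_subset_of_nonneg hsub ?_)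
  · refine sum_le_sum fun A hA => ?_
    by_cases hG : c.isG A
    · rw [ind_of hG, card_erase_of_mem hx, hS]
      have h6 : k + 1 - 1 = k := rfl
      rw [h6]
      have hAk : A.card ≤ k := by
        have := card_le_card (mem_powerset.1 hA)
        rw [card_erase_of_mem hx, hS] at this
        simpa using this
      have h1 : ((k.choose A.card : ℕ) : ℝ) * ((k : ℝ) + 1) =
          (((k + 1).choose A.card : ℕ) : ℝ) * ((k : ℝ) + 1 - A.card) := by
        have := Nat.choose_mul_succ_eq k A.card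
        have h2 : ((k + 1 - A.card : ℕ) : ℝ) = (k : ℝ) + 1 - A.card := by
          rw [Nat.cast_sub (by omega)]; push_cast; ring
        rw [← h2]
        exact_mod_cast this
      have p1 : (0 : ℝ) < (((k + 1).choose A.card : ℕ) : ℝ) := by
        exact_mod_cast Nat.choose_pos (by omega)
      have p2 : (0 : ℝ) < ((k.choose A.card : ℕ) : ℝ) := by
        exact_mod_cast Nat.choose_pos hAk
      have hge : (c.a : ℝ) / 2 ≤ (k : ℝ) + 1 - A.card := by
        have h3 : A.card + c.a ≤ n / 2 := hG.2.2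
        have h4 : n / 2 ≤ k + c.a / 2 := hk.1
        have h5 : A.card + c.a ≤ k + c.a / 2 := by omega
        have h7 : (A.card : ℝ) + c.a ≤ k + ((c.a / 2 : ℕ) : ℝ) := by exact_mod_cast h5
        have h8 : (((c.a / 2 : ℕ)) : ℝ) ≤ (c.a : ℝ) / 2 := by
          exact_mod_cast Nat.cast_div_le (m := c.a) (n := 2) (α := ℝ)
        linarith
      have hk51 : (k : ℝ) + 1 ≤ (51 / 100 : ℝ) * n := by
        have := c.size_le (s := k + 1) (by omega)
        push_cast at this
        exact this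
      have hk0 : (0 : ℝ) < (k : ℝ) + 1 := by positivity
      rw [mul_one_div, div_le_div_iff₀ p2 p1]
      have h9 : ((k : ℝ) + 1) ≤ (11 / 10 * (n : ℝ) / c.a) * ((k : ℝ) + 1 - A.card) := by
        calc (k : ℝ) + 1 ≤ (51 / 100 : ℝ) * n := hk51
          _ ≤ (11 / 20) * n := by linarith
          _ = (11 / 10 * (n : ℝ) / c.a) * ((c.a : ℝ) / 2) := by field_simp; ring
          _ ≤ (11 / 10 * (n : ℝ) / c.a) * ((k : ℝ) + 1 - A.card) := by gcongr
      have h10 : 1 * (((k + 1).choose A.card : ℕ) : ℝ) * ((k : ℝ) + 1) ≤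
          (11 / 10 * (n : ℝ) / c.a) * ((k.choose A.card : ℕ) : ℝ) * ((k : ℝ) + 1) := by
        calc 1 * (((k + 1).choose A.card : ℕ) : ℝ) * ((k : ℝ) + 1)
            ≤ 1 * (((k + 1).choose A.card : ℕ) : ℝ) *
              ((11 / 10 * (n : ℝ) / c.a) * ((k : ℝ) + 1 - A.card)) := by gcongr
          _ = (11 / 10 * (n : ℝ) / c.a) *
              ((((k + 1).choose A.card : ℕ) : ℝ) * ((k : ℝ) + 1 - A.card)) := by ring
          _ = (11 / 10 * (n : ℝ) / c.a) * ((k.choose A.card : ℕ) : ℝ) * ((k : ℝ) + 1) := by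
              rw [← h1]; ring
      exact le_of_mul_le_mul_right h10 hk0
    · rw [ind_of_not hG]; simp
  · intro A _ _
    have := ind_nonneg c.isG A
    positivity

theorem ExitsB_E_Up_le {j : ℕ} (hj : j ≤ n) {g : Finset (Fin n) → ℝ} (hg : ∀ C, 0 ≤ g C) :
    E j (Up g) ≤ mass g := by
  have e1 : E j (Up g) = E j (fun S => (fun _ => (1 : ℝ)) S * Up g S) :=
    E_congr fun S _ => by simp
  rw [e1, E_mul_Up hj]
  refine mass_mono fun C => ?_
  split_ifs with h
  · have : avD j (fun _ => (1 : ℝ)) C = 1 := by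
      unfold avD
      rw [sum_const, card_powersetCard, nsmul_eq_mul, mul_one]
      refine div_self (ne_of_gt ?_)
      exact_mod_cast Nat.choose_pos h
    rw [this, mul_one]
  · exact hg C

theorem ExitsB_E_H_bbU {k : ℕ} (hk : c.inI k) :
    E (k + 1) (fun S => c.H S * c.bbU S) ≤ 1100 * ((c.a : ℝ) / n) * c.p := by
  have hb := c.inI_bounds hk
  have hn : (0 : ℝ) < n := c.nR_pos
  have hp := c.p_pos
  have e1 : E (k + 1) (fun S => c.H S * c.bbU S) = E (k + 1) (fun S => c.H S * Up (ind c.bad) S) :=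
    rfl
  rw [e1, E_mul_Up (by omega)]
  have hc0 : 0 ≤ 1000 * ((c.a : ℝ) / n) * c.p := by positivity
  have key : ∀ C : Finset (Fin n), (if k + 1 ≤ C.card then ind c.bad C * avD (k + 1) c.H C else 0) ≤
      (1000 * ((c.a : ℝ) / n) * c.p) * ind (· ∈ c.F) C := by
    intro C
    by_cases hbad : c.bad C
    · rw [ind_of hbad, ind_of (P := (· ∈ c.F)) hbad.1.1]
      split_ifs with hkC
      · rw [one_mul, mul_one, avD_harmonic hkC]
        · exact c.LB hbad
        · intro T _ hT
          refine c.D_H ?_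
          have := hk.1
          have := c.a_large
          omega
      · linarith
    · rw [ind_of_not hbad, zero_mul, ite_self]
      have := ind_nonneg (· ∈ c.F) C
      positivity
  calc _ ≤ mass (fun C => (1000 * ((c.a : ℝ) / n) * c.p) * ind (· ∈ c.F) C) := mass_mono key
    _ = (1000 * ((c.a : ℝ) / n) * c.p) * mass (ind (· ∈ c.F)) := mass_const_mul _ _
    _ ≤ (1000 * ((c.a : ℝ) / n) * c.p) * (11 / 10) := by
        refine mul_le_mul_of_nonneg_left c.mass_F_le hc0
    _ = 1100 * ((c.a : ℝ) / n) * c.p := by ring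

include c in
theorem ExitsB_inv_n : 1 / (n : ℝ) ≤ 1 / 10 ^ 20 := by
  have h1 := c.inv_n_le
  have h2 := c.p_small
  have h3 := c.p_pos
  calc 1 / (n : ℝ) ≤ c.p / 10000 := h1
    _ ≤ c.p := by linarith
    _ ≤ 1 / 10 ^ 20 := h2

theorem ExitsB_nonneg (S : Finset (Fin n)) :
    0 ≤ c.nbU S ∧ 0 ≤ c.bbU S ∧ 0 ≤ c.eeU S ∧ 0 ≤ c.mh S := by
  refine ⟨Up_nonneg fun _ _ => ind_nonneg _ _, Up_nonneg fun _ _ => ind_nonneg _ _,
    sum_nonneg fun _ _ => Up_nonneg fun _ _ => ind_nonneg _ _,
    Up_nonneg fun C _ => mul_nonneg (ind_nonneg _ _) (U_nonneg fun v _ =>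
      Up_nonneg fun _ _ => ind_nonneg _ _)⟩

theorem ExitsB_weak_pt {k : ℕ} (hk : c.inI k) {W : Finset (Fin n)} {x : Fin n} (hW : W.card = k)
    (hh : c.heavy W) (hw : c.weak W x) :
    c.uh x (insert x W) ≤ (2 / η) * (c.ν (insert x W) + c.nbU (insert x W) +
      c.bbU (insert x W) + c.eeU (insert x W) + c.mh (insert x W)) := by
  obtain ⟨f1, f2, f3⟩ := c.exit_facts hk hW hh hw.1 hw.2.1 hw.2.2.1
  obtain ⟨n1, n2, n3, n4⟩ := c.ExitsB_nonneg (insert x W)
  have n5 := c.ν_nonneg (insert x W)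
  have hη : η = 1 / 2000 := rfl
  have hη2 : (2 : ℝ) / η = 4000 := by rw [hη]; norm_num
  rw [hη2]
  by_cases hm : η ≤ c.mh (insert x W)
  · have h1 := c.ExitsB_uh_le_M x (insert x W)
    have h2 := c.M_le (insert x W)
    rw [hη] at hm
    linarith
  · have hlt : c.uh x (insert x W) < 1 - η := by
      by_contra hge
      exact hw.2.2.2 ⟨hw.1, hw.2.1, not_lt.1 hge, not_le.1 hm⟩
    have h1 := c.one_sub_ν_le (insert x W)
    rw [c.Up_F_eq (insert x W), sum_insert hw.1] at h1
    have h2 : ∑ z ∈ W, c.uh z (insert x W) ≤ 1 / (n : ℝ) := by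
      have hn : (0 : ℝ) < n := c.nR_pos
      calc ∑ z ∈ W, c.uh z (insert x W) ≤ ∑ z ∈ W, 1 / (n : ℝ) ^ 2 :=
            sum_le_sum fun z hz => (f1 z hz).le
        _ = (W.card : ℝ) * (1 / (n : ℝ) ^ 2) := by rw [sum_const, nsmul_eq_mul]
        _ ≤ (n : ℝ) * (1 / (n : ℝ) ^ 2) := by
            gcongr
            have : W.card ≤ n := by simpa using card_le_univ W
            exact_mod_cast this
        _ = 1 / (n : ℝ) := by field_simp
    have h3 := c.ExitsB_inv_n
    have h4 : (1 : ℝ) / 10 ^ 20 ≤ 1 / 4000 := by norm_num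
    rw [hη] at hlt
    linarith

theorem ExitsB_sum_ind_le_one {α : Type*} [DecidableEq α] (s : Finset α) (f : α → ℝ)
    (h01 : ∀ x ∈ s, f x = 0 ∨ f x = 1)
    (huniq : ∀ x ∈ s, ∀ y ∈ s, f x ≠ 0 → f y ≠ 0 → x = y) : ∑ x ∈ s, f x ≤ 1 := by
  by_cases h : ∃ x ∈ s, f x ≠ 0
  · obtain ⟨x, hx, hfx⟩ := h
    rw [sum_eq_single_of_mem x hx]
    · rcases h01 x hx with h | h
      · exact absurd h hfx
      · exact h.le
    · intro y hy hyx
      by_contra hfy
      exact hyx (huniq y hy x hx hfy hfx)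
  · push Not at h
    rw [sum_eq_zero h]
    exact zero_le_one

theorem ExitsB_transfer {k : ℕ} (hk : c.inI k) (Φ : Finset (Fin n) → ℝ) (hΦ : ∀ S, 0 ≤ Φ S) :
    E k (fun W => ∑ x ∈ Wᶜ, ind (fun W => c.heavy W ∧ c.weak W x) W * Φ (insert x W)) ≤
      (11 / 10) * E (k + 1) Φ := by
  have hb := c.inI_bounds hk
  have hn : (0 : ℝ) < n := c.nR_pos
  rw [E_sum_compl (by omega) (fun W x => ind (fun W => c.heavy W ∧ c.weak W x) W *
    Φ (insert x W))]
  have h1 : E (k + 1) (fun S => ∑ x ∈ S, ind (fun W => c.heavy W ∧ c.weak W x) (S.erase x) *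
      Φ (insert x (S.erase x))) ≤ E (k + 1) Φ := by
    refine E_mono fun S hS => ?_
    have e1 : ∑ x ∈ S, ind (fun W => c.heavy W ∧ c.weak W x) (S.erase x) *
        Φ (insert x (S.erase x)) =
        (∑ x ∈ S, ind (fun W => c.heavy W ∧ c.weak W x) (S.erase x)) * Φ S := by
      rw [sum_mul]
      refine sum_congr rfl fun x hx => ?_
      rw [insert_erase hx]
    rw [e1]
    have e2 : ∑ x ∈ S, ind (fun W => c.heavy W ∧ c.weak W x) (S.erase x) ≤ 1 := by
      refine ExitsB_sum_ind_le_one S _ ?_ ?_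
      · intro x _
        by_cases h : c.heavy (S.erase x) ∧ c.weak (S.erase x) x
        · right; exact ind_of (P := fun W => c.heavy W ∧ c.weak W x) h
        · left; exact ind_of_not (P := fun W => c.heavy W ∧ c.weak W x) h
      · intro x hx y hy hfx hfy
        have hx' : c.heavy (S.erase x) ∧ c.weak (S.erase x) x := by
          by_contra h
          exact hfx (ind_of_not (P := fun W => c.heavy W ∧ c.weak W x) h)
        have hy' : c.heavy (S.erase y) ∧ c.weak (S.erase y) y := by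
          by_contra h
          exact hfy (ind_of_not (P := fun W => c.heavy W ∧ c.weak W y) h)
        by_contra hxy
        have hcard : (S.erase x).card = k := by rw [card_erase_of_mem hx, hS]; rfl
        obtain ⟨f1, _, _⟩ := c.exit_facts hk hcard hx'.1 hx'.2.1 hx'.2.2.1 hx'.2.2.2.1
        have f4 := f1 y (mem_erase.2 ⟨fun h => hxy h.symm, hy⟩)
        rw [insert_erase hx] at f4
        have f5 := hy'.2.2.2.1
        rw [insert_erase hy] at f5
        linarith
    calc _ ≤ 1 * Φ S := mul_le_mul_of_nonneg_right e2 (hΦ S)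
      _ = Φ S := one_mul _
  have h2 : ((n : ℝ) - k) / ((k : ℝ) + 1) ≤ 11 / 10 := by
    have hk49 : (49 / 100 : ℝ) * n ≤ k := c.size_ge (by omega)
    rw [div_le_iff₀ (by positivity)]
    linarith
  have h3 : 0 ≤ E (k + 1) Φ := E_nonneg fun S _ => hΦ S
  have h4 : 0 ≤ ((n : ℝ) - k) / ((k : ℝ) + 1) := by
    have : (k : ℝ) ≤ n := by
      have : k ≤ n := by omega
      exact_mod_cast this
    exact div_nonneg (by linarith) (by positivity)
  calc ((n : ℝ) - k) / ((k : ℝ) + 1) * _ ≤ ((n : ℝ) - k) / ((k : ℝ) + 1) * E (k + 1) Φ :=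
        mul_le_mul_of_nonneg_left h1 h4
    _ ≤ (11 / 10) * E (k + 1) Φ := mul_le_mul_of_nonneg_right h2 h3

/-- the function dominating the weak exits -/
noncomputable def ExitsB_Φ (S : Finset (Fin n)) : ℝ :=
  4000 * ((11 / 10) * (2 * (c.q S * c.ν S) + (c.nbU S + (c.eeU S + c.mh S))) +
    (11 / 10 * (n : ℝ) / c.a) * (c.H S * c.bbU S))

theorem ExitsB_Φ_nonneg (S : Finset (Fin n)) : 0 ≤ c.ExitsB_Φ S := by
  unfold ExitsB_Φ
  obtain ⟨n1, n2, n3, n4⟩ := c.ExitsB_nonneg S
  have n5 := c.ν_nonneg S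
  have n6 := c.q_nonneg S
  have n7 := c.H_nonneg S
  have n8 : (0 : ℝ) ≤ 11 / 10 * (n : ℝ) / c.a := by positivity
  positivity

theorem ExitsB_E_Φ {k : ℕ} (hk : c.inI k) :
    E (k + 1) c.ExitsB_Φ ≤ 4000 * ((11 / 10) * (2 * c.P0 + (c.κ0 + 6 * ((c.a : ℝ) / n))) +
      1210 * c.p) := by
  have hb := c.inI_bounds hk
  have hn : (0 : ℝ) < n := c.nR_pos
  have ha : (0 : ℝ) < (c.a : ℝ) := by
    have : 0 < c.a := by have := c.a_large; omega
    exact_mod_cast this
  have e1 : E (k + 1) c.ExitsB_Φ = 4000 * ((11 / 10) * (2 * E (k + 1) (fun S => c.q S * c.ν S) +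
      (E (k + 1) c.nbU + (E (k + 1) c.eeU + E (k + 1) c.mh))) +
      (11 / 10 * (n : ℝ) / c.a) * E (k + 1) (fun S => c.H S * c.bbU S)) := by
    rw [← E_add c.eeU c.mh, ← E_add c.nbU (fun S => c.eeU S + c.mh S),
      ← E_const_mul 2 (fun S => c.q S * c.ν S), ← E_add (fun S => 2 * (c.q S * c.ν S))
        (fun S => c.nbU S + (c.eeU S + c.mh S)),
      ← E_const_mul (11 / 10), ← E_const_mul (11 / 10 * (n : ℝ) / c.a),
      ← E_add, ← E_const_mul 4000]
    rfl
  rw [e1, c.E_q_mul_ν (by omega)]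
  have h1 : E (k + 1) c.nbU ≤ c.κ0 := ExitsB_E_Up_le (by omega) fun C => ind_nonneg _ _
  have h2 := c.E_eeU_le hk
  have h3 := c.E_mh_le (j := k + 1) (by omega)
  have h4 := c.ExitsB_E_H_bbU hk
  have h5 : (11 / 10 * (n : ℝ) / c.a) * E (k + 1) (fun S => c.H S * c.bbU S) ≤ 1210 * c.p := by
    calc (11 / 10 * (n : ℝ) / c.a) * E (k + 1) (fun S => c.H S * c.bbU S)
        ≤ (11 / 10 * (n : ℝ) / c.a) * (1100 * ((c.a : ℝ) / n) * c.p) := by gcongr
      _ = 1210 * c.p := by field_simp; ring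
  gcongr 4000 * (_ * (2 * c.P0 + (?_)) + ?_)
  linarith

/-- the weak exits -/
theorem weak_bound {k : ℕ} (hk : c.inI k) :
    E k (fun W => ind c.heavy W * (c.H W * c.wk W)) ≤ 10 ^ 8 * (c.P0 + c.p + c.κ0) := by
  have hb := c.inI_bounds hk
  have hp0 := c.p_pos
  have hp1 := c.p_small
  have ha := c.a_div_n_le
  have key : ∀ W : Finset (Fin n), W.card = k → ind c.heavy W * (c.H W * c.wk W) ≤
      ∑ x ∈ Wᶜ, ind (fun W => c.heavy W ∧ c.weak W x) W * c.ExitsB_Φ (insert x W) := by
    intro W hW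
    have hwk : c.wk W = ∑ x ∈ Wᶜ, ind (fun W => c.weak W x) W * c.uh x (insert x W) := by
      unfold wk
      rw [sum_filter, ← sum_subset (subset_univ Wᶜ)]
      · refine sum_congr rfl fun x _ => ?_
        by_cases hw : c.weak W x
        · rw [if_pos hw, ind_of (P := fun W => c.weak W x) hw, one_mul]
        · rw [if_neg hw, ind_of_not (P := fun W => c.weak W x) hw, zero_mul]
      · intro x _ hx
        have hxW : x ∈ W := by simpa using hx
        rw [if_neg (fun h : c.weak W x => h.1 hxW)]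
    rw [hwk, mul_sum, mul_sum]
    refine sum_le_sum fun x hx => ?_
    by_cases hh : c.heavy W
    · by_cases hw : c.weak W x
      · rw [ind_of hh, ind_of (P := fun W => c.weak W x) hw,
          ind_of (P := fun W => c.heavy W ∧ c.weak W x) ⟨hh, hw⟩, one_mul, one_mul, one_mul]
        have h1 := c.ExitsB_weak_pt hk hW hh hw
        obtain ⟨f1, f2, f3⟩ := c.exit_facts hk hW hh hw.1 hw.2.1 hw.2.2.1
        obtain ⟨n1, n2, n3, n4⟩ := c.ExitsB_nonneg (insert x W)
        have n5 := c.ν_nonneg (insert x W)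
        have hη2 : (2 : ℝ) / η = 4000 := by
          have hη : η = 1 / 2000 := rfl
          rw [hη]; norm_num
        rw [hη2] at h1
        have hH0 := c.H_nonneg W
        have hH1 := c.H_le W
        have hxW : x ∉ W := hw.1
        have hH2 : c.H W ≤ (11 / 10 * (n : ℝ) / c.a) * c.H (insert x W) := by
          have := c.H_erase_le hk (S := insert x W) (by rw [card_insert_of_notMem hxW, hW])
            (mem_insert_self x W)
          rwa [erase_insert hxW] at this
        have hq : c.ν (insert x W) ≤ 2 * (c.q (insert x W) * c.ν (insert x W)) := by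
          have h3 : (1 : ℝ) / 2 ≤ c.q (insert x W) := by
            have : (1 : ℝ) / 10 ^ 20 ≤ 1 / 4 := by norm_num
            linarith
          have h4 : (1 / 2 : ℝ) * c.ν (insert x W) ≤ c.q (insert x W) * c.ν (insert x W) :=
            mul_le_mul_of_nonneg_right h3 n5
          linarith
        unfold ExitsB_Φ
        calc c.H W * c.uh x (insert x W) ≤ c.H W * (4000 * (c.ν (insert x W) +
              c.nbU (insert x W) + c.bbU (insert x W) + c.eeU (insert x W) +
              c.mh (insert x W))) := by gcongr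
          _ = 4000 * (c.H W * (c.ν (insert x W) + (c.nbU (insert x W) +
              (c.eeU (insert x W) + c.mh (insert x W)))) + c.H W * c.bbU (insert x W)) := by ring
          _ ≤ 4000 * ((11 / 10) * (2 * (c.q (insert x W) * c.ν (insert x W)) +
              (c.nbU (insert x W) + (c.eeU (insert x W) + c.mh (insert x W)))) +
              (11 / 10 * (n : ℝ) / c.a) * c.H (insert x W) * c.bbU (insert x W)) := by
              gcongr
          _ = _ := by ring
      · rw [ind_of_not (P := fun W => c.weak W x) hw, zero_mul, mul_zero, mul_zero]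
        have := ind_nonneg (fun W => c.heavy W ∧ c.weak W x) W
        have := c.ExitsB_Φ_nonneg (insert x W)
        positivity
    · rw [ind_of_not hh, zero_mul]
      have := ind_nonneg (fun W => c.heavy W ∧ c.weak W x) W
      have := c.ExitsB_Φ_nonneg (insert x W)
      positivity
  have h1 := E_mono key
  have h2 := c.ExitsB_transfer hk c.ExitsB_Φ c.ExitsB_Φ_nonneg
  have h3 := c.ExitsB_E_Φ hk
  have hP0 : 0 ≤ c.P0 := c.q_nonneg univ
  have hκ : 0 ≤ c.κ0 := mass_nonneg fun _ => ind_nonneg _ _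
  calc _ ≤ _ := h1
    _ ≤ (11 / 10) * E (k + 1) c.ExitsB_Φ := h2
    _ ≤ (11 / 10) * (4000 * ((11 / 10) * (2 * c.P0 + (c.κ0 + 6 * ((c.a : ℝ) / n))) +
      1210 * c.p)) := by gcongr
    _ ≤ 10 ^ 8 * (c.P0 + c.p + c.κ0) := by linarith

/-- decomposition of `kh` on heavy sets -/
theorem kh_le {k : ℕ} (hk : c.inI k) {W : Finset (Fin n)} (hW : W.card = k) :
    c.kh W ≤ 1 / (n : ℝ) + c.aty W + c.wk W + (1 + η) * c.N W := by
  have hb := c.inI_bounds hk
  have hn : (0 : ℝ) < n := c.nR_pos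
  classical
  have e1 : c.aty W = ∑ x ∈ Wᶜ, if ¬ c.typ (insert x W) then c.uh x (insert x W) else 0 := by
    unfold aty
    rw [sum_filter, ← sum_subset (subset_univ Wᶜ)]
    · refine sum_congr rfl fun x hx => ?_
      have hxW : x ∉ W := mem_compl.1 hx
      by_cases ht : c.typ (insert x W)
      · rw [if_neg (not_not.2 ht), if_neg (fun h => h.2 ht)]
      · rw [if_pos ht, if_pos ⟨hxW, ht⟩]
    · intro x _ hx
      have hxW : x ∈ W := by simpa using hx
      rw [if_neg (fun h => h.1 hxW)]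
  have e2 : c.wk W = ∑ x ∈ Wᶜ, if c.weak W x then c.uh x (insert x W) else 0 := by
    unfold wk
    rw [sum_filter, ← sum_subset (subset_univ Wᶜ)]
    intro x _ hx
    have hxW : x ∈ W := by simpa using hx
    rw [if_neg (fun h : c.weak W x => h.1 hxW)]
  have e3 : (1 + η) * c.N W = ∑ x ∈ Wᶜ, if c.strong W x then (1 + η) else 0 := by
    unfold N XX
    rw [card_filter, Nat.cast_sum, mul_sum, ← sum_subset (subset_univ Wᶜ)]
    · refine sum_congr rfl fun x hx => ?_
      by_cases hs : c.strong W x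
      · rw [if_pos hs, if_pos hs]; simp
      · rw [if_neg hs, if_neg hs]; simp
    · intro x _ hx
      have hxW : x ∈ W := by simpa using hx
      rw [if_neg (fun h : c.strong W x => h.1 hxW)]; simp
  have e4 : ∑ x ∈ Wᶜ, 1 / (n : ℝ) ^ 2 ≤ 1 / (n : ℝ) := by
    rw [sum_const, nsmul_eq_mul]
    calc ((Wᶜ).card : ℝ) * (1 / (n : ℝ) ^ 2) ≤ (n : ℝ) * (1 / (n : ℝ) ^ 2) := by
          gcongr
          have : (Wᶜ).card ≤ n := by simpa using card_le_univ Wᶜ
          exact_mod_cast this
      _ = 1 / (n : ℝ) := by field_simp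
  have key : c.kh W ≤ ∑ x ∈ Wᶜ, (1 / (n : ℝ) ^ 2 +
      (if ¬ c.typ (insert x W) then c.uh x (insert x W) else 0) +
      (if c.weak W x then c.uh x (insert x W) else 0) +
      (if c.strong W x then (1 + η) else 0)) := by
    unfold kh
    refine sum_le_sum fun x hx => ?_
    have hxW : x ∉ W := mem_compl.1 hx
    have hu0 := c.uh_nonneg x (insert x W)
    have hη0 : (0 : ℝ) ≤ 1 + η := by
      have hη : η = 1 / 2000 := rfl
      rw [hη]; norm_num
    have hn2 : (0 : ℝ) ≤ 1 / (n : ℝ) ^ 2 := by positivity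
    have h1 : 0 ≤ (if ¬ c.typ (insert x W) then c.uh x (insert x W) else 0) := by
      split_ifs <;> first | exact hu0 | exact le_rfl
    have h2 : 0 ≤ (if c.weak W x then c.uh x (insert x W) else 0) := by
      split_ifs <;> first | exact hu0 | exact le_rfl
    have h3 : 0 ≤ (if c.strong W x then (1 + η) else 0) := by
      split_ifs <;> first | exact hη0 | exact le_rfl
    by_cases ht : c.typ (insert x W)
    · by_cases hu : c.uh x (insert x W) < 1 / (n : ℝ) ^ 2
      · linarith
      · by_cases hs : c.strong W x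
        · have h4 : c.uh x (insert x W) ≤ 1 + η := by
            have h5 := c.ExitsB_uh_le_M x (insert x W)
            have h6 := c.M_le (insert x W)
            have h7 := hs.2.2.2
            linarith
          rw [if_pos hs] at h3 ⊢
          linarith
        · have hw : c.weak W x := ⟨hxW, ht, not_lt.1 hu, hs⟩
          rw [if_pos hw] at h2 ⊢
          linarith
    · rw [if_pos ht] at h1 ⊢
      linarith
  rw [sum_add_distrib, sum_add_distrib, sum_add_distrib, ← e1, ← e2, ← e3] at key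
  linarith

end Ctx

end Kleitman
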