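import Pool.Agent.Kleitman.CalcB
import Pool.Agent.Helper92.Kle.KKX

/-! # Module B: Kruskal-Katona in cross form, covering densities -/

set_option autoImplicit false

open Finset

namespace Kleitman

variable {n : ℕ}

/-- Cross form of Kruskal-Katona (Lovász version) on a ground set `X`. Transfer to `Fin X.card` and use
`Finset.kruskal_katona_lovasz_form` with `r = s`, `i = s - (g - b)`, `k = g - T`: the shadow of `𝒜` on
level `g - b` has at least `binom(g-T, g-b)` sets, and the complement of such a set is no member of `ℬ`. -/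
theorem kkx {X : Finset (Fin n)} {𝒜 ℬ : Finset (Finset (Fin n))} {s b T : ℕ}
    (h𝒜 : ∀ A ∈ 𝒜, A ⊆ X ∧ A.card = s) (hℬ : ∀ B ∈ ℬ, B ⊆ X ∧ B.card = b)
    (hAB : ∀ A ∈ 𝒜, ∀ B ∈ ℬ, A ∪ B ≠ X) (hg : X.card ≤ s + b) (hb : b ≤ X.card)
    (hT : s + T ≤ X.card) (hcard : (X.card - T).choose s ≤ 𝒜.card) :
    ℬ.card + (X.card - T).choose (X.card - b) ≤ X.card.choose b :=
  Pool.Agent.Helper92.Kle.kkx X 𝒜 ℬ h𝒜 hℬ hAB hg hb (by omega) hcard

/-! ## covering densities -/

/-- number of `l`-sets between `Q` and `S` -/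
theorem KK_card_between {Q S : Finset (Fin n)} (hQ : Q ⊆ S) {l : ℕ} (hl : Q.card ≤ l) :
    ((powersetCard l S).filter (fun B => Q ⊆ B)).card = (S.card - Q.card).choose (l - Q.card) := by
  have h : (powersetCard l S).filter (fun B => Q ⊆ B)
      = (powersetCard (l - Q.card) (S \ Q)).image (fun T => T ∪ Q) := by
    ext B
    simp only [mem_filter, mem_powersetCard, mem_image]
    constructor
    · rintro ⟨⟨hBS, hB⟩, hQB⟩
      refine ⟨B \ Q, ⟨sdiff_subset_sdiff hBS (Subset.refl _), ?_⟩, sdiff_union_of_subset hQB⟩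
      rw [card_sdiff_of_subset hQB, hB]
    · rintro ⟨T, ⟨hT, hTc⟩, rfl⟩
      have hd : Disjoint T Q := by
        rw [Finset.disjoint_left]
        intro x hx hx2
        exact (mem_sdiff.1 (hT hx)).2 hx2
      refine ⟨⟨union_subset (hT.trans sdiff_subset) hQ, ?_⟩, subset_union_right⟩
      rw [card_union_of_disjoint hd, hTc]
      omega
  rw [h, card_image_of_injOn, card_powersetCard, card_sdiff_of_subset hQ]
  intro T hT T' hT' hTT
  rw [mem_coe, mem_powersetCard] at hT hT'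
  have hd : Disjoint T Q := by
    rw [Finset.disjoint_left]
    intro x hx hx2
    exact (mem_sdiff.1 (hT.1 hx)).2 hx2
  have hd' : Disjoint T' Q := by
    rw [Finset.disjoint_left]
    intro x hx hx2
    exact (mem_sdiff.1 (hT'.1 hx)).2 hx2
  simp only at hTT
  rw [← union_sdiff_cancel_right hd, hTT, union_sdiff_cancel_right hd']

open Classical in
/-- the covered sets -/
noncomputable def KKcs (l : ℕ) (𝒢 : Finset (Finset (Fin n))) (Q S : Finset (Fin n)) :
    Finset (Finset (Fin n)) :=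
  (powersetCard l S).filter (fun B => Q ⊆ B ∧ ∃ A ∈ 𝒢, B ⊆ A ∧ A ⊆ S)

theorem KK_mem_cs {l : ℕ} {𝒢 : Finset (Finset (Fin n))} {Q S B : Finset (Fin n)} :
    B ∈ KKcs l 𝒢 Q S ↔ B ⊆ S ∧ B.card = l ∧ Q ⊆ B ∧ ∃ A ∈ 𝒢, B ⊆ A ∧ A ⊆ S := by
  classical
  unfold KKcs
  rw [mem_filter, mem_powersetCard]
  tauto

theorem KK_cov_eq (l : ℕ) (𝒢 : Finset (Finset (Fin n))) (Q S : Finset (Fin n)) :
    cov l 𝒢 Q S = ((KKcs l 𝒢 Q S).card : ℝ) /
      (((S.card - Q.card).choose (l - Q.card) : ℕ) : ℝ) := by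
  classical
  unfold cov KKcs
  rfl

theorem KK_cs_card_le {l : ℕ} (𝒢 : Finset (Finset (Fin n))) {Q S : Finset (Fin n)} (hQ : Q ⊆ S) :
    (KKcs l 𝒢 Q S).card ≤ (S.card - Q.card).choose (l - Q.card) := by
  classical
  by_cases hl : Q.card ≤ l
  · rw [← KK_card_between hQ hl]
    apply card_le_card
    intro B hB
    rw [KK_mem_cs] at hB
    rw [mem_filter, mem_powersetCard]
    exact ⟨⟨hB.1, hB.2.1⟩, hB.2.2.1⟩
  · have : KKcs l 𝒢 Q S = ∅ := by
      rw [eq_empty_iff_forall_notMem]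
      intro B hB
      rw [KK_mem_cs] at hB
      have := card_le_card hB.2.2.1
      omega
    rw [this]; simp

theorem cov_nonneg (l : ℕ) (𝒢 : Finset (Finset (Fin n))) (Q S : Finset (Fin n)) :
    0 ≤ cov l 𝒢 Q S := by
  unfold cov; positivity

theorem cov_le_one {l : ℕ} (𝒢 : Finset (Finset (Fin n))) {Q S : Finset (Fin n)} (hQ : Q ⊆ S) :
    cov l 𝒢 Q S ≤ 1 := by
  rw [KK_cov_eq]
  apply div_le_one_of_le₀ _ (Nat.cast_nonneg _)
  exact_mod_cast KK_cs_card_le 𝒢 hQ

theorem cov_mono {l : ℕ} {𝒢 𝒢' : Finset (Finset (Fin n))} (h : 𝒢 ⊆ 𝒢') (Q S : Finset (Fin n)) :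
    cov l 𝒢 Q S ≤ cov l 𝒢' Q S := by
  rw [KK_cov_eq, KK_cov_eq]
  apply div_le_div_of_nonneg_right _ (Nat.cast_nonneg _)
  have : (KKcs l 𝒢 Q S).card ≤ (KKcs l 𝒢' Q S).card := by
    apply card_le_card
    intro B hB
    rw [KK_mem_cs] at hB ⊢
    obtain ⟨h1, h2, h3, A, hA, h4⟩ := hB
    exact ⟨h1, h2, h3, A, h hA, h4⟩
  exact_mod_cast this

theorem cov_self {l : ℕ} {𝒢 : Finset (Finset (Fin n))} {Q S : Finset (Fin n)} (hS : S ∈ 𝒢)
    (hQ : Q ⊆ S) (hQl : Q.card ≤ l) (hl : l ≤ S.card) : cov l 𝒢 Q S = 1 := by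
  classical
  rw [KK_cov_eq]
  have h1 : KKcs l 𝒢 Q S = (powersetCard l S).filter (fun B => Q ⊆ B) := by
    ext B
    rw [KK_mem_cs, mem_filter, mem_powersetCard]
    constructor
    · rintro ⟨h1, h2, h3, _⟩; exact ⟨⟨h1, h2⟩, h3⟩
    · rintro ⟨⟨h1, h2⟩, h3⟩; exact ⟨h1, h2, h3, S, hS, h1, Subset.refl _⟩
  rw [h1, KK_card_between hQ hQl]
  apply div_self
  have : 0 < (S.card - Q.card).choose (l - Q.card) := Nat.choose_pos (by omega)
  exact_mod_cast this.ne'

/-- random `y ∈ S`, then random `B ⊆ S - y` = random `B ⊆ S`; a member inside `S - y` is not `S`. -/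
theorem D_cov_le {l : ℕ} (𝒢 : Finset (Finset (Fin n))) {S : Finset (Fin n)} (hl : l < S.card) :
    D (cov l 𝒢 ∅) S ≤ cov l (𝒢.erase S) ∅ S := by
  classical
  have hSpos : (0 : ℝ) < (S.card : ℝ) := by exact_mod_cast (show 0 < S.card by omega)
  -- double count
  have hcount : ∑ y ∈ S, (KKcs l 𝒢 ∅ (S.erase y)).card ≤
      (KKcs l (𝒢.erase S) ∅ S).card * (S.card - l) := by
    have h1 : ∀ y ∈ S, (KKcs l 𝒢 ∅ (S.erase y)).card ≤
        ((KKcs l (𝒢.erase S) ∅ S).filter (fun B => y ∉ B)).card := by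
      intro y hy
      apply card_le_card
      intro B hB
      rw [KK_mem_cs] at hB
      rw [mem_filter, KK_mem_cs]
      obtain ⟨h1, h2, h3, A, hA, h4, h5⟩ := hB
      refine ⟨⟨h1.trans (erase_subset _ _), h2, h3, A, ?_, h4, h5.trans (erase_subset _ _)⟩, ?_⟩
      · rw [mem_erase]
        refine ⟨?_, hA⟩
        rintro rfl
        exact absurd (h5 hy) (notMem_erase _ _)
      · intro hyB
        exact absurd (h1 hyB) (notMem_erase _ _)
    refine (sum_le_sum h1).trans ?_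
    have h2 : ∑ y ∈ S, ((KKcs l (𝒢.erase S) ∅ S).filter (fun B => y ∉ B)).card
        = ∑ B ∈ KKcs l (𝒢.erase S) ∅ S, (S.filter (fun y => y ∉ B)).card := by
      simp only [card_filter]
      rw [sum_comm]
    rw [h2, Finset.sum_congr rfl (g := fun _ => S.card - l), sum_const, smul_eq_mul]
    intro B hB
    rw [KK_mem_cs] at hB
    have : S.filter (fun y => y ∉ B) = S \ B := by
      ext y; simp only [mem_filter, mem_sdiff]
    rw [this, card_sdiff_of_subset hB.1, hB.2.1]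
  have hD : D (cov l 𝒢 ∅) S = ((∑ y ∈ S, (KKcs l 𝒢 ∅ (S.erase y)).card : ℕ) : ℝ) /
      (((S.card - 1).choose l : ℕ) : ℝ) / (S.card : ℝ) := by
    unfold D
    congr 1
    rw [Nat.cast_sum, sum_div]
    apply sum_congr rfl
    intro y hy
    rw [KK_cov_eq, card_erase_of_mem hy]
    simp
  rw [hD, KK_cov_eq]
  simp only [card_empty, Nat.sub_zero]
  have hch : (S.card - 1).choose l * S.card = S.card.choose l * (S.card - l) := by
    obtain ⟨s, hs⟩ : ∃ s, S.card = s + 1 := ⟨S.card - 1, by omega⟩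
    rw [hs]
    exact Nat.choose_mul_succ_eq s l
  have hc1 : 0 < (S.card - 1).choose l := Nat.choose_pos (by omega)
  have hc2 : 0 < S.card.choose l := Nat.choose_pos (by omega)
  have hc1' : (0 : ℝ) < (((S.card - 1).choose l : ℕ) : ℝ) := by exact_mod_cast hc1
  have hc2' : (0 : ℝ) < ((S.card.choose l : ℕ) : ℝ) := by exact_mod_cast hc2
  have hch' : (((S.card - 1).choose l : ℕ) : ℝ) * (S.card : ℝ)
      = ((S.card.choose l : ℕ) : ℝ) * ((S.card - l : ℕ) : ℝ) := by exact_mod_cast hch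
  have hcount' : ((∑ y ∈ S, (KKcs l 𝒢 ∅ (S.erase y)).card : ℕ) : ℝ) ≤
      ((KKcs l (𝒢.erase S) ∅ S).card : ℝ) * ((S.card - l : ℕ) : ℝ) := by exact_mod_cast hcount
  rw [div_div, hch', div_le_div_iff₀ (by
    apply mul_pos hc2'
    exact_mod_cast (show 0 < S.card - l by omega)) hc2']
  calc _ ≤ ((KKcs l (𝒢.erase S) ∅ S).card : ℝ) * ((S.card - l : ℕ) : ℝ)
        * ((S.card.choose l : ℕ) : ℝ) := mul_le_mul_of_nonneg_right hcount' hc2'.le
    _ = _ := by ring

/-- averages over the intermediate sets `Q ⊆ S ⊆ C` of size `j`, `j < |C|` -/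
theorem sum_cov_le {l j : ℕ} (𝒢 : Finset (Finset (Fin n))) {Q C : Finset (Fin n)} (hQC : Q ⊆ C)
    (hQ : Q.card ≤ l) (hlj : l ≤ j) (hj : j < C.card) :
    ∑ S ∈ (powersetCard j C).filter (fun S => Q ⊆ S), cov l 𝒢 Q S ≤
      (((C.card - Q.card).choose (j - Q.card) : ℕ) : ℝ) * cov l (𝒢.erase C) Q C := by
  classical
  set 𝒮 := (powersetCard j C).filter (fun S => Q ⊆ S) with h𝒮
  have hcount : ∑ S ∈ 𝒮, (KKcs l 𝒢 Q S).card ≤
      (KKcs l (𝒢.erase C) Q C).card * (C.card - l).choose (j - l) := by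
    have h1 : ∀ S ∈ 𝒮, (KKcs l 𝒢 Q S).card ≤
        ((KKcs l (𝒢.erase C) Q C).filter (fun B => B ⊆ S)).card := by
      intro S hS
      rw [h𝒮, mem_filter, mem_powersetCard] at hS
      apply card_le_card
      intro B hB
      rw [KK_mem_cs] at hB
      rw [mem_filter, KK_mem_cs]
      obtain ⟨h1, h2, h3, A, hA, h4, h5⟩ := hB
      refine ⟨⟨h1.trans hS.1.1, h2, h3, A, ?_, h4, h5.trans hS.1.1⟩, h1⟩
      rw [mem_erase]
      refine ⟨?_, hA⟩
      rintro rfl
      have := card_le_card h5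
      omega
    refine (sum_le_sum h1).trans ?_
    have h2 : ∑ S ∈ 𝒮, ((KKcs l (𝒢.erase C) Q C).filter (fun B => B ⊆ S)).card
        = ∑ B ∈ KKcs l (𝒢.erase C) Q C, (𝒮.filter (fun S => B ⊆ S)).card := by
      simp only [card_filter]
      rw [sum_comm]
    rw [h2, Finset.sum_congr rfl (g := fun _ => (C.card - l).choose (j - l)), sum_const,
      smul_eq_mul]
    intro B hB
    rw [KK_mem_cs] at hB
    have : 𝒮.filter (fun S => B ⊆ S) = (powersetCard j C).filter (fun S => B ⊆ S) := by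
      ext S
      simp only [h𝒮, mem_filter]
      constructor
      · rintro ⟨⟨h1, _⟩, h3⟩; exact ⟨h1, h3⟩
      · rintro ⟨h1, h3⟩; exact ⟨⟨h1, hB.2.2.1.trans h3⟩, h3⟩
    rw [this, KK_card_between hB.1 (by omega), hB.2.1]
  have hsum : ∑ S ∈ 𝒮, cov l 𝒢 Q S = ((∑ S ∈ 𝒮, (KKcs l 𝒢 Q S).card : ℕ) : ℝ) /
      (((j - Q.card).choose (l - Q.card) : ℕ) : ℝ) := by
    rw [Nat.cast_sum, sum_div]
    apply sum_congr rfl
    intro S hS
    rw [h𝒮, mem_filter, mem_powersetCard] at hS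
    rw [KK_cov_eq, hS.1.2]
  rw [hsum, KK_cov_eq]
  have hQC' := card_le_card hQC
  have hch : (C.card - Q.card).choose (j - Q.card) * (j - Q.card).choose (l - Q.card)
      = (C.card - Q.card).choose (l - Q.card) * (C.card - l).choose (j - l) := by
    have := Nat.choose_mul (n := C.card - Q.card) (k := j - Q.card) (s := l - Q.card)
      (by omega)
    rw [this]
    congr 2 <;> omega
  have hc1 : (0 : ℝ) < (((j - Q.card).choose (l - Q.card) : ℕ) : ℝ) := by
    exact_mod_cast Nat.choose_pos (by omega)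
  have hc2 : (0 : ℝ) < (((C.card - Q.card).choose (l - Q.card) : ℕ) : ℝ) := by
    exact_mod_cast Nat.choose_pos (by omega)
  have hch' : (((C.card - Q.card).choose (j - Q.card) : ℕ) : ℝ) *
      (((j - Q.card).choose (l - Q.card) : ℕ) : ℝ)
      = (((C.card - Q.card).choose (l - Q.card) : ℕ) : ℝ) * (((C.card - l).choose (j - l) : ℕ) : ℝ) := by
    exact_mod_cast hch
  have hcount' : ((∑ S ∈ 𝒮, (KKcs l 𝒢 Q S).card : ℕ) : ℝ) ≤
      ((KKcs l (𝒢.erase C) Q C).card : ℝ) * (((C.card - l).choose (j - l) : ℕ) : ℝ) := by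
    exact_mod_cast hcount
  rw [← mul_div_assoc, div_le_div_iff₀ hc1 hc2]
  calc _ ≤ ((KKcs l (𝒢.erase C) Q C).card : ℝ) * (((C.card - l).choose (j - l) : ℕ) : ℝ)
        * (((C.card - Q.card).choose (l - Q.card) : ℕ) : ℝ) :=
          mul_le_mul_of_nonneg_right hcount' hc2.le
    _ = ((KKcs l (𝒢.erase C) Q C).card : ℝ) * ((((C.card - Q.card).choose (l - Q.card) : ℕ) : ℝ)
        * (((C.card - l).choose (j - l) : ℕ) : ℝ)) := by ring
    _ = _ := by rw [← hch']; ring

/-- `B` misses a point of `Q` with probability `≤ |Q|(|S|-l)/|S|`; given `Q ⊆ B` it is uniform -/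
theorem cov_split {l : ℕ} (𝒢 : Finset (Finset (Fin n))) {Q S : Finset (Fin n)} (hQ : Q ⊆ S)
    (hQl : Q.card ≤ l) (hl : l ≤ S.card) :
    cov l 𝒢 ∅ S ≤ (Q.card : ℝ) * (((S.card : ℝ) - l) / S.card) + cov l 𝒢 Q S := by
  classical
  rcases Q.eq_empty_or_nonempty with rfl | hQne
  · simp
  have hSpos : 0 < S.card := (card_pos.2 hQne).trans_le (card_le_card hQ)
  have hSpos' : (0 : ℝ) < (S.card : ℝ) := by exact_mod_cast hSpos
  have hcount : (KKcs l 𝒢 ∅ S).card ≤ Q.card * (S.card - 1).choose l + (KKcs l 𝒢 Q S).card := by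
    have hsub : KKcs l 𝒢 ∅ S ⊆
        (Q.biUnion (fun z => (powersetCard l (S.erase z)))) ∪ KKcs l 𝒢 Q S := by
      intro B hB
      rw [KK_mem_cs] at hB
      obtain ⟨h1, h2, _, h4⟩ := hB
      rw [mem_union]
      by_cases hQB : Q ⊆ B
      · right; rw [KK_mem_cs]; exact ⟨h1, h2, hQB, h4⟩
      · left
        obtain ⟨z, hzQ, hzB⟩ := not_subset.1 hQB
        rw [mem_biUnion]
        refine ⟨z, hzQ, ?_⟩
        rw [mem_powersetCard]
        refine ⟨?_, h2⟩
        intro x hx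
        rw [mem_erase]
        exact ⟨fun h => hzB (h ▸ hx), h1 hx⟩
    refine (card_le_card hsub).trans ((card_union_le _ _).trans ?_)
    gcongr
    refine card_biUnion_le.trans ?_
    rw [Finset.sum_congr rfl (g := fun _ => (S.card - 1).choose l), sum_const, smul_eq_mul]
    intro z hz
    rw [card_powersetCard, card_erase_of_mem (hQ hz)]
  rw [KK_cov_eq, KK_cov_eq]
  simp only [card_empty, Nat.sub_zero]
  have hc2 : (0 : ℝ) < ((S.card.choose l : ℕ) : ℝ) := by exact_mod_cast Nat.choose_pos hl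
  have hch : (S.card - 1).choose l * S.card = S.card.choose l * (S.card - l) := by
    obtain ⟨s, hs⟩ : ∃ s, S.card = s + 1 := ⟨S.card - 1, by omega⟩
    rw [hs]
    exact Nat.choose_mul_succ_eq s l
  have hch' : (((S.card - 1).choose l : ℕ) : ℝ) * (S.card : ℝ)
      = ((S.card.choose l : ℕ) : ℝ) * ((S.card : ℝ) - l) := by
    rw [← Nat.cast_sub hl]; exact_mod_cast hch
  have hcount' : ((KKcs l 𝒢 ∅ S).card : ℝ) ≤ (Q.card : ℝ) * (((S.card - 1).choose l : ℕ) : ℝ)
      + ((KKcs l 𝒢 Q S).card : ℝ) := by exact_mod_cast hcount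
  have hmono : (((S.card - Q.card).choose (l - Q.card) : ℕ) : ℝ) ≤ ((S.card.choose l : ℕ) : ℝ) := by
    have h1 : (S.card - Q.card).choose (l - Q.card) ≤ S.card.choose l := by
      have := Nat.choose_mul (n := S.card) (k := l) (s := Q.card) hQl
      -- choose S l * choose l Q = choose S Q * choose (S-Q) (l-Q)
      have h2 : l.choose Q.card ≤ S.card.choose Q.card := Nat.choose_le_choose _ hl
      have h3 : 0 < S.card.choose Q.card := Nat.choose_pos (card_le_card hQ)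
      by_contra hcon
      push Not at hcon
      have h4 : S.card.choose l * l.choose Q.card < S.card.choose Q.card *
          (S.card - Q.card).choose (l - Q.card) := by
        calc S.card.choose l * l.choose Q.card ≤ S.card.choose l * S.card.choose Q.card :=
              Nat.mul_le_mul_left _ h2
          _ = S.card.choose Q.card * S.card.choose l := mul_comm _ _
          _ < _ := Nat.mul_lt_mul_of_pos_left hcon h3
      omega
    exact_mod_cast h1
  have hc3 : (0 : ℝ) < (((S.card - Q.card).choose (l - Q.card) : ℕ) : ℝ) := by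
    exact_mod_cast Nat.choose_pos (by have := card_le_card hQ; omega)
  calc ((KKcs l 𝒢 ∅ S).card : ℝ) / ((S.card.choose l : ℕ) : ℝ)
      ≤ ((Q.card : ℝ) * (((S.card - 1).choose l : ℕ) : ℝ)
      + ((KKcs l 𝒢 Q S).card : ℝ)) / ((S.card.choose l : ℕ) : ℝ) :=
        div_le_div_of_nonneg_right hcount' hc2.le
    _ = (Q.card : ℝ) * ((((S.card - 1).choose l : ℕ) : ℝ) / ((S.card.choose l : ℕ) : ℝ))
      + ((KKcs l 𝒢 Q S).card : ℝ) / ((S.card.choose l : ℕ) : ℝ) := by ring
    _ ≤ (Q.card : ℝ) * (((S.card : ℝ) - l) / S.card)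
      + ((KKcs l 𝒢 Q S).card : ℝ) / (((S.card - Q.card).choose (l - Q.card) : ℕ) : ℝ) := by
        apply add_le_add
        · apply le_of_eq
          congr 1
          rw [div_eq_div_iff hc2.ne' hSpos'.ne']
          linarith
        · exact div_le_div_of_nonneg_left (Nat.cast_nonneg _) hc3 hmono

/-- lower bound for `δ_z(W + x)` in terms of `δ(W)` -/
theorem cov_insert_ge {l : ℕ} (𝒢 : Finset (Finset (Fin n))) {W : Finset (Fin n)} {x z : Fin n}
    (hx : x ∉ W) (hz : z ∈ W) (hl : l ≤ W.card) (hl1 : 1 ≤ l) :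
    (((W.card : ℝ) + 1 - l) / W.card) * (cov l 𝒢 ∅ W - ((W.card : ℝ) - l) / W.card) ≤
      cov l 𝒢 {z} (insert x W) := by
  classical
  have hge : cov l 𝒢 ∅ W - ((W.card : ℝ) - l) / W.card ≤ cov l 𝒢 {z} W := by
    have := cov_split 𝒢 (Q := {z}) (S := W) (l := l) (by simpa using hz) (by simpa using hl1) hl
    simp only [card_singleton, Nat.cast_one, one_mul] at this
    linarith
  have hW : 0 < W.card := card_pos.2 ⟨z, hz⟩
  have hW' : (0 : ℝ) < (W.card : ℝ) := by exact_mod_cast hW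
  have hlW : (l : ℝ) ≤ (W.card : ℝ) := by exact_mod_cast hl
  refine (mul_le_mul_of_nonneg_left hge (by
    apply div_nonneg _ hW'.le; linarith)).trans ?_
  rw [KK_cov_eq, KK_cov_eq]
  simp only [card_singleton]
  rw [card_insert_of_notMem hx, Nat.add_sub_cancel]
  have hcount : (KKcs l 𝒢 {z} W).card ≤ (KKcs l 𝒢 {z} (insert x W)).card := by
    apply card_le_card
    intro B hB
    rw [KK_mem_cs] at hB ⊢
    obtain ⟨h1, h2, h3, A, hA, h4, h5⟩ := hB
    exact ⟨h1.trans (subset_insert _ _), h2, h3, A, hA, h4, h5.trans (subset_insert _ _)⟩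
  have hcount' : ((KKcs l 𝒢 {z} W).card : ℝ) ≤ ((KKcs l 𝒢 {z} (insert x W)).card : ℝ) := by
    exact_mod_cast hcount
  have hc1 : (0 : ℝ) < (((W.card - 1).choose (l - 1) : ℕ) : ℝ) := by
    exact_mod_cast Nat.choose_pos (by omega)
  have hc2 : (0 : ℝ) < ((W.card.choose (l - 1) : ℕ) : ℝ) := by
    exact_mod_cast Nat.choose_pos (by omega)
  have hch : (W.card - 1).choose (l - 1) * W.card = W.card.choose (l - 1) * (W.card + 1 - l) := by
    obtain ⟨s, hs⟩ : ∃ s, W.card = s + 1 := ⟨W.card - 1, by omega⟩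
    rw [hs, Nat.add_sub_cancel, Nat.choose_mul_succ_eq s (l - 1)]
    congr 1
    omega
  have hch' : (((W.card - 1).choose (l - 1) : ℕ) : ℝ) * (W.card : ℝ)
      = ((W.card.choose (l - 1) : ℕ) : ℝ) * ((W.card : ℝ) + 1 - l) := by
    have := congrArg (Nat.cast : ℕ → ℝ) hch
    push_cast [Nat.cast_sub (show l ≤ W.card + 1 by omega)] at this
    exact this
  calc ((W.card : ℝ) + 1 - l) / W.card *
        (((KKcs l 𝒢 {z} W).card : ℝ) / (((W.card - 1).choose (l - 1) : ℕ) : ℝ))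
      = ((KKcs l 𝒢 {z} W).card : ℝ) / ((W.card.choose (l - 1) : ℕ) : ℝ) := by
        rw [div_mul_div_comm, div_eq_div_iff (by positivity) hc2.ne']
        calc _ = ((KKcs l 𝒢 {z} W).card : ℝ) *
              (((W.card.choose (l - 1) : ℕ) : ℝ) * ((W.card : ℝ) + 1 - l)) := by ring
          _ = _ := by rw [← hch']; ring
    _ ≤ _ := div_le_div_of_nonneg_right hcount' hc2.le

/-- lower bound for `δ_z(W)` itself -/
theorem cov_ge {l : ℕ} (𝒢 : Finset (Finset (Fin n))) {W : Finset (Fin n)} {z : Fin n}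
    (hz : z ∈ W) (hl : l ≤ W.card) (hl1 : 1 ≤ l) :
    cov l 𝒢 ∅ W - ((W.card : ℝ) - l) / W.card ≤ cov l 𝒢 {z} W := by
  have := cov_split 𝒢 (Q := {z}) (S := W) (l := l) (by simpa using hz) (by simpa using hl1) hl
  simp only [card_singleton, Nat.cast_one, one_mul] at this
  linarith

/-- the level-`a` members `A` with `Q ⊆ A ⊊ C` have density at most `cov l (𝒢.erase C) Q C` (`l ≤ a`) -/
theorem level_le_cov {l a : ℕ} (𝒢 : Finset (Finset (Fin n))) {Q C : Finset (Fin n)} (hQC : Q ⊆ C)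
    (hQ : Q.card ≤ l) (hla : l ≤ a) (ha : a ≤ C.card) :
    (((𝒢.erase C).filter (fun A => A ⊆ C ∧ Q ⊆ A ∧ A.card = a)).card : ℝ) ≤
      (((C.card - Q.card).choose (a - Q.card) : ℕ) : ℝ) * cov l (𝒢.erase C) Q C := by
  classical
  set 𝒮 := (𝒢.erase C).filter (fun A => A ⊆ C ∧ Q ⊆ A ∧ A.card = a) with h𝒮
  have hcount : 𝒮.card * (a - Q.card).choose (l - Q.card) ≤
      (KKcs l (𝒢.erase C) Q C).card * (C.card - l).choose (a - l) := by
    have h0 : 𝒮.card * (a - Q.card).choose (l - Q.card) =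
        ∑ A ∈ 𝒮, ((KKcs l (𝒢.erase C) Q C).filter (fun B => B ⊆ A)).card := by
      rw [Finset.sum_congr rfl (g := fun _ => (a - Q.card).choose (l - Q.card)), sum_const,
        smul_eq_mul]
      intro A hA
      rw [h𝒮, mem_filter] at hA
      have : (KKcs l (𝒢.erase C) Q C).filter (fun B => B ⊆ A) =
          (powersetCard l A).filter (fun B => Q ⊆ B) := by
        ext B
        rw [mem_filter, KK_mem_cs, mem_filter, mem_powersetCard]
        constructor
        · rintro ⟨⟨_, h2, h3, _⟩, h5⟩; exact ⟨⟨h5, h2⟩, h3⟩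
        · rintro ⟨⟨h5, h2⟩, h3⟩
          exact ⟨⟨h5.trans hA.2.1, h2, h3, A, hA.1, h5, hA.2.1⟩, h5⟩
      rw [this, KK_card_between hA.2.2.1 hQ, hA.2.2.2]
    rw [h0]
    have h2 : ∑ A ∈ 𝒮, ((KKcs l (𝒢.erase C) Q C).filter (fun B => B ⊆ A)).card
        = ∑ B ∈ KKcs l (𝒢.erase C) Q C, (𝒮.filter (fun A => B ⊆ A)).card := by
      simp only [card_filter]
      rw [sum_comm]
    rw [h2]
    refine (sum_le_sum (g := fun _ => (C.card - l).choose (a - l)) ?_).trans
      (le_of_eq (by rw [sum_const, smul_eq_mul]))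
    intro B hB
    rw [KK_mem_cs] at hB
    rw [← hB.2.1, ← KK_card_between hB.1 (by omega)]
    apply card_le_card
    intro A hA
    rw [mem_filter, h𝒮, mem_filter] at hA
    rw [mem_filter, mem_powersetCard]
    exact ⟨⟨hA.1.2.1, hA.1.2.2.2⟩, hA.2⟩
  rw [KK_cov_eq]
  have hQC' := card_le_card hQC
  have hch : (C.card - Q.card).choose (a - Q.card) * (a - Q.card).choose (l - Q.card)
      = (C.card - Q.card).choose (l - Q.card) * (C.card - l).choose (a - l) := by
    have := Nat.choose_mul (n := C.card - Q.card) (k := a - Q.card) (s := l - Q.card)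
      (by omega)
    rw [this]
    congr 2 <;> omega
  have hc1 : (0 : ℝ) < (((a - Q.card).choose (l - Q.card) : ℕ) : ℝ) := by
    exact_mod_cast Nat.choose_pos (by omega)
  have hc2 : (0 : ℝ) < (((C.card - Q.card).choose (l - Q.card) : ℕ) : ℝ) := by
    exact_mod_cast Nat.choose_pos (by omega)
  have hch' : (((C.card - Q.card).choose (a - Q.card) : ℕ) : ℝ) *
      (((a - Q.card).choose (l - Q.card) : ℕ) : ℝ)
      = (((C.card - Q.card).choose (l - Q.card) : ℕ) : ℝ) * (((C.card - l).choose (a - l) : ℕ) : ℝ) := by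
    exact_mod_cast hch
  have hcount' : (𝒮.card : ℝ) * (((a - Q.card).choose (l - Q.card) : ℕ) : ℝ) ≤
      ((KKcs l (𝒢.erase C) Q C).card : ℝ) * (((C.card - l).choose (a - l) : ℕ) : ℝ) := by
    exact_mod_cast hcount
  rw [← mul_div_assoc, le_div_iff₀ hc2]
  have key : (𝒮.card : ℝ) * (((C.card - Q.card).choose (l - Q.card) : ℕ) : ℝ) *
      (((a - Q.card).choose (l - Q.card) : ℕ) : ℝ) ≤
      (((C.card - Q.card).choose (a - Q.card) : ℕ) : ℝ) * ((KKcs l (𝒢.erase C) Q C).card : ℝ) *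
      (((a - Q.card).choose (l - Q.card) : ℕ) : ℝ) := by
    calc _ = ((𝒮.card : ℝ) * (((a - Q.card).choose (l - Q.card) : ℕ) : ℝ)) *
          (((C.card - Q.card).choose (l - Q.card) : ℕ) : ℝ) := by ring
      _ ≤ (((KKcs l (𝒢.erase C) Q C).card : ℝ) * (((C.card - l).choose (a - l) : ℕ) : ℝ)) *
          (((C.card - Q.card).choose (l - Q.card) : ℕ) : ℝ) :=
            mul_le_mul_of_nonneg_right hcount' hc2.le
      _ = ((KKcs l (𝒢.erase C) Q C).card : ℝ) * ((((C.card - Q.card).choose (l - Q.card) : ℕ) : ℝ)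
          * (((C.card - l).choose (a - l) : ℕ) : ℝ)) := by ring
      _ = _ := by rw [← hch']; ring
  exact le_of_mul_le_mul_right key hc1

end Kleitman
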