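import Pool.Agent.Kleitman.CalcB

/-! # Module N: numerical facts about a context -/

set_option autoImplicit false

open Finset

namespace Kleitman

namespace Ctx

variable {n : ℕ} (c : Ctx n)

include c in
theorem n_pos : 0 < n := lt_of_lt_of_le (by norm_num) c.n_large

include c in
theorem nR_pos : (0 : ℝ) < n := by exact_mod_cast c.n_pos

include c in
theorem num_n_large : (10 : ℝ) ^ 60 ≤ n := by exact_mod_cast c.n_large

theorem num_R_large : (8192 : ℝ) ≤ c.R := by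
  have h1 := c.a_large
  have h2 := c.R_large
  have : 8192 ≤ c.R := by omega
  exact_mod_cast this

theorem p_pos : 0 < c.p := by
  have h1 := c.nR_pos
  have h2 := c.num_R_large
  unfold p
  apply div_pos _ h1
  linarith

/-- `p^5 ≤ n^-2` -/
theorem p_pow5 : c.p ^ 5 ≤ 1 / (n : ℝ) ^ 2 := by
  have h1 := c.nR_pos
  have h2 : (5 * (c.R : ℝ)) ^ 5 ≤ (n : ℝ) ^ 3 := by exact_mod_cast c.R_small
  unfold p
  rw [div_pow, div_le_div_iff₀ (by positivity) (by positivity), one_mul]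
  calc (5 * (c.R : ℝ)) ^ 5 * (n : ℝ) ^ 2 ≤ (n : ℝ) ^ 3 * (n : ℝ) ^ 2 := by gcongr
    _ = (n : ℝ) ^ 5 := by ring

/-- `p^40 ≤ n^-16` -/
theorem p_pow40 : c.p ^ 40 ≤ 1 / (n : ℝ) ^ 16 := by
  have h1 := c.nR_pos
  have h2 := c.p_pow5
  have h3 := c.p_pos
  calc c.p ^ 40 = (c.p ^ 5) ^ 8 := by ring
    _ ≤ (1 / (n : ℝ) ^ 2) ^ 8 := by gcongr
    _ = 1 / (n : ℝ) ^ 16 := by rw [div_pow, one_pow, ← pow_mul]

theorem p_small : c.p ≤ 1 / 10 ^ 20 := by
  by_contra h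
  push Not at h
  have h1 := c.nR_pos
  have h2 := c.p_pow5
  have h3 := c.num_n_large
  have h4 : (1 / 10 ^ 20 : ℝ) ^ 5 < c.p ^ 5 := by gcongr
  have h5 : 1 / (n : ℝ) ^ 2 ≤ 1 / ((10 : ℝ) ^ 60) ^ 2 := by gcongr
  have h6 : (1 / ((10 : ℝ) ^ 60) ^ 2) < (1 / 10 ^ 20 : ℝ) ^ 5 := by norm_num
  linarith

theorem a_div_n_le : (c.a : ℝ) / n ≤ c.p / 10 := by
  have h1 := c.nR_pos
  have h2 : 2 * (c.a : ℝ) ≤ c.R := by exact_mod_cast c.R_large
  unfold p
  rw [div_div, div_le_div_iff₀ h1 (by positivity)]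
  nlinarith

theorem inv_n_le : 1 / (n : ℝ) ≤ c.p / 10000 := by
  have h1 := c.nR_pos
  have h2 := c.num_R_large
  unfold p
  rw [div_div, div_le_div_iff₀ h1 (by positivity)]
  nlinarith

/-- `R` is tiny compared with `n` -/
theorem R_le : 10 ^ 20 * c.R ≤ n := by
  have h1 := c.nR_pos
  have h2 := c.p_small
  unfold p at h2
  rw [div_le_div_iff₀ h1 (by positivity)] at h2
  have : (10 : ℝ) ^ 20 * c.R ≤ n := by
    have : (0 : ℝ) ≤ 10 ^ 20 * c.R := by positivity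
    linarith
  exact_mod_cast this

theorem l0_pos : 10 ≤ c.l0 := by
  have h1 := c.R_le
  have h2 := c.n_large
  unfold l0
  omega

theorem num_l0_eq : c.l0 + c.R = n / 2 + 1 := by
  have h1 := c.R_le
  have h2 := c.n_large
  unfold l0
  omega

/-- sizes in the window (±3) are close to `n/2` -/
theorem size_ge {s : ℕ} (h0 : c.l0 ≤ s + 3) : (49 / 100 : ℝ) * n ≤ s := by
  have h1 := c.R_le
  have h2 := c.n_large
  have h3 := c.num_l0_eq
  have : 49 * n ≤ 100 * s := by omega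
  have : 49 * (n : ℝ) ≤ 100 * s := by exact_mod_cast this
  linarith

theorem size_le {s : ℕ} (h1 : s ≤ c.l1 + 3) : (s : ℝ) ≤ (51 / 100 : ℝ) * n := by
  have h1' := c.R_le
  have h2 := c.n_large
  unfold l1 at h1
  have : 100 * s ≤ 51 * n := by omega
  have : 100 * (s : ℝ) ≤ 51 * n := by exact_mod_cast this
  linarith

/-- for `l0 ≤ |S| ≤ l1 + 3`: `(|S| - l0)/|S| ≤ p` (also with `|S| - 3` in the denominator and `+3` in
the numerator) -/
theorem ratio_le {s : ℕ} (h0 : c.l0 ≤ s) (h1 : s ≤ c.l1 + 3) :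
    ((s : ℝ) - c.l0 + 3) / ((s : ℝ) - 3) ≤ c.p := by
  have hn := c.nR_pos
  have hR := c.num_R_large
  have h2 := c.size_ge (s := s - 3) (by omega)
  have hl := c.l0_pos
  have h3 : ((s - 3 : ℕ) : ℝ) = (s : ℝ) - 3 := by
    rw [Nat.cast_sub (by omega)]; norm_num
  rw [h3] at h2
  have hnl := c.num_n_large
  have hpos : (0 : ℝ) < (s : ℝ) - 3 := by
    have : (0 : ℝ) < 49 / 100 * n := by positivity
    linarith
  have h4 : (s : ℝ) - c.l0 + 3 ≤ 2 * c.R + 5 := by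
    have h5 := c.num_l0_eq
    have : s + 3 ≤ 2 * c.R + 5 + c.l0 := by unfold l1 at h1; omega
    have : (s : ℝ) + 3 ≤ 2 * c.R + 5 + c.l0 := by exact_mod_cast this
    linarith
  unfold p
  rw [div_le_div_iff₀ hpos hn]
  calc ((s : ℝ) - c.l0 + 3) * n ≤ (2 * c.R + 5) * n := by gcongr
    _ ≤ 5 * c.R * (49 / 100 * n) := by nlinarith
    _ ≤ 5 * c.R * ((s : ℝ) - 3) := by gcongr

theorem ratio_le' {s : ℕ} (h0 : c.l0 ≤ s) (h1 : s ≤ c.l1 + 3) :
    ((s : ℝ) - c.l0) / (s : ℝ) ≤ c.p := by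
  refine le_trans ?_ (c.ratio_le h0 h1)
  have hn := c.nR_pos
  have h2 := c.size_ge (s := s - 3) (by omega)
  have hl := c.l0_pos
  have h3 : ((s - 3 : ℕ) : ℝ) = (s : ℝ) - 3 := by
    rw [Nat.cast_sub (by omega)]; norm_num
  rw [h3] at h2
  have hpos : (0 : ℝ) < (s : ℝ) - 3 := by
    have : (0 : ℝ) < 49 / 100 * n := by positivity
    linarith
  have h5 : (c.l0 : ℝ) ≤ s := by exact_mod_cast h0
  apply div_le_div₀
  · linarith
  · linarith
  · exact hpos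
  · linarith

theorem l1_lt : c.l1 + 10 < n := by
  have h1' := c.R_le
  have h2 := c.n_large
  unfold l1
  omega

theorem mem_win {S : Finset (Fin n)} (h : S ∈ c.F) : c.l0 ≤ S.card ∧ S.card ≤ c.l1 := by
  have h1 := c.win_lo S h
  have h2 := c.win_hi S h
  have h3 := c.num_l0_eq
  unfold l1
  omega

theorem inI_bounds {k : ℕ} (hk : c.inI k) :
    c.l0 + 3 ≤ k ∧ k + 3 ≤ n / 2 - c.a / 64 ∧ n / 2 - c.a + c.a / 2 ≤ k ∧ k + 3 ≤ c.l1 ∧ k + 3 < n := by
  have h1 := c.R_le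
  have h2 := c.n_large
  have h3 := c.num_l0_eq
  have h4 := c.a_large
  have h5 := c.R_large
  obtain ⟨h6, h7⟩ := hk
  unfold l1
  refine ⟨by omega, by omega, by omega, by omega, by omega⟩

end Ctx

end Kleitman
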