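import Pool.Agent.Kleitman.KK
import Pool.Agent.Kleitman.Num

/-! # Module B2: consequences for a union-free family (EKR, HL, CI, omega) -/

set_option autoImplicit false

open Finset

namespace Kleitman

section KKcHelpers

variable {n : ℕ}

open Classical in
/-- the covered sets counted by `cov` -/
noncomputable def KKc_cs (l : ℕ) (𝒢 : Finset (Finset (Fin n))) (Q S : Finset (Fin n)) :
    Finset (Finset (Fin n)) :=
  (powersetCard l S).filter (fun B => Q ⊆ B ∧ ∃ A ∈ 𝒢, B ⊆ A ∧ A ⊆ S)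

theorem KKc_cov_eq (l : ℕ) (𝒢 : Finset (Finset (Fin n))) (Q S : Finset (Fin n)) :
    cov l 𝒢 Q S = ((KKc_cs l 𝒢 Q S).card : ℝ) /
      (((S.card - Q.card).choose (l - Q.card) : ℕ) : ℝ) := rfl

theorem KKc_mem_cs {l : ℕ} {𝒢 : Finset (Finset (Fin n))} {Q S B : Finset (Fin n)} :
    B ∈ KKc_cs l 𝒢 Q S ↔ (B ⊆ S ∧ B.card = l) ∧ Q ⊆ B ∧ ∃ A ∈ 𝒢, B ⊆ A ∧ A ⊆ S := by
  unfold KKc_cs
  rw [mem_filter, mem_powersetCard]

/-- two families without covering pair cannot both be large (`T = 1`) -/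
theorem KKc_cross {X : Finset (Fin n)} {𝒜 ℬ : Finset (Finset (Fin n))} {s b : ℕ}
    (h𝒜 : ∀ A ∈ 𝒜, A ⊆ X ∧ A.card = s) (hℬ : ∀ B ∈ ℬ, B ⊆ X ∧ B.card = b)
    (hAB : ∀ A ∈ 𝒜, ∀ B ∈ ℬ, A ∪ B ≠ X) (hg : X.card ≤ s + b) (hs : s ≤ X.card)
    (hb : b ≤ X.card) (hb1 : 1 ≤ b) :
    𝒜.card ≤ (X.card - 1).choose s ∨ ℬ.card ≤ (X.card - 1).choose b := by
  rcases eq_or_lt_of_le hs with hs' | hs'
  · rcases 𝒜.eq_empty_or_nonempty with h | ⟨A, hA⟩
    · left; simp [h]
    · right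
      have : ℬ = ∅ := by
        rw [eq_empty_iff_forall_notMem]
        intro B hB
        refine hAB A hA B hB ?_
        have hAX : A = X := eq_of_subset_of_card_le (h𝒜 A hA).1 (by rw [(h𝒜 A hA).2, hs'])
        rw [hAX]
        exact union_eq_left.2 (hℬ B hB).1
      simp [this]
  · by_cases hc : (X.card - 1).choose s ≤ 𝒜.card
    · right
      have h := kkx h𝒜 hℬ hAB hg hb (T := 1) hs' hc
      have h1 : X.card.choose b = (X.card - 1).choose (b - 1) + (X.card - 1).choose b := by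
        obtain ⟨g, hg'⟩ : ∃ g, X.card = g + 1 := ⟨X.card - 1, by omega⟩
        obtain ⟨b', hb'⟩ : ∃ b', b = b' + 1 := ⟨b - 1, by omega⟩
        rw [hg', hb', Nat.choose_succ_succ]
        simp
      have h2 : (X.card - 1).choose (X.card - b) = (X.card - 1).choose (b - 1) := by
        rw [← Nat.choose_symm_of_eq_add]
        omega
      omega
    · left; omega

theorem KKc_ratio {g b : ℕ} (hg : 1 ≤ g) (hb : b ≤ g) :
    ((g - 1).choose b : ℝ) = ((g : ℝ) - b) / g * (g.choose b : ℝ) := by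
  obtain ⟨m, rfl⟩ : ∃ m, g = m + 1 := ⟨g - 1, by omega⟩
  have h := Nat.choose_mul_succ_eq m b
  have h' : ((m.choose b : ℕ) : ℝ) * ((m : ℝ) + 1) =
      (((m + 1).choose b : ℕ) : ℝ) * (((m : ℝ) + 1) - b) := by
    have h2 : (((m + 1 - b : ℕ)) : ℝ) = ((m : ℝ) + 1) - b := by
      rw [Nat.cast_sub hb]; push_cast; ring
    rw [← h2]
    exact_mod_cast h
  have hpos : (0 : ℝ) < (m : ℝ) + 1 := by positivity
  simp only [Nat.add_sub_cancel]
  push_cast
  rw [div_mul_eq_mul_div, eq_div_iff hpos.ne', h']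
  ring

/-- `binom(g-T, s) ≤ ((g-s)/g)^T binom(g, s)` -/
theorem KKc_choose_pow {g s : ℕ} (hg : 1 ≤ g) (hs : s ≤ g) {T : ℕ} (hT : s + T ≤ g) :
    ((g - T).choose s : ℝ) ≤ (((g : ℝ) - s) / g) ^ T * (g.choose s : ℝ) := by
  induction T with
  | zero => simp
  | succ T ih =>
    have ih' := ih (by omega)
    have h1 : ((g - (T + 1)).choose s : ℝ) = (((g - T : ℕ) : ℝ) - s) / ((g - T : ℕ) : ℝ) *
        ((g - T).choose s : ℝ) := by
      have := KKc_ratio (g := g - T) (b := s) (by omega) (by omega)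
      rw [← this]
      congr 2
    have hgT : (((g - T : ℕ)) : ℝ) = (g : ℝ) - T := by
      rw [Nat.cast_sub (by omega)]
    have hgpos : (0 : ℝ) < g := by exact_mod_cast hg
    have hgTpos : (0 : ℝ) < (g : ℝ) - T := by
      rw [← hgT]; exact_mod_cast (show 0 < g - T by omega)
    have h2 : (((g : ℝ) - T) - s) / ((g : ℝ) - T) ≤ ((g : ℝ) - s) / g := by
      rw [div_le_div_iff₀ hgTpos hgpos]
      have : (0 : ℝ) ≤ (s : ℝ) * T := by positivity
      nlinarith
    have h3 : (0 : ℝ) ≤ ((g : ℝ) - s) / g := by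
      apply div_nonneg _ hgpos.le
      have : (s : ℝ) ≤ g := by exact_mod_cast hs
      linarith
    rw [h1, hgT, pow_succ']
    calc (((g : ℝ) - T) - s) / ((g : ℝ) - T) * ((g - T).choose s : ℝ)
        ≤ ((g : ℝ) - s) / g * ((g - T).choose s : ℝ) := by gcongr
      _ ≤ ((g : ℝ) - s) / g * ((((g : ℝ) - s) / g) ^ T * (g.choose s : ℝ)) := by gcongr
      _ = _ := by ring

/-- `binom(g,b) - binom(g-T,g-b) ≤ T (g-b)/g binom(g,b)` -/
theorem KKc_choose_sub {g b T : ℕ} (hg : 1 ≤ g) (hb : b ≤ g) (hT : T ≤ g) :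
    (g.choose b : ℝ) - ((g - T).choose (g - b) : ℝ) ≤
      T * (((g : ℝ) - b) / g) * (g.choose b : ℝ) := by
  have hgpos : (0 : ℝ) < g := by exact_mod_cast hg
  rw [← Nat.choose_symm hb]
  obtain ⟨d, hd⟩ : ∃ d, d = g - b := ⟨_, rfl⟩
  have hd' : (g : ℝ) - b = d := by
    rw [hd, Nat.cast_sub hb]
  rw [← hd, hd']
  have key : ∀ T : ℕ, T ≤ g → (g.choose d : ℝ) ≤ ((g - T).choose d : ℝ) +
      T * ((d : ℝ) / g) * (g.choose d : ℝ) := by
    intro T
    induction T with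
    | zero => intro _; simp
    | succ T ih =>
      intro hT
      have ih' := ih (by omega)
      have h1 : (((g - T).choose d : ℕ) : ℝ) ≤ ((g - (T + 1)).choose d : ℝ) +
          (d : ℝ) / g * (g.choose d : ℝ) := by
        rcases Nat.eq_zero_or_pos d with h0 | h0
        · subst h0; simp
        · have h2 : (g - T).choose d = (g - (T + 1)).choose (d - 1) + (g - (T + 1)).choose d := by
            obtain ⟨m, hm⟩ : ∃ m, g - T = m + 1 := ⟨g - T - 1, by omega⟩
            obtain ⟨d', hd'⟩ : ∃ d', d = d' + 1 := ⟨d - 1, by omega⟩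
            rw [show g - (T + 1) = m by omega, hm, hd', Nat.choose_succ_succ]
            simp
          have h3 : (g - (T + 1)).choose (d - 1) ≤ (g - 1).choose (d - 1) :=
            Nat.choose_le_choose _ (by omega)
          have h4 : (((g - 1).choose (d - 1) : ℕ) : ℝ) = (d : ℝ) / g * (g.choose d : ℝ) := by
            obtain ⟨m, hm⟩ : ∃ m, g = m + 1 := ⟨g - 1, by omega⟩
            obtain ⟨d', hd'⟩ : ∃ d', d = d' + 1 := ⟨d - 1, by omega⟩
            have h5 := Nat.add_one_mul_choose_eq m d'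
            have h6 : ((m : ℝ) + 1) * (m.choose d' : ℝ) =
                (((m + 1).choose (d' + 1) : ℕ) : ℝ) * ((d' : ℝ) + 1) := by
              exact_mod_cast h5
            rw [hm, hd']
            simp only [Nat.add_sub_cancel]
            push_cast
            rw [div_mul_eq_mul_div, eq_div_iff (by positivity)]
            linarith
          rw [h2]
          push_cast
          have h3' : (((g - (T + 1)).choose (d - 1) : ℕ) : ℝ) ≤
              (((g - 1).choose (d - 1) : ℕ) : ℝ) := by exact_mod_cast h3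
          linarith
      push_cast
      nlinarith [ih', h1]
  linarith [key T hT]

end KKcHelpers

namespace Ctx

variable {n : ℕ} (c : Ctx n)

/-- the union of two covered sets is not `C` -/
theorem KKc_union_ne {C A B A' B' : Finset (Fin n)} (hC : C ∈ c.F) (hA : A ∈ c.F) (hA' : A' ∈ c.F)
    (hBA : B ⊆ A) (hBA' : B' ⊆ A') (hAC : A ⊆ C) (hAC' : A' ⊆ C) (hne : A ≠ C) (hne' : A' ≠ C) :
    B ∪ B' ≠ C := by
  intro h
  have h1 : A ∪ A' = C := by
    apply Subset.antisymm (union_subset hAC hAC')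
    rw [← h]
    exact union_subset_union hBA hBA'
  by_cases hAA : A = A'
  · subst hAA
    rw [union_self] at h1
    exact hne h1
  · exact c.unionFree A hA A' hA' C hC hAA hne hne' h1

/-- EKR for the sets covered below a member: `kkx` with `T = 1`, `𝒜 = ℬ` = covered `l`-subsets of `C`
(if `B ∪ B' = C` for covered `B ⊆ A`, `B' ⊆ A'` then `A ∪ A' = C`, impossible). -/
theorem EKR {C : Finset (Fin n)} (hC : C ∈ c.F) {𝒢 : Finset (Finset (Fin n))} (h𝒢 : 𝒢 ⊆ c.F)
    {l : ℕ} (hl : l ≤ C.card) (hl1 : 1 ≤ l) (hl2 : C.card ≤ 2 * l) :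
    cov l (𝒢.erase C) ∅ C ≤ ((C.card : ℝ) - l) / C.card := by
  have hpos : (0 : ℝ) < (C.card.choose l : ℝ) := by exact_mod_cast Nat.choose_pos hl
  have h𝒜 : ∀ A ∈ KKc_cs l (𝒢.erase C) ∅ C, A ⊆ C ∧ A.card = l := fun A hA =>
    (KKc_mem_cs.1 hA).1
  have hAB : ∀ A ∈ KKc_cs l (𝒢.erase C) ∅ C, ∀ B ∈ KKc_cs l (𝒢.erase C) ∅ C, A ∪ B ≠ C := by
    intro B hB B' hB'
    obtain ⟨-, -, A, hA, hBA, hAC⟩ := KKc_mem_cs.1 hB
    obtain ⟨-, -, A', hA', hBA', hAC'⟩ := KKc_mem_cs.1 hB'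
    rw [mem_erase] at hA hA'
    exact c.KKc_union_ne hC (h𝒢 hA.2) (h𝒢 hA'.2) hBA hBA' hAC hAC' hA.1 hA'.1
  have h := KKc_cross h𝒜 h𝒜 hAB (by omega) hl hl hl1
  have h' : (KKc_cs l (𝒢.erase C) ∅ C).card ≤ (C.card - 1).choose l := by
    rcases h with h | h <;> exact h
  have h'' : ((KKc_cs l (𝒢.erase C) ∅ C).card : ℝ) ≤ ((C.card - 1).choose l : ℝ) := by
    exact_mod_cast h'
  rw [KKc_ratio (by omega) hl] at h''
  rw [KKc_cov_eq]
  simp only [card_empty, Nat.sub_zero]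
  rw [div_le_iff₀ hpos]
  exact h''

/-- below the bottom level nothing is hit -/
theorem KKc_Dn_eq_zero {𝒢 : Finset (Finset (Fin n))} {l : ℕ} (hmem : ∀ A ∈ 𝒢, l ≤ A.card)
    {S : Finset (Fin n)} (hS : S.card < l) : Dn (ind (· ∈ 𝒢)) S = 0 := by
  unfold Dn
  refine sum_eq_zero fun A hA => ?_
  rw [ind_of_not, zero_div]
  intro hA'
  have h1 := hmem A hA'
  have h2 := card_le_card (mem_powerset.1 hA)
  omega

theorem KKc_D_Dn_eq_zero {𝒢 : Finset (Finset (Fin n))} {l : ℕ} (hmem : ∀ A ∈ 𝒢, l ≤ A.card)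
    {S : Finset (Fin n)} (hS : S.card ≤ l) : D (Dn (ind (· ∈ 𝒢))) S = 0 := by
  unfold D
  rw [sum_eq_zero, zero_div]
  intro y hy
  apply KKc_Dn_eq_zero hmem
  rw [card_erase_of_mem hy]
  have := card_pos.2 ⟨y, hy⟩
  omega

/-- the last step of `HL` and `HL'` -/
theorem KKc_HL_step {𝒢 : Finset (Finset (Fin n))} {l : ℕ}
    (hmem : ∀ A ∈ 𝒢, l ≤ A.card) {S : Finset (Fin n)}
    (ih : ∀ v ∈ S, l ≤ (S.erase v).card →
      Dn (ind (· ∈ 𝒢)) (S.erase v) ≤ (1 + 2 * c.p) * cov l 𝒢 ∅ (S.erase v)) :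
    D (Dn (ind (· ∈ 𝒢))) S ≤ (1 + 2 * c.p) * cov l (𝒢.erase S) ∅ S := by
  have hp := c.p_pos
  rcases le_or_gt S.card l with h | h
  · rw [KKc_D_Dn_eq_zero hmem h]
    exact mul_nonneg (by linarith) (cov_nonneg _ _ _ _)
  · calc D (Dn (ind (· ∈ 𝒢))) S ≤ D (fun T => (1 + 2 * c.p) * cov l 𝒢 ∅ T) S := by
          refine D_mono fun v hv => ih v hv ?_
          rw [card_erase_of_mem hv]; omega
      _ = (1 + 2 * c.p) * D (cov l 𝒢 ∅) S := D_const_mul _ _ _
      _ ≤ _ := by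
          refine mul_le_mul_of_nonneg_left (D_cov_le 𝒢 h) (by linarith)

/-- expected number of `𝒢`-hits at or below `S` versus covering density (induction on `|S|`) -/
theorem HL {𝒢 : Finset (Finset (Fin n))} (h𝒢 : 𝒢 ⊆ c.F) {l : ℕ} (hl : c.l0 ≤ l)
    (hmem : ∀ A ∈ 𝒢, l ≤ A.card) {S : Finset (Fin n)} (hS : l ≤ S.card) :
    Dn (ind (· ∈ 𝒢)) S ≤ (1 + 2 * c.p) * cov l 𝒢 ∅ S := by
  have hp := c.p_pos
  have hps := c.p_small
  have hl0 := c.l0_pos
  induction S using dn_induction with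
  | hempty => simp at hS; omega
  | step S hSne ih =>
    have hstep := c.KKc_HL_step hmem ih
    rw [Dn_rec]
    by_cases hS𝒢 : S ∈ 𝒢
    · have hSF := h𝒢 hS𝒢
      have hw := c.mem_win hSF
      have h1 : cov l (𝒢.erase S) ∅ S ≤ ((S.card : ℝ) - l) / S.card := by
        refine c.EKR hSF h𝒢 hS (by omega) ?_
        have := c.R_le
        have h3 := hw.2
        unfold l1 at h3
        unfold l0 at hl hl0
        omega
      have h2 : ((S.card : ℝ) - l) / S.card ≤ c.p := by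
        refine le_trans ?_ (c.ratio_le' (s := S.card) hw.1 (by omega))
        have : (c.l0 : ℝ) ≤ l := by exact_mod_cast hl
        gcongr
      rw [cov_self hS𝒢 (empty_subset _) (by simp) hS, ind_of hS𝒢]
      have h4 : (1 + 2 * c.p) * cov l (𝒢.erase S) ∅ S ≤ (1 + 2 * c.p) * c.p :=
        mul_le_mul_of_nonneg_left (h1.trans h2) (by linarith)
      nlinarith
    · rw [ind_of_not hS𝒢, zero_add]
      refine hstep.trans ?_
      exact mul_le_mul_of_nonneg_left (cov_mono (erase_subset _ _) _ _) (by linarith)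

theorem HL' {𝒢 : Finset (Finset (Fin n))} (h𝒢 : 𝒢 ⊆ c.F) {l : ℕ} (hl : c.l0 ≤ l)
    (hmem : ∀ A ∈ 𝒢, l ≤ A.card) {C : Finset (Fin n)} (hC : C ∈ c.F) (hS : l ≤ C.card) :
    D (Dn (ind (· ∈ 𝒢))) C ≤ (1 + 2 * c.p) * (((C.card : ℝ) - l) / C.card) := by
  have hp := c.p_pos
  have hl0 := c.l0_pos
  have hw := c.mem_win hC
  refine (c.KKc_HL_step hmem fun v hv hlv => c.HL h𝒢 hl hmem hlv).trans ?_
  refine mul_le_mul_of_nonneg_left ?_ (by linarith)
  refine c.EKR hC h𝒢 hS (by omega) ?_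
  have := c.R_le
  have h3 := hw.2
  unfold l1 at h3
  unfold l0 at hl hl0
  omega

/-- the relation between cardinalities in the window -/
theorem KKc_card_le {C : Finset (Fin n)} (hC : C ∈ c.F) : C.card ≤ 2 * c.l0 := by
  have hl0 := c.l0_pos
  have hw := c.mem_win hC
  have := c.R_le
  have h3 := hw.2
  unfold l1 at h3
  unfold l0 at hl0 ⊢
  omega

/-- a heavy set has size at least `l0` -/
theorem KKc_heavy_card {S : Finset (Fin n)} (h : c.heavy S) : c.l0 ≤ S.card := by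
  by_contra hlt
  push Not at hlt
  have h1 : c.δ ∅ S = 0 := by
    unfold δ
    rw [KKc_cov_eq]
    have : KKc_cs c.l0 c.F ∅ S = ∅ := by
      rw [eq_empty_iff_forall_notMem]
      intro B hB
      have := (KKc_mem_cs.1 hB).1
      have h2 := card_le_card this.1
      omega
    rw [this]; simp
  have hp := c.p_pos
  unfold heavy at h
  rw [h1] at h
  linarith

/-- image of the covered sets containing `Q` under removal of `Q` -/
theorem KKc_card_image {l : ℕ} {𝒢 : Finset (Finset (Fin n))} {Q S : Finset (Fin n)} :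
    ((KKc_cs l 𝒢 Q S).image (fun B => B \ Q)).card = (KKc_cs l 𝒢 Q S).card := by
  apply card_image_of_injOn
  intro B hB B' hB' h
  have h1 := (KKc_mem_cs.1 (mem_coe.1 hB)).2.1
  have h2 := (KKc_mem_cs.1 (mem_coe.1 hB')).2.1
  have h3 : B \ Q = B' \ Q := h
  rw [← sdiff_union_of_subset h1, h3, sdiff_union_of_subset h2]

/-- (CI) -/
theorem CI {C Q Q' : Finset (Fin n)} (hC : C ∈ c.F) (hQ : Q ⊆ C) (hQ' : Q' ⊆ C)
    (hd : Disjoint Q Q') (hQne : Q.Nonempty) (hQ'ne : Q'.Nonempty) (hQ3 : Q.card ≤ 3)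
    (hQ'3 : Q'.card ≤ 3) : ¬ (c.heavy (C \ Q) ∧ c.heavy (C \ Q')) := by
  rintro ⟨h1, h2⟩
  have hp := c.p_pos
  have hps := c.p_small
  have hl0 := c.l0_pos
  have hw := c.mem_win hC
  have hc1 := c.KKc_heavy_card h1
  have hc2 := c.KKc_heavy_card h2
  have hCl := c.KKc_card_le hC
  have hcQ : (C \ Q).card = C.card - Q.card := card_sdiff_of_subset hQ
  have hcQ' : (C \ Q').card = C.card - Q'.card := card_sdiff_of_subset hQ'
  have hQC := card_le_card hQ
  have hQC' := card_le_card hQ'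
  have hQpos := hQne.card_pos
  have hQ'pos := hQ'ne.card_pos
  set X := C \ (Q ∪ Q') with hX
  have hXcard : X.card = C.card - (Q.card + Q'.card) := by
    rw [hX, card_sdiff_of_subset (union_subset hQ hQ'), card_union_of_disjoint hd]
  have hsum : Q.card + Q'.card ≤ C.card := by
    rw [← card_union_of_disjoint hd]; exact card_le_card (union_subset hQ hQ')
  have hQ'Q : Q' ⊆ C \ Q := by
    intro x hx
    exact mem_sdiff.2 ⟨hQ' hx, fun hx' => (disjoint_left.1 hd) hx' hx⟩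
  have hQQ' : Q ⊆ C \ Q' := by
    intro x hx
    exact mem_sdiff.2 ⟨hQ hx, fun hx' => (disjoint_left.1 hd) hx hx'⟩
  -- the two families
  set 𝒜 := (KKc_cs c.l0 c.F Q' (C \ Q)).image (fun B => B \ Q') with h𝒜def
  set ℬ := (KKc_cs c.l0 c.F Q (C \ Q')).image (fun B => B \ Q) with hℬdef
  have h𝒜 : ∀ A ∈ 𝒜, A ⊆ X ∧ A.card = c.l0 - Q'.card := by
    intro A hA
    obtain ⟨B, hB, rfl⟩ := mem_image.1 hA
    obtain ⟨⟨hBS, hBc⟩, hQB, -⟩ := KKc_mem_cs.1 hB
    constructor
    · intro x hx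
      rw [mem_sdiff] at hx
      have := mem_sdiff.1 (hBS hx.1)
      rw [hX, mem_sdiff, mem_union]
      exact ⟨this.1, fun h => h.elim this.2 hx.2⟩
    · rw [card_sdiff_of_subset hQB, hBc]
  have hℬ : ∀ A ∈ ℬ, A ⊆ X ∧ A.card = c.l0 - Q.card := by
    intro A hA
    obtain ⟨B, hB, rfl⟩ := mem_image.1 hA
    obtain ⟨⟨hBS, hBc⟩, hQB, -⟩ := KKc_mem_cs.1 hB
    constructor
    · intro x hx
      rw [mem_sdiff] at hx
      have := mem_sdiff.1 (hBS hx.1)
      rw [hX, mem_sdiff, mem_union]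
      exact ⟨this.1, fun h => h.elim hx.2 this.2⟩
    · rw [card_sdiff_of_subset hQB, hBc]
  have hAB : ∀ A ∈ 𝒜, ∀ B ∈ ℬ, A ∪ B ≠ X := by
    intro A₁ hA₁ B₁ hB₁ heq
    obtain ⟨B, hB, rfl⟩ := mem_image.1 hA₁
    obtain ⟨B', hB', rfl⟩ := mem_image.1 hB₁
    obtain ⟨⟨hBS, hBc⟩, hQB, A, hA, hBA, hAS⟩ := KKc_mem_cs.1 hB
    obtain ⟨⟨hBS', hBc'⟩, hQB', A', hA', hBA', hAS'⟩ := KKc_mem_cs.1 hB'
    have hne : A ≠ C := by
      rintro rfl
      obtain ⟨x, hx⟩ := hQne
      exact (mem_sdiff.1 (hAS (hQ hx))).2 hx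
    have hne' : A' ≠ C := by
      rintro rfl
      obtain ⟨x, hx⟩ := hQ'ne
      exact (mem_sdiff.1 (hAS' (hQ' hx))).2 hx
    refine c.KKc_union_ne hC hA hA' hBA hBA' (hAS.trans sdiff_subset) (hAS'.trans sdiff_subset)
      hne hne' ?_
    apply Subset.antisymm
    · exact union_subset (hBS.trans sdiff_subset) (hBS'.trans sdiff_subset)
    · intro x hx
      rw [mem_union]
      by_cases hxQ : x ∈ Q
      · exact Or.inr (hQB' hxQ)
      · by_cases hxQ' : x ∈ Q'
        · exact Or.inl (hQB hxQ')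
        · have hxX : x ∈ X := by
            rw [hX, mem_sdiff, mem_union]
            exact ⟨hx, fun h => h.elim hxQ hxQ'⟩
          rw [← heq, mem_union, mem_sdiff, mem_sdiff] at hxX
          exact hxX.imp (fun h => h.1) (fun h => h.1)
  have hcross := KKc_cross h𝒜 hℬ hAB (by omega) (by omega) (by omega) (by omega)
  have hXpos : 0 < X.card := by omega
  have hXposR : (0 : ℝ) < X.card := by exact_mod_cast hXpos
  -- the numerical bound
  have hratio := c.ratio_le (s := C.card) hw.1 (by omega)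
  have hCR : (20 : ℝ) ≤ C.card := by
    have h49 := c.size_ge (s := C.card) (by omega)
    have hn : ((10 : ℝ) ^ 60) ≤ n := by exact_mod_cast c.n_large
    linarith
  have hXR : (X.card : ℝ) = (C.card : ℝ) - (Q.card + Q'.card) := by
    rw [hXcard, Nat.cast_sub hsum]; push_cast; ring
  have hq3 : (Q.card : ℝ) ≤ 3 := by exact_mod_cast hQ3
  have hq3' : (Q'.card : ℝ) ≤ 3 := by exact_mod_cast hQ'3
  have hq1 : (1 : ℝ) ≤ Q.card := by exact_mod_cast hQpos
  have hq1' : (1 : ℝ) ≤ Q'.card := by exact_mod_cast hQ'pos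
  have hlC : (c.l0 : ℝ) ≤ C.card := by exact_mod_cast hw.1
  have hbound : ((C.card : ℝ) - c.l0) / X.card ≤ 2 * c.p := by
    have h3 : ((C.card : ℝ) - c.l0) / X.card ≤
        2 * (((C.card : ℝ) - c.l0 + 3) / ((C.card : ℝ) - 3)) := by
      rw [hXR, div_le_iff₀ (by linarith)]
      have h4 : (0 : ℝ) < (C.card : ℝ) - 3 := by linarith
      rw [mul_comm (2 : ℝ), mul_assoc, div_mul_eq_mul_div, le_div_iff₀ h4]
      nlinarith
    linarith
  -- densities
  have hden : ∀ (Q₁ Q₂ : Finset (Fin n)), Q₁ ⊆ C → Q₂ ⊆ C \ Q₁ → Q₁.Nonempty → Q₁.card ≤ 3 →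
      Q₂.card ≤ 3 → c.heavy (C \ Q₁) → c.l0 ≤ (C \ Q₁).card →
      41 * c.p ≤ cov c.l0 c.F Q₂ (C \ Q₁) := by
    intro Q₁ Q₂ hQ₁ hQ₂ _ hQ₁3 hQ₂3 hh hcc
    have h5 := cov_split c.F hQ₂ (l := c.l0) (by omega) hcc
    have h6 : 44 * c.p ≤ cov c.l0 c.F ∅ (C \ Q₁) := hh
    have h7 : ((((C \ Q₁).card : ℕ) : ℝ) - c.l0) / ((C \ Q₁).card : ℝ) ≤ c.p := by
      refine c.ratio_le' hcc ?_
      have := card_le_card (sdiff_subset : C \ Q₁ ⊆ C)
      omega
    have h8 : (0 : ℝ) ≤ ((((C \ Q₁).card : ℕ) : ℝ) - c.l0) / ((C \ Q₁).card : ℝ) := by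
      apply div_nonneg _ (by positivity)
      have : (c.l0 : ℝ) ≤ ((C \ Q₁).card : ℝ) := by exact_mod_cast hcc
      linarith
    have h9 : (Q₂.card : ℝ) ≤ 3 := by exact_mod_cast hQ₂3
    have h10 : (0 : ℝ) ≤ Q₂.card := by positivity
    nlinarith
  have hd1 := hden Q Q' hQ hQ'Q hQne hQ3 hQ'3 h1 hc1
  have hd2 := hden Q' Q hQ' hQQ' hQ'ne hQ'3 hQ3 h2 hc2
  rw [KKc_cov_eq] at hd1 hd2
  rcases hcross with h | h
  · rw [h𝒜def, KKc_card_image] at h
    have h' : ((KKc_cs c.l0 c.F Q' (C \ Q)).card : ℝ) ≤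
        ((X.card - 1).choose (c.l0 - Q'.card) : ℝ) := by exact_mod_cast h
    rw [KKc_ratio (by omega) (by omega)] at h'
    have hX1 : (C \ Q).card - Q'.card = X.card := by omega
    rw [hX1] at hd1
    have hposc : (0 : ℝ) < (X.card.choose (c.l0 - Q'.card) : ℝ) := by
      exact_mod_cast Nat.choose_pos (by omega)
    rw [le_div_iff₀ hposc] at hd1
    have h3 : ((X.card : ℝ) - ((c.l0 - Q'.card : ℕ) : ℝ)) / X.card ≤ 2 * c.p := by
      refine le_trans ?_ hbound
      have : ((c.l0 - Q'.card : ℕ) : ℝ) = (c.l0 : ℝ) - Q'.card := by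
        rw [Nat.cast_sub (by omega)]
      rw [this]
      apply div_le_div_of_nonneg_right _ hXposR.le
      rw [hXR]; linarith
    have h4 : ((X.card : ℝ) - ((c.l0 - Q'.card : ℕ) : ℝ)) / X.card *
        (X.card.choose (c.l0 - Q'.card) : ℝ) ≤ 2 * c.p *
        (X.card.choose (c.l0 - Q'.card) : ℝ) := by gcongr
    nlinarith [mul_pos hp hposc]
  · rw [hℬdef, KKc_card_image] at h
    have h' : ((KKc_cs c.l0 c.F Q (C \ Q')).card : ℝ) ≤
        ((X.card - 1).choose (c.l0 - Q.card) : ℝ) := by exact_mod_cast h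
    rw [KKc_ratio (by omega) (by omega)] at h'
    have hX1 : (C \ Q').card - Q.card = X.card := by omega
    rw [hX1] at hd2
    have hposc : (0 : ℝ) < (X.card.choose (c.l0 - Q.card) : ℝ) := by
      exact_mod_cast Nat.choose_pos (by omega)
    rw [le_div_iff₀ hposc] at hd2
    have h3 : ((X.card : ℝ) - ((c.l0 - Q.card : ℕ) : ℝ)) / X.card ≤ 2 * c.p := by
      refine le_trans ?_ hbound
      have : ((c.l0 - Q.card : ℕ) : ℝ) = (c.l0 : ℝ) - Q.card := by
        rw [Nat.cast_sub (by omega)]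
      rw [this]
      apply div_le_div_of_nonneg_right _ hXposR.le
      rw [hXR]; linarith
    have h4 : ((X.card : ℝ) - ((c.l0 - Q.card : ℕ) : ℝ)) / X.card *
        (X.card.choose (c.l0 - Q.card) : ℝ) ≤ 2 * c.p *
        (X.card.choose (c.l0 - Q.card) : ℝ) := by gcongr
    nlinarith [mul_pos hp hposc]

/-- (ω) -/
theorem omega_bound {C Q : Finset (Fin n)} (hC : C ∈ c.F) (hQ : Q ⊆ C) (hQne : Q.Nonempty)
    (hQ3 : Q.card ≤ 3) (hheavy : c.heavy (C \ Q)) : c.δs Q C ≤ 1 / (n : ℝ) ^ 16 := by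
  have hp := c.p_pos
  have hps := c.p_small
  have hl0 := c.l0_pos
  have hw := c.mem_win hC
  have hcl := c.KKc_heavy_card hheavy
  have hCl := c.KKc_card_le hC
  have hQC := card_le_card hQ
  have hQpos := hQne.card_pos
  set X := C \ Q with hX
  have hXcard : X.card = C.card - Q.card := card_sdiff_of_subset hQ
  set 𝒪 := (KKc_cs c.l0 (c.F.erase C) Q C).image (fun B => B \ Q) with h𝒪def
  set 𝒦 := KKc_cs c.l0 c.F ∅ X with h𝒦def
  have h𝒪 : ∀ A ∈ 𝒪, A ⊆ X ∧ A.card = c.l0 - Q.card := by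
    intro A hA
    obtain ⟨B, hB, rfl⟩ := mem_image.1 hA
    obtain ⟨⟨hBS, hBc⟩, hQB, -⟩ := KKc_mem_cs.1 hB
    exact ⟨sdiff_subset_sdiff hBS (Subset.refl _), by rw [card_sdiff_of_subset hQB, hBc]⟩
  have h𝒦 : ∀ B ∈ 𝒦, B ⊆ X ∧ B.card = c.l0 := fun B hB => (KKc_mem_cs.1 hB).1
  have hAB : ∀ A ∈ 𝒪, ∀ B ∈ 𝒦, A ∪ B ≠ X := by
    intro A₁ hA₁ B hB heq
    obtain ⟨B', hB', rfl⟩ := mem_image.1 hA₁
    obtain ⟨⟨hBS, hBc⟩, -, A, hA, hBA, hAS⟩ := KKc_mem_cs.1 hB
    obtain ⟨⟨hBS', hBc'⟩, hQB', A', hA', hBA', hAS'⟩ := KKc_mem_cs.1 hB'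
    rw [mem_erase] at hA'
    have hne : A ≠ C := by
      rintro rfl
      obtain ⟨x, hx⟩ := hQne
      exact (mem_sdiff.1 (hAS (hQ hx))).2 hx
    refine c.KKc_union_ne hC hA'.2 hA hBA' hBA hAS' (hAS.trans sdiff_subset) hA'.1 hne ?_
    apply Subset.antisymm
    · exact union_subset hBS' (hBS.trans sdiff_subset)
    · intro x hx
      rw [mem_union]
      by_cases hxQ : x ∈ Q
      · exact Or.inl (hQB' hxQ)
      · have hxX : x ∈ X := mem_sdiff.2 ⟨hx, hxQ⟩
        rw [← heq, mem_union, mem_sdiff] at hxX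
        exact hxX.imp (fun h => h.1) id
  have hXR : (X.card : ℝ) = (C.card : ℝ) - Q.card := by
    rw [hXcard, Nat.cast_sub hQC]
  have hq3 : (Q.card : ℝ) ≤ 3 := by exact_mod_cast hQ3
  have hq1 : (1 : ℝ) ≤ Q.card := by exact_mod_cast hQpos
  have hXposR : (0 : ℝ) < X.card := by exact_mod_cast (show 0 < X.card by omega)
  have hlX : (c.l0 : ℝ) ≤ X.card := by exact_mod_cast hcl
  -- `𝒪` is small
  obtain ⟨T, hT40, hTs, hTor⟩ : ∃ T : ℕ, T ≤ 40 ∧ (c.l0 - Q.card) + T ≤ X.card ∧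
      (T = 40 ∨ (c.l0 - Q.card) + T = X.card) := by
    by_cases h : (c.l0 - Q.card) + 40 ≤ X.card
    · exact ⟨40, le_refl _, h, Or.inl rfl⟩
    · exact ⟨X.card - (c.l0 - Q.card), by omega, by omega, Or.inr (by omega)⟩
  have hsmall : 𝒪.card < (X.card - T).choose (c.l0 - Q.card) := by
    by_contra hcon
    push Not at hcon
    have h1 := kkx h𝒪 h𝒦 hAB (by omega) hcl hTs hcon
    have h1' : (𝒦.card : ℝ) + ((X.card - T).choose (X.card - c.l0) : ℝ) ≤
        (X.card.choose c.l0 : ℝ) := by exact_mod_cast h1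
    have h2 := KKc_choose_sub (g := X.card) (b := c.l0) (T := T) (by omega) hcl (by omega)
    have h3 : ((X.card : ℝ) - c.l0) / X.card ≤ c.p := c.ratio_le' hcl (by omega)
    have h4 : 44 * c.p ≤ cov c.l0 c.F ∅ X := hheavy
    rw [KKc_cov_eq] at h4
    simp only [card_empty, Nat.sub_zero] at h4
    have hposc : (0 : ℝ) < (X.card.choose c.l0 : ℝ) := by
      exact_mod_cast Nat.choose_pos hcl
    rw [le_div_iff₀ hposc] at h4
    have h5 : (T : ℝ) ≤ 40 := by exact_mod_cast hT40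
    have h6 : (T : ℝ) * (((X.card : ℝ) - c.l0) / X.card) ≤ 40 * c.p := by
      have h7 : (0 : ℝ) ≤ ((X.card : ℝ) - c.l0) / X.card :=
        div_nonneg (by linarith) hXposR.le
      have h8 : (0 : ℝ) ≤ T := by positivity
      nlinarith
    have h9 : (T : ℝ) * (((X.card : ℝ) - c.l0) / X.card) * (X.card.choose c.l0 : ℝ) ≤
        40 * c.p * (X.card.choose c.l0 : ℝ) := by gcongr
    nlinarith [mul_pos hp hposc]
  rw [h𝒪def, KKc_card_image] at hsmall
  unfold δs
  rw [KKc_cov_eq, ← hXcard]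
  have hposc : (0 : ℝ) < (X.card.choose (c.l0 - Q.card) : ℝ) := by
    exact_mod_cast Nat.choose_pos (by omega)
  have hnR := c.nR_pos
  rcases hTor with hT | hT
  · subst hT
    have h1 : ((KKc_cs c.l0 (c.F.erase C) Q C).card : ℝ) ≤
        ((X.card - 40).choose (c.l0 - Q.card) : ℝ) := by exact_mod_cast hsmall.le
    have h2 := KKc_choose_pow (g := X.card) (s := c.l0 - Q.card) (by omega) (by omega) hTs
    refine le_trans ?_ c.p_pow40
    rw [div_le_iff₀ hposc]
    refine h1.trans (h2.trans ?_)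
    have h3 : ((X.card : ℝ) - ((c.l0 - Q.card : ℕ) : ℝ)) / X.card ≤ c.p := by
      have hr := c.ratio_le (s := C.card) hw.1 (by omega)
      refine le_trans ?_ hr
      have h4 : ((c.l0 - Q.card : ℕ) : ℝ) = (c.l0 : ℝ) - Q.card := by
        rw [Nat.cast_sub (by omega)]
      have hCR : (20 : ℝ) ≤ C.card := by
        have h49 := c.size_ge (s := C.card) (by omega)
        have hn : ((10 : ℝ) ^ 60) ≤ n := by exact_mod_cast c.n_large
        linarith
      have hlC : (c.l0 : ℝ) ≤ C.card := by exact_mod_cast hw.1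
      rw [h4, hXR]
      have h5 : (0 : ℝ) < (C.card : ℝ) - 3 := by linarith
      apply div_le_div₀ (by linarith) (by linarith) h5 (by linarith)
    have h0 : (0 : ℝ) ≤ ((X.card : ℝ) - ((c.l0 - Q.card : ℕ) : ℝ)) / X.card := by
      apply div_nonneg _ hXposR.le
      have : ((c.l0 - Q.card : ℕ) : ℝ) ≤ (X.card : ℝ) := by
        exact_mod_cast (show c.l0 - Q.card ≤ X.card by omega)
      linarith
    gcongr
  · have h1 : (X.card - T).choose (c.l0 - Q.card) = 1 := by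
      rw [show X.card - T = c.l0 - Q.card by omega, Nat.choose_self]
    rw [h1] at hsmall
    have h2 : (KKc_cs c.l0 (c.F.erase C) Q C).card = 0 := by omega
    rw [h2]
    simp

/-! ## simple consequences -/

theorem δ_nonneg (Q S : Finset (Fin n)) : 0 ≤ c.δ Q S := cov_nonneg _ _ _ _

theorem δ_mem {Q S : Finset (Fin n)} (hS : S ∈ c.F) (hQ : Q ⊆ S) (hQ3 : Q.card ≤ 3) :
    c.δ Q S = 1 := by
  have hl0 := c.l0_pos
  exact cov_self hS hQ (by omega) (c.mem_win hS).1

theorem mem_heavy {S : Finset (Fin n)} (hS : S ∈ c.F) : c.heavy S := by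
  unfold heavy
  rw [c.δ_mem hS (empty_subset _) (by simp)]
  have := c.p_small
  have h : (1 : ℝ) / 10 ^ 20 ≤ 1 / 44 := by norm_num
  linarith

theorem light_notMem {S : Finset (Fin n)} (hS : c.light S) : S ∉ c.F := fun h =>
  hS.2 (c.mem_heavy h)

/-- `q = 1` below the window -/
theorem KKc_q_eq_one {S : Finset (Fin n)} (hS : S.card < c.l0) : c.q S = 1 := by
  have hstop : ∀ T : Finset (Fin n), T.card < c.l0 → T ∉ c.F := by
    intro T hT hTF
    have := (c.mem_win hTF).1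
    omega
  induction S using dn_induction with
  | hempty => exact dnR_empty (hstop _ hS)
  | step S hSne ih =>
    unfold q
    rw [dnR_step (hstop _ hS) hSne]
    have h : D (dnR (· ∈ c.F) (fun _ => 0) 1) S = D (fun _ => (1 : ℝ)) S := by
      refine D_congr fun v hv => ?_
      refine ih v hv ?_
      rw [card_erase_of_mem hv]; omega
    rw [h, D_const hSne]

/-- `1 - q ≤ δ` above the bottom level -/
theorem one_sub_q_le {S : Finset (Fin n)} (hS : c.l0 ≤ S.card) : 1 - c.q S ≤ c.δ ∅ S := by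
  have hl0 := c.l0_pos
  induction S using dn_induction with
  | hempty => simp at hS; omega
  | step S hSne ih =>
    by_cases hSF : S ∈ c.F
    · rw [c.δ_mem hSF (empty_subset _) (by simp)]
      have : 0 ≤ c.q S := dnR_nonneg (fun _ => le_refl _) zero_le_one S
      linarith
    · have hq : c.q S = D c.q S := dnR_step hSF hSne
      rcases eq_or_lt_of_le hS with h | h
      · have h1 : c.q S = 1 := by
          rw [hq]
          have h2 : D c.q S = D (fun _ => (1 : ℝ)) S := by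
            refine D_congr fun v hv => c.KKc_q_eq_one ?_
            rw [card_erase_of_mem hv]
            have := hSne.card_pos
            omega
          rw [h2, D_const hSne]
        rw [h1, sub_self]
        exact c.δ_nonneg _ _
      · have h1 : D (fun T => 1 - c.q T) S ≤ D (c.δ ∅) S := by
          refine D_mono fun v hv => ih v hv ?_
          rw [card_erase_of_mem hv]; omega
        rw [D_sub, D_const hSne, ← hq] at h1
        refine h1.trans ?_
        refine (D_cov_le c.F h).trans ?_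
        exact cov_mono (erase_subset _ _) _ _

theorem H_nonneg (S : Finset (Fin n)) : 0 ≤ c.H S := Dn_nonneg fun _ _ => ind_nonneg _ _

open Classical in
/-- the members in `G` as a finset -/
theorem KKc_exists_G : ∃ 𝒢 : Finset (Finset (Fin n)), 𝒢 ⊆ c.F ∧
    (∀ A, A ∈ 𝒢 ↔ c.isG A) ∧ ind c.isG = ind (· ∈ 𝒢) := by
  refine ⟨c.F.filter c.isG, filter_subset _ _, ?_, ?_⟩
  · intro A
    rw [mem_filter]
    exact ⟨fun h => h.2, fun h => ⟨h.1, h⟩⟩
  · funext A
    by_cases h : c.isG A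
    · rw [ind_of h, ind_of (mem_filter.2 ⟨h.1, h⟩)]
    · rw [ind_of_not h, ind_of_not]
      intro h'
      exact h (mem_filter.1 h').2

open Classical in
theorem KKc_exists_bd : ∃ 𝒢 : Finset (Finset (Fin n)), 𝒢 ⊆ c.F ∧
    (∀ A, A ∈ 𝒢 ↔ c.bd A) ∧ ind c.bd = ind (· ∈ 𝒢) := by
  refine ⟨c.F.filter c.bd, filter_subset _ _, ?_, ?_⟩
  · intro A
    rw [mem_filter]
    exact ⟨fun h => h.2, fun h => ⟨h.1, h⟩⟩
  · funext A
    by_cases h : c.bd A
    · rw [ind_of h, ind_of (mem_filter.2 ⟨h.1, h⟩)]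
    · rw [ind_of_not h, ind_of_not]
      intro h'
      exact h (mem_filter.1 h').2

theorem H_le_δ {S : Finset (Fin n)} (hS : c.l0 ≤ S.card) : c.H S ≤ (1 + 2 * c.p) * c.δ ∅ S := by
  have hp := c.p_pos
  obtain ⟨𝒢, h𝒢, hmem, hind⟩ := c.KKc_exists_G
  unfold H
  rw [hind]
  refine (c.HL h𝒢 (le_refl _) (fun A hA => (c.mem_win (h𝒢 hA)).1) hS).trans ?_
  exact mul_le_mul_of_nonneg_left (cov_mono h𝒢 _ _) (by linarith)

theorem H_le (S : Finset (Fin n)) : c.H S ≤ 11 / 10 := by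
  have hp := c.p_pos
  have hps := c.p_small
  have h : (1 : ℝ) / 10 ^ 20 ≤ 1 / 20 := by norm_num
  rcases le_or_gt c.l0 S.card with hS | hS
  · refine (c.H_le_δ hS).trans ?_
    have h1 : c.δ ∅ S ≤ 1 := cov_le_one _ (empty_subset _)
    have h0 := c.δ_nonneg ∅ S
    nlinarith
  · obtain ⟨𝒢, h𝒢, hmem, hind⟩ := c.KKc_exists_G
    unfold H
    rw [hind, KKc_Dn_eq_zero (fun A hA => (c.mem_win (h𝒢 hA)).1) hS]
    norm_num

/-- `H` is harmonic above `G` -/
theorem D_H {S : Finset (Fin n)} (hS : n / 2 < S.card + c.a) : D c.H S = c.H S := by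
  have h : c.H S = ind c.isG S + D c.H S := Dn_rec _ _
  rw [ind_of_not, zero_add] at h
  · exact h.symm
  · intro h'
    have := h'.2.2
    omega

/-- `H` on members above `G` -/
theorem H_mem_le {C : Finset (Fin n)} (hC : C ∈ c.F) (hCa : n / 2 < C.card + c.a) :
    c.H C ≤ 5 * (((c.a : ℝ) + dist C) / n) := by
  have hp := c.p_pos
  have hps := c.p_small
  have hR := c.R_large
  have hRn := c.R_le
  have hw := c.mem_win hC
  have hnR := c.nR_pos
  obtain ⟨𝒢, h𝒢, hmem, hind⟩ := c.KKc_exists_G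
  rw [← c.D_H hCa]
  have h1 : D c.H C ≤ (1 + 2 * c.p) * (((C.card : ℝ) - (c.lG : ℕ)) / C.card) := by
    unfold H
    rw [hind]
    refine c.HL' h𝒢 ?_ ?_ hC ?_
    · unfold l0 lG; omega
    · intro A hA
      have := ((hmem A).1 hA).2.1
      unfold lG; omega
    · unfold lG; omega
  refine h1.trans ?_
  have hsz := c.size_ge (s := C.card) (by omega)
  have hCpos : (0 : ℝ) < C.card := by
    have : (0 : ℝ) < (49 / 100 : ℝ) * n := by positivity
    linarith
  have h2 : (C.card : ℝ) - (c.lG : ℕ) ≤ 2 * ((c.a : ℝ) + dist C) := by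
    have h3 : (C.card : ℝ) - ((n / 2 : ℕ) : ℝ) ≤ dist C := le_abs_self _
    have h4 : ((c.lG : ℕ) : ℝ) = ((n / 2 : ℕ) : ℝ) - 2 * c.a + 1 := by
      unfold lG
      rw [Nat.cast_add, Nat.cast_sub (by omega)]
      push_cast; ring
    have h5 : 0 ≤ dist C := abs_nonneg _
    rw [h4]
    linarith
  have hd0 : 0 ≤ (c.a : ℝ) + dist C := by
    have h5 : 0 ≤ dist C := abs_nonneg _
    positivity
  have h6 : ((C.card : ℝ) - (c.lG : ℕ)) / C.card ≤
      2 * ((c.a : ℝ) + dist C) / ((49 / 100 : ℝ) * n) := by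
    apply div_le_div₀ (by positivity) h2 (by positivity) hsz
  have h7 : 2 * ((c.a : ℝ) + dist C) / ((49 / 100 : ℝ) * n) =
      (200 / 49) * (((c.a : ℝ) + dist C) / n) := by
    field_simp
    ring
  rw [h7] at h6
  have h8 : 0 ≤ ((c.a : ℝ) + dist C) / n := by positivity
  have h9 : (1 : ℝ) / 10 ^ 20 ≤ 1 / 20 := by norm_num
  nlinarith [mul_le_mul_of_nonneg_left h6 (by linarith : (0 : ℝ) ≤ 1 + 2 * c.p)]

theorem mass_F_le : mass (ind (· ∈ c.F)) ≤ 11 / 10 := by
  have hp := c.p_pos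
  have hps := c.p_small
  have h9 : (1 : ℝ) / 10 ^ 20 ≤ 1 / 20 := by norm_num
  rw [mass_eq_Dn]
  refine (c.HL (Subset.refl _) (le_refl _) (fun A hA => (c.mem_win hA).1) ?_).trans ?_
  · rw [card_univ, Fintype.card_fin]
    have := c.l1_lt
    unfold l1 at this
    unfold l0
    have h2 := c.R_le
    have h3 : 1 ≤ c.R := by
      have := c.R_large
      have := c.a_large
      omega
    omega
  · have h1 : cov c.l0 c.F ∅ (univ : Finset (Fin n)) ≤ 1 := cov_le_one _ (empty_subset _)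
    have h0 := cov_nonneg c.l0 c.F ∅ (univ : Finset (Fin n))
    nlinarith

theorem KKc_mass_bd_le : mass (ind c.bd) ≤ 11 / 10 := by
  refine le_trans (mass_mono fun C => ?_) c.mass_F_le
  by_cases h : c.bd C
  · rw [ind_of h, ind_of h.1]
  · rw [ind_of_not h]; exact ind_nonneg _ _

theorem mass_bd_pairs_le : mass (fun C => ind c.bd C * D (Dn (ind c.bd)) C) ≤ (c.a : ℝ) / n := by
  have hp := c.p_pos
  have hps := c.p_small
  have hR := c.R_large
  have hRn := c.R_le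
  have hnR := c.nR_pos
  have h9 : (1 : ℝ) / 10 ^ 20 ≤ 1 / 20 := by norm_num
  obtain ⟨𝒢, h𝒢, hmem, hind⟩ := c.KKc_exists_bd
  have hapos : 0 < c.a := by have := c.a_large; omega
  have hdvd := c.a_dvd
  have hadiv : c.a / 64 * 64 = c.a := Nat.div_mul_cancel hdvd
  have haR : (((c.a / 64 : ℕ) : ℝ)) = (c.a : ℝ) / 64 := by
    have : ((c.a / 64 : ℕ) : ℝ) * 64 = c.a := by exact_mod_cast hadiv
    linarith
  have key : ∀ C, ind c.bd C * D (Dn (ind c.bd)) C ≤ (1 / 10 * ((c.a : ℝ) / n)) * ind c.bd C := by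
    intro C
    by_cases h : c.bd C
    · rw [ind_of h, one_mul, mul_one]
      have hw := c.mem_win h.1
      have h1 : D (Dn (ind c.bd)) C ≤ (1 + 2 * c.p) * (((C.card : ℝ) - (c.lb : ℕ)) / C.card) := by
        rw [hind]
        refine c.HL' h𝒢 ?_ ?_ h.1 ?_
        · unfold l0 lb; omega
        · intro A hA
          have := ((hmem A).1 hA).2.1
          unfold lb; omega
        · have := h.2.1
          unfold lb; omega
      refine h1.trans ?_
      have hsz := c.size_ge (s := C.card) (by omega)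
      have hCpos : (0 : ℝ) < C.card := by
        have : (0 : ℝ) < (49 / 100 : ℝ) * n := by positivity
        linarith
      have h2 : (C.card : ℝ) - (c.lb : ℕ) ≤ (c.a : ℝ) / 32 := by
        have h3 : (C.card : ℝ) ≤ ((n / 2 : ℕ) : ℝ) + ((c.a / 64 : ℕ) : ℝ) := by
          exact_mod_cast h.2.2
        have h4 : ((c.lb : ℕ) : ℝ) = ((n / 2 : ℕ) : ℝ) - ((c.a / 64 : ℕ) : ℝ) := by
          unfold lb
          rw [Nat.cast_sub (by omega)]
        rw [h4]
        rw [haR] at h3 ⊢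
        linarith
      have h6 : ((C.card : ℝ) - (c.lb : ℕ)) / C.card ≤
          ((c.a : ℝ) / 32) / ((49 / 100 : ℝ) * n) := by
        apply div_le_div₀ (by positivity) h2 (by positivity) hsz
      have h7 : ((c.a : ℝ) / 32) / ((49 / 100 : ℝ) * n) =
          (100 / (32 * 49)) * ((c.a : ℝ) / n) := by
        field_simp
      rw [h7] at h6
      have h8 : 0 ≤ (c.a : ℝ) / n := by positivity
      nlinarith [mul_le_mul_of_nonneg_left h6 (by linarith : (0 : ℝ) ≤ 1 + 2 * c.p)]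
    · rw [ind_of_not h, zero_mul, mul_zero]
  refine (mass_mono key).trans ?_
  rw [mass_const_mul]
  have h1 := c.KKc_mass_bd_le
  have h8 : 0 ≤ (c.a : ℝ) / n := by positivity
  have h0 : 0 ≤ mass (ind c.bd) := mass_nonneg fun C => ind_nonneg _ _
  nlinarith

/-- `E_j[mh] ≤ a/n` -/
theorem E_mh_le {j : ℕ} (hj : j ≤ n) : E j c.mh ≤ (c.a : ℝ) / n := by
  have h1 : E j c.mh = E j (fun W => (1 : ℝ) * Up (fun C => ind c.bd C * U c.M C) W) := by
    refine E_congr fun S _ => ?_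
    rw [one_mul]; rfl
  rw [h1, E_mul_Up hj (fun _ => (1 : ℝ))]
  have hM : ∀ S, 0 ≤ c.M S := fun S => Up_nonneg fun _ _ => ind_nonneg _ _
  refine le_trans (mass_mono (g' := fun C => ind c.bd C * U (Up (ind c.bd)) C) fun C => ?_) ?_
  · have h0 : 0 ≤ ind c.bd C * U c.M C := mul_nonneg (ind_nonneg _ _) (U_nonneg fun v _ => hM _)
    split_ifs with h
    · have h2 : avD j (fun _ => (1 : ℝ)) C = 1 := by
        have hpos : (0 : ℝ) < (C.card.choose j : ℝ) := by exact_mod_cast Nat.choose_pos h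
        unfold avD
        rw [sum_const, card_powersetCard, nsmul_eq_mul, mul_one, div_self hpos.ne']
      rw [h2, mul_one]
      exact le_refl _
    · exact h0
  · rw [mass_pair]
    exact c.mass_bd_pairs_le

/-- unique centre -/
theorem cen_unique {C : Finset (Fin n)} {x y : Fin n} (hx : c.cen x C) (hy : c.cen y C) :
    x = y := by
  by_contra hne
  refine c.CI (C := C) (Q := {x}) (Q' := {y}) hx.1.1 (by simpa using hx.2.1)
    (by simpa using hy.2.1) (by simpa using hne) (by simp) (by simp) (by simp) (by simp) ⟨?_, ?_⟩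
  · rw [sdiff_singleton_eq_erase]; exact hx.2.2
  · rw [sdiff_singleton_eq_erase]; exact hy.2.2

end Ctx

end Kleitman
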