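import Pool.Agent.Kleitman.Shift
import Pool.Agent.Kleitman.KKc

/-! # Module C2: bad members have few `G`-hits below them -/

set_option autoImplicit false

open Finset

namespace Kleitman

section LBHelpers

variable {n : ℕ}

/-- the density of the covered sets decreases with the level -/
theorem LB_cov_anti {l l' : ℕ} (𝒢 : Finset (Finset (Fin n))) {S : Finset (Fin n)} (hl : l ≤ l')
    (hl' : l' ≤ S.card) : cov l' 𝒢 ∅ S ≤ cov l 𝒢 ∅ S := by
  classical
  have hcount : (KKcs l' 𝒢 ∅ S).card * l'.choose l ≤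
      (KKcs l 𝒢 ∅ S).card * (S.card - l).choose (l' - l) := by
    have h0 : (KKcs l' 𝒢 ∅ S).card * l'.choose l =
        ∑ A ∈ KKcs l' 𝒢 ∅ S, ((KKcs l 𝒢 ∅ S).filter (fun B => B ⊆ A)).card := by
      rw [Finset.sum_congr rfl (g := fun _ => l'.choose l), sum_const, smul_eq_mul]
      intro A hA
      rw [KK_mem_cs] at hA
      have : (KKcs l 𝒢 ∅ S).filter (fun B => B ⊆ A) = powersetCard l A := by
        ext B
        rw [mem_filter, KK_mem_cs, mem_powersetCard]
        constructor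
        · rintro ⟨⟨_, h2, _, _⟩, h5⟩; exact ⟨h5, h2⟩
        · rintro ⟨h5, h2⟩
          obtain ⟨h6, _, _, A', hA', h7, h8⟩ := hA
          exact ⟨⟨h5.trans h6, h2, empty_subset _, A', hA', h5.trans h7, h8⟩, h5⟩
      rw [this, card_powersetCard, hA.2.1]
    rw [h0]
    have h2 : ∑ A ∈ KKcs l' 𝒢 ∅ S, ((KKcs l 𝒢 ∅ S).filter (fun B => B ⊆ A)).card
        = ∑ B ∈ KKcs l 𝒢 ∅ S, ((KKcs l' 𝒢 ∅ S).filter (fun A => B ⊆ A)).card := by
      simp only [card_filter]
      rw [sum_comm]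
    rw [h2]
    refine (sum_le_sum (g := fun _ => (S.card - l).choose (l' - l)) ?_).trans
      (le_of_eq (by rw [sum_const, smul_eq_mul]))
    intro B hB
    rw [KK_mem_cs] at hB
    rw [← hB.2.1, ← KK_card_between hB.1 (by omega)]
    apply card_le_card
    intro A hA
    rw [mem_filter, KK_mem_cs] at hA
    rw [mem_filter, mem_powersetCard]
    exact ⟨⟨hA.1.1, hA.1.2.1⟩, hA.2⟩
  rw [KK_cov_eq, KK_cov_eq]
  simp only [card_empty, Nat.sub_zero]
  have hch : S.card.choose l' * l'.choose l = S.card.choose l * (S.card - l).choose (l' - l) :=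
    Nat.choose_mul hl
  have hc1 : (0 : ℝ) < ((S.card.choose l' : ℕ) : ℝ) := by exact_mod_cast Nat.choose_pos hl'
  have hc2 : (0 : ℝ) < ((S.card.choose l : ℕ) : ℝ) := by
    exact_mod_cast Nat.choose_pos (hl.trans hl')
  have hc3 : (0 : ℝ) < ((l'.choose l : ℕ) : ℝ) := by exact_mod_cast Nat.choose_pos hl
  have hch' : ((S.card.choose l' : ℕ) : ℝ) * ((l'.choose l : ℕ) : ℝ)
      = ((S.card.choose l : ℕ) : ℝ) * (((S.card - l).choose (l' - l) : ℕ) : ℝ) := by
    exact_mod_cast hch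
  have hcount' : ((KKcs l' 𝒢 ∅ S).card : ℝ) * ((l'.choose l : ℕ) : ℝ) ≤
      ((KKcs l 𝒢 ∅ S).card : ℝ) * (((S.card - l).choose (l' - l) : ℕ) : ℝ) := by
    exact_mod_cast hcount
  rw [div_le_div_iff₀ hc1 hc2]
  have key : ((KKcs l' 𝒢 ∅ S).card : ℝ) * ((S.card.choose l : ℕ) : ℝ) * ((l'.choose l : ℕ) : ℝ) ≤
      ((KKcs l 𝒢 ∅ S).card : ℝ) * ((S.card.choose l' : ℕ) : ℝ) * ((l'.choose l : ℕ) : ℝ) := by
    calc _ = (((KKcs l' 𝒢 ∅ S).card : ℝ) * ((l'.choose l : ℕ) : ℝ)) *
          ((S.card.choose l : ℕ) : ℝ) := by ring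
      _ ≤ (((KKcs l 𝒢 ∅ S).card : ℝ) * (((S.card - l).choose (l' - l) : ℕ) : ℝ)) *
          ((S.card.choose l : ℕ) : ℝ) := mul_le_mul_of_nonneg_right hcount' hc2.le
      _ = ((KKcs l 𝒢 ∅ S).card : ℝ) * (((S.card.choose l : ℕ) : ℝ)
          * (((S.card - l).choose (l' - l) : ℕ) : ℝ)) := by ring
      _ = _ := by rw [← hch']; ring
  exact le_of_mul_le_mul_right key hc3

theorem LB_card_eq {l : ℕ} (𝒢 : Finset (Finset (Fin n))) {S : Finset (Fin n)} (hl : l ≤ S.card) :
    ((KKcs l 𝒢 ∅ S).card : ℝ) = cov l 𝒢 ∅ S * ((S.card.choose l : ℕ) : ℝ) := by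
  rw [KK_cov_eq]
  simp only [card_empty, Nat.sub_zero]
  have hc1 : (0 : ℝ) < ((S.card.choose l : ℕ) : ℝ) := by exact_mod_cast Nat.choose_pos hl
  field_simp

end LBHelpers

namespace Ctx

variable {n : ℕ} (c : Ctx n)

/-- Lemma B for a context. `X = C`, `m = |C| - lG`, `𝒰 = {C \ B : B ∈ powersetCard lG C covered by a
`G`-member inside `C`}` (every such member is `≠ C`, so `𝒰` is intersecting by union-freeness);
degree of `x`: `E ∋ x` corresponds to `B ⊆ C - x`; if `B` is covered inside `C - x` use `¬ heavy (C - x)`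
(`δ(C-x) ≥ cov lG (G) ∅ (C-x)` because densities of the covered sets are monotone in the level), otherwise
`B + x` is a covered set of size `lG + 1` (EKR). So `D0 = 45 p`. Finally `HL` with `𝒢 = G`, `l = lG`. -/
theorem LB {C : Finset (Fin n)} (hC : c.bad C) : c.H C ≤ 1000 * ((c.a : ℝ) / n) * c.p := by
  classical
  obtain ⟨𝒢, h𝒢F, h𝒢⟩ : ∃ 𝒢 : Finset (Finset (Fin n)), 𝒢 ⊆ c.F ∧ ∀ A, A ∈ 𝒢 ↔ c.isG A := by
    refine ⟨c.F.filter c.isG, filter_subset _ _, ?_⟩
    intro A
    rw [mem_filter]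
    exact ⟨fun h => h.2, fun h => ⟨h.1, h⟩⟩
  have hHeq : c.H = Dn (ind (· ∈ 𝒢)) := by
    unfold H
    congr 1
    funext A
    unfold ind
    simp only [h𝒢]
  have hp := c.p_pos
  have hps := c.p_small
  have hap := c.a_div_n_le
  have hinv := c.inv_n_le
  have hn := c.nR_pos
  have hRn := c.R_le
  have hRl := c.R_large
  have hal := c.a_large
  have hl0 := c.num_l0_eq
  obtain ⟨hbd, hnh⟩ := hC
  have hCF := hbd.1
  have hb1 := hbd.2.1
  have hb2 := hbd.2.2
  have hlGe : c.lG + 2 * c.a = n / 2 + 1 := by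
    unfold lG
    omega
  have hl0G : c.l0 ≤ c.lG := by omega
  have ha64 : 64 * (c.a / 64) ≤ c.a := Nat.mul_div_le _ _
  have hCG : c.lG + 2 ≤ C.card := by omega
  have hm : C.card - c.lG ≤ 2 * c.a + c.a / 64 := by omega
  have hmem : ∀ A ∈ 𝒢, c.lG ≤ A.card := by
    intro A hA
    have := ((h𝒢 A).1 hA).2.1
    omega
  have hneC : ∀ A ∈ 𝒢, A ≠ C := by
    intro A hA h
    have := ((h𝒢 A).1 hA).2.2
    rw [h] at this
    omega
  -- real versions
  have hnat : 2 * (n / 2) ≤ n := Nat.mul_div_le _ _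
  have hnat' : n ≤ 2 * (n / 2) + 1 := by omega
  have hCn : (49 / 100 : ℝ) * n ≤ (C.card : ℝ) := c.size_ge (by have := c.mem_win hCF; omega)
  have hCpos : (0 : ℝ) < (C.card : ℝ) := by
    have : (0 : ℝ) < (49 / 100 : ℝ) * n := by positivity
    linarith
  have haR : (0 : ℝ) < (c.a : ℝ) := by
    exact_mod_cast (show 0 < c.a by omega)
  have hmR : ((C.card - c.lG : ℕ) : ℝ) ≤ (129 / 64 : ℝ) * c.a := by
    have h1 : ((C.card - c.lG : ℕ) : ℝ) ≤ ((2 * c.a + c.a / 64 : ℕ) : ℝ) := by exact_mod_cast hm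
    have h2 : (((c.a / 64 : ℕ)) : ℝ) ≤ (c.a : ℝ) / 64 := by
      rw [le_div_iff₀ (by norm_num)]
      exact_mod_cast (show c.a / 64 * 64 ≤ c.a by omega)
    push_cast at h1
    linarith
  -- m / |C| ≤ 42/10 * a/n
  have hratio : ((C.card - c.lG : ℕ) : ℝ) / (C.card : ℝ) ≤ (42 / 10 : ℝ) * ((c.a : ℝ) / n) := by
    rw [div_le_iff₀ hCpos]
    have h1 : (42 / 10 : ℝ) * ((c.a : ℝ) / n) * (C.card : ℝ) ≥
        (42 / 10 : ℝ) * ((c.a : ℝ) / n) * ((49 / 100 : ℝ) * n) :=
      mul_le_mul_of_nonneg_left hCn (by positivity)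
    have h2 : (42 / 10 : ℝ) * ((c.a : ℝ) / n) * ((49 / 100 : ℝ) * n) = (2058 / 1000 : ℝ) * c.a := by
      field_simp; norm_num
    rw [h2] at h1
    linarith
  have hratio0 : (0 : ℝ) ≤ ((C.card - c.lG : ℕ) : ℝ) / (C.card : ℝ) := by positivity
  have hratio' : ((C.card - c.lG : ℕ) : ℝ) / (C.card : ℝ) ≤ (42 / 100 : ℝ) * c.p := by
    refine hratio.trans ?_
    linarith
  set ℬ := KKcs c.lG 𝒢 ∅ C with hℬ
  have hbound := Pool.Agent.Helper92.Kle.lemmaB_union C (l := c.lG) (by omega)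
    (by
      have h1 : 100 * (C.card - c.lG) ≤ 300 * c.a := by omega
      have h2 : 10 ^ 20 * c.a ≤ n := by
        calc 10 ^ 20 * c.a ≤ 10 ^ 20 * c.R := Nat.mul_le_mul_left _ (by omega)
          _ ≤ n := hRn
      omega)
    (45 * c.p)
    (by
      rw [mul_div_assoc]
      linarith)
    ℬ
    (by
      intro B hB
      rw [hℬ, KK_mem_cs] at hB
      exact ⟨hB.1, hB.2.1⟩)
    (by
      intro B hB B' hB'
      rw [hℬ, KK_mem_cs] at hB hB'
      obtain ⟨_, _, _, A, hA, hBA, hAC⟩ := hB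
      obtain ⟨_, _, _, A', hA', hBA', hAC'⟩ := hB'
      exact c.KKc_union_ne hCF (h𝒢F hA) (h𝒢F hA') hBA hBA' hAC hAC' (hneC A hA) (hneC A' hA'))
    (by
      intro x hx
      have hEc : (C.erase x).card = C.card - 1 := card_erase_of_mem hx
      -- split
      have hsub : (ℬ.filter (fun B => x ∉ B)).card ≤ (KKcs c.lG 𝒢 ∅ (C.erase x)).card +
          (KKcs (c.lG + 1) (𝒢.erase C) ∅ C).card := by
        have h1 : ℬ.filter (fun B => x ∉ B) ⊆ (KKcs c.lG 𝒢 ∅ (C.erase x)) ∪
            ((ℬ.filter (fun B => x ∉ B)).filter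
              (fun B => insert x B ∈ KKcs (c.lG + 1) (𝒢.erase C) ∅ C)) := by
          intro B hB
          have hB0 := hB
          rw [mem_filter, hℬ, KK_mem_cs] at hB
          obtain ⟨⟨h1, h2, h3, A, hA, h4, h5⟩, h6⟩ := hB
          rw [mem_union]
          by_cases hxA : x ∈ A
          · right
            rw [mem_filter]
            refine ⟨hB0, ?_⟩
            rw [KK_mem_cs]
            refine ⟨insert_subset hx h1, ?_, empty_subset _, A, ?_, insert_subset hxA h4, h5⟩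
            · rw [card_insert_of_notMem h6, h2]
            · exact mem_erase.2 ⟨hneC A hA, hA⟩
          · left
            rw [KK_mem_cs]
            refine ⟨?_, h2, empty_subset _, A, hA, h4, ?_⟩
            · intro y hy
              exact mem_erase.2 ⟨fun h => h6 (h ▸ hy), h1 hy⟩
            · intro y hy
              exact mem_erase.2 ⟨fun h => hxA (h ▸ hy), h5 hy⟩
        refine (card_le_card h1).trans ((card_union_le _ _).trans (Nat.add_le_add_left ?_ _))
        apply card_le_card_of_injOn (fun B => insert x B)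
        · intro B hB
          exact (mem_filter.1 (mem_coe.1 hB)).2
        · intro B hB B' hB' h
          have h1 := (mem_filter.1 (mem_filter.1 (mem_coe.1 hB)).1).2
          have h2 := (mem_filter.1 (mem_filter.1 (mem_coe.1 hB')).1).2
          simp only at h
          rw [← erase_insert h1, h, erase_insert h2]
      have hfirst : ((KKcs c.lG 𝒢 ∅ (C.erase x)).card : ℝ) ≤
          44 * c.p * (((C.card - 1).choose c.lG : ℕ) : ℝ) := by
        rw [LB_card_eq 𝒢 (by omega), hEc]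
        apply mul_le_mul_of_nonneg_right _ (Nat.cast_nonneg _)
        have h1 := hnh x hx
        unfold heavy δ at h1
        push Not at h1
        calc cov c.lG 𝒢 ∅ (C.erase x) ≤ cov c.lG c.F ∅ (C.erase x) := cov_mono h𝒢F _ _
          _ ≤ cov c.l0 c.F ∅ (C.erase x) := LB_cov_anti _ hl0G (by omega)
          _ ≤ _ := h1.le
      have hsecond : ((KKcs (c.lG + 1) (𝒢.erase C) ∅ C).card : ℝ) ≤
          c.p * (((C.card - 1).choose c.lG : ℕ) : ℝ) := by
        rw [LB_card_eq (𝒢.erase C) (by omega)]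
        have hekr := c.EKR hCF h𝒢F (l := c.lG + 1) (by omega) (by omega) (by omega)
        -- choose |C| (lG+1) * (|C| - lG - 1) / |C| = choose (|C|-1) (lG+1)
        have h1 : (((C.card - 1).choose (c.lG + 1) : ℕ) : ℝ) =
            ((C.card : ℝ) - ((c.lG + 1 : ℕ) : ℝ)) / C.card * ((C.card.choose (c.lG + 1) : ℕ) : ℝ) :=
          KKc_ratio (by omega) (by omega)
        have h2 : cov (c.lG + 1) (𝒢.erase C) ∅ C * ((C.card.choose (c.lG + 1) : ℕ) : ℝ) ≤
            (((C.card - 1).choose (c.lG + 1) : ℕ) : ℝ) := by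
          rw [h1]
          exact mul_le_mul_of_nonneg_right hekr (Nat.cast_nonneg _)
        refine h2.trans ?_
        -- choose (g-1) (l+1) = choose (g-1) l * (g-1-l)/(l+1)
        have h3 : (C.card - 1).choose (c.lG + 1) * (c.lG + 1) =
            (C.card - 1).choose c.lG * (C.card - 1 - c.lG) :=
          Nat.choose_succ_right_eq _ _
        have h3' : (((C.card - 1).choose (c.lG + 1) : ℕ) : ℝ) * ((c.lG : ℝ) + 1) =
            (((C.card - 1).choose c.lG : ℕ) : ℝ) * ((C.card - 1 - c.lG : ℕ) : ℝ) := by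
          exact_mod_cast h3
        have h4 : ((C.card - 1 - c.lG : ℕ) : ℝ) ≤ c.p * ((c.lG : ℝ) + 1) := by
          have h5 : ((C.card - 1 - c.lG : ℕ) : ℝ) ≤ ((C.card - c.lG : ℕ) : ℝ) := by
            exact_mod_cast (show C.card - 1 - c.lG ≤ C.card - c.lG by omega)
          have h6 : (49 / 100 : ℝ) * n ≤ (c.lG : ℝ) := c.size_ge (by omega)
          have h7 : c.p * ((c.lG : ℝ) + 1) ≥ c.p * ((49 / 100 : ℝ) * n) :=
            mul_le_mul_of_nonneg_left (by linarith) hp.le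
          have h8 : 10 * (c.a : ℝ) ≤ c.p * n := by
            rw [div_le_div_iff₀ hn (by norm_num)] at hap
            linarith
          nlinarith
        have hpos : (0 : ℝ) < (c.lG : ℝ) + 1 := by positivity
        have h9 : (((C.card - 1).choose (c.lG + 1) : ℕ) : ℝ) * ((c.lG : ℝ) + 1) ≤
            (c.p * (((C.card - 1).choose c.lG : ℕ) : ℝ)) * ((c.lG : ℝ) + 1) := by
          rw [h3']
          calc _ ≤ (((C.card - 1).choose c.lG : ℕ) : ℝ) * (c.p * ((c.lG : ℝ) + 1)) :=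
                mul_le_mul_of_nonneg_left h4 (Nat.cast_nonneg _)
            _ = _ := by ring
        exact le_of_mul_le_mul_right h9 hpos
      have hsub' : ((ℬ.filter (fun B => x ∉ B)).card : ℝ) ≤
          ((KKcs c.lG 𝒢 ∅ (C.erase x)).card : ℝ) +
          ((KKcs (c.lG + 1) (𝒢.erase C) ∅ C).card : ℝ) := by exact_mod_cast hsub
      linarith)
  -- conclusion
  have hcov : cov c.lG 𝒢 ∅ C ≤ 2 * (45 * c.p) * (((C.card - c.lG : ℕ) : ℝ) / (C.card : ℝ))
      + 30 * (((C.card - c.lG : ℕ) : ℝ) / (C.card : ℝ)) ^ 2 := by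
    rw [KK_cov_eq]
    simp only [card_empty, Nat.sub_zero]
    rw [div_le_iff₀ (by exact_mod_cast Nat.choose_pos (by omega))]
    exact hbound
  have hHL := c.HL h𝒢F hl0G hmem (S := C) (by omega)
  rw [hHeq]
  refine hHL.trans ?_
  set r := ((C.card - c.lG : ℕ) : ℝ) / (C.card : ℝ) with hr
  have hanpos : (0 : ℝ) < (c.a : ℝ) / n := by positivity
  have h1 : 2 * (45 * c.p) * r + 30 * r ^ 2 ≤ 450 * ((c.a : ℝ) / n) * c.p := by
    have h2 : 2 * (45 * c.p) * r ≤ 90 * c.p * ((42 / 10 : ℝ) * ((c.a : ℝ) / n)) := by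
      have : 2 * (45 * c.p) * r = 90 * c.p * r := by ring
      rw [this]
      exact mul_le_mul_of_nonneg_left hratio (by positivity)
    have h3 : r ^ 2 ≤ ((42 / 100 : ℝ) * c.p) * ((42 / 10 : ℝ) * ((c.a : ℝ) / n)) := by
      rw [pow_two]
      exact mul_le_mul hratio' hratio hratio0 (by positivity)
    have h4 : (0 : ℝ) ≤ ((c.a : ℝ) / n) * c.p := by positivity
    nlinarith
  calc (1 + 2 * c.p) * cov c.lG 𝒢 ∅ C ≤ (1 + 2 * c.p) * (450 * ((c.a : ℝ) / n) * c.p) :=
        mul_le_mul_of_nonneg_left (hcov.trans h1) (by linarith)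
    _ ≤ 2 * (450 * ((c.a : ℝ) / n) * c.p) := by
        apply mul_le_mul_of_nonneg_right _ (by positivity)
        have : c.p ≤ 1 / 10 ^ 20 := hps
        norm_num at this
        linarith
    _ ≤ _ := by
        have : (0 : ℝ) ≤ ((c.a : ℝ) / n) * c.p := by positivity
        nlinarith

end Ctx

end Kleitman
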