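import Pool.Agent.Kleitman.ExitsB

/-! # Module NB: the number of strong exits is at most `n/(100 a)` -/

set_option autoImplicit false

open Finset

namespace Kleitman

/-- `choose (m - j) r ≤ (1 - r/m)^j choose m r` -/
theorem nb_choose_sub_le {m r : ℕ} (hm : 0 < m) (hr : r ≤ m) (j : ℕ) (hj : j ≤ m) :
    (((m - j).choose r : ℕ) : ℝ) ≤ (1 - (r : ℝ) / m) ^ j * ((m.choose r : ℕ) : ℝ) := by
  have hfac : (0 : ℝ) ≤ 1 - (r : ℝ) / m := by
    rw [sub_nonneg, div_le_one (by exact_mod_cast hm)]; exact_mod_cast hr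
  induction j with
  | zero => simp
  | succ j ih =>
    have ih := ih (by omega)
    obtain ⟨t, ht⟩ : ∃ t, m - j = t + 1 := ⟨m - j - 1, by omega⟩
    have h1 : m - (j + 1) = t := by omega
    rw [h1]
    rw [ht] at ih
    have h2 := Nat.choose_mul_succ_eq t r
    have h3 : ((t.choose r : ℕ) : ℝ) ≤ (1 - (r : ℝ) / m) * (((t + 1).choose r : ℕ) : ℝ) := by
      rcases Nat.lt_or_ge t r with h | h
      · rw [Nat.choose_eq_zero_of_lt h]
        rw [Nat.cast_zero]
        positivity
      · have h4 : ((t.choose r : ℕ) : ℝ) * (t + 1) =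
            (((t + 1).choose r : ℕ) : ℝ) * (t + 1 - r) := by
          have : ((t + 1 - r : ℕ) : ℝ) = (t : ℝ) + 1 - r := by
            rw [Nat.cast_sub (by omega)]; push_cast; ring
          rw [← this]
          exact_mod_cast h2
        have ht1 : (0 : ℝ) < t + 1 := by positivity
        have h5 : ((t.choose r : ℕ) : ℝ) =
            (1 - r / ((t : ℝ) + 1)) * (((t + 1).choose r : ℕ) : ℝ) := by
          field_simp
          linarith
        rw [h5]
        have h6 : ((t : ℝ) + 1) ≤ m := by
          have : t + 1 ≤ m := by omega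
          exact_mod_cast this
        have h7 : (r : ℝ) / m ≤ r / ((t : ℝ) + 1) :=
          div_le_div_of_nonneg_left (by positivity) ht1 h6
        exact mul_le_mul_of_nonneg_right (by linarith) (by positivity)
    calc ((t.choose r : ℕ) : ℝ) ≤ (1 - (r : ℝ) / m) * (((t + 1).choose r : ℕ) : ℝ) := h3
      _ ≤ (1 - (r : ℝ) / m) * ((1 - (r : ℝ) / m) ^ j * ((m.choose r : ℕ) : ℝ)) :=
          mul_le_mul_of_nonneg_left ih hfac
      _ = (1 - (r : ℝ) / m) ^ (j + 1) * ((m.choose r : ℕ) : ℝ) := by ring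

/-- if the probability that a random `r`-subset of an `m`-set avoids `j` given points is at least
`0.997` then `j r ≤ 0.00302 m` -/
theorem nb_avoid_bound {m r j : ℕ} (hm : 0 < m) (hr : r ≤ m) (hj : j ≤ m)
    (h : (997 / 1000 : ℝ) * ((m.choose r : ℕ) : ℝ) ≤ (((m - j).choose r : ℕ) : ℝ)) :
    (j : ℝ) * r ≤ (302 / 100000 : ℝ) * m := by
  have h1 := h.trans (nb_choose_sub_le hm hr j hj)
  have hpos : (0 : ℝ) < ((m.choose r : ℕ) : ℝ) := by exact_mod_cast Nat.choose_pos hr
  have h2 : (997 / 1000 : ℝ) ≤ (1 - (r : ℝ) / m) ^ j := le_of_mul_le_mul_right h1 hpos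
  have hfac : (0 : ℝ) ≤ 1 - (r : ℝ) / m := by
    rw [sub_nonneg, div_le_one (by exact_mod_cast hm)]; exact_mod_cast hr
  have hmR : (0 : ℝ) < m := by exact_mod_cast hm
  set y : ℝ := (j : ℝ) * ((r : ℝ) / m) with hy
  have hy0 : 0 ≤ y := by positivity
  have h3 : (1 - (r : ℝ) / m) ^ j ≤ Real.exp (-y) := by
    have : 1 - (r : ℝ) / m ≤ Real.exp (-((r : ℝ) / m)) := by
      have := Real.add_one_le_exp (-((r : ℝ) / m)); linarith
    calc (1 - (r : ℝ) / m) ^ j ≤ (Real.exp (-((r : ℝ) / m))) ^ j :=
          pow_le_pow_left₀ hfac this j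
      _ = Real.exp (-y) := by rw [← Real.exp_nat_mul]; congr 1; rw [hy]; ring
  have h4 : 1 + y ≤ Real.exp y := by have := Real.add_one_le_exp y; linarith
  have h5 : Real.exp (-y) * Real.exp y = 1 := by rw [← Real.exp_add]; simp
  have h6 : (997 / 1000 : ℝ) * (1 + y) ≤ 1 := by
    have hexp : 0 < Real.exp y := Real.exp_pos y
    have : (997 / 1000 : ℝ) ≤ Real.exp (-y) := h2.trans h3
    calc (997 / 1000 : ℝ) * (1 + y) ≤ Real.exp (-y) * Real.exp y := by
          apply mul_le_mul this h4 (by positivity) (Real.exp_pos _).le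
      _ = 1 := h5
  have h7 : y ≤ 302 / 100000 := by linarith
  have h8 : (j : ℝ) * r = y * m := by rw [hy]; field_simp
  rw [h8]
  exact mul_le_mul_of_nonneg_right h7 hmR.le

namespace Ctx

variable {n : ℕ} (c : Ctx n)

open Classical in
/-- `P(E' ∩ X = {x})` as a ratio of binomial coefficients -/
theorem nb_avU_ind_inter_le {X S : Finset (Fin n)} {x : Fin n} {j : ℕ} (hx : x ∈ X)
    (hS : ∀ y ∈ X, y ∈ S ↔ y = x) :
    avU j (ind (fun E => E ∩ X = {x})) S ≤
      (((n - S.card - (X.card - 1)).choose (j - S.card) : ℕ) : ℝ) /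
        (((n - S.card).choose (j - S.card) : ℕ) : ℝ) := by
  unfold avU
  apply div_le_div_of_nonneg_right _ (by positivity)
  have hsum : (∑ C ∈ univ.filter (fun C : Finset (Fin n) => S ⊆ C ∧ C.card = j),
      ind (fun E : Finset (Fin n) => E ∩ X = {x}) C) =
      (((univ.filter (fun C : Finset (Fin n) => S ⊆ C ∧ C.card = j)).filter
        (fun E => E ∩ X = {x})).card : ℝ) := by
    rw [card_filter]
    push_cast
    apply sum_congr rfl
    intro C _
    unfold ind
    split_ifs <;> simp_all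
  rw [hsum]
  have hcard : (S ∪ X)ᶜ.card = n - S.card - (X.card - 1) := by
    have h1 : S ∩ X = {x} := by
      ext y
      simp only [mem_inter, mem_singleton]
      constructor
      · rintro ⟨h1, h2⟩; exact (hS y h2).1 h1
      · rintro rfl; exact ⟨(hS y hx).2 rfl, hx⟩
    have h2 := card_union_add_card_inter S X
    rw [h1, card_singleton] at h2
    rw [card_compl, Fintype.card_fin]
    have : 1 ≤ X.card := card_pos.2 ⟨x, hx⟩
    omega
  rw [← hcard, ← card_powersetCard]
  norm_cast
  apply card_le_card_of_injOn (fun C => C \ S)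
  · intro C hC
    simp only [coe_filter, mem_filter, mem_univ, true_and, Set.mem_ofPred_eq] at hC
    obtain ⟨⟨h1, h2⟩, h3⟩ := hC
    simp only [mem_coe, mem_powersetCard]
    constructor
    · intro y hy
      rw [mem_sdiff] at hy
      rw [mem_compl, mem_union, not_or]
      refine ⟨hy.2, fun hyX => ?_⟩
      have : y ∈ C ∩ X := mem_inter.2 ⟨hy.1, hyX⟩
      rw [h3, mem_singleton] at this
      exact hy.2 ((hS y hyX).2 this)
    · rw [card_sdiff_of_subset h1, h2]
  · intro C hC C' hC' h
    simp only [coe_filter, mem_filter, mem_univ, true_and, Set.mem_ofPred_eq] at hC hC'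
    have h' : C \ S = C' \ S := h
    rw [← sdiff_union_of_subset hC.1.1, ← sdiff_union_of_subset hC'.1.1, h']

theorem nb_avU_mono {j : ℕ} {f g : Finset (Fin n) → ℝ} {S : Finset (Fin n)}
    (h : ∀ C, S ⊆ C → C.card = j → f C ≤ g C) : avU j f S ≤ avU j g S := by
  unfold avU
  apply div_le_div_of_nonneg_right _ (by positivity)
  apply sum_le_sum
  intro C hC
  rw [mem_filter] at hC
  exact h C hC.2.1 hC.2.2

theorem nb_avU_add {j : ℕ} (f g : Finset (Fin n) → ℝ) (S : Finset (Fin n)) :
    avU j (fun S => f S + g S) S = avU j f S + avU j g S := by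
  unfold avU
  rw [← add_div, sum_add_distrib]

theorem nb_bd_card {C : Finset (Fin n)} (h : c.bd C) : c.lb ≤ C.card := by
  have := h.2.1
  unfold lb
  omega

open Classical in
/-- the expected number of band hits whose trace on `X` is `{x}` -/
theorem nb_Up_trace_le {X S : Finset (Fin n)} {x : Fin n} (hx : x ∈ X) (hxS : x ∈ S)
    (hSj : S.card ≤ c.lb) (hj : c.lb ≤ n) :
    Up (ind (fun C => c.bd C ∧ C ∩ X = {x})) S ≤
      avU c.lb (ind (fun E => E ∩ X = {x})) S + c.mh S := by
  have hz : ∀ C : Finset (Fin n), C.card < c.lb → ¬ c.bd C := by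
    intro C hC hbd
    exact absurd (c.nb_bd_card hbd) (by omega)
  have h1 : Up (ind (fun C => c.bd C ∧ C ∩ X = {x})) S =
      avU c.lb (Up (ind (fun C => c.bd C ∧ C ∩ X = {x}))) S := by
    apply Up_eq_avU _ hSj hj
    intro C hC
    exact ind_of_not fun h => hz C hC h.1
  have h2 : c.mh S = avU c.lb c.mh S := by
    apply Up_eq_avU _ hSj hj
    intro C hC
    show ind c.bd C * U c.M C = 0
    rw [ind_of_not (hz C hC), zero_mul]
  rw [h1, h2, ← nb_avU_add]
  apply nb_avU_mono
  intro E hSE hE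
  have hmh : 0 ≤ c.mh E := by
    apply Up_nonneg
    intro C _
    exact mul_nonneg (ind_nonneg _ _) (U_nonneg fun v _ => Up_nonneg fun _ _ => ind_nonneg _ _)
  by_cases h : E ∩ X = {x}
  · rw [ind_of (P := fun E => E ∩ X = {x}) h]
    refine le_trans ?_ (c.M_le E)
    apply Up_mono
    intro C _
    unfold ind
    split_ifs with h1 h2 h2
    · exact le_rfl
    · exact absurd h1.1 h2
    · exact zero_le_one
    · exact le_rfl
  · rw [ind_of_not (P := fun E => E ∩ X = {x}) h, zero_add]
    refine le_trans (le_of_eq ?_) hmh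
    unfold Up
    apply sum_eq_zero
    intro C hC
    rw [mem_filter] at hC
    rw [ind_of_not, zero_div]
    rintro ⟨_, h3⟩
    apply h
    apply subset_antisymm
    · rw [← h3]; exact inter_subset_inter_right hC.2
    · rw [singleton_subset_iff, mem_inter]; exact ⟨hSE hxS, hx⟩

theorem nb_Up_sub (g g' : Finset (Fin n) → ℝ) (S : Finset (Fin n)) :
    Up (fun S => g S - g' S) S = Up g S - Up g' S := by
  unfold Up; rw [← sum_sub_distrib]; exact sum_congr rfl fun C _ => by rw [sub_div]

open Classical in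
theorem nb_sum_Up_insert {W X : Finset (Fin n)} (hX : ∀ x ∈ X, x ∉ W)
    (g : Fin n → Finset (Fin n) → ℝ) :
    ∑ x ∈ X, Up (g x) (insert x W) =
      ∑ C ∈ univ.filter (fun C : Finset (Fin n) => W ⊆ C), (∑ x ∈ X ∩ C, g x C) /
        (((n - (W.card + 1)).choose (C.card - (W.card + 1)) : ℕ) : ℝ) := by
  have h1 : ∀ x ∈ X, Up (g x) (insert x W) =
      ∑ C ∈ univ.filter (fun C : Finset (Fin n) => W ⊆ C), (if x ∈ C then g x C else 0) /
        (((n - (W.card + 1)).choose (C.card - (W.card + 1)) : ℕ) : ℝ) := by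
    intro x hx
    unfold Up
    rw [card_insert_of_notMem (hX x hx)]
    have : (univ.filter (fun C : Finset (Fin n) => insert x W ⊆ C)) =
        (univ.filter (fun C : Finset (Fin n) => W ⊆ C)).filter (fun C => x ∈ C) := by
      ext C
      simp only [mem_filter, mem_univ, true_and, insert_subset_iff]
      tauto
    rw [this, sum_filter]
    apply sum_congr rfl
    intro C _
    split_ifs
    · rfl
    · rw [zero_div]
  rw [sum_congr rfl h1, sum_comm]
  apply sum_congr rfl
  intro C _
  rw [← sum_div, ← sum_filter, filter_mem_eq_inter]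

open Classical in
/-- double counting: the non-central band hits -/
theorem nb_sum_trace_le {W X : Finset (Fin n)} (hX : ∀ x ∈ X, x ∉ W) :
    ∑ x ∈ X, (c.M (insert x W) - Up (ind (fun C => c.bd C ∧ C ∩ X = {x})) (insert x W)) ≤
      2 * ∑ x ∈ X, (c.M (insert x W) - c.uh x (insert x W)) := by
  have e1 : ∀ x ∈ X, (c.M (insert x W) -
      Up (ind (fun C => c.bd C ∧ C ∩ X = {x})) (insert x W)) =
      Up (fun C => ind c.bd C - ind (fun C => c.bd C ∧ C ∩ X = {x}) C) (insert x W) := by
    intro x _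
    rw [nb_Up_sub]; rfl
  have e2 : ∀ x ∈ X, (c.M (insert x W) - c.uh x (insert x W)) =
      Up (fun C => ind c.bd C - ind (c.cen x) C) (insert x W) := by
    intro x _
    rw [nb_Up_sub]; rfl
  rw [sum_congr rfl e1, sum_congr rfl e2, nb_sum_Up_insert hX, nb_sum_Up_insert hX, mul_sum]
  apply sum_le_sum
  intro C _
  rw [← mul_div_assoc]
  apply div_le_div_of_nonneg_right _ (by positivity)
  by_cases hbd : c.bd C
  · by_cases hcard : 2 ≤ (X ∩ C).card
    · -- LHS ≤ m, RHS ≥ 2 (m - 1)
      have hL : ∑ x ∈ X ∩ C, (ind c.bd C - ind (fun C => c.bd C ∧ C ∩ X = {x}) C) ≤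
          ((X ∩ C).card : ℝ) := by
        rw [card_eq_sum_ones]
        push_cast
        apply sum_le_sum
        intro x _
        have := ind_le_one c.bd C
        have := ind_nonneg (fun C => c.bd C ∧ C ∩ X = {x}) C
        linarith
      have hR : ((X ∩ C).card : ℝ) - 1 ≤ ∑ x ∈ X ∩ C, (ind c.bd C - ind (c.cen x) C) := by
        rw [sum_sub_distrib]
        have h1 : ∑ x ∈ X ∩ C, ind c.bd C = ((X ∩ C).card : ℝ) := by
          rw [sum_const, ind_of hbd]; simp
        have h2 : ∑ x ∈ X ∩ C, ind (c.cen x) C ≤ 1 := by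
          have h3 : ∑ x ∈ X ∩ C, ind (c.cen x) C =
              (((X ∩ C).filter (fun x => c.cen x C)).card : ℝ) := by
            rw [card_filter]
            push_cast
            apply sum_congr rfl
            intro x _
            unfold ind
            split_ifs <;> simp_all
          rw [h3]
          have : ((X ∩ C).filter (fun x => c.cen x C)).card ≤ 1 := by
            rw [card_le_one]
            intro a ha b hb
            exact c.cen_unique (mem_filter.1 ha).2 (mem_filter.1 hb).2
          exact_mod_cast this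
        rw [h1]; linarith
      have hm : (2 : ℝ) ≤ ((X ∩ C).card : ℝ) := by exact_mod_cast hcard
      linarith
    · have hL : ∑ x ∈ X ∩ C, (ind c.bd C - ind (fun C => c.bd C ∧ C ∩ X = {x}) C) ≤ 0 := by
        apply sum_nonpos
        intro x hx
        have h1 : C ∩ X = {x} := by
          have h2 : (X ∩ C).card ≤ 1 := by omega
          rw [inter_comm]
          apply eq_singleton_iff_unique_mem.2
          exact ⟨hx, fun y hy => (card_le_one.1 h2) y hy x hx⟩
        rw [ind_of hbd, ind_of (P := fun C => c.bd C ∧ C ∩ X = {x}) ⟨hbd, h1⟩, sub_self]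
      have hR : 0 ≤ ∑ x ∈ X ∩ C, (ind c.bd C - ind (c.cen x) C) := by
        apply sum_nonneg
        intro x _
        rw [ind_of hbd]
        have := ind_le_one (c.cen x) C
        linarith
      linarith
  · have hL : ∑ x ∈ X ∩ C, (ind c.bd C - ind (fun C => c.bd C ∧ C ∩ X = {x}) C) = 0 := by
      apply sum_eq_zero
      intro x _
      rw [ind_of_not hbd, ind_of_not (P := fun C => c.bd C ∧ C ∩ X = {x}) (fun h => hbd h.1),
        sub_self]
    have hR : ∑ x ∈ X ∩ C, (ind c.bd C - ind (c.cen x) C) = 0 := by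
      apply sum_eq_zero
      intro x _
      rw [ind_of_not hbd, ind_of_not (P := c.cen x) (fun h => hbd h.1), sub_self]
    rw [hL, hR, mul_zero]

theorem N_le {k : ℕ} (hk : c.inI k) {W : Finset (Fin n)} (hW : W.card = k) :
    c.N W ≤ (n : ℝ) / (100 * c.a) := by
  classical
  set X := c.XX W with hXdef
  have hXmem : ∀ x ∈ X, c.strong W x := by
    intro x hx
    rw [hXdef, XX, mem_filter] at hx
    exact hx.2
  have hXW : ∀ x ∈ X, x ∉ W := fun x hx => (hXmem x hx).1
  have hn : (0 : ℝ) < n := c.nR_pos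
  have ha : (0 : ℝ) < c.a := by
    have := c.a_large
    have : 0 < c.a := by omega
    exact_mod_cast this
  have haN : (c.a : ℝ) ≤ n / 10 ^ 21 := by
    have h1 := c.a_div_n_le
    have h2 := c.p_small
    have h3 : (c.a : ℝ) / n ≤ 1 / 10 ^ 21 := by linarith
    rw [div_le_iff₀ hn] at h3
    linarith
  rcases X.eq_empty_or_nonempty with hX0 | hXne
  · unfold N
    rw [← hXdef, hX0, card_empty, Nat.cast_zero]
    positivity
  -- some `x` with a large single trace
  have h1 := c.nb_sum_trace_le hXW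
  have hη : (η : ℝ) = 1 / 2000 := rfl
  have h2 : ∑ x ∈ X, (c.M (insert x W) - c.uh x (insert x W)) ≤ ∑ x ∈ X, 2 * η := by
    apply sum_le_sum
    intro x hx
    obtain ⟨_, _, h3, h4⟩ := hXmem x hx
    have := c.M_le (insert x W)
    linarith
  have h3 : ∑ x ∈ X, (c.M (insert x W) - Up (ind (fun C => c.bd C ∧ C ∩ X = {x})) (insert x W))
      ≤ ∑ x ∈ X, 4 * η := by
    calc _ ≤ 2 * ∑ x ∈ X, (c.M (insert x W) - c.uh x (insert x W)) := h1
      _ ≤ 2 * ∑ x ∈ X, 2 * η := by linarith
      _ = ∑ x ∈ X, 4 * η := by rw [mul_sum]; apply sum_congr rfl; intro x _; ring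
  obtain ⟨x, hx, h4⟩ := exists_le_of_sum_le hXne h3
  obtain ⟨hxW, _, h5, h6⟩ := hXmem x hx
  have h7 : c.uh x (insert x W) ≤ c.M (insert x W) := by
    apply Up_mono
    intro C _
    unfold ind
    split_ifs with h1 h2 h2
    · exact le_rfl
    · exact absurd h1.1 h2
    · exact zero_le_one
    · exact le_rfl
  obtain ⟨hb1, hb2, hb3, hb4, hb5⟩ := c.inI_bounds hk
  have hScard : (insert x W).card = k + 1 := by rw [card_insert_of_notMem hxW, hW]
  have hlbn : c.lb ≤ n := by unfold lb; omega
  have hSlb : (insert x W).card ≤ c.lb := by rw [hScard]; unfold lb; omega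
  have h8 := c.nb_Up_trace_le hx (mem_insert_self x W) hSlb hlbn
  have h9 : ∀ y ∈ X, y ∈ insert x W ↔ y = x := by
    intro y hy
    rw [mem_insert]
    constructor
    · rintro (h | h)
      · exact h
      · exact absurd h (hXW y hy)
    · exact fun h => Or.inl h
  have h10 := nb_avU_ind_inter_le (j := c.lb) hx h9
  have h11 : (997 / 1000 : ℝ) ≤
      (((n - (insert x W).card - (X.card - 1)).choose (c.lb - (insert x W).card) : ℕ) : ℝ) /
        (((n - (insert x W).card).choose (c.lb - (insert x W).card) : ℕ) : ℝ) := by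
    rw [hη] at *
    linarith
  rw [hScard] at h11
  have hrm : c.lb - (k + 1) ≤ n - (k + 1) := by omega
  have hpos : (0 : ℝ) < (((n - (k + 1)).choose (c.lb - (k + 1)) : ℕ) : ℝ) := by
    exact_mod_cast Nat.choose_pos hrm
  rw [le_div_iff₀ hpos] at h11
  have hXle : X.card ≤ n - k := by
    have h : X ⊆ Wᶜ := fun y hy => mem_compl.2 (hXW y hy)
    have := card_le_card h
    rw [card_compl, Fintype.card_fin, hW] at this
    exact this
  have h12 := nb_avoid_bound (m := n - (k + 1)) (r := c.lb - (k + 1)) (j := X.card - 1)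
    (by omega) hrm (by omega) h11
  -- numerics
  have hX1 : 1 ≤ X.card := hXne.card_pos
  have hj : ((X.card - 1 : ℕ) : ℝ) = (X.card : ℝ) - 1 := by
    rw [Nat.cast_sub hX1]; simp
  have hr : (c.a : ℝ) / 5 ≤ ((c.lb - (k + 1) : ℕ) : ℝ) := by
    have h : c.a ≤ 5 * (c.lb - (k + 1)) := by
      have h1 := c.a_large
      have h2 := c.a_dvd
      have h3 := hk.2
      unfold lb
      omega
    have h' : (c.a : ℝ) ≤ 5 * ((c.lb - (k + 1) : ℕ) : ℝ) := by exact_mod_cast h
    linarith
  have hm : ((n - (k + 1) : ℕ) : ℝ) ≤ (52 / 100 : ℝ) * n := by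
    have h1 := c.size_ge (s := k) (by omega)
    rw [Nat.cast_sub (by omega)]
    push_cast
    linarith
  have hN : c.N W = (X.card : ℝ) := rfl
  rw [hN, le_div_iff₀ (by positivity)]
  rw [hj] at h12
  have hXr : (1 : ℝ) ≤ X.card := by exact_mod_cast hX1
  have h13 : ((X.card : ℝ) - 1) * (c.a / 5) ≤ (302 / 100000 : ℝ) * ((52 / 100 : ℝ) * n) := by
    calc ((X.card : ℝ) - 1) * (c.a / 5) ≤ ((X.card : ℝ) - 1) * ((c.lb - (k + 1) : ℕ) : ℝ) :=
          mul_le_mul_of_nonneg_left hr (by linarith)
      _ ≤ _ := h12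
      _ ≤ _ := mul_le_mul_of_nonneg_left hm (by norm_num)
  have h14 : (c.a : ℝ) * 100 ≤ n / 1000 := by
    have : (n : ℝ) / 10 ^ 21 ≤ n / 10 ^ 5 := by
      apply div_le_div_of_nonneg_left hn.le (by norm_num) (by norm_num)
    linarith
  nlinarith

end Ctx

end Kleitman
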