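import Pool.Agent.Kleitman.NBound

/-! # Module NC: heavy sets that are not calm -/

set_option autoImplicit false

open Finset

namespace Kleitman

namespace Ctx

variable {n : ℕ} (c : Ctx n)

/-- `E_k[H · Up g]` for levels `k ∈ I`: `H` is harmonic above `G` -/
theorem NonCalm_E_H_Up {k : ℕ} (hk : c.inI k) (g : Finset (Fin n) → ℝ) :
    E k (fun W => c.H W * Up g W) =
      mass (fun C => if k ≤ C.card then g C * c.H C else 0) := by
  obtain ⟨-, -, -, -, h5⟩ := c.inI_bounds hk
  rw [E_mul_Up (by omega)]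
  congr 1
  funext C
  split_ifs with h
  · congr 1
    apply avD_harmonic h
    intro T _ hT
    apply c.D_H
    have := hk.1
    have ha := c.a_large
    omega
  · rfl

theorem NonCalm_P0_nonneg : 0 ≤ c.P0 := c.q_nonneg _

theorem NonCalm_dist_nonneg (C : Finset (Fin n)) : 0 ≤ dist C := abs_nonneg _

theorem E_H_ψa {k : ℕ} (hk : c.inI k) : E k (fun W => c.H W * c.ψa W) ≤ 60 * c.p * c.P0 := by
  have hp := c.p_pos
  have hps := c.p_small
  unfold ψa
  rw [c.NonCalm_E_H_Up hk]
  obtain ⟨h1, -, -, -, h5⟩ := c.inI_bounds hk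
  have hlight : ∀ C : Finset (Fin n), k ≤ C.card → c.light C → c.H C ≤ 60 * c.p * c.q C := by
    intro C hC hl
    have hl0 : c.l0 ≤ C.card := by omega
    have hd : c.δ ∅ C < 44 * c.p := by
      have := hl.2
      unfold heavy at this
      push Not at this
      exact this
    have h2 := c.H_le_δ hl0
    have h3 := c.one_sub_q_le hl0
    have hq : 99 / 100 ≤ c.q C := by linarith
    have h4 : (1 + 2 * c.p) * c.δ ∅ C ≤ (11 / 10) * (44 * c.p) := by
      apply mul_le_mul (by linarith) hd.le (c.δ_nonneg _ _) (by norm_num)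
    have h6 : 60 * c.p * (99 / 100) ≤ 60 * c.p * c.q C := by
      apply mul_le_mul_of_nonneg_left hq; positivity
    linarith
  have hle : mass (fun C => if k ≤ C.card then (ind c.light C * c.α C) * c.H C else 0) ≤
      mass (fun C => 60 * c.p * (c.q C * (ind c.light C * c.α C))) := by
    apply mass_mono
    intro C
    have hα := c.α_nonneg C
    have hq := c.q_nonneg C
    split_ifs with h
    · by_cases hl : c.light C
      · rw [ind_of hl]
        have := hlight C h hl
        nlinarith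
      · rw [ind_of_not hl]; simp
    · have := ind_nonneg c.light C
      positivity
  refine hle.trans ?_
  rw [mass_const_mul]
  apply mul_le_mul_of_nonneg_left _ (by positivity)
  rw [mass_eq_sum_E, sum_range_succ]
  have hn : E (n := n) n (fun C => c.q C * (ind c.light C * c.α C)) = 0 := by
    unfold E
    have : powersetCard n (univ : Finset (Fin n)) = {univ} := by
      have := powersetCard_self (univ : Finset (Fin n))
      simpa using this
    rw [this, sum_singleton]
    have hnl : ¬ c.light univ := by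
      intro hl
      have := hl.1
      have h2 := c.l1_lt
      simp at this
      omega
    rw [ind_of_not hnl]
    simp
  rw [hn, add_zero]
  exact c.sum_E_q_light_α (range n) (fun l hl => mem_range.1 hl)

theorem E_H_nbU {k : ℕ} (hk : c.inI k) : E k (fun W => c.H W * c.nbU W) ≤ 5 * c.κ1 := by
  unfold nbU
  rw [c.NonCalm_E_H_Up hk]
  unfold κ1
  rw [← mass_const_mul]
  apply mass_mono
  intro C
  have ha := c.a_large
  have h0 : 0 ≤ ((c.a : ℝ) + dist C) / n := by
    have := NonCalm_dist_nonneg C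
    positivity
  split_ifs with h
  · by_cases hn : c.nb C
    · rw [ind_of hn]
      have := c.H_mem_le hn.1 (by have := hk.1; omega)
      linarith
    · rw [ind_of_not hn]; simp
  · have := ind_nonneg c.nb C
    positivity

theorem E_H_bbU {k : ℕ} (hk : c.inI k) :
    E k (fun W => c.H W * c.bbU W) ≤ 10 ^ 4 * ((c.a : ℝ) * c.R / (n : ℝ) ^ 2) := by
  have hp := c.p_pos
  unfold bbU
  rw [c.NonCalm_E_H_Up hk]
  have hle : mass (fun C => if k ≤ C.card then ind c.bad C * c.H C else 0) ≤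
      mass (fun C => 1000 * ((c.a : ℝ) / n) * c.p * ind (· ∈ c.F) C) := by
    apply mass_mono
    intro C
    have h0 : 0 ≤ 1000 * ((c.a : ℝ) / n) * c.p := by positivity
    split_ifs with h
    · by_cases hb : c.bad C
      · rw [ind_of hb, ind_of (P := (· ∈ c.F)) hb.1.1]
        have := c.LB hb
        linarith
      · rw [ind_of_not hb]
        have := ind_nonneg (· ∈ c.F) C
        have : 0 ≤ 1000 * ((c.a : ℝ) / n) * c.p * ind (· ∈ c.F) C := by positivity
        linarith
    · have := ind_nonneg (· ∈ c.F) C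
      positivity
  refine hle.trans ?_
  rw [mass_const_mul]
  have hm := c.mass_F_le
  have h0 : 0 ≤ 1000 * ((c.a : ℝ) / n) * c.p := by positivity
  have h1 : 1000 * ((c.a : ℝ) / n) * c.p * mass (ind (· ∈ c.F)) ≤
      1000 * ((c.a : ℝ) / n) * c.p * (11 / 10) := mul_le_mul_of_nonneg_left hm h0
  refine h1.trans ?_
  have h2 : 1000 * ((c.a : ℝ) / n) * c.p * (11 / 10) = 5500 * ((c.a : ℝ) * c.R / (n : ℝ) ^ 2) := by
    unfold p
    field_simp
    ring
  rw [h2]
  have h3 : 0 ≤ (c.a : ℝ) * c.R / (n : ℝ) ^ 2 := by positivity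
  linarith

/-- pointwise bound for heavy sets that are not calm -/
theorem NonCalm_pointwise {k : ℕ} (hk : c.inI k) {W : Finset (Fin n)} (hW : W.card = k)
    (hc : ¬ c.calm W) :
    38 / 1000 ≤ c.ψa W + c.nbU W + c.bbU W + ∑ z ∈ W, c.uh z W +
      (11 / 10) * ((c.a : ℝ) / n) * (1 / (n : ℝ) + c.aty W + c.wk W) := by
  have h1 := c.ψ_le (fun S hS => c.light_notMem hS) W
  have h2 := c.one_sub_ν_le W
  rw [c.Up_F_eq] at h2
  have h3 := c.eeU_le hk hW
  have h4 := c.kh_le hk hW
  have h5 := c.N_le hk hW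
  have hnp := c.nR_pos
  have hap : (0 : ℝ) < c.a := by
    have := c.a_large
    have : 0 < c.a := by omega
    exact_mod_cast this
  have h6 : 1 / 20 ≤ c.ψ W := by
    unfold calm at hc
    linarith
  have h7 : (11 / 10) * ((c.a : ℝ) / n) * c.kh W ≤
      (11 / 10) * ((c.a : ℝ) / n) * (1 / (n : ℝ) + c.aty W + c.wk W) +
        (11 / 10) * ((c.a : ℝ) / n) * ((1 + η) * ((n : ℝ) / (100 * c.a))) := by
    rw [← mul_add]
    apply mul_le_mul_of_nonneg_left _ (by positivity)
    have : (1 + η) * c.N W ≤ (1 + η) * ((n : ℝ) / (100 * c.a)) := by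
      apply mul_le_mul_of_nonneg_left h5
      unfold η; norm_num
    linarith
  have h8 : (11 / 10) * ((c.a : ℝ) / n) * ((1 + η) * ((n : ℝ) / (100 * c.a))) ≤ 12 / 1000 := by
    have : (11 / 10) * ((c.a : ℝ) / n) * ((1 + η) * ((n : ℝ) / (100 * c.a))) =
        (11 / 1000) * (1 + η) := by
      field_simp
      ring
    rw [this]
    unfold η
    norm_num
  linarith

/-- the non-calm heavy sets -/
theorem noncalm_bound {k : ℕ} (hk : c.inI k) :
    E k (fun W => ind (fun W => c.heavy W ∧ ¬ c.calm W) W * c.H W) ≤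
      10 ^ 11 * (c.p * c.P0 + (c.a : ℝ) * c.R / (n : ℝ) ^ 2 + c.κ1) := by
  have hnp := c.nR_pos
  have hp := c.p_pos
  have hP0 := c.NonCalm_P0_nonneg
  have hap : (0 : ℝ) < c.a := by
    have := c.a_large
    have : 0 < c.a := by omega
    exact_mod_cast this
  have hR1 : (1 : ℝ) ≤ c.R := by
    have := c.a_large
    have := c.R_large
    have : 1 ≤ c.R := by omega
    exact_mod_cast this
  have ha1 : (1 : ℝ) ≤ c.a := by
    have := c.a_large
    have : 1 ≤ c.a := by omega
    exact_mod_cast this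
  have hn1 : (1 : ℝ) ≤ n := by
    have := c.n_pos
    exact_mod_cast this
  obtain ⟨hb1, -, -, -, hb5⟩ := c.inI_bounds hk
  -- the terms
  have t1 := c.E_H_ψa hk
  have t2 := c.E_H_nbU hk
  have t3 := c.E_H_bbU hk
  have t4 := c.E_heavy_uh hk
  have t5 := c.E_aty hk
  have t6 := c.weak_bound hk
  have hupn : ∀ (g : Finset (Fin n) → ℝ) (S : Finset (Fin n)), (∀ C, 0 ≤ g C) → 0 ≤ Up g S :=
    fun g S hg => Up_nonneg fun C _ => hg C
  have hψa0 : ∀ W, 0 ≤ c.ψa W := fun W =>
    hupn _ _ fun C => mul_nonneg (ind_nonneg _ _) (c.α_nonneg _)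
  have hnb0 : ∀ W, 0 ≤ c.nbU W := fun W => hupn _ _ fun C => ind_nonneg _ _
  have hbb0 : ∀ W, 0 ≤ c.bbU W := fun W => hupn _ _ fun C => ind_nonneg _ _
  have huh0 : ∀ W : Finset (Fin n), 0 ≤ ∑ z ∈ W, c.uh z W := fun W =>
    sum_nonneg fun z _ => c.uh_nonneg z W
  have haty0 : ∀ W, 0 ≤ c.aty W := fun W => sum_nonneg fun z _ => c.uh_nonneg _ _
  have hwk0 : ∀ W, 0 ≤ c.wk W := fun W => sum_nonneg fun z _ => c.uh_nonneg _ _
  have hpt : E k (fun W => ind (fun W => c.heavy W ∧ ¬ c.calm W) W * c.H W) ≤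
      E k (fun W => (1000 / 38) * ((c.H W * c.ψa W + c.H W * c.nbU W) + (c.H W * c.bbU W +
        (11 / 10) * (ind c.heavy W * ∑ z ∈ W, c.uh z W)) +
        (11 / 10) * ((c.a : ℝ) / n) * ((11 / 10) * (1 / (n : ℝ)) + c.H W * c.aty W +
          ind c.heavy W * (c.H W * c.wk W)))) := by
    apply E_mono
    intro W hW
    have hH := c.H_nonneg W
    have hH1 := c.H_le W
    by_cases hh : c.heavy W ∧ ¬ c.calm W
    · rw [ind_of (P := fun W => c.heavy W ∧ ¬ c.calm W) hh, ind_of hh.1]
      have hpw := c.NonCalm_pointwise hk hW hh.2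
      have e1 : c.H W * (38 / 1000) ≤ c.H W * (c.ψa W + c.nbU W + c.bbU W + ∑ z ∈ W, c.uh z W +
          (11 / 10) * ((c.a : ℝ) / n) * (1 / (n : ℝ) + c.aty W + c.wk W)) :=
        mul_le_mul_of_nonneg_left hpw hH
      have e2 : c.H W * ∑ z ∈ W, c.uh z W ≤ (11 / 10) * ∑ z ∈ W, c.uh z W :=
        mul_le_mul_of_nonneg_right hH1 (huh0 W)
      have e3 : c.H W * (1 / (n : ℝ)) ≤ (11 / 10) * (1 / (n : ℝ)) :=
        mul_le_mul_of_nonneg_right hH1 (by positivity)
      have e4 : (11 / 10) * ((c.a : ℝ) / n) * (c.H W * (1 / (n : ℝ)) + c.H W * c.aty W +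
            c.H W * c.wk W) ≤ (11 / 10) * ((c.a : ℝ) / n) * ((11 / 10) * (1 / (n : ℝ)) +
            c.H W * c.aty W + c.H W * c.wk W) := by
        apply mul_le_mul_of_nonneg_left _ (by positivity)
        linarith
      nlinarith [e1, e2, e4]
    · rw [ind_of_not (P := fun W => c.heavy W ∧ ¬ c.calm W) hh, zero_mul]
      have i0 := ind_nonneg c.heavy W
      have := hψa0 W
      have := hnb0 W
      have := hbb0 W
      have := huh0 W
      have := haty0 W
      have := hwk0 W
      positivity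
  refine hpt.trans ?_
  rw [E_const_mul, E_add, E_add, E_add, E_add, E_const_mul, E_const_mul, E_add, E_add,
    E_const (by omega)]
  -- the numerical terms
  set A : ℝ := (c.a : ℝ) * c.R / (n : ℝ) ^ 2 with hA
  have hA0 : 0 ≤ A := by rw [hA]; positivity
  have haA : (c.a : ℝ) / n * (1 / n) ≤ A := by
    rw [hA, div_mul_div_comm, mul_one, ← pow_two]
    gcongr
    nlinarith
  have h10 : 1 / (n : ℝ) ^ 10 ≤ A := by
    rw [hA]
    rw [div_le_div_iff₀ (by positivity) (by positivity)]
    have : (n : ℝ) ^ 2 ≤ (n : ℝ) ^ 10 := pow_le_pow_right₀ hn1 (by norm_num)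
    have h2 : (1 : ℝ) ≤ (c.a : ℝ) * c.R := by nlinarith
    nlinarith [pow_pos hnp 10]
  have h5 : 1 / (n : ℝ) ^ 5 ≤ 1 / n := by
    apply one_div_le_one_div_of_le hnp
    calc (n : ℝ) = (n : ℝ) ^ 1 := (pow_one _).symm
      _ ≤ (n : ℝ) ^ 5 := pow_le_pow_right₀ hn1 (by norm_num)
  have haP : (c.a : ℝ) / n * c.P0 ≤ (1 / 10) * (c.p * c.P0) := by
    have := mul_le_mul_of_nonneg_right c.a_div_n_le hP0
    linarith
  have hap' : (c.a : ℝ) / n * c.p = 5 * A := by
    rw [hA]; unfold p; field_simp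
  have haκ : (c.a : ℝ) / n * c.κ0 ≤ c.κ1 := by
    unfold κ0 κ1
    rw [← mass_const_mul]
    apply mass_mono
    intro C
    have hi := ind_nonneg c.nb C
    have hd := NonCalm_dist_nonneg C
    have : (c.a : ℝ) / n ≤ ((c.a : ℝ) + dist C) / n := by gcongr; linarith
    nlinarith
  have hκ1 : 0 ≤ c.κ1 := by
    unfold κ1
    apply mass_nonneg
    intro C
    have hi := ind_nonneg c.nb C
    have hd := NonCalm_dist_nonneg C
    positivity
  have hpP : 0 ≤ c.p * c.P0 := by positivity
  have h7 : (c.a : ℝ) / n * E k (fun W => c.H W * c.aty W) ≤ A := by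
    refine le_trans ?_ haA
    apply mul_le_mul_of_nonneg_left _ (by positivity)
    exact t5.trans h5
  have h8 : (c.a : ℝ) / n * E k (fun W => ind c.heavy W * (c.H W * c.wk W)) ≤
      10 ^ 8 * ((1 / 10) * (c.p * c.P0) + 5 * A + c.κ1) := by
    have : (c.a : ℝ) / n * E k (fun W => ind c.heavy W * (c.H W * c.wk W)) ≤
        (c.a : ℝ) / n * (10 ^ 8 * (c.P0 + c.p + c.κ0)) :=
      mul_le_mul_of_nonneg_left t6 (by positivity)
    refine this.trans ?_
    have e : (c.a : ℝ) / n * (10 ^ 8 * (c.P0 + c.p + c.κ0)) =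
      10 ^ 8 * ((c.a : ℝ) / n * c.P0 + (c.a : ℝ) / n * c.p + (c.a : ℝ) / n * c.κ0) := by ring
    rw [e, hap']
    apply mul_le_mul_of_nonneg_left _ (by positivity)
    linarith
  have e9 : (11 / 10) * ((c.a : ℝ) / n) * ((11 / 10) * (1 / (n : ℝ)) +
      E k (fun W => c.H W * c.aty W) + E k (fun W => ind c.heavy W * (c.H W * c.wk W))) =
      (121 / 100) * ((c.a : ℝ) / n * (1 / n)) +
      (11 / 10) * ((c.a : ℝ) / n * E k (fun W => c.H W * c.aty W)) +
      (11 / 10) * ((c.a : ℝ) / n * E k (fun W => ind c.heavy W * (c.H W * c.wk W))) := by ring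
  rw [e9]
  linarith

end Ctx

end Kleitman
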