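import Pool.Agent.Kleitman.ExitsA

/-! # Module PA: pairs of strong exits over calm sets (part A) -/

set_option autoImplicit false

open Finset

namespace Kleitman

namespace Ctx

variable {n : ℕ} (c : Ctx n)

private theorem bbU_nonneg (S : Finset (Fin n)) : 0 ≤ c.bbU S := Up_nonneg fun _ _ => ind_nonneg _ _

private theorem eeU_nonneg (S : Finset (Fin n)) : 0 ≤ c.eeU S :=
  sum_nonneg fun _ _ => Up_nonneg fun _ _ => ind_nonneg _ _

/-- the sum of `uh` over points of `S` is at most `M` -/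
theorem pa_sum_uh_le_M (S : Finset (Fin n)) : ∑ z ∈ S, c.uh z S ≤ c.M S := by
  have h1 := c.M_eq S
  have h2 := c.bbU_nonneg S
  have h3 := c.eeU_nonneg S
  linarith

theorem pa_uh_le_M {S : Finset (Fin n)} {x : Fin n} (hx : x ∈ S) : c.uh x S ≤ c.M S :=
  (single_le_sum (f := fun z => c.uh z S) (fun z _ => c.uh_nonneg z S) hx).trans (c.pa_sum_uh_le_M S)

/-- a strong exit determines `x` from `S = W + x` -/
theorem strong_unique {W W' : Finset (Fin n)} {x x' : Fin n} (h : c.strong W x)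
    (h' : c.strong W' x') (hS : insert x W = insert x' W') : x = x' := by
  by_contra hne
  obtain ⟨-, -, h1, h2⟩ := h
  obtain ⟨-, -, h1', -⟩ := h'
  rw [← hS] at h1'
  have hx : x ∈ insert x W := mem_insert_self _ _
  have hx' : x' ∈ insert x W := by rw [hS]; exact mem_insert_self _ _
  have hsum : c.uh x (insert x W) + c.uh x' (insert x W) ≤ ∑ z ∈ insert x W, c.uh z (insert x W) := by
    rw [← sum_pair hne (f := fun z => c.uh z (insert x W))]
    refine sum_le_sum_of_subset_of_nonneg ?_ (fun z _ _ => c.uh_nonneg z _)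
    intro z hz
    rcases mem_insert.1 hz with rfl | hz
    · exact hx
    · rw [mem_singleton.1 hz]; exact hx'
  have h3 := c.pa_sum_uh_le_M (insert x W)
  have h4 := c.M_le (insert x W)
  unfold η at *
  linarith

include c in
private theorem inv_sq_le : 1 / (n : ℝ) ^ 2 ≤ 1 / 4 := by
  have h : (2 : ℝ) ≤ n := by
    have := c.n_large
    have : 2 ≤ n := le_trans (by norm_num) this
    exact_mod_cast this
  have : (4 : ℝ) ≤ (n : ℝ) ^ 2 := by nlinarith
  exact one_div_le_one_div_of_le (by norm_num) this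

/-- facts about strong exits of calm sets at a level of `I`: `q ≥ 1-2p`, `ν ≤ 2η`, not a member -/
theorem strong_facts {k : ℕ} (hk : c.inI k) {W : Finset (Fin n)} {x : Fin n} (hW : W.card = k)
    (hh : c.heavy W) (hs : c.strong W x) :
    1 - 2 * c.p ≤ c.q (insert x W) ∧ c.ν (insert x W) ≤ 2 * η ∧ insert x W ∉ c.F := by
  obtain ⟨hx, ht, h1, h2⟩ := hs
  have h0 := c.inv_sq_le
  have hu : 1 / (n : ℝ) ^ 2 ≤ c.uh x (insert x W) := by
    refine le_trans ?_ h1
    unfold η
    linarith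
  obtain ⟨-, h3, h4⟩ := c.exit_facts hk hW hh hx ht hu
  refine ⟨h3, ?_, h4⟩
  have h5 := c.M_sub_mh_le (insert x W)
  have h6 := c.pa_uh_le_M (mem_insert_self x W)
  linarith

/-- distinct pairs in `PP 2 V` are disjoint (`|V| = k + 2`) -/
theorem PP_two_disjoint {k : ℕ} (_hk : c.inI k) {V : Finset (Fin n)} (_hV : V.card = k + 2)
    {e e' : Finset (Fin n)} (he : e ∈ c.PP 2 V) (he' : e' ∈ c.PP 2 V) (hne : e ≠ e') :
    Disjoint e e' := by
  classical
  by_contra hd
  obtain ⟨x, hx, hx'⟩ := not_disjoint_iff.1 hd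
  unfold PP at he he'
  rw [mem_filter, mem_powersetCard] at he he'
  obtain ⟨⟨heV, hec⟩, -, heX⟩ := he
  obtain ⟨⟨heV', hec'⟩, -, heX'⟩ := he'
  -- write e = {x, y}
  obtain ⟨y, hy⟩ : ∃ y, e.erase x = {y} := card_eq_one.1 (by rw [card_erase_of_mem hx, hec])
  obtain ⟨z, hz⟩ : ∃ z, e'.erase x = {z} := card_eq_one.1 (by rw [card_erase_of_mem hx', hec'])
  have hye : y ∈ e.erase x := by rw [hy]; exact mem_singleton_self y
  have hze : z ∈ e'.erase x := by rw [hz]; exact mem_singleton_self z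
  have he2 : e = {x, y} := by rw [← insert_erase hx, hy]
  have he2' : e' = {x, z} := by rw [← insert_erase hx', hz]
  have hyx : y ≠ x := (mem_erase.1 hye).1
  have hzx : z ≠ x := (mem_erase.1 hze).1
  have hsy : c.strong (V \ e) y := by
    have := heX (mem_of_mem_erase hye)
    unfold XX at this
    exact (mem_filter.1 this).2
  have hsz : c.strong (V \ e') z := by
    have := heX' (mem_of_mem_erase hze)
    unfold XX at this
    exact (mem_filter.1 this).2
  have h1 : insert y (V \ e) = V.erase x := by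
    ext w
    simp only [mem_insert, mem_sdiff, mem_erase, he2, mem_singleton, not_or]
    constructor
    · rintro (rfl | ⟨h, h', -⟩)
      · exact ⟨hyx, heV (mem_of_mem_erase hye)⟩
      · exact ⟨h', h⟩
    · rintro ⟨h, h'⟩
      by_cases hw : w = y
      · exact Or.inl hw
      · exact Or.inr ⟨h', h, hw⟩
  have h2 : insert z (V \ e') = V.erase x := by
    ext w
    simp only [mem_insert, mem_sdiff, mem_erase, he2', mem_singleton, not_or]
    constructor
    · rintro (rfl | ⟨h, h', -⟩)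
      · exact ⟨hzx, heV' (mem_of_mem_erase hze)⟩
      · exact ⟨h', h⟩
    · rintro ⟨h, h'⟩
      by_cases hw : w = z
      · exact Or.inl hw
      · exact Or.inr ⟨h', h, hw⟩
  have := c.strong_unique hsy hsz (h1.trans h2.symm)
  apply hne
  rw [he2, he2', this]

theorem mem_PP {r : ℕ} {V e : Finset (Fin n)} (he : e ∈ c.PP r V) :
    e ⊆ V ∧ e.card = r ∧ c.calm (V \ e) ∧ e ⊆ c.XX (V \ e) := by
  classical
  unfold PP at he
  rw [mem_filter, mem_powersetCard] at he
  exact ⟨he.1.1, he.1.2, he.2.1, he.2.2⟩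

theorem PP_ψe_le {k r : ℕ} (hk : c.inI k) (hr3 : r ≤ 3) {V : Finset (Fin n)}
    (hV : V.card = k + r) {e : Finset (Fin n)} (he : e ∈ c.PP r V) : c.ψe e V ≤ 51 / 1000 := by
  obtain ⟨heV, hec, hcalm, -⟩ := c.mem_PP he
  have h1 := (c.inI_bounds hk).1
  have h2 := c.ψe_le heV (by omega) (by
    rw [card_sdiff_of_subset heV]; omega)
  unfold calm at hcalm
  linarith

/-- two disjoint `r`-sets (`1 ≤ r ≤ 3`) with calm complements: `ν ≥ 0.89`, not a member -/
theorem ν_ge_of_two {k r : ℕ} (hk : c.inI k) (hr : 1 ≤ r) (hr3 : r ≤ 3) {V : Finset (Fin n)}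
    (hV : V.card = k + r) {e e' : Finset (Fin n)} (he : e ∈ c.PP r V) (he' : e' ∈ c.PP r V)
    (hd : Disjoint e e') : 89 / 100 ≤ c.ν V ∧ V ∉ c.F := by
  have h1 := c.PP_ψe_le hk hr3 hV he
  have h1' := c.PP_ψe_le hk hr3 hV he'
  obtain ⟨heV, hec, -, -⟩ := c.mem_PP he
  obtain ⟨heV', hec', -, -⟩ := c.mem_PP he'
  have h2 := c.one_sub_ν_le_ψe heV heV' (fun C hC h3 h4 =>
    c.CI hC h3 h4 hd (card_pos.1 (by omega)) (card_pos.1 (by omega)) (by omega) (by omega))
  have h3 : 89 / 100 ≤ c.ν V := by linarith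
  refine ⟨h3, fun hVF => ?_⟩
  have : c.ν V = 0 := upR_of_stop hVF
  linarith

/-- clean sets have at most one pair -/
theorem clean_unique {k : ℕ} (hk : c.inI k) {V : Finset (Fin n)} (hV : V.card = k + 2)
    (hc : c.clean V) {e e' : Finset (Fin n)} (he : e ∈ c.PP 2 V) (he' : e' ∈ c.PP 2 V) :
    e = e' := by
  by_contra hne
  have h1 := c.ν_ge_of_two hk (by norm_num) (by norm_num) hV he he'
    (c.PP_two_disjoint hk hV he he' hne)
  have h2 := hc.2.1
  linarith [h1.1]

/-- clean sets with a pair have `q ≥ 1 - 3p` -/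
theorem clean_q {k : ℕ} (hk : c.inI k) {V : Finset (Fin n)} (hV : V.card = k + 2)
    (hc : c.clean V) {e : Finset (Fin n)} (he : e ∈ c.PP 2 V) : 1 - 3 * c.p ≤ c.q V := by
  obtain ⟨hVF, hν, htyp⟩ := hc
  have h1 := c.PP_ψe_le hk (by norm_num) hV he
  obtain ⟨heV, hec, -, -⟩ := c.mem_PP he
  have h2 := c.one_sub_ν_le_c2 heV
  have h3 := c.inv_sq_le
  have hb := c.inI_bounds hk
  have hl0 := c.l0_pos
  have h4 : c.δ e V < 1 / (n : ℝ) ^ 2 := by
    rcases htyp e heV hec with h | h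
    · exfalso; linarith
    · exact h
  have h5 := cov_split (l := c.l0) c.F heV (by omega) (by omega)
  have h6 := c.ratio_le' (s := V.card) (by omega) (by omega)
  have h7 := c.one_sub_q_le (S := V) (by omega)
  have h8 := c.inv_n_le
  have h9 : 1 / (n : ℝ) ^ 2 ≤ 1 / n := by
    have hn : (1 : ℝ) ≤ n := by exact_mod_cast c.n_pos
    exact one_div_le_one_div_of_le c.nR_pos (by nlinarith)
  have h10 := c.p_pos
  have h11 : c.δ ∅ V ≤ 2 * c.p + c.δ e V := by
    have : c.δ ∅ V ≤ (e.card : ℝ) * (((V.card : ℝ) - c.l0) / V.card) + c.δ e V := h5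
    rw [hec] at this
    push_cast at this
    linarith
  linarith

private theorem choose_sub_le (m j r : ℕ) (hj : r ≤ j) (hm : r ≤ m) :
    (m - r).choose (j - r) ≤ m.choose j := by
  induction r with
  | zero => simp
  | succ r ih =>
    refine le_trans ?_ (ih (by omega) (by omega))
    have h1 : m - r = (m - (r + 1)) + 1 := by omega
    have h2 : j - r = (j - (r + 1)) + 1 := by omega
    rw [h1, h2, Nat.choose_succ_succ]
    exact Nat.le_add_right _ _

/-- `E_j[1_{V∉F} 1_{e⊆V} c2_e(V) δ_e(V)] ≤ 1.1 n^-16` for a fixed nonempty set `e`, `|e| ≤ 3`. -/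
theorem E_c2_δ {j : ℕ} (hj0 : c.l0 ≤ j) (hj : j ≤ n) (e : Finset (Fin n)) (hene : e.Nonempty)
    (he3 : e.card ≤ 3) :
    E j (fun V => (ind (fun V => V ∉ c.F ∧ e ⊆ V) V * c.δ e V) * c.c2 e V) ≤
      2 / (n : ℝ) ^ 16 := by
  classical
  have hl0 := c.l0_pos
  unfold c2
  rw [E_mul_Up hj]
  have hpt : ∀ C : Finset (Fin n),
      (if j ≤ C.card then ind (fun C => C ∈ c.F ∧ c.heavy (C \ e)) C *
        avD j (fun V => ind (fun V => V ∉ c.F ∧ e ⊆ V) V * c.δ e V) C else 0) ≤
      (1 / (n : ℝ) ^ 16) * ind (· ∈ c.F) C := by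
    intro C
    have hR : 0 ≤ (1 / (n : ℝ) ^ 16) * ind (· ∈ c.F) C :=
      mul_nonneg (by positivity) (ind_nonneg _ _)
    split_ifs with hjC
    swap
    · exact hR
    by_cases hC : C ∈ c.F ∧ c.heavy (C \ e)
    swap
    · rw [ind_of_not hC, zero_mul]; exact hR
    rw [ind_of hC, ind_of hC.1, one_mul, mul_one]
    unfold avD
    -- the case `j = |C|`
    rcases hjC.eq_or_lt with hjC' | hjC'
    · have : ∑ W ∈ powersetCard j C, ind (fun V => V ∉ c.F ∧ e ⊆ V) W * c.δ e W = 0 := by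
        apply sum_eq_zero
        intro W hW
        rw [mem_powersetCard] at hW
        have hWC : W = C := eq_of_subset_of_card_le hW.1 (by omega)
        rw [hWC, ind_of_not (fun h => h.1 hC.1), zero_mul]
      rw [this, zero_div]
      positivity
    by_cases heC : e ⊆ C
    swap
    · have : ∑ W ∈ powersetCard j C, ind (fun V => V ∉ c.F ∧ e ⊆ V) W * c.δ e W = 0 := by
        apply sum_eq_zero
        intro W hW
        rw [mem_powersetCard] at hW
        rw [ind_of_not (fun h => heC (h.2.trans hW.1)), zero_mul]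
      rw [this, zero_div]
      positivity
    have h1 : ∑ W ∈ powersetCard j C, ind (fun V => V ∉ c.F ∧ e ⊆ V) W * c.δ e W ≤
        ∑ S ∈ (powersetCard j C).filter (fun S => e ⊆ S), cov c.l0 c.F e S := by
      rw [sum_filter]
      apply sum_le_sum
      intro W _
      split_ifs with h
      · have h2 := ind_le_one (fun V => V ∉ c.F ∧ e ⊆ V) W
        have h3 : 0 ≤ c.δ e W := c.δ_nonneg e W
        have h4 : c.δ e W = cov c.l0 c.F e W := rfl
        rw [← h4]
        nlinarith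
      · rw [ind_of_not (fun h' => h h'.2), zero_mul]
    have h2 := sum_cov_le (l := c.l0) (j := j) c.F heC (by omega) hj0 hjC'
    have h3 : cov c.l0 (c.F.erase C) e C ≤ 1 / (n : ℝ) ^ 16 :=
      c.omega_bound hC.1 heC hene he3 hC.2
    have h4 : ((((C.card - e.card).choose (j - e.card) : ℕ)) : ℝ) ≤ ((C.card.choose j : ℕ) : ℝ) := by
      have := card_le_card heC
      exact_mod_cast choose_sub_le C.card j e.card (by omega) this
    have h5 : 0 ≤ cov c.l0 (c.F.erase C) e C := cov_nonneg _ _ _ _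
    have hpos : (0 : ℝ) < ((C.card.choose j : ℕ) : ℝ) := by
      exact_mod_cast Nat.choose_pos hjC
    rw [div_le_iff₀ hpos]
    calc _ ≤ _ := h1
      _ ≤ _ := h2
      _ ≤ ((C.card.choose j : ℕ) : ℝ) * cov c.l0 (c.F.erase C) e C := by gcongr
      _ ≤ ((C.card.choose j : ℕ) : ℝ) * (1 / (n : ℝ) ^ 16) := by gcongr
      _ = _ := by ring
  refine (mass_mono hpt).trans ?_
  rw [mass_const_mul]
  have h1 := c.mass_F_le
  have h2 : (0 : ℝ) ≤ 1 / (n : ℝ) ^ 16 := by positivity
  calc (1 / (n : ℝ) ^ 16) * mass (ind (· ∈ c.F)) ≤ (1 / (n : ℝ) ^ 16) * (11 / 10) := by gcongr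
    _ ≤ (1 / (n : ℝ) ^ 16) * 2 := by gcongr; norm_num
    _ = _ := by ring

/-- measure of the sets that are not typical for pairs -/
theorem E_not_typ2 {k : ℕ} (hk : c.inI k) :
    E (k + 2) (ind (fun V => V ∉ c.F ∧ ¬ c.typ2 V)) ≤ 1 / (n : ℝ) ^ 9 := by
  classical
  have hb := c.inI_bounds hk
  have hn := c.nR_pos
  have hn4 : (4 : ℝ) ≤ n := by
    have := c.n_large
    have : 4 ≤ n := le_trans (by norm_num) this
    exact_mod_cast this
  have hpt : ∀ V : Finset (Fin n), V.card = k + 2 →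
      ind (fun V => V ∉ c.F ∧ ¬ c.typ2 V) V ≤
        (n : ℝ) ^ 4 * ∑ e ∈ powersetCard 2 (univ : Finset (Fin n)),
          (ind (fun V => V ∉ c.F ∧ e ⊆ V) V * c.δ e V) * c.c2 e V := by
    intro V _
    have hnn : ∀ e ∈ powersetCard 2 (univ : Finset (Fin n)),
        0 ≤ (ind (fun V => V ∉ c.F ∧ e ⊆ V) V * c.δ e V) * c.c2 e V := by
      intro e _
      have h1 : 0 ≤ c.c2 e V := Up_nonneg fun _ _ => ind_nonneg _ _
      exact mul_nonneg (mul_nonneg (ind_nonneg _ _) (c.δ_nonneg _ _)) h1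
    by_cases hV : V ∉ c.F ∧ ¬ c.typ2 V
    · rw [ind_of hV]
      obtain ⟨hVF, ht⟩ := hV
      unfold typ2 at ht
      push Not at ht
      obtain ⟨e, heV, hec, h1, h2⟩ := ht
      have he : e ∈ powersetCard 2 (univ : Finset (Fin n)) :=
        mem_powersetCard.2 ⟨subset_univ _, hec⟩
      have h3 := single_le_sum hnn he
      have h4 : (1 / (n : ℝ) ^ 2) * (1 / (n : ℝ) ^ 2) ≤
          (ind (fun V => V ∉ c.F ∧ e ⊆ V) V * c.δ e V) * c.c2 e V := by
        rw [ind_of ⟨hVF, heV⟩, one_mul]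
        exact mul_le_mul h2 h1 (by positivity) (c.δ_nonneg _ _)
      calc (1 : ℝ) = (n : ℝ) ^ 4 * ((1 / (n : ℝ) ^ 2) * (1 / (n : ℝ) ^ 2)) := by
            field_simp
        _ ≤ _ := by
            gcongr
            exact h4.trans h3
    · rw [ind_of_not hV]
      exact mul_nonneg (by positivity) (sum_nonneg hnn)
  refine (E_mono hpt).trans ?_
  rw [E_const_mul, E_sum]
  have h1 : ∀ e ∈ powersetCard 2 (univ : Finset (Fin n)),
      E (k + 2) (fun V => (ind (fun V => V ∉ c.F ∧ e ⊆ V) V * c.δ e V) * c.c2 e V) ≤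
        2 / (n : ℝ) ^ 16 := by
    intro e he
    rw [mem_powersetCard] at he
    exact c.E_c2_δ (by omega) (by omega) e (card_pos.1 (by omega)) (by omega)
  have h2 := sum_le_sum h1
  rw [sum_const, card_powersetCard, card_univ, Fintype.card_fin, nsmul_eq_mul] at h2
  have h3 : ((n.choose 2 : ℕ) : ℝ) ≤ (n : ℝ) ^ 2 := by
    exact_mod_cast Nat.choose_le_pow n 2
  have h4 : 2 / (n : ℝ) ^ 16 * (n : ℝ) ^ 6 * n ^ 9 ≤ 1 := by
    have : 2 / (n : ℝ) ^ 16 * (n : ℝ) ^ 6 * n ^ 9 = 2 / n := by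
      field_simp
    rw [this, div_le_one hn]
    linarith
  calc (n : ℝ) ^ 4 * ∑ e ∈ powersetCard 2 (univ : Finset (Fin n)),
        E (k + 2) (fun V => (ind (fun V => V ∉ c.F ∧ e ⊆ V) V * c.δ e V) * c.c2 e V)
      ≤ (n : ℝ) ^ 4 * (((n.choose 2 : ℕ) : ℝ) * (2 / (n : ℝ) ^ 16)) := by gcongr
    _ ≤ (n : ℝ) ^ 4 * ((n : ℝ) ^ 2 * (2 / (n : ℝ) ^ 16)) := by gcongr
    _ = 2 / (n : ℝ) ^ 16 * (n : ℝ) ^ 6 := by ring
    _ ≤ 1 / (n : ℝ) ^ 9 := by
        rw [le_div_iff₀ (by positivity)]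
        exact h4

end Ctx

end Kleitman
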