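import Pool.Agent.Kleitman.CalcB

/-! # Module P: the potential / telescoping arguments (only Calc + the recursions of q, ν, ψ, α) -/

set_option autoImplicit false

open Finset

namespace Kleitman

namespace Ctx

variable {n : ℕ} (c : Ctx n)

include c in
/-- the window is tiny -/
theorem potential_R_le : 10 ^ 20 * (5 * c.R) ≤ n := by
  by_contra hcon
  push Not at hcon
  have h1 : n ^ 5 < (10 ^ 20 * (5 * c.R)) ^ 5 := Nat.pow_lt_pow_left hcon (by norm_num)
  have h2 := c.R_small
  have h3 := c.n_large
  have h4 : (10 ^ 20 * (5 * c.R)) ^ 5 = 10 ^ 100 * (5 * c.R) ^ 5 := by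
    rw [mul_pow, ← pow_mul]
  rw [h4] at h1
  have h5 : n ^ 5 < 10 ^ 100 * n ^ 3 := lt_of_lt_of_le h1 (Nat.mul_le_mul_left _ h2)
  have h6 : 10 ^ 100 * n ^ 3 ≤ n ^ 5 := by
    have : n ^ 5 = n ^ 2 * n ^ 3 := by rw [← pow_add]
    rw [this]
    apply Nat.mul_le_mul_right
    calc 10 ^ 100 ≤ (10 ^ 60) ^ 2 := by norm_num
      _ ≤ n ^ 2 := Nat.pow_le_pow_left h3 2
  omega

include c in
theorem potential_R_half : 2 * c.R + 100 < n := by
  have h1 := c.potential_R_le
  have h2 := c.n_large
  have h3 : 10 ^ 20 * (5 * c.R) = 10 ^ 20 * 5 * c.R := by ring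
  omega

/-- `univ` is not a member (window), `∅` neither -/
theorem univ_notMem : (univ : Finset (Fin n)) ∉ c.F := by
  intro h
  have h1 := c.win_hi _ h
  have h2 := c.potential_R_half
  rw [card_univ, Fintype.card_fin] at h1
  omega

theorem empty_notMem : (∅ : Finset (Fin n)) ∉ c.F := by
  intro h
  have h1 := c.win_lo _ h
  have h2 := c.potential_R_half
  rw [card_empty] at h1
  omega

theorem q_nonneg (S : Finset (Fin n)) : 0 ≤ c.q S := dnR_nonneg (fun _ => le_rfl) zero_le_one S
theorem q_le_one (S : Finset (Fin n)) : c.q S ≤ 1 := dnR_le_one (fun _ => zero_le_one) le_rfl S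
theorem ν_nonneg (S : Finset (Fin n)) : 0 ≤ c.ν S := upR_nonneg (fun _ => le_rfl) zero_le_one S
theorem ν_le_one (S : Finset (Fin n)) : c.ν S ≤ 1 := upR_le_one (fun _ => zero_le_one) le_rfl S
theorem ψ_nonneg (S : Finset (Fin n)) : 0 ≤ c.ψ S := upR_nonneg (fun _ => zero_le_one) le_rfl S
theorem ψ_le_one (S : Finset (Fin n)) : c.ψ S ≤ 1 := upR_le_one (fun _ => le_rfl) zero_le_one S

theorem potential_q_mem {S : Finset (Fin n)} (h : S ∈ c.F) : c.q S = 0 := by
  unfold q; rw [dnR_of_stop h]

theorem potential_q_step {S : Finset (Fin n)} (h : S ∉ c.F) (hS : S.Nonempty) :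
    c.q S = D c.q S := by
  unfold q; rw [dnR_step h hS]

theorem potential_ν_mem {S : Finset (Fin n)} (h : S ∈ c.F) : c.ν S = 0 := by
  unfold ν; rw [upR_of_stop h]

theorem potential_ν_step {S : Finset (Fin n)} (h : S ∉ c.F) (hS : S ≠ univ) :
    c.ν S = U c.ν S := by
  unfold ν; rw [upR_step h hS]

theorem potential_ν_univ : c.ν univ = 1 := by
  unfold ν; rw [upR_univ c.univ_notMem]

theorem potential_ne_univ {S : Finset (Fin n)} {l : ℕ} (hS : S.card = l) (hl : l < n) :
    S ≠ univ := by
  rintro rfl
  rw [card_univ, Fintype.card_fin] at hS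
  omega

theorem potential_E_n (f : Finset (Fin n) → ℝ) : E n f = f univ := by
  unfold E
  have : powersetCard n (univ : Finset (Fin n)) = {univ} := by
    have h := powersetCard_self (univ : Finset (Fin n))
    rwa [card_univ, Fintype.card_fin] at h
  rw [this, sum_singleton, Nat.choose_self]
  simp

/-- general telescoping step: if `f = 0` on members, then `E_{l+1}[q f] = E_l[q U f]` -/
theorem potential_step {l : ℕ} (hl : l < n) {f : Finset (Fin n) → ℝ} (hf : ∀ S ∈ c.F, f S = 0) :
    E (l + 1) (fun S => c.q S * f S) = E l (fun S => c.q S * U f S) := by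
  rw [E_duality hl]
  refine E_congr fun S hS => ?_
  by_cases h : S ∈ c.F
  · rw [hf S h]; ring
  · rw [c.potential_q_step h (card_pos.1 (by omega))]

/-- for every level, `E_l[q ν] = P0` (probability that the whole chain avoids `F`).
Telescoping: `q = 0` on `F`; off `F`, `ν = U ν`, `q = D q`; duality. -/
theorem E_q_mul_ν {l : ℕ} (hl : l ≤ n) : E l (fun S => c.q S * c.ν S) = c.P0 := by
  induction hl using Nat.decreasingInduction with
  | self =>
    rw [potential_E_n, c.potential_ν_univ, mul_one]; rfl
  | of_succ l hl ih =>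
    rw [← ih, c.potential_step hl (fun S hS => c.potential_ν_mem hS)]
    refine E_congr fun S hS => ?_
    by_cases h : S ∈ c.F
    · rw [c.potential_q_mem h]; ring
    · rw [← c.potential_ν_step h (potential_ne_univ hS hl)]

theorem Cr_nonneg (t0 t1 : ℝ) (l : ℕ) : 0 ≤ c.Cr t0 t1 l := by
  unfold Cr
  refine E_nonneg fun S _ => ?_
  exact mul_nonneg (mul_nonneg (c.q_nonneg S) (ind_nonneg _ _)) (U_nonneg fun v _ => ind_nonneg _ _)

/-- crossing lemma: potential `E_l[q (ν - t0)^+]` is nondecreasing in `l`, `≤ P0` at `l = n`, and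
grows by at least `(t1 - t0) * Cr t0 t1 l` from `l` to `l+1`. -/
theorem crossing {t0 t1 : ℝ} (h0 : 0 ≤ t0) (h : t0 < t1) (s : Finset ℕ) (hs : ∀ l ∈ s, l < n) :
    ∑ l ∈ s, c.Cr t0 t1 l ≤ c.P0 / (t1 - t0) := by
  have hpos : 0 < t1 - t0 := by linarith
  set f : Finset (Fin n) → ℝ := fun S => max (c.ν S - t0) 0 with hf
  set G : ℕ → ℝ := fun l => E l (fun S => c.q S * f S) with hG
  have hfF : ∀ S ∈ c.F, f S = 0 := by
    intro S hS
    simp only [hf]
    rw [c.potential_ν_mem hS]
    exact max_eq_right (by linarith)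
  have hstep : ∀ l, l < n → G l + (t1 - t0) * c.Cr t0 t1 l ≤ G (l + 1) := by
    intro l hl
    simp only [hG]
    rw [c.potential_step hl hfF]
    unfold Cr
    rw [← E_const_mul, ← E_add]
    refine E_mono fun S hS => ?_
    have hSu := potential_ne_univ hS hl
    by_cases hSF : S ∈ c.F
    · rw [c.potential_q_mem hSF]; simp
    · have hq := c.q_nonneg S
      have hν := c.potential_ν_step hSF hSu
      have hJ := U_pos_part_le t0 c.ν hSu
      rw [← hν] at hJ
      have key : f S + (t1 - t0) * (ind (fun S => c.ν S ≤ t0) S * U (ind (fun S => t1 ≤ c.ν S)) S)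
          ≤ U f S := by
        by_cases hc : c.ν S ≤ t0
        · have hfS : f S = 0 := by simp only [hf]; exact max_eq_right (by linarith)
          rw [hfS, ind_of (P := fun S => c.ν S ≤ t0) hc, zero_add, one_mul, ← U_const_mul]
          refine U_mono fun v hv => ?_
          by_cases h1 : t1 ≤ c.ν (insert v S)
          · rw [ind_of (P := fun S => t1 ≤ c.ν S) h1]
            simp only [hf]
            have := le_max_left (c.ν (insert v S) - t0) 0
            linarith
          · rw [ind_of_not (P := fun S => t1 ≤ c.ν S) h1]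
            simp only [hf]
            have := le_max_right (c.ν (insert v S) - t0) 0
            linarith
        · rw [ind_of_not (P := fun S => c.ν S ≤ t0) hc]
          have : f S ≤ U f S := hJ
          linarith
      calc c.q S * f S + (t1 - t0) * (c.q S * ind (fun S => c.ν S ≤ t0) S *
            U (ind (fun S => t1 ≤ c.ν S)) S)
          = c.q S * (f S + (t1 - t0) * (ind (fun S => c.ν S ≤ t0) S *
            U (ind (fun S => t1 ≤ c.ν S)) S)) := by ring
        _ ≤ c.q S * U f S := mul_le_mul_of_nonneg_left key hq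
  have hGn : G n ≤ c.P0 := by
    simp only [hG]
    rw [potential_E_n]
    have h1 : f univ ≤ 1 := by
      simp only [hf]; rw [c.potential_ν_univ]
      exact max_le (by linarith) zero_le_one
    have h2 := c.q_nonneg univ
    calc c.q univ * f univ ≤ c.q univ * 1 := mul_le_mul_of_nonneg_left h1 h2
      _ = c.P0 := by rw [mul_one]; rfl
  have hG0 : 0 ≤ G 0 := by
    simp only [hG]
    exact E_nonneg fun S _ => mul_nonneg (c.q_nonneg S) (le_max_right _ _)
  have htel : ∀ m, m ≤ n → ∑ l ∈ range m, (t1 - t0) * c.Cr t0 t1 l ≤ G m - G 0 := by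
    intro m
    induction m with
    | zero => intro _; simp
    | succ m ih =>
      intro hm
      rw [sum_range_succ]
      have h1 := ih (by omega)
      have h2 := hstep m (by omega)
      linarith
  have hall : ∑ l ∈ s, c.Cr t0 t1 l ≤ ∑ l ∈ range n, c.Cr t0 t1 l := by
    refine sum_le_sum_of_subset_of_nonneg (fun l hl => mem_range.2 (hs l hl)) ?_
    intro l _ _
    exact c.Cr_nonneg _ _ _
  rw [le_div_iff₀ hpos]
  have h3 := htel n le_rfl
  rw [← mul_sum] at h3
  nlinarith [mul_le_mul_of_nonneg_left hall hpos.le]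

theorem potential_αp_nonneg (S : Finset (Fin n)) : 0 ≤ c.αp S :=
  upR_nonneg (fun _ => le_rfl) zero_le_one S

theorem potential_αp_le_one (S : Finset (Fin n)) : c.αp S ≤ 1 :=
  upR_le_one (fun _ => zero_le_one) le_rfl S

theorem potential_αp_stop {S : Finset (Fin n)} (h : c.light S ∨ S ∈ c.F) : c.αp S = 0 := by
  unfold αp; rw [upR_of_stop (stop := fun S => c.light S ∨ S ∈ c.F) h]

theorem potential_αp_step {S : Finset (Fin n)} (h : ¬ (c.light S ∨ S ∈ c.F)) (hS : S ≠ univ) :
    c.αp S = U c.αp S := by
  unfold αp; rw [upR_step (stop := fun S => c.light S ∨ S ∈ c.F) h hS]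

/-- `∑_{t ≥ k} E_t[q 1_light α] ≤ P0` (telescoping of `E_t[q αp]`) -/
theorem sum_E_q_light_α (s : Finset ℕ) (hs : ∀ l ∈ s, l < n) :
    ∑ t ∈ s, E t (fun S => c.q S * (ind c.light S * c.α S)) ≤ c.P0 := by
  set G : ℕ → ℝ := fun l => E l (fun S => c.q S * c.αp S) with hG
  have hαn : ∀ S, 0 ≤ c.α S := by
    intro S
    unfold α
    split_ifs
    · exact zero_le_one
    · exact U_nonneg fun v _ => c.potential_αp_nonneg _
  have hstep : ∀ l, l < n →
      G l + E l (fun S => c.q S * (ind c.light S * c.α S)) = G (l + 1) := by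
    intro l hl
    simp only [hG]
    rw [c.potential_step hl (fun S hS => c.potential_αp_stop (Or.inr hS)), ← E_add]
    refine E_congr fun S hS => ?_
    have hSu := potential_ne_univ hS hl
    by_cases hSF : S ∈ c.F
    · rw [c.potential_q_mem hSF]; ring
    · by_cases hl' : c.light S
      · rw [c.potential_αp_stop (Or.inl hl'), ind_of hl']
        unfold α
        rw [if_neg hSu]; ring
      · rw [c.potential_αp_step (by tauto) hSu, ind_of_not hl']; ring
  have hGn : G n ≤ c.P0 := by
    simp only [hG]
    rw [potential_E_n]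
    calc c.q univ * c.αp univ ≤ c.q univ * 1 :=
          mul_le_mul_of_nonneg_left (c.potential_αp_le_one _) (c.q_nonneg _)
      _ = c.P0 := by rw [mul_one]; rfl
  have hG0 : 0 ≤ G 0 := by
    simp only [hG]
    exact E_nonneg fun S _ => mul_nonneg (c.q_nonneg S) (c.potential_αp_nonneg _)
  have htel : ∀ m, m ≤ n →
      ∑ l ∈ range m, E l (fun S => c.q S * (ind c.light S * c.α S)) = G m - G 0 := by
    intro m
    induction m with
    | zero => intro _; simp
    | succ m ih =>
      intro hm
      rw [sum_range_succ, ih (by omega), ← hstep m (by omega)]; ring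
  have hall : ∑ l ∈ s, E l (fun S => c.q S * (ind c.light S * c.α S)) ≤
      ∑ l ∈ range n, E l (fun S => c.q S * (ind c.light S * c.α S)) := by
    refine sum_le_sum_of_subset_of_nonneg (fun l hl => mem_range.2 (hs l hl)) ?_
    intro l _ _
    exact E_nonneg fun S _ => mul_nonneg (c.q_nonneg S) (mul_nonneg (ind_nonneg _ _) (hαn S))
  have h3 := htel n le_rfl
  linarith

theorem α_nonneg (S : Finset (Fin n)) : 0 ≤ c.α S := by
  unfold α
  split_ifs
  · exact zero_le_one
  · exact U_nonneg fun v _ => c.potential_αp_nonneg _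

theorem α_le_one (S : Finset (Fin n)) : c.α S ≤ 1 := by
  unfold α
  split_ifs
  · exact le_rfl
  · exact U_le zero_le_one fun v _ => c.potential_αp_le_one _

theorem potential_ψa_nonneg (S : Finset (Fin n)) : 0 ≤ c.ψa S :=
  Up_nonneg fun C _ => mul_nonneg (ind_nonneg _ _) (c.α_nonneg C)

theorem potential_ψa_rec (S : Finset (Fin n)) :
    c.ψa S = ind c.light S * c.α S + U c.ψa S := by
  unfold ψa
  rw [Up_rec]

/-- `1 ≤ αp + ψa + (1 - ν)` -/
theorem potential_one_le (S : Finset (Fin n)) : 1 ≤ c.αp S + c.ψa S + (1 - c.ν S) := by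
  classical
  induction S using up_induction with
  | huniv =>
    rw [c.potential_ν_univ, c.potential_ψa_rec, U_univ]
    by_cases h : c.light univ
    · rw [ind_of h]
      unfold α
      rw [if_pos rfl]
      have := c.potential_αp_nonneg univ
      linarith
    · have h1 : c.αp univ = 1 := by
        unfold αp
        rw [upR_univ (stop := fun S => c.light S ∨ S ∈ c.F)]
        intro h2
        rcases h2 with h2 | h2
        · exact h h2
        · exact c.univ_notMem h2
      rw [h1, ind_of_not h]; linarith
  | step S hS ih =>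
    by_cases hF : S ∈ c.F
    · rw [c.potential_ν_mem hF]
      have h1 := c.potential_αp_nonneg S
      have h2 := c.potential_ψa_nonneg S
      linarith
    · have hU : 1 ≤ U c.αp S + U c.ψa S + (1 - U c.ν S) := by
        have h1 : U (fun _ => (1 : ℝ)) S ≤
            U (fun T => (c.αp T + c.ψa T) + (1 - c.ν T)) S := U_mono ih
        rw [U_const hS, U_add, U_add, U_sub (fun _ => (1 : ℝ)) c.ν, U_const hS] at h1
        exact h1
      rw [c.potential_ν_step hF hS, c.potential_ψa_rec S]
      by_cases hl : c.light S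
      · rw [ind_of hl, c.potential_αp_stop (Or.inl hl)]
        unfold α
        rw [if_neg hS]
        linarith
      · rw [ind_of_not hl, c.potential_αp_step (by tauto) hS]
        linarith

/-- `ψ ≤ ψa + (1 - ν)`: if the up-chain meets a light set then either there is a member at or
above, or above the highest light set there is no light set and no member.
Proof: by `up_induction` the stronger pair `1 ≤ α S + U ψa S + U (1-ν) S` (for `S ≠ univ`) and the claim.
(light sets are not members because `δ = 1` on members; this fact is the hypothesis `hlight`.) -/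
theorem ψ_le (hlight : ∀ S, c.light S → S ∉ c.F) (S : Finset (Fin n)) :
    c.ψ S ≤ c.ψa S + (1 - c.ν S) := by
  classical
  induction S using up_induction with
  | huniv =>
    by_cases h : c.light univ
    · have h1 := c.potential_one_le univ
      rw [c.potential_αp_stop (Or.inl h)] at h1
      have h2 := c.ψ_le_one univ
      linarith
    · have h1 : c.ψ univ = 0 := by unfold ψ; rw [upR_univ h]
      have h2 := c.potential_ψa_nonneg univ
      have h3 := c.ν_le_one univ
      linarith
  | step S hS ih =>
    by_cases h : c.light S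
    · have h1 := c.potential_one_le S
      rw [c.potential_αp_stop (Or.inl h)] at h1
      have h2 := c.ψ_le_one S
      linarith
    · by_cases hF : S ∈ c.F
      · rw [c.potential_ν_mem hF]
        have h1 := c.potential_ψa_nonneg S
        have h2 := c.ψ_le_one S
        linarith
      · have h1 : c.ψ S = U c.ψ S := by
          show upR c.light (fun _ => 1) 0 S = _
          rw [upR_step h hS]; rfl
        rw [h1, c.potential_ν_step hF hS, c.potential_ψa_rec S, ind_of_not h]
        have h2 : U c.ψ S ≤ U (fun T => c.ψa T + (1 - c.ν T)) S := U_mono ih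
        rw [U_add, U_sub (fun _ => (1 : ℝ)) c.ν, U_const hS] at h2
        linarith

/-- calm sets are heavy if below the top of the window -/
theorem calm_heavy {W : Finset (Fin n)} (hW : c.calm W) (hcard : W.card ≤ c.l1) : c.heavy W := by
  by_contra h
  have h1 : c.ψ W = 1 := by
    unfold ψ; rw [upR_of_stop (stop := c.light) ⟨hcard, h⟩]
  unfold calm at hW
  rw [h1] at hW
  norm_num at hW

/-- the expected number of members at or above `S` dominates the probability `1 - ν S` -/
theorem one_sub_ν_le (S : Finset (Fin n)) : 1 - c.ν S ≤ Up (ind (· ∈ c.F)) S := by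
  classical
  induction S using up_induction with
  | huniv =>
    rw [c.potential_ν_univ, sub_self]
    exact Up_nonneg fun C _ => ind_nonneg _ _
  | step S hS ih =>
    rw [Up_rec]
    have hU : 0 ≤ U (Up (ind (· ∈ c.F))) S :=
      U_nonneg fun v _ => Up_nonneg fun C _ => ind_nonneg _ _
    by_cases hF : S ∈ c.F
    · rw [c.potential_ν_mem hF, ind_of (P := (· ∈ c.F)) hF]; linarith
    · rw [c.potential_ν_step hF hS, ind_of_not (P := (· ∈ c.F)) hF]
      have h2 : U (fun T => 1 - c.ν T) S ≤ U (Up (ind (· ∈ c.F))) S := U_mono ih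
      rw [U_sub (fun _ => (1 : ℝ)) c.ν, U_const hS] at h2
      linarith

theorem potential_M_nonneg (S : Finset (Fin n)) : 0 ≤ c.M S :=
  Up_nonneg fun C _ => ind_nonneg _ _

theorem potential_mh_nonneg (S : Finset (Fin n)) : 0 ≤ c.mh S :=
  Up_nonneg fun C _ => mul_nonneg (ind_nonneg _ _) (U_nonneg fun _ _ => c.potential_M_nonneg _)

/-- Bonferroni: `M - mh ≤ 1 - ν` -/
theorem M_sub_mh_le (S : Finset (Fin n)) : c.M S - c.mh S ≤ 1 - c.ν S := by
  classical
  induction S using up_induction with
  | huniv =>
    have h1 : c.M univ = ind c.bd univ := by unfold M; rw [Up_univ]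
    have h2 : ind c.bd (univ : Finset (Fin n)) = 0 := ind_of_not fun h => c.univ_notMem h.1
    rw [h1, h2, c.potential_ν_univ]
    have := c.potential_mh_nonneg univ
    linarith
  | step S hS ih =>
    have hM : c.M S = ind c.bd S + U c.M S := by
      show Up _ S = _
      rw [Up_rec]; rfl
    have hmh : c.mh S = ind c.bd S * U c.M S + U c.mh S := by
      show Up _ S = _
      rw [Up_rec]; rfl
    have hUmh : 0 ≤ U c.mh S := U_nonneg fun _ _ => c.potential_mh_nonneg _
    have hUdiff : U c.M S - U c.mh S ≤ 1 - U c.ν S := by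
      have h2 : U (fun T => c.M T - c.mh T) S ≤ U (fun T => 1 - c.ν T) S := U_mono ih
      rw [U_sub, U_sub (fun _ => (1 : ℝ)) c.ν, U_const hS] at h2
      exact h2
    have hUν : 0 ≤ U c.ν S := U_nonneg fun _ _ => c.ν_nonneg _
    rw [hM, hmh]
    by_cases hb : c.bd S
    · rw [ind_of hb, c.potential_ν_mem hb.1]
      linarith
    · rw [ind_of_not hb]
      by_cases hF : S ∈ c.F
      · rw [c.potential_ν_mem hF]; linarith
      · rw [c.potential_ν_step hF hS]; linarith

theorem M_le (S : Finset (Fin n)) : c.M S ≤ 1 + c.mh S := by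
  have := c.M_sub_mh_le S
  have := c.ν_nonneg S
  linarith

theorem potential_ψe_nonneg (e S : Finset (Fin n)) : 0 ≤ c.ψe e S :=
  upR_nonneg (fun _ => zero_le_one) le_rfl S

theorem potential_ψe_le_one (e S : Finset (Fin n)) : c.ψe e S ≤ 1 :=
  upR_le_one (fun _ => le_rfl) zero_le_one S

theorem potential_ψe_stop {e S : Finset (Fin n)} (h : c.light (S \ e)) : c.ψe e S = 1 := by
  unfold ψe; rw [upR_of_stop (stop := fun S => c.light (S \ e)) h]

theorem potential_ψe_step {e S : Finset (Fin n)} (h : ¬ c.light (S \ e)) (hS : S ≠ univ) :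
    c.ψe e S = U (c.ψe e) S := by
  unfold ψe; rw [upR_step (stop := fun S => c.light (S \ e)) h hS]

theorem potential_U_ψe_le (e S : Finset (Fin n)) (hS : S ≠ univ) : U (c.ψe e) S ≤ c.ψe e S := by
  by_cases h : c.light (S \ e)
  · rw [c.potential_ψe_stop h]
    exact U_le zero_le_one fun v _ => c.potential_ψe_le_one _ _
  · rw [c.potential_ψe_step h hS]

/-- a member `C` with `C \ e` not heavy gives a light set -/
theorem potential_light_of_mem {C e : Finset (Fin n)} (hC : C ∈ c.F) (h : ¬ c.heavy (C \ e)) :
    c.light (C \ e) := by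
  refine ⟨?_, h⟩
  exact le_trans (card_le_card sdiff_subset) (c.win_hi C hC)

/-- `c2 + ψe` dominates the probability of a member at or above `S ⊇ e` -/
theorem one_sub_ν_le_c2 {e S : Finset (Fin n)} (he : e ⊆ S) :
    1 - c.ν S ≤ c.c2 e S + c.ψe e S := by
  classical
  clear he
  induction S using up_induction with
  | huniv =>
    rw [c.potential_ν_univ, sub_self]
    exact add_nonneg (Up_nonneg fun _ _ => ind_nonneg _ _) (c.potential_ψe_nonneg _ _)
  | step S hS ih =>
    have hc2 : c.c2 e S = ind (fun C => C ∈ c.F ∧ c.heavy (C \ e)) S + U (c.c2 e) S := by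
      show Up _ S = _
      rw [Up_rec]; rfl
    have hUc2 : 0 ≤ U (c.c2 e) S := U_nonneg fun v _ => Up_nonneg fun C _ => ind_nonneg _ _
    have hψe := c.potential_ψe_nonneg e S
    by_cases hF : S ∈ c.F
    · rw [c.potential_ν_mem hF]
      by_cases hh : c.heavy (S \ e)
      · rw [hc2, ind_of (P := fun C => C ∈ c.F ∧ c.heavy (C \ e)) ⟨hF, hh⟩]
        linarith
      · rw [c.potential_ψe_stop (c.potential_light_of_mem hF hh)]
        have : 0 ≤ c.c2 e S := Up_nonneg fun C _ => ind_nonneg _ _
        linarith
    · rw [c.potential_ν_step hF hS, hc2]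
      have h1 := c.potential_U_ψe_le e S hS
      have h2 : U (fun T => 1 - c.ν T) S ≤ U (fun T => c.c2 e T + c.ψe e T) S := U_mono ih
      rw [U_add, U_sub (fun _ => (1 : ℝ)) c.ν, U_const hS] at h2
      have h3 := ind_nonneg (fun C => C ∈ c.F ∧ c.heavy (C \ e)) S
      linarith

/-- two disjoint sets `e, e'` such that not both `C \ e`, `C \ e'` are heavy for a member `C` -/
theorem one_sub_ν_le_ψe {e e' S : Finset (Fin n)} (he : e ⊆ S) (he' : e' ⊆ S)
    (hCI : ∀ C ∈ c.F, e ⊆ C → e' ⊆ C → ¬ (c.heavy (C \ e) ∧ c.heavy (C \ e'))) :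
    1 - c.ν S ≤ c.ψe e S + c.ψe e' S := by
  classical
  induction S using up_induction with
  | huniv =>
    rw [c.potential_ν_univ, sub_self]
    exact add_nonneg (c.potential_ψe_nonneg _ _) (c.potential_ψe_nonneg _ _)
  | step S hS ih =>
    by_cases hF : S ∈ c.F
    · rw [c.potential_ν_mem hF]
      have h0 := c.potential_ψe_nonneg e S
      have h0' := c.potential_ψe_nonneg e' S
      by_cases hh : c.heavy (S \ e)
      · by_cases hh' : c.heavy (S \ e')
        · exact absurd ⟨hh, hh'⟩ (hCI S hF he he')
        · rw [c.potential_ψe_stop (c.potential_light_of_mem hF hh')]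
          linarith
      · rw [c.potential_ψe_stop (c.potential_light_of_mem hF hh)]
        linarith
    · rw [c.potential_ν_step hF hS]
      have h1 := c.potential_U_ψe_le e S hS
      have h1' := c.potential_U_ψe_le e' S hS
      have h2 : U (fun T => 1 - c.ν T) S ≤ U (fun T => c.ψe e T + c.ψe e' T) S :=
        U_mono fun v hv => ih v hv (he.trans (subset_insert _ _)) (he'.trans (subset_insert _ _))
      rw [U_add, U_sub (fun _ => (1 : ℝ)) c.ν, U_const hS] at h2
      linarith

/-- above the top of the window there is no light set -/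
theorem potential_ψe_zero {e S : Finset (Fin n)} (h : c.l1 < (S \ e).card) : c.ψe e S = 0 := by
  classical
  induction S using up_induction with
  | huniv =>
    unfold ψe
    rw [upR_univ (stop := fun S => c.light (S \ e))]
    intro hl
    exact absurd hl.1 (by omega)
  | step S hS ih =>
    have hnl : ¬ c.light (S \ e) := fun hl => absurd hl.1 (by omega)
    rw [c.potential_ψe_step hnl hS]
    have : U (c.ψe e) S = U (fun _ => (0 : ℝ)) S := by
      refine U_congr fun v hv => ih v hv ?_
      exact lt_of_lt_of_le h (card_le_card (sdiff_subset_sdiff (subset_insert _ _) le_rfl))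
    rw [this, U_const hS]

/-- the coupling inequality behind `ψe_le` -/
theorem potential_coupling {e : Finset (Fin n)} (W : Finset (Fin n)) (hd : Disjoint W e)
    (hW : W.card ≤ c.l1) :
    (((n - c.l1).descFactorial e.card : ℕ) : ℝ) * c.ψe e (W ∪ e) ≤
      (((n - W.card).descFactorial e.card : ℕ) : ℝ) * c.ψ W := by
  classical
  induction W using up_induction with
  | huniv =>
    have h1 := c.potential_R_half
    rw [card_univ, Fintype.card_fin] at hW
    unfold l1 at hW
    omega
  | step W hWu ih =>
    have hsd : (W ∪ e) \ e = W := by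
      rw [union_sdiff_right]; exact hd.sdiff_eq_left
    by_cases hl : c.light W
    · have h1 : c.ψ W = 1 := by unfold ψ; rw [upR_of_stop (stop := c.light) hl]
      rw [h1, mul_one]
      have h2 := c.potential_ψe_le_one e (W ∪ e)
      have h3 : (((n - c.l1).descFactorial e.card : ℕ) : ℝ) ≤
          (((n - W.card).descFactorial e.card : ℕ) : ℝ) := by
        exact_mod_cast Nat.descFactorial_le _ (by omega)
      have h4 : (0 : ℝ) ≤ (((n - c.l1).descFactorial e.card : ℕ) : ℝ) := by positivity
      nlinarith [c.potential_ψe_nonneg e (W ∪ e)]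
    · have hstep : c.ψ W = U c.ψ W := by
        show upR c.light (fun _ => 1) 0 W = _
        rw [upR_step hl hWu]; rfl
      by_cases hue : W ∪ e = univ
      · -- then `ψe e univ = 0`
        have h1 : c.ψe e (W ∪ e) = 0 := by
          rw [hue]
          unfold ψe
          rw [upR_univ (stop := fun S => c.light (S \ e))]
          rw [← hue, hsd]; exact hl
        rw [h1, mul_zero]
        exact mul_nonneg (by positivity) (c.ψ_nonneg W)
      rcases hW.lt_or_eq with hlt | heq
      · -- main case
        have hstep' : c.ψe e (W ∪ e) = U (c.ψe e) (W ∪ e) :=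
          c.potential_ψe_step (by rw [hsd]; exact hl) hue
        -- denominators
        have hcardc : ((W ∪ e)ᶜ).card + e.card = (Wᶜ).card := by
          have h1 : (W ∪ e).card = W.card + e.card := card_union_of_disjoint hd
          rw [card_compl, card_compl, h1, Fintype.card_fin]
          have h2 : (W ∪ e).card ≤ n := by
            have := card_le_univ (W ∪ e)
            rwa [Fintype.card_fin] at this
          rw [h1] at h2
          omega
        have hWc : (Wᶜ).card = n - W.card := by rw [card_compl, Fintype.card_fin]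
        have hpos1 : (0 : ℝ) < ((W ∪ e)ᶜ).card := by
          have : ((W ∪ e)ᶜ).Nonempty := by
            rw [nonempty_iff_ne_empty]; intro h; exact hue ((compl_eq_empty_iff _).1 h)
          exact_mod_cast this.card_pos
        have hpos2 : (0 : ℝ) < (Wᶜ).card := by
          have : (Wᶜ).Nonempty := by
            rw [nonempty_iff_ne_empty]; intro h; exact hWu ((compl_eq_empty_iff _).1 h)
          exact_mod_cast this.card_pos
        -- sums
        have hsum : (((n - c.l1).descFactorial e.card : ℕ) : ℝ) *
            (∑ v ∈ (W ∪ e)ᶜ, c.ψe e (insert v (W ∪ e))) ≤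
            (((n - (W.card + 1)).descFactorial e.card : ℕ) : ℝ) * (∑ v ∈ Wᶜ, c.ψ (insert v W)) := by
          rw [mul_sum, mul_sum]
          have hsub : (W ∪ e)ᶜ ⊆ Wᶜ := compl_subset_compl.2 subset_union_left
          calc ∑ v ∈ (W ∪ e)ᶜ, (((n - c.l1).descFactorial e.card : ℕ) : ℝ) *
                c.ψe e (insert v (W ∪ e))
              ≤ ∑ v ∈ (W ∪ e)ᶜ, (((n - (W.card + 1)).descFactorial e.card : ℕ) : ℝ) *
                c.ψ (insert v W) := by
                refine sum_le_sum fun v hv => ?_
                rw [mem_compl, mem_union, not_or] at hv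
                have h1 := ih v hv.1 (by
                  rw [disjoint_insert_left]; exact ⟨hv.2, hd⟩) (by
                  rw [card_insert_of_notMem hv.1]; omega)
                rw [insert_union, card_insert_of_notMem hv.1] at h1
                exact h1
            _ ≤ ∑ v ∈ Wᶜ, (((n - (W.card + 1)).descFactorial e.card : ℕ) : ℝ) *
                c.ψ (insert v W) := by
                refine sum_le_sum_of_subset_of_nonneg hsub ?_
                intro v _ _
                exact mul_nonneg (by positivity) (c.ψ_nonneg _)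
        -- factorial identity
        have hfac : ((W ∪ e)ᶜ).card * (n - W.card).descFactorial e.card =
            (n - W.card) * (n - (W.card + 1)).descFactorial e.card := by
          have h1 : n - W.card = (n - (W.card + 1)) + 1 := by
            have : 0 < (Wᶜ).card := by exact_mod_cast hpos2
            omega
          have h2 : ((W ∪ e)ᶜ).card = (n - (W.card + 1)) + 1 - e.card := by omega
          rw [h2, h1]
          exact Nat.succ_descFactorial _ _
        have hfacR : (((W ∪ e)ᶜ).card : ℝ) * (((n - W.card).descFactorial e.card : ℕ) : ℝ) =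
            ((Wᶜ).card : ℝ) * (((n - (W.card + 1)).descFactorial e.card : ℕ) : ℝ) := by
          rw [hWc]; exact_mod_cast hfac
        rw [hstep, hstep']
        unfold U
        rw [mul_div_assoc', mul_div_assoc', div_le_div_iff₀ hpos1 hpos2]
        calc (((n - c.l1).descFactorial e.card : ℕ) : ℝ) *
              (∑ v ∈ (W ∪ e)ᶜ, c.ψe e (insert v (W ∪ e))) * ((Wᶜ).card : ℝ)
            ≤ (((n - (W.card + 1)).descFactorial e.card : ℕ) : ℝ) *
              (∑ v ∈ Wᶜ, c.ψ (insert v W)) * ((Wᶜ).card : ℝ) :=
              mul_le_mul_of_nonneg_right hsum hpos2.le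
          _ = (((n - W.card).descFactorial e.card : ℕ) : ℝ) *
              (∑ v ∈ Wᶜ, c.ψ (insert v W)) * (((W ∪ e)ᶜ).card : ℝ) := by
              linear_combination (-(∑ v ∈ Wᶜ, c.ψ (insert v W))) * hfacR
      · -- `|W| = l1`, not light: nothing light above
        have hstep' : c.ψe e (W ∪ e) = U (c.ψe e) (W ∪ e) :=
          c.potential_ψe_step (by rw [hsd]; exact hl) hue
        have h0 : U (c.ψe e) (W ∪ e) = 0 := by
          rw [← U_const hue 0]
          refine U_congr fun v hv => c.potential_ψe_zero ?_
          rw [mem_union, not_or] at hv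
          have : insert v (W ∪ e) \ e = insert v W := by
            rw [insert_sdiff_of_notMem _ hv.2, hsd]
          rw [this, card_insert_of_notMem hv.1]
          omega
        rw [hstep', h0, mul_zero]
        exact mul_nonneg (by positivity) (c.ψ_nonneg W)

/-- comparison of `ψe` with `ψ`: for `e ⊆ V`, `|e| ≤ 3`, `ψe e V ≤ 1.02 ψ(V \ e)`
(for `|V \ e|` at least the bottom level `l0`).  Induction upwards of
`((n-l1).descFactorial r / (n-w).descFactorial r) * ψe e (W ∪ e) ≤ ψ W`, `w = |W| ≤ l1`. -/
theorem ψe_le {e V : Finset (Fin n)} (he : e ⊆ V) (he3 : e.card ≤ 3)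
    (hV : c.l0 ≤ (V \ e).card) : c.ψe e V ≤ (51 / 50) * c.ψ (V \ e) := by
  classical
  by_cases hbig : c.l1 < (V \ e).card
  · rw [c.potential_ψe_zero hbig]
    exact mul_nonneg (by norm_num) (c.ψ_nonneg _)
  push Not at hbig
  have hcoup := c.potential_coupling (V \ e) sdiff_disjoint hbig
  rw [sdiff_union_of_subset he] at hcoup
  set w := (V \ e).card with hw
  set r := e.card with hr
  have hR := c.potential_R_le
  have hn := c.n_large
  -- numeric bounds
  have hl1 : c.l1 = n / 2 + c.R := rfl
  have hl0 : c.l0 = n / 2 - c.R + 1 := rfl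
  have hA : ((n - c.l1 + 1 - r) ^ r : ℕ) ≤ (n - c.l1).descFactorial r :=
    Nat.pow_sub_le_descFactorial _ _
  have hB : (n - w).descFactorial r ≤ (n - w) ^ r := Nat.descFactorial_le_pow _ _
  set x : ℝ := ((n - c.l1 + 1 - r : ℕ) : ℝ) with hx
  set y : ℝ := ((n - w : ℕ) : ℝ) with hy
  have hxy : (9999 / 10000 : ℝ) * y ≤ x := by
    have h1 : 9999 * (n - w) ≤ 10000 * (n - c.l1 + 1 - r) := by
      have h3 : 10 ^ 20 * (5 * c.R) = 500000000000000000000 * c.R := by ring
      have h4 : (10:ℕ) ^ 60 = 1000000000000000000000000000000000000000000000000000000000000 := by norm_num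
      rw [h3] at hR
      rw [h4] at hn
      omega
    have h2 : (9999 : ℝ) * y ≤ 10000 * x := by
      rw [hx, hy]; exact_mod_cast h1
    linarith
  have hy0 : 0 ≤ y := by positivity
  have hψ := c.ψ_nonneg (V \ e)
  have hψe := c.potential_ψe_nonneg e V
  have hx0 : 0 ≤ x := by positivity
  have hpow : (50 / 51 : ℝ) * y ^ r ≤ x ^ r := by
    have h1 : ((9999 / 10000 : ℝ) * y) ^ r ≤ x ^ r := pow_le_pow_left₀ (by positivity) hxy r
    have h2 : (50 / 51 : ℝ) ≤ (9999 / 10000 : ℝ) ^ r := by
      calc (50 / 51 : ℝ) ≤ (9999 / 10000 : ℝ) ^ 3 := by norm_num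
        _ ≤ (9999 / 10000 : ℝ) ^ r := pow_le_pow_of_le_one (by norm_num) (by norm_num) he3
    calc (50 / 51 : ℝ) * y ^ r ≤ (9999 / 10000 : ℝ) ^ r * y ^ r :=
          mul_le_mul_of_nonneg_right h2 (by positivity)
      _ = ((9999 / 10000 : ℝ) * y) ^ r := by rw [mul_pow]
      _ ≤ x ^ r := h1
  have hypos : 0 < y := by
    rw [hy]
    have : 0 < n - w := by
      have := c.potential_R_half
      omega
    exact_mod_cast this
  have hAR : x ^ r ≤ (((n - c.l1).descFactorial r : ℕ) : ℝ) := by
    rw [hx]; exact_mod_cast hA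
  have hBR : (((n - w).descFactorial r : ℕ) : ℝ) ≤ y ^ r := by
    rw [hy]; exact_mod_cast hB
  have h5 : (50 / 51 : ℝ) * y ^ r * c.ψe e V ≤ y ^ r * c.ψ (V \ e) := by
    calc (50 / 51 : ℝ) * y ^ r * c.ψe e V ≤ x ^ r * c.ψe e V :=
          mul_le_mul_of_nonneg_right hpow hψe
      _ ≤ (((n - c.l1).descFactorial r : ℕ) : ℝ) * c.ψe e V :=
          mul_le_mul_of_nonneg_right hAR hψe
      _ ≤ (((n - w).descFactorial r : ℕ) : ℝ) * c.ψ (V \ e) := hcoup
      _ ≤ y ^ r * c.ψ (V \ e) := mul_le_mul_of_nonneg_right hBR hψ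
  have hyr : 0 < y ^ r := pow_pos hypos r
  have h6 : y ^ r * c.ψe e V ≤ y ^ r * ((51 / 50) * c.ψ (V \ e)) := by nlinarith
  exact le_of_mul_le_mul_left h6 hyr

end Ctx

end Kleitman
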