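import Pool.Agent.Kleitman.LB
import Pool.Agent.Kleitman.Potential

/-! # Module D: position identity -/

set_option autoImplicit false

open Finset

namespace Kleitman

variable {n : ℕ}

/-- averages over the `(k+1)`-subsets containing `x` of `a (S - x)` -/
theorem Pos_avD_link {k : ℕ} (a : Finset (Fin n) → ℝ) {C : Finset (Fin n)} {x : Fin n}
    (hx : x ∈ C) (hk : k < C.card) :
    avD (k + 1) (fun S => if x ∈ S then a (S.erase x) else 0) C =
      (((k : ℝ) + 1) / C.card) * avD k a (C.erase x) := by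
  unfold avD
  have h1 : ∑ W ∈ powersetCard (k + 1) C, (if x ∈ W then a (W.erase x) else 0) =
      ∑ W ∈ powersetCard k (C.erase x), a W := by
    rw [← sum_filter]
    refine sum_nbij' (fun W => W.erase x) (fun W => insert x W) ?_ ?_ ?_ ?_ ?_
    · intro W hW
      rw [mem_filter, mem_powersetCard] at hW
      rw [mem_powersetCard]
      refine ⟨erase_subset_erase _ hW.1.1, ?_⟩
      rw [card_erase_of_mem hW.2, hW.1.2]; rfl
    · intro W hW
      rw [mem_powersetCard] at hW
      have hxW : x ∉ W := fun h => (mem_erase.1 (hW.1 h)).1 rfl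
      rw [mem_filter, mem_powersetCard]
      refine ⟨⟨?_, ?_⟩, mem_insert_self _ _⟩
      · intro y hy
        rcases mem_insert.1 hy with rfl | hy
        · exact hx
        · exact (mem_erase.1 (hW.1 hy)).2
      · rw [card_insert_of_notMem hxW, hW.2]
    · intro W hW
      rw [mem_filter] at hW
      exact insert_erase hW.2
    · intro W hW
      rw [mem_powersetCard] at hW
      have hxW : x ∉ W := fun h => (mem_erase.1 (hW.1 h)).1 rfl
      exact erase_insert hxW
    · intro W _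
      rfl
  rw [h1, card_erase_of_mem hx]
  obtain ⟨m, hm⟩ : ∃ m, C.card = m + 1 := ⟨C.card - 1, by omega⟩
  rw [hm]
  have h2 : ((m : ℝ) + 1) * (m.choose k : ℝ) = ((m + 1).choose (k + 1) : ℝ) * ((k : ℝ) + 1) := by
    exact_mod_cast Nat.add_one_mul_choose_eq m k
  have h3 : (0 : ℝ) < ((m + 1).choose (k + 1) : ℝ) := by
    exact_mod_cast Nat.choose_pos (by omega)
  have h4 : (0 : ℝ) < (m.choose k : ℝ) := by
    exact_mod_cast Nat.choose_pos (by omega)
  have h5 : (0 : ℝ) < (m : ℝ) + 1 := by positivity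
  have h6 : m + 1 - 1 = m := rfl
  rw [h6]
  push_cast
  rw [div_eq_iff (ne_of_gt h3)]
  field_simp
  linear_combination (∑ W ∈ powersetCard k (C.erase x), a W) * h2

namespace Ctx

variable (c : Ctx n)

/-- position identity, general weight `a` -/
theorem E_mul_kh {k : ℕ} (hk : k < n) (a : Finset (Fin n) → ℝ) :
    E k (fun W => a W * c.kh W) =
      mass (fun C => if k < C.card then
        ∑ x ∈ C, ind (c.cen x) C * ((((n : ℝ) - k) / C.card) * avD k a (C.erase x)) else 0) := by
  have e1 : E k (fun W => a W * c.kh W) =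
      E k (fun W => ∑ x ∈ Wᶜ, a W * c.uh x (insert x W)) := by
    refine E_congr fun W _ => ?_
    unfold kh
    rw [mul_sum]
  rw [e1, E_sum_compl hk (fun W x => a W * c.uh x (insert x W))]
  have e2 : E (k + 1) (fun S => ∑ x ∈ S, a (S.erase x) * c.uh x (insert x (S.erase x))) =
      ∑ x : Fin n, E (k + 1) (fun S => (if x ∈ S then a (S.erase x) else 0) *
        Up (ind (c.cen x)) S) := by
    rw [← E_sum]
    refine E_congr fun S _ => ?_
    rw [← sum_subset (subset_univ S)]
    · refine sum_congr rfl fun x hx => ?_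
      rw [if_pos hx, insert_erase hx]; rfl
    · intro x _ hx
      rw [if_neg hx, zero_mul]
  rw [e2]
  have e3 : ∀ x : Fin n, E (k + 1) (fun S => (if x ∈ S then a (S.erase x) else 0) *
        Up (ind (c.cen x)) S) = mass (fun C => if k + 1 ≤ C.card then ind (c.cen x) C *
          avD (k + 1) (fun S => if x ∈ S then a (S.erase x) else 0) C else 0) := fun x =>
    E_mul_Up (by omega) _ _
  rw [sum_congr rfl fun x _ => e3 x, ← mass_sum, ← mass_const_mul]
  unfold mass
  refine sum_congr rfl fun C _ => ?_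
  congr 1
  beta_reduce
  by_cases hC : k < C.card
  · rw [if_pos hC]
    have hC' : k + 1 ≤ C.card := hC
    simp only [if_pos hC']
    rw [← sum_subset (subset_univ C), mul_sum]
    · refine sum_congr rfl fun x hx => ?_
      rw [Pos_avD_link a hx hC]
      have : ((k : ℝ) + 1) ≠ 0 := by positivity
      field_simp
    · intro x _ hx
      have : ¬ c.cen x C := fun h => hx h.2.1
      rw [ind_of_not this, zero_mul]
  · have hC' : ¬ k + 1 ≤ C.card := by omega
    simp only [if_neg hC, if_neg hC', sum_const_zero, mul_zero]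

theorem Pos_a64 : (((c.a / 64 : ℕ)) : ℝ) ≤ (c.a : ℝ) / 64 := by
  exact_mod_cast Nat.cast_div_le (m := c.a) (n := 64) (α := ℝ)

theorem Pos_H_notMem {C : Finset (Fin n)} {x : Fin n} (hC : c.cen x C) :
    ∑ A ∈ C.powerset.filter (fun A => ¬ x ∈ A), ind c.isG A / ((C.card.choose A.card : ℕ) : ℝ) ≤
      ((2 + 1 / 64) * (c.a : ℝ) / C.card) * c.H (C.erase x) := by
  have hx : x ∈ C := hC.2.1
  unfold H Dn
  rw [mul_sum]
  have hset : C.powerset.filter (fun A => ¬ x ∈ A) = (C.erase x).powerset := by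
    ext A
    simp only [mem_filter, mem_powerset, subset_erase]
  rw [hset]
  refine sum_le_sum fun A hA => ?_
  by_cases hG : c.isG A
  · rw [ind_of hG, card_erase_of_mem hx]
    obtain ⟨m, hm⟩ : ∃ m, C.card = m + 1 :=
      ⟨C.card - 1, by have := card_pos.2 ⟨x, hx⟩; omega⟩
    have hAm : A.card ≤ m := by
      have := card_le_card (mem_powerset.1 hA)
      rw [card_erase_of_mem hx, hm] at this
      simpa using this
    have h1 : ((m.choose A.card : ℕ) : ℝ) * ((m : ℝ) + 1) =
        (((m + 1).choose A.card : ℕ) : ℝ) * ((m : ℝ) + 1 - A.card) := by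
      have := Nat.choose_mul_succ_eq m A.card
      have h2 : ((m + 1 - A.card : ℕ) : ℝ) = (m : ℝ) + 1 - A.card := by
        rw [Nat.cast_sub (by omega)]; push_cast; ring
      rw [← h2]
      exact_mod_cast this
    have hle : (m : ℝ) + 1 - A.card ≤ (2 + 1 / 64) * (c.a : ℝ) := by
      have h3 : C.card ≤ n / 2 + c.a / 64 := hC.1.2.2
      have h4 : n / 2 < A.card + 2 * c.a := hG.2.1
      have h5 : (m : ℝ) + 1 ≤ (A.card : ℝ) + 2 * c.a + ((c.a / 64 : ℕ) : ℝ) := by
        have : m + 1 ≤ A.card + 2 * c.a + c.a / 64 := by omega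
        exact_mod_cast this
      have := c.Pos_a64
      linarith
    rw [hm]
    have h6 : m + 1 - 1 = m := rfl
    rw [h6]
    have p1 : (0 : ℝ) < (((m + 1).choose A.card : ℕ) : ℝ) := by
      exact_mod_cast Nat.choose_pos (by omega)
    have p2 : (0 : ℝ) < ((m.choose A.card : ℕ) : ℝ) := by
      exact_mod_cast Nat.choose_pos hAm
    have p3 : (0 : ℝ) < (m : ℝ) + 1 := by positivity
    push_cast
    rw [div_mul_div_comm, mul_one, div_le_div_iff₀ p1 (by positivity)]
    calc 1 * (((m : ℝ) + 1) * ((m.choose A.card : ℕ) : ℝ))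
        = (((m + 1).choose A.card : ℕ) : ℝ) * ((m : ℝ) + 1 - A.card) := by rw [← h1]; ring
      _ ≤ (((m + 1).choose A.card : ℕ) : ℝ) * ((2 + 1 / 64) * (c.a : ℝ)) := by gcongr
      _ = (2 + 1 / 64) * (c.a : ℝ) * (((m + 1).choose A.card : ℕ) : ℝ) := by ring
  · rw [ind_of_not hG]; simp

theorem Pos_H_mem {C : Finset (Fin n)} {x : Fin n} (hC : c.cen x C) :
    ∑ A ∈ C.powerset.filter (fun A => x ∈ A), ind c.isG A / ((C.card.choose A.card : ℕ) : ℝ) ≤
      2 * (c.a : ℝ) * (1 / (n : ℝ) ^ 16) := by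
  classical
  have hx : x ∈ C := hC.2.1
  have hCF : C ∈ c.F := hC.1.1
  have hω : c.δs {x} C ≤ 1 / (n : ℝ) ^ 16 := by
    refine c.omega_bound hCF (singleton_subset_iff.2 hx) (singleton_nonempty x) (by simp) ?_
    rw [sdiff_singleton_eq_erase]
    exact hC.2.2
  have hω0 : 0 ≤ c.δs {x} C := cov_nonneg _ _ _ _
  have hn : (0 : ℝ) < n := c.nR_pos
  set T : Finset (Finset (Fin n)) := (C.powerset.filter (fun A => x ∈ A)).filter c.isG with hT
  have e1 : ∑ A ∈ C.powerset.filter (fun A => x ∈ A), ind c.isG A / ((C.card.choose A.card : ℕ) : ℝ)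
      = ∑ A ∈ T, 1 / ((C.card.choose A.card : ℕ) : ℝ) := by
    rw [hT, sum_filter (s := C.powerset.filter (fun A => x ∈ A)) (p := c.isG)]
    refine sum_congr rfl fun A _ => ?_
    by_cases hG : c.isG A
    · rw [ind_of hG, if_pos hG]
    · rw [ind_of_not hG, if_neg hG]; simp
  rw [e1]
  have hmaps : ∀ A ∈ T, A.card ∈ Ioc (n / 2 - 2 * c.a) (n / 2 - c.a) := by
    intro A hA
    rw [hT, mem_filter] at hA
    have h1 := hA.2.2.1
    have h2 := hA.2.2.2
    have h3 := (c.mem_win hA.2.1).1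
    have h4 := c.l0_pos
    rw [mem_Ioc]
    omega
  rw [← sum_fiberwise_of_maps_to hmaps]
  have hj : ∀ j ∈ Ioc (n / 2 - 2 * c.a) (n / 2 - c.a),
      ∑ A ∈ T.filter (fun A => A.card = j), 1 / ((C.card.choose A.card : ℕ) : ℝ) ≤
        1 / (n : ℝ) ^ 16 := by
    intro j _
    rcases (T.filter (fun A => A.card = j)).eq_empty_or_nonempty with he | ⟨A0, hA0⟩
    · rw [he, sum_empty]; positivity
    rw [mem_filter, hT, mem_filter, mem_filter, mem_powerset] at hA0
    obtain ⟨⟨⟨hA0C, hxA0⟩, hA0G⟩, hA0j⟩ := hA0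
    have hjC : j < C.card := by
      have h1 := hA0G.2.2
      have h2 := hC.1.2.1
      have h3 := c.a_large
      omega
    have hl0 : c.l0 ≤ j := by rw [← hA0j]; exact (c.mem_win hA0G.1).1
    have h10 := c.l0_pos
    have e2 : ∑ A ∈ T.filter (fun A => A.card = j), 1 / ((C.card.choose A.card : ℕ) : ℝ) =
        ((T.filter (fun A => A.card = j)).card : ℝ) * (1 / ((C.card.choose j : ℕ) : ℝ)) := by
      rw [← nsmul_eq_mul, ← sum_const]
      refine sum_congr rfl fun A hA => ?_
      rw [(mem_filter.1 hA).2]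
    rw [e2]
    have hsub : T.filter (fun A => A.card = j) ⊆
        (c.F.erase C).filter (fun A => A ⊆ C ∧ {x} ⊆ A ∧ A.card = j) := by
      intro A hA
      rw [mem_filter, hT, mem_filter, mem_filter, mem_powerset] at hA
      obtain ⟨⟨⟨hAC, hxA⟩, hAG⟩, hAj⟩ := hA
      rw [mem_filter, mem_erase]
      refine ⟨⟨?_, hAG.1⟩, hAC, singleton_subset_iff.2 hxA, hAj⟩
      rintro rfl
      omega
    have hcard : ((T.filter (fun A => A.card = j)).card : ℝ) ≤
        (((C.card - 1).choose (j - 1) : ℕ) : ℝ) * c.δs {x} C := by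
      have h1 := level_le_cov (l := c.l0) (a := j) c.F (singleton_subset_iff.2 hx)
        (by rw [card_singleton]; omega) hl0 hjC.le
      rw [card_singleton] at h1
      refine le_trans ?_ h1
      exact_mod_cast card_le_card hsub
    have hch : (((C.card - 1).choose (j - 1) : ℕ) : ℝ) ≤ ((C.card.choose j : ℕ) : ℝ) := by
      obtain ⟨m, hm⟩ : ∃ m, C.card = m + 1 := ⟨C.card - 1, by omega⟩
      obtain ⟨i, hi⟩ : ∃ i, j = i + 1 := ⟨j - 1, by omega⟩
      rw [hm, hi]
      have : m.choose i ≤ (m + 1).choose (i + 1) := by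
        rw [Nat.choose_succ_succ]; omega
      exact_mod_cast this
    have hpos : (0 : ℝ) < ((C.card.choose j : ℕ) : ℝ) := by
      exact_mod_cast Nat.choose_pos hjC.le
    rw [mul_one_div, div_le_iff₀ hpos]
    calc ((T.filter (fun A => A.card = j)).card : ℝ)
        ≤ (((C.card - 1).choose (j - 1) : ℕ) : ℝ) * c.δs {x} C := hcard
      _ ≤ ((C.card.choose j : ℕ) : ℝ) * (1 / (n : ℝ) ^ 16) := by gcongr
      _ = 1 / (n : ℝ) ^ 16 * ((C.card.choose j : ℕ) : ℝ) := by ring
  calc ∑ j ∈ Ioc (n / 2 - 2 * c.a) (n / 2 - c.a), ∑ A ∈ T.filter (fun A => A.card = j),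
        1 / ((C.card.choose A.card : ℕ) : ℝ)
      ≤ ∑ j ∈ Ioc (n / 2 - 2 * c.a) (n / 2 - c.a), 1 / (n : ℝ) ^ 16 := sum_le_sum hj
    _ = (((n / 2 - c.a) - (n / 2 - 2 * c.a) : ℕ) : ℝ) * (1 / (n : ℝ) ^ 16) := by
        rw [sum_const, Nat.card_Ioc, nsmul_eq_mul]
    _ ≤ (2 * (c.a : ℝ)) * (1 / (n : ℝ) ^ 16) := by
        gcongr
        have : (n / 2 - c.a) - (n / 2 - 2 * c.a) ≤ 2 * c.a := by omega
        exact_mod_cast this

/-- for `C` in the band with centre `x`:
`H C ≤ ((2+1/64) a / |C|) H(C - x) + 2a n^-16` -/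
theorem H_cen_le {C : Finset (Fin n)} {x : Fin n} (hC : c.cen x C) :
    c.H C ≤ ((2 + 1 / 64) * (c.a : ℝ) / C.card) * c.H (C.erase x) +
      2 * (c.a : ℝ) * (1 / (n : ℝ) ^ 16) := by
  have h1 := c.Pos_H_notMem hC
  have h2 := c.Pos_H_mem hC
  have h3 : c.H C = ∑ A ∈ C.powerset.filter (fun A => x ∈ A),
      ind c.isG A / ((C.card.choose A.card : ℕ) : ℝ) +
      ∑ A ∈ C.powerset.filter (fun A => ¬ x ∈ A), ind c.isG A / ((C.card.choose A.card : ℕ) : ℝ) := by
    rw [sum_filter_add_sum_filter_not]; rfl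
  rw [h3]
  linarith

theorem Pos_avD_nonneg {k : ℕ} {a : Finset (Fin n) → ℝ} (h : ∀ S, 0 ≤ a S) (C : Finset (Fin n)) :
    0 ≤ avD k a C := by
  unfold avD
  exact div_nonneg (sum_nonneg fun W _ => h W) (by positivity)

theorem Pos_kh_nonneg (W : Finset (Fin n)) : 0 ≤ c.kh W :=
  sum_nonneg fun _ _ => Up_nonneg fun _ _ => ind_nonneg _ _

theorem Pos_avD_H {k : ℕ} (hk : c.inI k) {C : Finset (Fin n)} {x : Fin n} (hC : c.cen x C) :
    avD k c.H (C.erase x) = c.H (C.erase x) := by
  have hb := c.inI_bounds hk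
  have hb1 := hC.1.2.1
  have ha := c.a_large
  refine avD_harmonic ?_ ?_
  · rw [card_erase_of_mem hC.2.1]
    omega
  · intro T _ hT
    refine c.D_H ?_
    have := hk.1
    omega

/-- the sum of the centre indicators -/
theorem Pos_sum_cen_le (C : Finset (Fin n)) :
    ∑ x ∈ C, ind (c.cen x) C ≤ ind (· ∈ c.F) C := by
  by_cases h : ∃ x ∈ C, c.cen x C
  · obtain ⟨x, hx, hcx⟩ := h
    rw [sum_eq_single_of_mem x hx, ind_of hcx, ind_of (hcx.1.1)]
    intro y _ hyx
    exact ind_of_not fun hcy => hyx (c.cen_unique hcy hcx)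
  · push Not at h
    rw [sum_eq_zero fun x hx => ind_of_not (h x hx)]
    exact ind_nonneg _ _

theorem X_le_pos {k : ℕ} (hk : c.inI k) :
    c.X ≤ 10 ^ 4 * ((c.a : ℝ) * c.R / (n : ℝ) ^ 2) +
      (5 * (c.a : ℝ) / n) * E k (fun W => c.H W * c.kh W) := by
  have hb := c.inI_bounds hk
  have hkn : k < n := by omega
  have hn : (0 : ℝ) < n := c.nR_pos
  have ha0 : (0 : ℝ) ≤ (c.a : ℝ) := by positivity
  have hp : c.p = 5 * (c.R : ℝ) / n := rfl
  rw [c.E_mul_kh hkn c.H, ← mass_const_mul]
  have hc0 : (0 : ℝ) ≤ 1000 * ((c.a : ℝ) / n) * c.p + 2 * (c.a : ℝ) * (1 / (n : ℝ) ^ 16) := by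
    have := c.p_pos
    positivity
  have hkn' : (k : ℝ) ≤ n := by exact_mod_cast hkn.le
  have hterm : ∀ C : Finset (Fin n), ∀ x ∈ C,
      0 ≤ ind (c.cen x) C * ((((n : ℝ) - k) / C.card) * avD k c.H (C.erase x)) := by
    intro C x _
    have h1 := ind_nonneg (c.cen x) C
    have h2 := Pos_avD_nonneg (k := k) c.H_nonneg (C.erase x)
    have h3 : 0 ≤ ((n : ℝ) - k) / C.card := div_nonneg (by linarith) (by positivity)
    positivity
  have key : ∀ C : Finset (Fin n), ind c.bd C * c.H C ≤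
      (1000 * ((c.a : ℝ) / n) * c.p + 2 * (c.a : ℝ) * (1 / (n : ℝ) ^ 16)) * ind (· ∈ c.F) C +
      (5 * (c.a : ℝ) / n) * (if k < C.card then
        ∑ x ∈ C, ind (c.cen x) C * ((((n : ℝ) - k) / C.card) * avD k c.H (C.erase x)) else 0) := by
    intro C
    have hsum0 : 0 ≤ (5 * (c.a : ℝ) / n) * (if k < C.card then
        ∑ x ∈ C, ind (c.cen x) C * ((((n : ℝ) - k) / C.card) * avD k c.H (C.erase x)) else 0) := by
      refine mul_nonneg (by positivity) ?_
      split_ifs
      · exact sum_nonneg (hterm C)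
      · exact le_rfl
    by_cases hbd : c.bd C
    · have hF : C ∈ c.F := hbd.1
      rw [ind_of hbd, one_mul, ind_of (P := (· ∈ c.F)) hF, mul_one]
      by_cases hbad : c.bad C
      · have h1 := c.LB hbad
        have h2 : 0 ≤ 2 * (c.a : ℝ) * (1 / (n : ℝ) ^ 16) := by positivity
        linarith
      · have : ∃ x ∈ C, c.heavy (C.erase x) := by
          by_contra hne
          push Not at hne
          exact hbad ⟨hbd, hne⟩
        obtain ⟨x, hx, hheavy⟩ := this
        have hcen : c.cen x C := ⟨hbd, hx, hheavy⟩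
        have h1 := c.H_cen_le hcen
        have hkC : k < C.card := by
          have := hbd.2.1
          have := hb.2.1
          omega
        have hCpos : (0 : ℝ) < (C.card : ℝ) := by
          exact_mod_cast card_pos.2 ⟨x, hx⟩
        rw [if_pos hkC]
        have h2 := single_le_sum (hterm C) hx
        rw [ind_of hcen, one_mul, c.Pos_avD_H hk hcen] at h2
        have h3 : ((2 + 1 / 64) * (c.a : ℝ) / C.card) * c.H (C.erase x) ≤
            (5 * (c.a : ℝ) / n) * ((((n : ℝ) - k) / C.card) * c.H (C.erase x)) := by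
          have hH0 := c.H_nonneg (C.erase x)
          rw [← mul_assoc]
          refine mul_le_mul_of_nonneg_right ?_ hH0
          rw [div_mul_div_comm, div_le_div_iff₀ hCpos (by positivity)]
          have hk2 : (k : ℝ) ≤ (n : ℝ) / 2 := by
            have h4 : 2 * k ≤ n := by have := hk.2; omega
            have h5 : (2 : ℝ) * k ≤ n := by exact_mod_cast h4
            linarith
          have h6 : (2 + 1 / 64) * (n : ℝ) ≤ 5 * ((n : ℝ) - k) := by linarith
          calc (2 + 1 / 64) * (c.a : ℝ) * ((n : ℝ) * C.card)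
              = ((c.a : ℝ) * C.card) * ((2 + 1 / 64) * (n : ℝ)) := by ring
            _ ≤ ((c.a : ℝ) * C.card) * (5 * ((n : ℝ) - k)) := by gcongr
            _ = 5 * (c.a : ℝ) * ((n : ℝ) - k) * C.card := by ring
        have h4 : (5 * (c.a : ℝ) / n) * ((((n : ℝ) - k) / C.card) * c.H (C.erase x)) ≤
            (5 * (c.a : ℝ) / n) * ∑ x ∈ C, ind (c.cen x) C *
              ((((n : ℝ) - k) / C.card) * avD k c.H (C.erase x)) :=
          mul_le_mul_of_nonneg_left h2 (by positivity)
        have h5 : 0 ≤ 1000 * ((c.a : ℝ) / n) * c.p := by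
          have := c.p_pos
          positivity
        linarith
    · rw [ind_of_not hbd, zero_mul]
      have := ind_nonneg (· ∈ c.F) C
      have := mul_nonneg hc0 this
      linarith
  have h1 : c.X ≤ (1000 * ((c.a : ℝ) / n) * c.p + 2 * (c.a : ℝ) * (1 / (n : ℝ) ^ 16)) *
      mass (ind (· ∈ c.F)) + mass (fun C => (5 * (c.a : ℝ) / n) * (if k < C.card then
        ∑ x ∈ C, ind (c.cen x) C * ((((n : ℝ) - k) / C.card) * avD k c.H (C.erase x)) else 0)) := by
    unfold X
    refine (mass_mono key).trans (le_of_eq ?_)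
    rw [mass_add, mass_const_mul]
  have h2 : (1000 * ((c.a : ℝ) / n) * c.p + 2 * (c.a : ℝ) * (1 / (n : ℝ) ^ 16)) *
      mass (ind (· ∈ c.F)) ≤ 10 ^ 4 * ((c.a : ℝ) * c.R / (n : ℝ) ^ 2) := by
    have hm := c.mass_F_le
    have h3 : (1 : ℝ) / (n : ℝ) ^ 16 ≤ 1 / (n : ℝ) ^ 2 := by
      apply one_div_le_one_div_of_le (by positivity)
      apply pow_le_pow_right₀ _ (by norm_num)
      exact_mod_cast c.n_pos
    have hR : (1 : ℝ) ≤ c.R := by
      have : 1 ≤ c.R := by have := c.R_large; have := c.a_large; omega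
      exact_mod_cast this
    calc (1000 * ((c.a : ℝ) / n) * c.p + 2 * (c.a : ℝ) * (1 / (n : ℝ) ^ 16)) *
        mass (ind (· ∈ c.F))
        ≤ (1000 * ((c.a : ℝ) / n) * c.p + 2 * (c.a : ℝ) * (1 / (n : ℝ) ^ 16)) * (11 / 10) := by
          gcongr
      _ ≤ (1000 * ((c.a : ℝ) / n) * c.p + 2 * (c.a : ℝ) * (1 / (n : ℝ) ^ 2)) * (11 / 10) := by
          gcongr
      _ = (5500 * ((c.a : ℝ) * c.R) + 22 / 10 * (c.a : ℝ)) / (n : ℝ) ^ 2 := by
          rw [hp]; field_simp; ring
      _ ≤ (10 ^ 4 * ((c.a : ℝ) * c.R)) / (n : ℝ) ^ 2 := by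
          gcongr
          have : (c.a : ℝ) * 1 ≤ (c.a : ℝ) * c.R := by gcongr
          linarith
      _ = 10 ^ 4 * ((c.a : ℝ) * c.R / (n : ℝ) ^ 2) := by rw [mul_div_assoc]
  linarith

theorem E_kh_le {k : ℕ} (hk : c.inI k) : E k c.kh ≤ 2 := by
  have hb := c.inI_bounds hk
  have hkn : k < n := by omega
  have hn : (0 : ℝ) < n := c.nR_pos
  have e1 : E k c.kh = E k (fun W => (fun _ => (1 : ℝ)) W * c.kh W) := by
    refine E_congr fun W _ => ?_
    simp
  rw [e1, c.E_mul_kh hkn]
  have key : ∀ C : Finset (Fin n), (if k < C.card then ∑ x ∈ C, ind (c.cen x) C *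
      ((((n : ℝ) - k) / C.card) * avD k (fun _ => (1 : ℝ)) (C.erase x)) else 0) ≤
      (11 / 10) * ind (· ∈ c.F) C := by
    intro C
    split_ifs with hkC
    · have hk49 : (49 / 100 : ℝ) * n ≤ k := c.size_ge (by omega)
      have hC49 : (49 / 100 : ℝ) * n ≤ C.card := c.size_ge (by omega)
      have hCpos : (0 : ℝ) < (C.card : ℝ) := by
        have : 0 < C.card := by omega
        exact_mod_cast this
      have hratio : ((n : ℝ) - k) / C.card ≤ 11 / 10 := by
        rw [div_le_iff₀ hCpos]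
        linarith
      have hr0 : 0 ≤ ((n : ℝ) - k) / C.card := by
        have : (k : ℝ) ≤ n := by exact_mod_cast hkn.le
        exact div_nonneg (by linarith) hCpos.le
      calc ∑ x ∈ C, ind (c.cen x) C *
            ((((n : ℝ) - k) / C.card) * avD k (fun _ => (1 : ℝ)) (C.erase x))
          ≤ ∑ x ∈ C, ind (c.cen x) C * (11 / 10) := by
            refine sum_le_sum fun x hx => ?_
            refine mul_le_mul_of_nonneg_left ?_ (ind_nonneg _ _)
            have hav : avD k (fun _ => (1 : ℝ)) (C.erase x) = 1 := by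
              unfold avD
              rw [sum_const, card_powersetCard, nsmul_eq_mul, mul_one]
              refine div_self (ne_of_gt ?_)
              have : k ≤ (C.erase x).card := by rw [card_erase_of_mem hx]; omega
              exact_mod_cast Nat.choose_pos this
            rw [hav, mul_one]
            exact hratio
        _ = (11 / 10) * ∑ x ∈ C, ind (c.cen x) C := by rw [← sum_mul, mul_comm]
        _ ≤ (11 / 10) * ind (· ∈ c.F) C := by
            gcongr
            exact c.Pos_sum_cen_le C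
    · have := ind_nonneg (· ∈ c.F) C
      positivity
  calc _ ≤ mass (fun C => (11 / 10) * ind (· ∈ c.F) C) := mass_mono key
    _ = (11 / 10) * mass (ind (· ∈ c.F)) := mass_const_mul _ _
    _ ≤ (11 / 10) * (11 / 10) := by
        gcongr
        exact c.mass_F_le
    _ ≤ 2 := by norm_num

theorem E_light_kh {k : ℕ} (hk : c.inI k) :
    E k (fun W => ind (fun W => ¬ c.heavy W) W * (c.H W * c.kh W)) ≤ 100 * c.p := by
  have hb := c.inI_bounds hk
  have hp0 := c.p_pos
  have hp1 := c.p_small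
  have key : ∀ W : Finset (Fin n), W.card = k →
      ind (fun W => ¬ c.heavy W) W * (c.H W * c.kh W) ≤ (50 * c.p) * c.kh W := by
    intro W hW
    have hkh := c.Pos_kh_nonneg W
    by_cases hh : c.heavy W
    · rw [ind_of_not (P := fun W => ¬ c.heavy W) (not_not.2 hh), zero_mul]
      positivity
    · rw [ind_of (P := fun W => ¬ c.heavy W) hh, one_mul]
      refine mul_le_mul_of_nonneg_right ?_ hkh
      have h1 := c.H_le_δ (S := W) (by omega)
      have h2 : c.δ ∅ W ≤ 44 * c.p := by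
        have : ¬ (44 * c.p ≤ c.δ ∅ W) := hh
        linarith
      have h3 : 1 + 2 * c.p ≤ 11 / 10 := by linarith [show (1 : ℝ) / 10 ^ 20 ≤ 1 / 20 by norm_num]
      have h0 : 0 ≤ c.δ ∅ W := c.δ_nonneg ∅ W
      calc c.H W ≤ (1 + 2 * c.p) * c.δ ∅ W := h1
        _ ≤ (11 / 10) * (44 * c.p) := by gcongr
        _ ≤ 50 * c.p := by linarith
  calc _ ≤ E k (fun W => (50 * c.p) * c.kh W) := E_mono key
    _ = (50 * c.p) * E k c.kh := E_const_mul _ _
    _ ≤ (50 * c.p) * 2 := by
        gcongr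
        exact c.E_kh_le hk
    _ = 100 * c.p := by ring

theorem E_H {k : ℕ} (hk : c.inI k) : E k c.H = c.γ := by
  have hb := c.inI_bounds hk
  unfold H γ
  refine E_Dn (by omega) ?_
  intro C hC
  refine ind_of_not fun hG => ?_
  have h1 := hG.2.2
  have h2 := hk.1
  have h3 := c.a_large
  omega

end Ctx
end Kleitman
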