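import Pool.Agent.Kleitman.KK
import Pool.Agent.Helper92.Kle.LemmaB

/-! # Module C: intersecting families without popular element (shifting + Kruskal-Katona) -/

set_option autoImplicit false

open Finset

namespace Kleitman

/-- Abstract Lemma B. An intersecting family `𝒰` of `m`-subsets of `Fin g` all of whose degrees are at most
`D0 * binom(g-1,m-1)` has at most `(2 D0 (m/g) + 30 (m/g)^2) binom(g,m)` members. -/
theorem lemmaB_abstract {g m : ℕ} (hm : 1 ≤ m) (hmg : 100 * m ≤ g)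
    (𝒰 : Finset (Finset (Fin g))) (hsz : ∀ E ∈ 𝒰, E.card = m)
    (hint : ∀ E ∈ 𝒰, ∀ E' ∈ 𝒰, ¬ Disjoint E E') (D0 : ℝ) (hD0 : 3 * (m : ℝ) / g ≤ D0)
    (hdeg : ∀ x, ((𝒰.filter (fun E => x ∈ E)).card : ℝ) ≤ D0 * ((g - 1).choose (m - 1) : ℝ)) :
    (𝒰.card : ℝ) ≤ (2 * D0 * ((m : ℝ) / g) + 30 * ((m : ℝ) / g) ^ 2) * (g.choose m : ℝ) := by
  refine Pool.Agent.Helper92.Kle.lemmaB hmg D0 hD0 𝒰 hsz ?_ hdeg
  intro E hE F hF
  have := hint E hE F hF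
  rw [Finset.not_disjoint_iff] at this
  exact this

/-- the same for a ground set `X : Finset (Fin n)` -/
theorem lemmaB_on {n m : ℕ} {X : Finset (Fin n)} (hm : 1 ≤ m) (hmg : 100 * m ≤ X.card)
    (𝒰 : Finset (Finset (Fin n))) (hX : ∀ E ∈ 𝒰, E ⊆ X) (hsz : ∀ E ∈ 𝒰, E.card = m)
    (hint : ∀ E ∈ 𝒰, ∀ E' ∈ 𝒰, ¬ Disjoint E E') (D0 : ℝ) (hD0 : 3 * (m : ℝ) / X.card ≤ D0)
    (hdeg : ∀ x ∈ X, ((𝒰.filter (fun E => x ∈ E)).card : ℝ) ≤
      D0 * ((X.card - 1).choose (m - 1) : ℝ)) :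
    (𝒰.card : ℝ) ≤ (2 * D0 * ((m : ℝ) / X.card) + 30 * ((m : ℝ) / X.card) ^ 2) *
      (X.card.choose m : ℝ) := by
  refine Pool.Agent.Helper92.Kle.lemmaB_set X hmg D0 hD0 𝒰 (fun E hE => ⟨hX E hE, hsz E hE⟩) ?_ hdeg
  intro E hE F hF
  have := hint E hE F hF
  rw [Finset.not_disjoint_iff] at this
  exact this

end Kleitman
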